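import Pool.Agent.H374e.Defs

open MeasureTheory ProbabilityTheory Filter Topology
open scoped ENNReal NNReal InnerProductSpace

set_option linter.unusedVariables false
set_option warn.classDefReducibility false

namespace TwoSidedCLT

theorem dco_zero : dco 0 = 1 := by simp [dco]

theorem dco_pos (k : ℕ) : 0 < dco k := by
  unfold dco
  have : (0 : ℝ) < (Nat.centralBinom k : ℝ) := by exact_mod_cast Nat.centralBinom_pos k
  positivity

theorem b1a_dco_succ (k : ℕ) : (2 * (k : ℝ) + 2) * dco (k + 1) = (2 * k + 1) * dco k := by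
  unfold dco
  have h := Nat.succ_mul_centralBinom_succ k
  have h' : ((k : ℝ) + 1) * (Nat.centralBinom (k + 1) : ℝ)
      = 2 * (2 * k + 1) * (Nat.centralBinom k : ℝ) := by exact_mod_cast h
  have h4 : (4 : ℝ) ^ (k + 1) = 4 * 4 ^ k := by ring
  rw [h4]
  have h4' : (4 : ℝ) ^ k ≠ 0 := by positivity
  field_simp
  linarith

theorem dco_succ_le (k : ℕ) : dco (k + 1) ≤ dco k := by
  have h := b1a_dco_succ k
  have h0 := dco_pos k
  have hk : (0 : ℝ) ≤ k := Nat.cast_nonneg k
  by_contra hc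
  push Not at hc
  nlinarith

theorem sqrtCoeff_succ (k : ℕ) : sqrtCoeff (k + 1) = dco k - dco (k + 1) := by
  have h := b1a_dco_succ k
  have h1 : sqrtCoeff (k + 1) = dco (k + 1) / (2 * (k : ℝ) + 1) := by
    unfold sqrtCoeff dco
    push_cast
    have hk : (2 * ((k : ℝ) + 1) - 1) = 2 * k + 1 := by ring
    rw [hk]
    have : (2 * (k : ℝ) + 1) ≠ 0 := by positivity
    field_simp
  rw [h1]
  have : (2 * (k : ℝ) + 1) ≠ 0 := by positivity
  field_simp
  linarith

theorem b1a_sq (k : ℕ) : dco k ^ 2 * (2 * (k : ℝ) + 1) ≤ 1 := by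
  induction k with
  | zero => simp [dco_zero]
  | succ k ih =>
    have h := b1a_dco_succ k
    have hp : (0 : ℝ) < (2 * (k : ℝ) + 2) := by positivity
    have e : dco (k + 1) = (2 * k + 1) * dco k / (2 * (k : ℝ) + 2) := by
      field_simp
      linarith
    rw [e]
    push_cast
    rw [div_pow, div_mul_eq_mul_div, div_le_one (by positivity)]
    have h0 := dco_pos k
    have hk : (0 : ℝ) ≤ k := Nat.cast_nonneg k
    have h2 : ((2 * (k : ℝ) + 1) * dco k) ^ 2 * (2 * (k + 1) + 1)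
        = (dco k ^ 2 * (2 * (k : ℝ) + 1)) * ((2 * k + 1) * (2 * (k + 1) + 1)) := by ring
    rw [h2]
    calc (dco k ^ 2 * (2 * (k : ℝ) + 1)) * ((2 * k + 1) * (2 * (k + 1) + 1))
        ≤ 1 * ((2 * k + 1) * (2 * (k + 1) + 1)) := by gcongr
      _ ≤ (2 * (k : ℝ) + 2) ^ 2 := by nlinarith

theorem dco_le (k : ℕ) : dco k ≤ 1 / √(2 * (k : ℝ) + 1) := by
  have h := b1a_sq k
  have h0 := dco_pos k
  have hp : (0 : ℝ) < 2 * (k : ℝ) + 1 := by positivity
  have hs : 0 < √(2 * (k : ℝ) + 1) := Real.sqrt_pos.mpr hp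
  rw [le_div_iff₀ hs]
  have : (dco k * √(2 * (k : ℝ) + 1)) ^ 2 ≤ 1 := by
    rw [mul_pow, Real.sq_sqrt hp.le]; exact h
  nlinarith [mul_pos h0 hs]

theorem sum_dco_le (n : ℕ) : ∑ k ∈ Finset.range n, dco k ≤ 2 * √(n : ℝ) := by
  induction n with
  | zero => simp
  | succ n ih =>
    rw [Finset.sum_range_succ]
    have h := dco_le n
    have hn : (0 : ℝ) ≤ n := Nat.cast_nonneg n
    set a := √(n : ℝ) with ha
    set b := √((n + 1 : ℕ) : ℝ) with hb
    have ha2 : a ^ 2 = n := Real.sq_sqrt hn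
    have hb2 : b ^ 2 = n + 1 := by rw [hb, Real.sq_sqrt (by positivity)]; push_cast; ring
    have ha0 : 0 ≤ a := Real.sqrt_nonneg _
    have hb0 : 0 < b := Real.sqrt_pos.mpr (by positivity)
    have key : 1 / √(2 * (n : ℝ) + 1) ≤ 2 * (b - a) := by
      have hs : 0 < √(2 * (n : ℝ) + 1) := Real.sqrt_pos.mpr (by positivity)
      have hs2 : √(2 * (n : ℝ) + 1) ^ 2 = 2 * n + 1 := Real.sq_sqrt (by positivity)
      set s := √(2 * (n : ℝ) + 1)
      -- (b - a) (b + a) = 1, and (a+b)^2 ≤ 2(a^2+b^2) = 2 s^2 ; so b + a ≤ √2 s ≤ 2 s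
      have h1 : (b - a) * (b + a) = 1 := by nlinarith
      have h2 : b + a ≤ 2 * s := by
        have : (b + a) ^ 2 ≤ (2 * s) ^ 2 := by nlinarith [sq_nonneg (b - a)]
        exact (abs_le_of_sq_le_sq' this (by positivity)).2
      rw [div_le_iff₀ hs]
      have hba : 0 ≤ b - a := by
        by_contra hneg
        push Not at hneg
        nlinarith
      nlinarith
    linarith

end TwoSidedCLT
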