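import Pool.Agent.H374e.Defs
import Pool.Agent.H374e.CB1a

open MeasureTheory ProbabilityTheory Filter Topology
open scoped ENNReal NNReal InnerProductSpace

set_option linter.unusedVariables false
set_option warn.classDefReducibility false

namespace TwoSidedCLT

theorem b2a_antitone : Antitone dco := antitone_nat_of_succ_le dco_succ_le

theorem b2a_tendsto : Tendsto dco atTop (𝓝 0) := by
  have h1 : Tendsto (fun k : ℕ => 1 / √(2 * (k : ℝ) + 1)) atTop (𝓝 0) := by
    simp_rw [one_div]
    apply Tendsto.inv_tendsto_atTop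
    apply Real.tendsto_sqrt_atTop.comp
    apply tendsto_atTop_add_const_right
    exact tendsto_natCast_atTop_atTop.const_mul_atTop (by norm_num)
  exact squeeze_zero (fun k => (dco_pos k).le) dco_le h1

theorem b2a_tel (n J : ℕ) : ∑ j ∈ Finset.range J, (dco j - dco (j + n)) =
    ∑ k ∈ Finset.range n, dco k - ∑ i ∈ Finset.range n, dco (J + i) := by
  have h1 := Finset.sum_range_add dco J n
  have h2 := Finset.sum_range_add dco n J
  rw [add_comm n J] at h2
  rw [Finset.sum_sub_distrib]
  have h3 : ∑ x ∈ Finset.range J, dco (x + n) = ∑ x ∈ Finset.range J, dco (n + x) := by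
    refine Finset.sum_congr rfl fun x _ => ?_
    rw [add_comm]
  rw [h3]
  linarith

theorem b2a_hasSum (n : ℕ) : HasSum (fun j => dco j - dco (j + n))
    (∑ k ∈ Finset.range n, dco k) := by
  rw [hasSum_iff_tendsto_nat_of_nonneg]
  · simp_rw [b2a_tel]
    have h1 : Tendsto (fun J => ∑ i ∈ Finset.range n, dco (J + i)) atTop
        (𝓝 (∑ i ∈ Finset.range n, (0 : ℝ))) :=
      tendsto_finsetSum _ fun i _ => b2a_tendsto.comp (tendsto_add_atTop_nat i)
    rw [Finset.sum_const_zero] at h1
    simpa using tendsto_const_nhds.sub h1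
  · intro j
    exact sub_nonneg.2 (b2a_antitone (by omega))

theorem b2a_lt {n k : ℕ} (h : k < n) : cker n k = dco k := by
  rw [cker, if_neg (by omega), sub_zero]

theorem b2a_ge (n j : ℕ) : cker n (j + n) = -(dco j - dco (j + n)) := by
  rw [cker, if_pos (by omega), Nat.add_sub_cancel]
  ring

theorem b2a_hasSum_cker (n : ℕ) : HasSum (cker n) 0 := by
  rw [← hasSum_nat_add_iff' n]
  have h1 : ∑ k ∈ Finset.range n, cker n k = ∑ k ∈ Finset.range n, dco k :=
    Finset.sum_congr rfl fun k hk => b2a_lt (Finset.mem_range.1 hk)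
  simp_rw [b2a_ge]
  rw [h1, zero_sub]
  exact (b2a_hasSum n).neg

theorem b2a_hasSum_abs (n : ℕ) : HasSum (fun k => |cker n k|)
    (2 * ∑ k ∈ Finset.range n, dco k) := by
  rw [← hasSum_nat_add_iff' n]
  have h1 : ∑ k ∈ Finset.range n, |cker n k| = ∑ k ∈ Finset.range n, dco k :=
    Finset.sum_congr rfl fun k hk => by
      rw [b2a_lt (Finset.mem_range.1 hk), abs_of_pos (dco_pos k)]
  have h2 : ∀ j, |cker n (j + n)| = dco j - dco (j + n) := by
    intro j
    rw [b2a_ge, abs_neg, abs_of_nonneg (sub_nonneg.2 (b2a_antitone (by omega)))]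
  simp_rw [h2]
  rw [h1]
  have h3 : 2 * ∑ k ∈ Finset.range n, dco k - ∑ k ∈ Finset.range n, dco k =
    ∑ k ∈ Finset.range n, dco k := by ring
  rw [h3]
  exact b2a_hasSum n

theorem summable_abs_cker (n : ℕ) : Summable fun k => |cker n k| := (b2a_hasSum_abs n).summable

theorem tsum_abs_cker_le (n : ℕ) : ∑' k, |cker n k| ≤ 4 * √(n : ℝ) := by
  rw [(b2a_hasSum_abs n).tsum_eq]
  linarith [sum_dco_le n]

theorem tsum_cker (n : ℕ) : ∑' k, cker n k = 0 := (b2a_hasSum_cker n).tsum_eq

end TwoSidedCLT
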