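import Pool.Agent.H374e.Defs
import Pool.Agent.H374e.CB1a
import Pool.Agent.H374e.CB2a

open MeasureTheory ProbabilityTheory Filter Topology
open scoped ENNReal NNReal InnerProductSpace

set_option linter.unusedVariables false
set_option warn.classDefReducibility false

namespace TwoSidedCLT

section hilb3a

variable {H : Type*} [NormedAddCommGroup H] [InnerProductSpace ℝ H] [CompleteSpace H]

theorem b3a_pow_le (T : H →L[ℝ] H) (hT : ‖T‖ ≤ 1) (g : H) (k : ℕ) : ‖(T ^ k) g‖ ≤ ‖g‖ := by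
  induction k with
  | zero => simp
  | succ k ih =>
    rw [pow_succ', ContinuousLinearMap.mul_apply]
    calc ‖T ((T ^ k) g)‖ ≤ ‖T‖ * ‖(T ^ k) g‖ := T.le_opNorm _
      _ ≤ 1 * ‖g‖ := mul_le_mul hT ih (norm_nonneg _) (by norm_num)
      _ = ‖g‖ := one_mul _

theorem b3a_norm_le (T : H →L[ℝ] H) (hT : ‖T‖ ≤ 1) (g : H) (c : ℝ) (k : ℕ) : ‖c • (T ^ k) g‖ ≤ |c| * ‖g‖ := by
  rw [norm_smul, Real.norm_eq_abs]
  exact mul_le_mul_of_nonneg_left (b3a_pow_le T hT g k) (abs_nonneg _)

theorem summable_Mg (T : H →L[ℝ] H) (hT : ‖T‖ ≤ 1) (g : H) (n : ℕ) :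
    Summable fun k : ℕ => cker n k • (T ^ k) g :=
  Summable.of_norm_bounded ((summable_abs_cker n).mul_right ‖g‖) (fun k => b3a_norm_le T hT g _ k)

theorem Mg_norm_le (T : H →L[ℝ] H) (hT : ‖T‖ ≤ 1) (g : H) (n : ℕ) :
    ‖Mg T g n‖ ≤ 4 * √(n : ℝ) * ‖g‖ := by
  unfold Mg
  have hs := (summable_abs_cker n).mul_right ‖g‖
  have h1 : ‖∑' k : ℕ, cker n k • (T ^ k) g‖ ≤ ∑' k : ℕ, |cker n k| * ‖g‖ :=
    tsum_of_norm_bounded hs.hasSum (fun k => b3a_norm_le T hT g _ k)
  rw [tsum_mul_right] at h1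
  exact h1.trans (mul_le_mul_of_nonneg_right (tsum_abs_cker_le n) (norm_nonneg _))

theorem b3a_coeff_nonneg (m : ℕ) : 0 ≤ sqrtCoeff (m + 1) := by
  rw [sqrtCoeff_succ]
  linarith [dco_succ_le m]

theorem b3a_summable_coeff : Summable fun m : ℕ => sqrtCoeff (m + 1) := by
  apply summable_of_sum_range_le (c := 1) b3a_coeff_nonneg
  intro n
  have h : ∀ n, ∑ i ∈ Finset.range n, sqrtCoeff (i + 1) = dco 0 - dco n := by
    intro n
    induction n with
    | zero => simp
    | succ n ih => rw [Finset.sum_range_succ, ih, sqrtCoeff_succ]; ring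
  rw [h, dco_zero]
  linarith [dco_pos n]

theorem b3a_summable_op (T : H →L[ℝ] H) (hT : ‖T‖ ≤ 1) : Summable fun n : ℕ => sqrtCoeff (n + 1) • T ^ (n + 1) := by
  apply Summable.of_norm_bounded b3a_summable_coeff
  intro n
  rw [norm_smul, Real.norm_eq_abs, abs_of_nonneg (b3a_coeff_nonneg n)]
  have h1 : ‖T ^ (n + 1)‖ ≤ 1 := by
    apply ContinuousLinearMap.opNorm_le_bound _ (by norm_num)
    intro x
    rw [one_mul]
    exact b3a_pow_le T hT x (n + 1)
  calc _ ≤ sqrtCoeff (n + 1) * 1 := mul_le_mul_of_nonneg_left h1 (b3a_coeff_nonneg n)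
    _ = _ := mul_one _

theorem b3a_pow_sqrtOp (T : H →L[ℝ] H) (hT : ‖T‖ ≤ 1) (g : H) (n : ℕ) :
    (T ^ n) (sqrtOp T g) = (T ^ n) g - ∑' m : ℕ, sqrtCoeff (m + 1) • (T ^ (m + (n + 1))) g := by
  unfold sqrtOp
  rw [ContinuousLinearMap.sub_apply, map_sub, ContinuousLinearMap.one_apply]
  congr 1
  have h1 : (∑' n : ℕ, sqrtCoeff (n + 1) • T ^ (n + 1)) g = ∑' n : ℕ, (sqrtCoeff (n + 1) • T ^ (n + 1)) g := by
    have := ContinuousLinearMap.map_tsum (ContinuousLinearMap.apply ℝ H g) (b3a_summable_op T hT)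
    simpa using this
  have h2 : Summable fun m : ℕ => (sqrtCoeff (m + 1) • T ^ (m + 1)) g := by
    have := (ContinuousLinearMap.apply ℝ H g).summable (b3a_summable_op T hT)
    simpa using this
  rw [h1, ContinuousLinearMap.map_tsum _ h2]
  apply tsum_congr
  intro m
  rw [ContinuousLinearMap.smul_apply, map_smul, ← ContinuousLinearMap.mul_apply, ← pow_add]
  congr 3
  omega

theorem Mn_sqrtOp (T : H →L[ℝ] H) (hT : ‖T‖ ≤ 1) (g : H) (n : ℕ) :
    Mn T (sqrtOp T g) n = Mg T g n := by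
  induction n with
  | zero =>
    unfold Mn Mg cker
    simp
  | succ n ih =>
    have h0 : Mn T (sqrtOp T g) (n + 1) = Mn T (sqrtOp T g) n + (T ^ n) (sqrtOp T g) := by
      unfold Mn
      rw [Finset.sum_range_succ]
    rw [h0, ih, b3a_pow_sqrtOp T hT]
    have h1 : Mg T g (n + 1) - Mg T g n = ∑' k : ℕ, (cker (n + 1) k - cker n k) • (T ^ k) g := by
      unfold Mg
      rw [← (summable_Mg T hT g (n + 1)).tsum_sub (summable_Mg T hT g n)]
      apply tsum_congr
      intro k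
      rw [sub_smul]
    have hs : Summable fun k : ℕ => (cker (n + 1) k - cker n k) • (T ^ k) g := by
      have := (summable_Mg T hT g (n + 1)).sub (summable_Mg T hT g n)
      apply this.congr
      intro k
      rw [sub_smul]
    have h2 : ∀ k < n, (cker (n + 1) k - cker n k) • (T ^ k) g = 0 := by
      intro k hk
      unfold cker
      rw [if_neg (by omega), if_neg (by omega), sub_self, zero_smul]
    have h3 : (cker (n + 1) n - cker n n) • (T ^ n) g = (T ^ n) g := by
      unfold cker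
      rw [if_neg (by omega), if_pos le_rfl, Nat.sub_self, dco_zero]
      simp
    have h4 : ∀ m : ℕ, (cker (n + 1) (m + (n + 1)) - cker n (m + (n + 1))) • (T ^ (m + (n + 1))) g =
        -(sqrtCoeff (m + 1) • (T ^ (m + (n + 1))) g) := by
      intro m
      unfold cker
      rw [if_pos (by omega), if_pos (by omega), show m + (n + 1) - (n + 1) = m by omega,
        show m + (n + 1) - n = m + 1 by omega, sqrtCoeff_succ, ← neg_smul]
      congr 1
      ring
    have h5 := hs.sum_add_tsum_nat_add (n + 1)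
    rw [Finset.sum_range_succ, Finset.sum_eq_zero (fun k hk => h2 k (Finset.mem_range.1 hk)), zero_add, h3,
      tsum_congr h4, tsum_neg] at h5
    rw [← h1] at h5
    rw [← sub_eq_add_neg] at h5
    rw [h5]
    abel

end hilb3a

end TwoSidedCLT
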