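import Pool.Agent.H374e.Defs

open MeasureTheory ProbabilityTheory Filter Topology
open scoped ENNReal NNReal InnerProductSpace

set_option linter.unusedVariables false
set_option warn.classDefReducibility false

namespace TwoSidedCLT

section pathB6a

variable {Ω S : Type*} [mΩ : MeasurableSpace Ω] [mS : MeasurableSpace S]
  {P : Measure Ω} [IsProbabilityMeasure P] {π : Measure S} {ξ : ℕ → Ω → S}
  {T : Lp ℝ 2 π →L[ℝ] Lp ℝ 2 π}

theorem Setup.prob (h : Setup P π ξ T) : IsProbabilityMeasure π := by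
  rw [← h.law 0]
  exact Measure.isProbabilityMeasure_map (h.meas 0).aemeasurable

theorem pres_le (h : Setup P π ξ T) (s : ℕ) : pres ξ s ≤ mΩ := (h.meas s).comap_le

/-- transfer of integrals to `π` -/
theorem integral_law (h : Setup P π ξ T) (s : ℕ) (φ : S → ℝ) (hφ : AEStronglyMeasurable φ π) :
    ∫ ω, φ (ξ s ω) ∂P = ∫ x, φ x ∂π := by
  rw [← h.law s] at hφ ⊢
  exact (integral_map (h.meas s).aemeasurable hφ).symm

theorem b6a_mp (h : Setup P π ξ T) (s : ℕ) : MeasurePreserving (ξ s) P π := ⟨h.meas s, h.law s⟩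

theorem Setup.norm_le (h : Setup P π ξ T) : ‖T‖ ≤ 1 := by
  refine ContinuousLinearMap.opNorm_le_bound _ zero_le_one fun u => ?_
  rw [one_mul, Lp.norm_def, Lp.norm_def]
  refine ENNReal.toReal_mono (Lp.eLpNorm_ne_top u) ?_
  have h1 : eLpNorm ((T u : S → ℝ) ∘ ξ 0) 2 P = eLpNorm (T u) 2 π :=
    eLpNorm_comp_measurePreserving (Lp.aestronglyMeasurable _) (b6a_mp h 0)
  have h2 : eLpNorm ((u : S → ℝ) ∘ ξ 1) 2 P = eLpNorm u 2 π :=
    eLpNorm_comp_measurePreserving (Lp.aestronglyMeasurable _) (b6a_mp h 1)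
  have h3 : eLpNorm (P[fun ω => u (ξ (0 + 1) ω) | pres ξ 0]) 2 P
      = eLpNorm ((T u : S → ℝ) ∘ ξ 0) 2 P := eLpNorm_congr_ae (h.op 0 u)
  rw [← h1, ← h2, ← h3]
  exact eLpNorm_condExp_le_eLpNorm _ (by norm_num)

/-- `T` is a contraction of `L^∞` -/
theorem Setup.sup_le (h : Setup P π ξ T) (u : Lp ℝ 2 π) (K : ℝ) (hK : ∀ᵐ x ∂π, |u x| ≤ K) :
    ∀ᵐ x ∂π, |T u x| ≤ K := by
  have h1 : ∀ᵐ ω ∂P, |u (ξ (0 + 1) ω)| ≤ K := (b6a_mp h 1).quasiMeasurePreserving.ae hK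
  have h2 : ∀ᵐ ω ∂P, |(P[fun ω => u (ξ (0 + 1) ω) | pres ξ 0]) ω| ≤ K :=
    ae_bdd_abs_condExp_of_ae_bdd_abs h1
  have h3 : ∀ᵐ ω ∂P, |T u (ξ 0 ω)| ≤ K := by
    filter_upwards [h2, h.op 0 u] with ω ha hb
    rw [← hb]; exact ha
  obtain ⟨A, hA⟩ : ∃ A : Set S, A = {x | |T u x| ≤ K} := ⟨_, rfl⟩
  have hAm : MeasurableSet A := by
    rw [hA]
    exact measurableSet_le (Lp.stronglyMeasurable (T u)).measurable.abs measurable_const
  have h3' : ∀ᵐ ω ∂P, ξ 0 ω ∈ A := by rw [hA]; exact h3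
  have h4 : ∀ᵐ x ∂(P.map (ξ 0)), x ∈ A := (ae_map_iff (h.meas 0).aemeasurable hAm).2 h3'
  rw [h.law 0] at h4
  rw [hA] at h4
  exact h4

/-- `T` is a contraction of `L^1` -/
theorem Setup.L1_le (h : Setup P π ξ T) (u : Lp ℝ 2 π) :
    ∫ x, |T u x| ∂π ≤ ∫ x, |u x| ∂π := by
  have h1 : ∫ ω, |T u (ξ 0 ω)| ∂P = ∫ x, |T u x| ∂π :=
    integral_law h 0 (fun x => |T u x|) (Lp.aestronglyMeasurable (T u)).norm
  have h2 : ∫ ω, |u (ξ 1 ω)| ∂P = ∫ x, |u x| ∂π :=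
    integral_law h 1 (fun x => |u x|) (Lp.aestronglyMeasurable u).norm
  have h3 : ∫ ω, |T u (ξ 0 ω)| ∂P = ∫ ω, |(P[fun ω => u (ξ (0 + 1) ω) | pres ξ 0]) ω| ∂P := by
    apply integral_congr_ae
    filter_upwards [h.op 0 u] with ω hb
    rw [hb]
  rw [← h1, ← h2, h3]
  exact integral_abs_condExp_le _

end pathB6a

end TwoSidedCLT
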