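import Pool.Agent.H374e.Defs
import Pool.Agent.H374e.CB2a
import Pool.Agent.H374e.CB3a
import Pool.Agent.H374e.CB6a

open MeasureTheory ProbabilityTheory Filter Topology
open scoped ENNReal NNReal InnerProductSpace

set_option linter.unusedVariables false
set_option warn.classDefReducibility false

namespace TwoSidedCLT

section pathA1a

variable {Ω S : Type*} [mΩ : MeasurableSpace Ω] [mS : MeasurableSpace S]
  {P : Measure Ω} [IsProbabilityMeasure P] {π : Measure S} {ξ : ℕ → Ω → S}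
  {T : Lp ℝ 2 π →L[ℝ] Lp ℝ 2 π}

theorem a1a_pow_bdd (h : Setup P π ξ T) (u : Lp ℝ 2 π) (K : ℝ) (hK : ∀ᵐ x ∂π, |u x| ≤ K) (k : ℕ) :
    ∀ᵐ x ∂π, |((T ^ k) u : Lp ℝ 2 π) x| ≤ K := by
  induction k with
  | zero => simpa using hK
  | succ k ih =>
    have e : (T ^ (k + 1)) u = T ((T ^ k) u) := by rw [pow_succ']; rfl
    rw [e]
    exact h.sup_le _ K ih

theorem a1a_pow_L1 (h : Setup P π ξ T) (u : Lp ℝ 2 π) (k : ℕ) :
    ∫ x, |((T ^ k) u : Lp ℝ 2 π) x| ∂π ≤ ∫ x, |u x| ∂π := by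
  induction k with
  | zero => simp
  | succ k ih =>
    have e : (T ^ (k + 1)) u = T ((T ^ k) u) := by rw [pow_succ']; rfl
    rw [e]
    exact (h.L1_le _).trans ih

theorem a1a_sum_coe (u : ℕ → Lp ℝ 2 π) (c : ℕ → ℝ) (m : ℕ) :
    ∀ᵐ x ∂π, ((∑ k ∈ Finset.range m, c k • u k : Lp ℝ 2 π) : S → ℝ) x =
      ∑ k ∈ Finset.range m, c k * u k x := by
  induction m with
  | zero =>
    simp only [Finset.range_zero, Finset.sum_empty]
    exact Lp.coeFn_zero ℝ 2 π
  | succ m ih =>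
    rw [Finset.sum_range_succ]
    filter_upwards [ih, Lp.coeFn_add (∑ k ∈ Finset.range m, c k • u k) (c m • u m),
      Lp.coeFn_smul (c m) (u m)] with x h1 h2 h3
    rw [h2, Pi.add_apply, h1, h3, Pi.smul_apply, smul_eq_mul, Finset.sum_range_succ]

theorem a1a_cker_sum (n m : ℕ) : ∑ k ∈ Finset.range m, |cker n k| ≤ 4 * √(n : ℝ) :=
  ((summable_abs_cker n).sum_le_tsum _ (fun _ _ => abs_nonneg _)).trans (tsum_abs_cker_le n)

theorem a1a_tendsto (h : Setup P π ξ T) (u : Lp ℝ 2 π) (n : ℕ) :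
    Tendsto (fun m => (∑ k ∈ Finset.range m, cker n k • (T ^ k) u : Lp ℝ 2 π)) atTop
      (𝓝 (Mg T u n)) :=
  (summable_Mg T h.norm_le u n).hasSum.tendsto_sum_nat

theorem Mg_bdd (h : Setup P π ξ T) (u : Lp ℝ 2 π) (K : ℝ) (hK : ∀ᵐ x ∂π, |u x| ≤ K) (n : ℕ) :
    ∀ᵐ x ∂π, |Mg T u n x| ≤ 4 * √(n : ℝ) * K := by
  have := h.prob
  have hK0 : 0 ≤ K := by
    obtain ⟨x, hx⟩ := hK.exists
    exact (abs_nonneg _).trans hx
  have h1 : ∀ m, ∀ᵐ x ∂π, |(∑ k ∈ Finset.range m, cker n k • (T ^ k) u : Lp ℝ 2 π) x| ≤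
      4 * √(n : ℝ) * K := by
    intro m
    filter_upwards [a1a_sum_coe (fun k => (T ^ k) u) (cker n) m,
      ae_all_iff.2 (fun k => a1a_pow_bdd h u K hK k)] with x hx1 hx2
    rw [hx1]
    calc |∑ k ∈ Finset.range m, cker n k * ((T ^ k) u : Lp ℝ 2 π) x|
        ≤ ∑ k ∈ Finset.range m, |cker n k * ((T ^ k) u : Lp ℝ 2 π) x| :=
          Finset.abs_sum_le_sum_abs _ _
      _ ≤ ∑ k ∈ Finset.range m, |cker n k| * K := by
          refine Finset.sum_le_sum (fun k _ => ?_)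
          rw [abs_mul]
          exact mul_le_mul_of_nonneg_left (hx2 k) (abs_nonneg _)
      _ = (∑ k ∈ Finset.range m, |cker n k|) * K := by rw [Finset.sum_mul]
      _ ≤ _ := mul_le_mul_of_nonneg_right (a1a_cker_sum n m) hK0
  have h2 := tendstoInMeasure_of_tendsto_Lp (a1a_tendsto h u n)
  obtain ⟨ns, _, hns⟩ := h2.exists_seq_tendsto_ae
  filter_upwards [ae_all_iff.2 h1, hns] with x hx1 hx2
  exact le_of_tendsto' (hx2.abs) (fun m => hx1 (ns m))

theorem a1a_L1_le_norm [IsProbabilityMeasure π] (v : Lp ℝ 2 π) : ∫ x, |v x| ∂π ≤ ‖v‖ := by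
  have hm : AEStronglyMeasurable v π := Lp.aestronglyMeasurable v
  have h1 : ∫ x, |v x| ∂π = (eLpNorm v 1 π).toReal := by
    rw [eLpNorm_one_eq_lintegral_enorm, ← integral_norm_eq_lintegral_enorm hm]
    rfl
  rw [h1, Lp.norm_def]
  exact ENNReal.toReal_mono (Lp.eLpNorm_ne_top v)
    (eLpNorm_le_eLpNorm_of_exponent_le (by norm_num) hm)

theorem a1a_integrable [IsProbabilityMeasure π] (v : Lp ℝ 2 π) : Integrable (fun x => v x) π :=
  (Lp.memLp v).integrable (by norm_num)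

theorem Mg_L1 (h : Setup P π ξ T) (u : Lp ℝ 2 π) (n : ℕ) :
    ∫ x, |Mg T u n x| ∂π ≤ 4 * √(n : ℝ) * ∫ x, |u x| ∂π := by
  have := h.prob
  have hI0 : 0 ≤ ∫ x, |u x| ∂π := integral_nonneg (fun _ => abs_nonneg _)
  have h1 : ∀ m, ∫ x, |(∑ k ∈ Finset.range m, cker n k • (T ^ k) u : Lp ℝ 2 π) x| ∂π ≤
      4 * √(n : ℝ) * ∫ x, |u x| ∂π := by
    intro m
    calc ∫ x, |(∑ k ∈ Finset.range m, cker n k • (T ^ k) u : Lp ℝ 2 π) x| ∂π
        ≤ ∫ x, ∑ k ∈ Finset.range m, |cker n k| * |((T ^ k) u : Lp ℝ 2 π) x| ∂π := by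
          apply integral_mono_ae (a1a_integrable _).abs
          · exact integrable_finsetSum _ (fun k _ => ((a1a_integrable _).abs.const_mul _))
          · filter_upwards [a1a_sum_coe (fun k => (T ^ k) u) (cker n) m] with x hx1
            rw [hx1]
            refine (Finset.abs_sum_le_sum_abs _ _).trans (le_of_eq ?_)
            exact Finset.sum_congr rfl (fun k _ => abs_mul _ _)
      _ = ∑ k ∈ Finset.range m, |cker n k| * ∫ x, |((T ^ k) u : Lp ℝ 2 π) x| ∂π := by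
          rw [integral_finsetSum _ (fun k _ => ((a1a_integrable _).abs.const_mul _))]
          exact Finset.sum_congr rfl (fun k _ => integral_const_mul _ _)
      _ ≤ ∑ k ∈ Finset.range m, |cker n k| * ∫ x, |u x| ∂π :=
          Finset.sum_le_sum (fun k _ => mul_le_mul_of_nonneg_left (a1a_pow_L1 h u k)
            (abs_nonneg _))
      _ = (∑ k ∈ Finset.range m, |cker n k|) * ∫ x, |u x| ∂π := by rw [Finset.sum_mul]
      _ ≤ _ := mul_le_mul_of_nonneg_right (a1a_cker_sum n m) hI0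
  have h2 : ∀ m, ∫ x, |Mg T u n x| ∂π ≤ 4 * √(n : ℝ) * (∫ x, |u x| ∂π) +
      ‖Mg T u n - (∑ k ∈ Finset.range m, cker n k • (T ^ k) u : Lp ℝ 2 π)‖ := by
    intro m
    set v : Lp ℝ 2 π := ∑ k ∈ Finset.range m, cker n k • (T ^ k) u with hv
    have h3 : ∫ x, |Mg T u n x| ∂π ≤ ∫ x, (|v x| + |(Mg T u n - v : Lp ℝ 2 π) x|) ∂π := by
      apply integral_mono_ae (a1a_integrable _).abs
      · exact (a1a_integrable _).abs.add (a1a_integrable _).abs
      · filter_upwards [Lp.coeFn_sub (Mg T u n) v] with x hx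
        rw [hx, Pi.sub_apply]
        have : |Mg T u n x| = |v x + (Mg T u n x - v x)| := by congr 1; ring
        rw [this]
        exact abs_add_le _ _
    rw [integral_add (a1a_integrable _).abs (a1a_integrable _).abs] at h3
    exact h3.trans (add_le_add (h1 m) (a1a_L1_le_norm _))
  have h4 : Tendsto (fun m => 4 * √(n : ℝ) * (∫ x, |u x| ∂π) +
      ‖Mg T u n - (∑ k ∈ Finset.range m, cker n k • (T ^ k) u : Lp ℝ 2 π)‖) atTop
      (𝓝 (4 * √(n : ℝ) * (∫ x, |u x| ∂π) + ‖Mg T u n - Mg T u n‖)) :=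
    tendsto_const_nhds.add ((tendsto_const_nhds.sub (a1a_tendsto h u n)).norm)
  rw [sub_self, norm_zero, add_zero] at h4
  exact ge_of_tendsto' h4 h2

end pathA1a

end TwoSidedCLT
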