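import Pool.Agent.H374e.Defs
import Pool.Agent.H374e.CB1a
import Pool.Agent.H374e.CB2a

open MeasureTheory ProbabilityTheory Filter Topology
open scoped ENNReal NNReal InnerProductSpace

set_option linter.unusedVariables false
set_option warn.classDefReducibility false

namespace TwoSidedCLT

/-- the sequence `dco` on `ℤ` -/
noncomputable def b2b_D (z : ℤ) : ℝ := if 0 ≤ z then dco z.toNat else 0

/-- the kernel on `ℤ` -/
noncomputable def b2b_B (n : ℕ) (z : ℤ) : ℝ := if 0 ≤ z then cker n z.toNat else 0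

theorem b2b_B_eq (n : ℕ) (z : ℤ) : b2b_B n z = b2b_D z - b2b_D (z - n) := by
  unfold b2b_B b2b_D cker
  by_cases hz : 0 ≤ z
  · rw [if_pos hz, if_pos hz]
    by_cases hn : (n : ℤ) ≤ z
    · rw [if_pos (by omega : n ≤ z.toNat), if_pos (by omega : 0 ≤ z - n)]
      congr 2
      omega
    · rw [if_neg (by omega : ¬ n ≤ z.toNat), if_neg (by omega : ¬ 0 ≤ z - n)]
  · rw [if_neg hz, if_neg hz, if_neg (by omega : ¬ 0 ≤ z - n), sub_zero]

theorem b2b_B_sum (n : ℕ) : (Summable fun z : ℤ => |b2b_B n z|) ∧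
    ∑' z : ℤ, |b2b_B n z| ≤ 4 * √(n : ℝ) := by
  have hinj : Function.Injective ((↑) : ℕ → ℤ) := Nat.cast_injective
  have h0 : ∀ z : ℤ, z ∉ Set.range ((↑) : ℕ → ℤ) → |b2b_B n z| = 0 := by
    intro z hz
    have : ¬ 0 ≤ z := fun h => hz ⟨z.toNat, by omega⟩
    unfold b2b_B
    rw [if_neg this, abs_zero]
  have h1 : (fun z : ℤ => |b2b_B n z|) ∘ ((↑) : ℕ → ℤ) = fun k : ℕ => |cker n k| := by
    funext k
    simp only [Function.comp_apply, b2b_B]
    rw [if_pos (by omega), Int.toNat_natCast]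
  constructor
  · rw [← hinj.summable_iff h0, h1]
    exact summable_abs_cker n
  · have h2 : ∑' z : ℤ, |b2b_B n z| = ∑' k : ℕ, |cker n k| := by
      rw [← hinj.tsum_eq (f := fun z : ℤ => |b2b_B n z|) (fun z hz => by
        by_contra h
        exact hz (h0 z h))]
      exact congrArg tsum h1
    rw [h2]
    exact tsum_abs_cker_le n

theorem b2b_D_sum (k : ℕ) : (Summable fun z : ℤ => |b2b_D (z + k) - b2b_D z|) ∧
    ∑' z : ℤ, |b2b_D (z + k) - b2b_D z| ≤ 4 * √(k : ℝ) := by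
  have h1 : (fun z : ℤ => |b2b_D (z + k) - b2b_D z|)
      = (fun z : ℤ => |b2b_B k z|) ∘ (Equiv.addRight (k : ℤ)) := by
    funext z
    simp only [Function.comp_apply, Equiv.coe_addRight, b2b_B_eq]
    rw [add_sub_cancel_right]
  obtain ⟨h2, h3⟩ := b2b_B_sum k
  constructor
  · rw [h1]
    exact (Equiv.summable_iff _).2 h2
  · have h4 : ∑' z : ℤ, |b2b_D (z + k) - b2b_D z| = ∑' z : ℤ, |b2b_B k z| := by
      rw [← Equiv.tsum_eq (Equiv.addRight (k : ℤ)) (fun z : ℤ => |b2b_B k z|)]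
      exact congrArg tsum h1
    rw [h4]
    exact h3

theorem b2b_shift {f : ℤ → ℝ} (hf : Summable f) (c : ℤ) :
    (Summable fun z : ℤ => f (z + c)) ∧ ∑' z : ℤ, f (z + c) = ∑' z : ℤ, f z :=
  ⟨(Equiv.summable_iff (Equiv.addRight c)).2 hf, Equiv.tsum_eq (Equiv.addRight c) f⟩

/-- `ℓ¹` modulus of continuity of the kernel -/
theorem b2b_N (m k : ℕ) : (Summable fun z : ℤ => |b2b_B m (k + z) - b2b_B m z|) ∧
    ∑' z : ℤ, |b2b_B m (k + z) - b2b_B m z| ≤ 8 * √(k : ℝ) ∧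
    ∑' z : ℤ, |b2b_B m (k + z) - b2b_B m z| ≤ 8 * √(m : ℝ) := by
  obtain ⟨hD, hD'⟩ := b2b_D_sum k
  obtain ⟨hB, hB'⟩ := b2b_B_sum m
  obtain ⟨s1, t1⟩ := b2b_shift hB k
  obtain ⟨s2, t2⟩ := b2b_shift hD (-(m : ℤ))
  have hle1 : ∀ z : ℤ, |b2b_B m (k + z) - b2b_B m z| ≤ |b2b_B m (z + k)| + |b2b_B m z| := by
    intro z
    rw [add_comm (k : ℤ) z]
    exact abs_sub _ _
  have hle2 : ∀ z : ℤ, |b2b_B m (k + z) - b2b_B m z|
      ≤ |b2b_D (z + k) - b2b_D z| + |b2b_D (z + -(m : ℤ) + k) - b2b_D (z + -(m : ℤ))| := by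
    intro z
    have : b2b_B m (k + z) - b2b_B m z = (b2b_D (z + k) - b2b_D z)
        - (b2b_D (z + -(m : ℤ) + k) - b2b_D (z + -(m : ℤ))) := by
      rw [b2b_B_eq, b2b_B_eq]
      have e1 : (k : ℤ) + z - m = z + -(m : ℤ) + k := by ring
      have e2 : z - (m : ℤ) = z + -(m : ℤ) := by ring
      have e3 : (k : ℤ) + z = z + k := by ring
      rw [e1, e2, e3]
      ring
    rw [this]
    exact abs_sub _ _
  have hs : Summable fun z : ℤ => |b2b_B m (k + z) - b2b_B m z| :=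
    Summable.of_nonneg_of_le (fun _ => abs_nonneg _) hle1 (s1.add hB)
  refine ⟨hs, ?_, ?_⟩
  · have h1 := hs.tsum_le_tsum hle2 (hD.add s2)
    rw [hD.tsum_add s2, t2] at h1
    linarith
  · have h1 := hs.tsum_le_tsum hle1 (s1.add hB)
    rw [s1.tsum_add hB, t1] at h1
    linarith

theorem b2b_dco_anti : Antitone dco := antitone_nat_of_succ_le dco_succ_le

/-- the tail of the kernel -/
theorem b2b_tail (n M : ℕ) : ∑' k : ℕ, |cker n (k + (M + n))| ≤ n * dco M := by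
  have hterm : ∀ k, |cker n (k + (M + n))| = dco (k + M) - dco (k + M + n) := by
    intro k
    unfold cker
    rw [if_pos (by omega : n ≤ k + (M + n))]
    have e1 : k + (M + n) - n = k + M := by omega
    have e2 : k + (M + n) = k + M + n := by omega
    rw [e1, e2, abs_sub_comm, abs_of_nonneg]
    exact sub_nonneg.2 (b2b_dco_anti (Nat.le_add_right _ _))
  simp only [hterm]
  refine Real.tsum_le_of_sum_range_le (fun k => sub_nonneg.2 (b2b_dco_anti (Nat.le_add_right _ _)))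
    fun N => ?_
  rw [Finset.sum_sub_distrib]
  have h1 : ∑ k ∈ Finset.range (N + n), dco (k + M)
      = ∑ k ∈ Finset.range N, dco (k + M) + ∑ l ∈ Finset.range n, dco (N + l + M) :=
    Finset.sum_range_add _ _ _
  have h2 : ∑ k ∈ Finset.range (n + N), dco (k + M)
      = ∑ l ∈ Finset.range n, dco (l + M) + ∑ k ∈ Finset.range N, dco (n + k + M) :=
    Finset.sum_range_add _ _ _
  have h3 : ∑ k ∈ Finset.range N, dco (n + k + M) = ∑ k ∈ Finset.range N, dco (k + M + n) :=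
    Finset.sum_congr rfl fun k _ => by
      congr 1
      omega
  have h4 : 0 ≤ ∑ l ∈ Finset.range n, dco (N + l + M) :=
    Finset.sum_nonneg fun l _ => (dco_pos _).le
  have h5 : ∑ l ∈ Finset.range n, dco (l + M) ≤ n * dco M := by
    have : ∑ l ∈ Finset.range n, dco (l + M) ≤ ∑ _l ∈ Finset.range n, dco M :=
      Finset.sum_le_sum fun l _ => b2b_dco_anti (Nat.le_add_left _ _)
    rw [Finset.sum_const, Finset.card_range, nsmul_eq_mul] at this
    exact this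
  rw [add_comm n N, h3] at h2
  linarith

theorem b2b_sqrt_pow {x : ℝ} (hx : 0 ≤ x) (h : ℕ) : √(x ^ h) = √x ^ h := by
  rw [Real.sqrt_eq_iff_eq_sq (by positivity) (by positivity), ← pow_mul, mul_comm h 2, pow_mul,
    Real.sq_sqrt hx]

theorem b2b_fubini (F : ℕ → ℤ → ℝ) (h0 : ∀ k d, 0 ≤ F k d) (h1 : ∀ k, Summable (F k))
    (h2 : Summable fun k => ∑' d, F k d) :
    (Summable fun d => ∑' k, F k d) ∧ (∀ d, Summable fun k => F k d) ∧
      ∑' d, ∑' k, F k d = ∑' k, ∑' d, F k d := by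
  have hF : Summable (Function.uncurry F) :=
    (summable_prod_of_nonneg (f := Function.uncurry F) (fun x => h0 x.1 x.2)).2 ⟨h1, h2⟩
  have hFs : Summable (fun x : ℤ × ℕ => F x.2 x.1) := hF.prod_symm
  exact ⟨hFs.prod, fun d => hFs.prod_factor d, hF.tsum_comm⟩

theorem b2b_split (a N : ℕ → ℝ) (K : ℕ) {A P Q T : ℝ} (hasum : Summable fun k => |a k|)
    (hW : Summable fun k => |a k| * N k) (hP : ∀ k < K, N k ≤ P) (hQ : ∀ k, N k ≤ Q)
    (hP0 : 0 ≤ P) (hQ0 : 0 ≤ Q) (hA : ∑' k, |a k| ≤ A) (hT : ∑' k, |a (k + K)| ≤ T) :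
    ∑' k, |a k| * N k ≤ P * A + Q * T := by
  rw [← hW.sum_add_tsum_nat_add K]
  refine add_le_add ?_ ?_
  · have h3 : ∀ k ∈ Finset.range K, |a k| * N k ≤ P * |a k| := by
      intro k hk
      rw [mul_comm]
      exact mul_le_mul_of_nonneg_right (hP k (Finset.mem_range.1 hk)) (abs_nonneg _)
    refine (Finset.sum_le_sum h3).trans ?_
    rw [← Finset.mul_sum]
    exact mul_le_mul_of_nonneg_left ((hasum.sum_le_tsum _ fun _ _ => abs_nonneg _).trans hA) hP0
  · have h5 : ∀ k : ℕ, |a (k + K)| * N (k + K) ≤ Q * |a (k + K)| := by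
      intro k
      rw [mul_comm]
      exact mul_le_mul_of_nonneg_right (hQ _) (abs_nonneg _)
    have hta : Summable fun k : ℕ => |a (k + K)| :=
      (summable_nat_add_iff (f := fun k => |a k|) K).2 hasum
    have htW : Summable fun k : ℕ => |a (k + K)| * N (k + K) :=
      (summable_nat_add_iff (f := fun k => |a k| * N k) K).2 hW
    refine (htW.tsum_le_tsum h5 (hta.mul_left _)).trans ?_
    rw [tsum_mul_left]
    exact mul_le_mul_of_nonneg_left hT hQ0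

theorem b2b_tail' (i h : ℕ) :
    ∑' k : ℕ, |cker (2 ^ i) (k + 2 ^ (i + h))| ≤ 4 * √((2 : ℝ) ^ i) * √(1 / 2 : ℝ) ^ h := by
  have hcast : √(((2 ^ i : ℕ) : ℝ)) = √((2 : ℝ) ^ i) := by push_cast; rfl
  rcases Nat.eq_zero_or_pos h with rfl | hh
  · rw [pow_zero, mul_one, ← hcast]
    refine le_trans ?_ (tsum_abs_cker_le (2 ^ i))
    have := (summable_abs_cker (2 ^ i)).sum_add_tsum_nat_add (2 ^ (i + 0))
    have h0 : 0 ≤ ∑ k ∈ Finset.range (2 ^ (i + 0)), |cker (2 ^ i) k| :=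
      Finset.sum_nonneg fun _ _ => abs_nonneg _
    linarith
  · obtain ⟨M, hM⟩ : ∃ M, 2 ^ (i + h) = M + 2 ^ i := by
      have h1 : 2 ^ i ≤ 2 ^ (i + h) := Nat.pow_le_pow_right (by norm_num) (by omega)
      exact ⟨2 ^ (i + h) - 2 ^ i, by omega⟩
    rw [hM]
    refine (b2b_tail (2 ^ i) M).trans ?_
    have h2 : 2 ^ (i + h) ≤ 2 * M := by
      have : 2 * 2 ^ i ≤ 2 ^ (i + h) := by
        rw [← pow_succ']
        exact Nat.pow_le_pow_right (by norm_num) (by omega)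
      omega
    have h3 : ((2 : ℝ) ^ (i + h)) ≤ 2 * (M : ℝ) + 1 := by
      have : ((2 ^ (i + h) : ℕ) : ℝ) ≤ ((2 * M : ℕ) : ℝ) := by exact_mod_cast h2
      push_cast at this
      linarith
    have hpos : (0 : ℝ) < (2 : ℝ) ^ (i + h) := by positivity
    have h4 : dco M ≤ 1 / √((2 : ℝ) ^ (i + h)) :=
      (dco_le M).trans (one_div_le_one_div_of_le (Real.sqrt_pos.2 hpos) (Real.sqrt_le_sqrt h3))
    have h5 : 1 / √((2 : ℝ) ^ (i + h)) = 1 / √((2 : ℝ) ^ i) * √(1 / 2 : ℝ) ^ h := by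
      rw [pow_add, Real.sqrt_mul (by positivity), ← b2b_sqrt_pow (by norm_num), one_div_pow,
        Real.sqrt_div zero_le_one, Real.sqrt_one, one_div_mul_one_div]
    have h6 : (((2 ^ i : ℕ) : ℝ)) * (1 / √((2 : ℝ) ^ i)) = √((2 : ℝ) ^ i) := by
      push_cast
      rw [mul_one_div, Real.div_sqrt]
    calc (((2 ^ i : ℕ) : ℝ)) * dco M ≤ ((2 ^ i : ℕ) : ℝ) * (1 / √((2 : ℝ) ^ (i + h))) := by gcongr
      _ = √((2 : ℝ) ^ i) * √(1 / 2 : ℝ) ^ h := by rw [h5, ← mul_assoc, h6]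
      _ ≤ 4 * √((2 : ℝ) ^ i) * √(1 / 2 : ℝ) ^ h := by
          have : 0 ≤ √((2 : ℝ) ^ i) * √(1 / 2 : ℝ) ^ h := by positivity
          linarith

/-- almost orthogonality of the kernels on dyadic scales -/
theorem cker_conv : ∃ (C r : ℝ), 0 < C ∧ 0 < r ∧ r < 1 ∧ ∀ i j : ℕ, i ≤ j →
    (Summable fun d : ℤ => |∑' k : ℕ, cker (2 ^ i) k *
      (if 0 ≤ (k : ℤ) + d then cker (2 ^ j) ((k : ℤ) + d).toNat else 0)|) ∧
    ∑' d : ℤ, |∑' k : ℕ, cker (2 ^ i) k *
      (if 0 ≤ (k : ℤ) + d then cker (2 ^ j) ((k : ℤ) + d).toNat else 0)|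
      ≤ C * √((2 : ℝ) ^ i) * √((2 : ℝ) ^ j) * r ^ (j - i) := by
  have hs0 : (0 : ℝ) < √(1 / 2 : ℝ) := Real.sqrt_pos.2 (by norm_num)
  have hs1 : √(1 / 2 : ℝ) < 1 := by
    rw [Real.sqrt_lt' one_pos]
    norm_num
  set s : ℝ := √(1 / 2 : ℝ) with hs
  have hr0 : 0 < √s := Real.sqrt_pos.2 hs0
  have hr1 : √s < 1 := by
    rw [Real.sqrt_lt' one_pos]
    linarith
  set r : ℝ := √s with hr
  have hr2 : r ^ 2 = s := Real.sq_sqrt hs0.le
  refine ⟨64 / r, r, by positivity, hr0, hr1, fun i j hij => ?_⟩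
  -- the scale
  set h : ℕ := (j - i) / 2 with hh
  have hsh : s ^ h ≤ r ^ (j - i) / r := by
    rw [le_div_iff₀ hr0, ← hr2, ← pow_mul, ← pow_succ]
    exact pow_le_pow_of_le_one hr0.le hr1.le (by omega)
  have hKm : √((2 : ℝ) ^ (i + h)) ≤ √((2 : ℝ) ^ j) * s ^ h := by
    have h1 : √((2 : ℝ) ^ (i + h)) ≤ √((2 : ℝ) ^ (j - h)) := by
      refine Real.sqrt_le_sqrt (pow_le_pow_right₀ (by norm_num) (by omega))
    refine h1.trans (le_of_eq ?_)
    have h2 : (2 : ℝ) ^ (j - h) = (2 : ℝ) ^ j * (1 / 2) ^ h := by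
      rw [one_div, inv_pow, ← div_eq_mul_inv, eq_div_iff (by positivity), ← pow_add]
      congr 1
      omega
    rw [h2, Real.sqrt_mul (by positivity), hs]
    congr 1
    rw [Real.sqrt_eq_iff_eq_sq (by positivity) (by positivity), ← pow_mul, mul_comm h 2, pow_mul,
      Real.sq_sqrt (by norm_num)]
  -- the double family
  set a : ℕ → ℝ := cker (2 ^ i) with ha
  set B : ℤ → ℝ := b2b_B (2 ^ j) with hB
  have hcasti : √(((2 ^ i : ℕ) : ℝ)) = √((2 : ℝ) ^ i) := by push_cast; rfl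
  have hcastj : √(((2 ^ j : ℕ) : ℝ)) = √((2 : ℝ) ^ j) := by push_cast; rfl
  have hasum : Summable fun k => |a k| := summable_abs_cker _
  have hale : ∑' k, |a k| ≤ 4 * √((2 : ℝ) ^ i) := by
    rw [← hcasti]
    exact tsum_abs_cker_le _
  have hN := fun k : ℕ => b2b_N (2 ^ j) k
  have hF1 : ∀ k : ℕ, Summable fun d : ℤ => |a k| * |B (k + d) - B d| := fun k =>
    (hN k).1.mul_left _
  have hF2 : ∀ k : ℕ, ∑' d : ℤ, |a k| * |B (k + d) - B d| = |a k| * ∑' d : ℤ, |B (k + d) - B d| :=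
    fun k => tsum_mul_left
  have hF3 : Summable fun k : ℕ => ∑' d : ℤ, |a k| * |B (k + d) - B d| := by
    refine Summable.of_nonneg_of_le (fun k => tsum_nonneg fun d => by positivity) (fun k => ?_)
      (hasum.mul_right (8 * √(((2 ^ j : ℕ) : ℝ))))
    rw [hF2]
    exact mul_le_mul_of_nonneg_left (hN k).2.2 (abs_nonneg _)
  obtain ⟨hFd, hFk, hFc⟩ := b2b_fubini (fun (k : ℕ) (d : ℤ) => |a k| * |B (k + d) - B d|)
    (fun k d => by positivity) hF1 hF3
  have hG : ∀ d : ℤ, |∑' k : ℕ, a k * B (k + d)| ≤ ∑' k : ℕ, |a k| * |B (k + d) - B d| := by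
    intro d
    have h1 : Summable fun k : ℕ => a k * (B (k + d) - B d) := by
      refine Summable.of_norm ?_
      simp only [norm_mul, Real.norm_eq_abs]
      exact hFk d
    have h2 : Summable fun k : ℕ => a k * B d := (hasum.of_abs).mul_right _
    have h3 : ∑' k : ℕ, a k * B (k + d) = ∑' k : ℕ, a k * (B (k + d) - B d) := by
      have h4 : ∑' k : ℕ, a k * B (k + d)
          = ∑' k : ℕ, (a k * (B (k + d) - B d) + a k * B d) := tsum_congr fun k => by ring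
      rw [h4, h1.tsum_add h2, tsum_mul_right, ha, tsum_cker, zero_mul, add_zero]
    rw [h3]
    have h5 := norm_tsum_le_tsum_norm h1.norm
    simp only [norm_mul, Real.norm_eq_abs] at h5
    exact h5
  have hGs : Summable fun d : ℤ => |∑' k : ℕ, a k * B (k + d)| :=
    Summable.of_nonneg_of_le (fun _ => abs_nonneg _) hG hFd
  have hgoal : (Summable fun d : ℤ => |∑' k : ℕ, a k * B (k + d)|) ∧
      ∑' d : ℤ, |∑' k : ℕ, a k * B (k + d)|
        ≤ 64 / r * √((2 : ℝ) ^ i) * √((2 : ℝ) ^ j) * r ^ (j - i) := by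
    refine ⟨hGs, ?_⟩
    have h1 : ∑' d : ℤ, |∑' k : ℕ, a k * B (k + d)| ≤ ∑' k : ℕ, |a k| * ∑' d : ℤ, |B (k + d) - B d| := by
      refine (hGs.tsum_le_tsum hG hFd).trans (le_of_eq ?_)
      rw [hFc]
      exact tsum_congr hF2
    refine h1.trans ?_
    have hW : Summable fun k : ℕ => |a k| * ∑' d : ℤ, |B (k + d) - B d| := by
      simpa only [hF2] using hF3
    have h2 := b2b_split a (fun k => ∑' d : ℤ, |B (k + d) - B d|) (2 ^ (i + h))
      (P := 8 * √((2 : ℝ) ^ (i + h))) (Q := 8 * √((2 : ℝ) ^ j)) hasum hW (fun k hk => by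
        refine (hN k).2.1.trans (mul_le_mul_of_nonneg_left (Real.sqrt_le_sqrt ?_) (by norm_num))
        exact_mod_cast hk.le) (fun k => by
        rw [← hcastj]
        exact (hN k).2.2) (by positivity) (by positivity) hale (b2b_tail' i h)
    refine h2.trans ?_
    have h6 : 8 * √((2 : ℝ) ^ (i + h)) * (4 * √((2 : ℝ) ^ i))
        ≤ 8 * (√((2 : ℝ) ^ j) * s ^ h) * (4 * √((2 : ℝ) ^ i)) := by gcongr
    have h7 : 64 * √((2 : ℝ) ^ i) * √((2 : ℝ) ^ j) * s ^ h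
        ≤ 64 * √((2 : ℝ) ^ i) * √((2 : ℝ) ^ j) * (r ^ (j - i) / r) := by gcongr
    have h8 : 64 * √((2 : ℝ) ^ i) * √((2 : ℝ) ^ j) * (r ^ (j - i) / r)
        = 64 / r * √((2 : ℝ) ^ i) * √((2 : ℝ) ^ j) * r ^ (j - i) := by ring
    linarith
  exact hgoal

end TwoSidedCLT
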