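import Pool.Agent.H374e.Defs
import Pool.Agent.H374e.CB2a
import Pool.Agent.H374e.CB2b
import Pool.Agent.H374e.CB3a

open MeasureTheory ProbabilityTheory Filter Topology
open scoped ENNReal NNReal InnerProductSpace

set_option linter.unusedVariables false
set_option warn.classDefReducibility false

namespace TwoSidedCLT

section hilb4

variable {H : Type*} [NormedAddCommGroup H] [InnerProductSpace ℝ H] [CompleteSpace H]


theorem b4_pow_norm (T : H →L[ℝ] H) (hT : ‖T‖ ≤ 1) (n : ℕ) (v : H) : ‖(T ^ n) v‖ ≤ ‖v‖ := by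
  induction n with
  | zero => simp
  | succ n ih =>
    rw [pow_succ']
    calc ‖(T * T ^ n) v‖ = ‖T ((T ^ n) v)‖ := rfl
      _ ≤ ‖T‖ * ‖(T ^ n) v‖ := T.le_opNorm _
      _ ≤ 1 * ‖v‖ := by gcongr
      _ = ‖v‖ := one_mul _

theorem b4_adj_norm (T : H →L[ℝ] H) (hT : ‖T‖ ≤ 1) : ‖ContinuousLinearMap.adjoint T‖ ≤ 1 := by
  have h := (ContinuousLinearMap.adjoint : (H →L[ℝ] H) ≃ₗᵢ⋆[ℝ] (H →L[ℝ] H)).norm_map T
  rw [h]
  exact hT

theorem b4_adj (T : H →L[ℝ] H) (n : ℕ) : ∀ x y : H,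
    ⟪((ContinuousLinearMap.adjoint T) ^ n) x, y⟫_ℝ = ⟪x, (T ^ n) y⟫_ℝ := by
  induction n with
  | zero => intro x y; simp
  | succ n ih =>
    intro x y
    rw [pow_succ', pow_succ]
    change ⟪(ContinuousLinearMap.adjoint T) (((ContinuousLinearMap.adjoint T) ^ n) x), y⟫_ℝ
      = ⟪x, (T ^ n) (T y)⟫_ℝ
    rw [ContinuousLinearMap.adjoint_inner_left, ih]

theorem b4_star (T : H →L[ℝ] H) (hT : ‖T‖ ≤ 1) (K : ℕ) : ∀ z : ℕ → H,
    ‖∑ k ∈ Finset.range K, ((ContinuousLinearMap.adjoint T) ^ k) (z k)‖ ^ 2 ≤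
      ∑ k ∈ Finset.range K, ∑ l ∈ Finset.range K,
        ⟪z k, (T ^ (k - l)) (((ContinuousLinearMap.adjoint T) ^ (l - k)) (z l))⟫_ℝ := by
  induction K with
  | zero => intro z; simp
  | succ K ih =>
    intro z
    set A := ContinuousLinearMap.adjoint T with hA
    set S' : H := ∑ k ∈ Finset.range K, (A ^ k) (z (k + 1)) with hS'
    have hAS : A S' = ∑ k ∈ Finset.range K, (A ^ (k + 1)) (z (k + 1)) := by
      rw [hS', map_sum]
      refine Finset.sum_congr rfl fun k _ => ?_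
      rw [pow_succ']
      rfl
    have h1 : ∑ k ∈ Finset.range (K + 1), (A ^ k) (z k) = z 0 + A S' := by
      rw [Finset.sum_range_succ', hAS, add_comm]
      simp
    have h2 : ∑ k ∈ Finset.range (K + 1), ∑ l ∈ Finset.range (K + 1),
        ⟪z k, (T ^ (k - l)) ((A ^ (l - k)) (z l))⟫_ℝ
        = (∑ k ∈ Finset.range K, ∑ l ∈ Finset.range K,
            ⟪z (k + 1), (T ^ (k - l)) ((A ^ (l - k)) (z (l + 1)))⟫_ℝ)
          + ⟪A S', z 0⟫_ℝ + ⟪z 0, A S'⟫_ℝ + ⟪z 0, z 0⟫_ℝ := by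
      rw [Finset.sum_range_succ']
      have h3 : ∀ k ∈ Finset.range K, ∑ l ∈ Finset.range (K + 1),
          ⟪z (k + 1), (T ^ (k + 1 - l)) ((A ^ (l - (k + 1))) (z l))⟫_ℝ
          = (∑ l ∈ Finset.range K,
            ⟪z (k + 1), (T ^ (k - l)) ((A ^ (l - k)) (z (l + 1)))⟫_ℝ)
            + ⟪(A ^ (k + 1)) (z (k + 1)), z 0⟫_ℝ := by
        intro k _
        rw [Finset.sum_range_succ']
        congr 1
        · refine Finset.sum_congr rfl fun l _ => ?_
          rw [Nat.add_sub_add_right, Nat.add_sub_add_right]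
        · rw [b4_adj]
          simp
      rw [Finset.sum_congr rfl h3, Finset.sum_add_distrib, Finset.sum_range_succ', ← sum_inner,
        ← hAS]
      have h4 : ∑ l ∈ Finset.range K,
          ⟪z 0, (T ^ (0 - (l + 1))) ((A ^ (l + 1 - 0)) (z (l + 1)))⟫_ℝ = ⟪z 0, A S'⟫_ℝ := by
        rw [hAS, inner_sum]
        refine Finset.sum_congr rfl fun l _ => ?_
        simp
      rw [h4]
      simp
      ring
    rw [h1, h2, norm_add_sq_real]
    have h5 := ih fun k => z (k + 1)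
    have h6 : ‖A S'‖ ^ 2 ≤ ‖S'‖ ^ 2 := by
      have h7 : ‖A S'‖ ≤ ‖S'‖ := by
        have := b4_pow_norm A (b4_adj_norm T hT) 1 S'
        simpa using this
      exact pow_le_pow_left₀ (norm_nonneg _) h7 2
    have h8 : ⟪A S', z 0⟫_ℝ = ⟪z 0, A S'⟫_ℝ := real_inner_comm _ _
    have h9 : ⟪z 0, z 0⟫_ℝ = ‖z 0‖ ^ 2 := real_inner_self_eq_norm_sq _
    rw [h8, h9]
    linarith

theorem b4_summ (i j : ℕ) (w : ℤ → ℝ) (M : ℝ) (hw : ∀ d, |w d| ≤ M) :
    Summable fun p : ℕ × ℕ => cker (2 ^ i) p.1 * cker (2 ^ j) p.2 * w ((p.2 : ℤ) - p.1) := by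
  have h1 : Summable fun p : ℕ × ℕ => |cker (2 ^ i) p.1| * |cker (2 ^ j) p.2| :=
    (summable_abs_cker (2 ^ i)).mul_of_nonneg (summable_abs_cker (2 ^ j))
      (fun _ => abs_nonneg _) (fun _ => abs_nonneg _)
  refine Summable.of_norm_bounded (h1.mul_right M) fun p => ?_
  rw [Real.norm_eq_abs, abs_mul, abs_mul]
  exact mul_le_mul_of_nonneg_left (hw _) (by positivity)

theorem b4_conv (i j : ℕ) (B : ℝ)
    (hs : Summable fun d : ℤ => |∑' k : ℕ, cker (2 ^ i) k *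
      (if 0 ≤ (k : ℤ) + d then cker (2 ^ j) ((k : ℤ) + d).toNat else 0)|)
    (hb : ∑' d : ℤ, |∑' k : ℕ, cker (2 ^ i) k *
      (if 0 ≤ (k : ℤ) + d then cker (2 ^ j) ((k : ℤ) + d).toNat else 0)| ≤ B)
    (w : ℤ → ℝ) (M : ℝ) (hM : 0 ≤ M) (hw : ∀ d, |w d| ≤ M) :
    |∑' p : ℕ × ℕ, cker (2 ^ i) p.1 * cker (2 ^ j) p.2 * w ((p.2 : ℤ) - p.1)| ≤ B * M := by
  set f : ℤ × ℕ → ℝ := fun q => cker (2 ^ i) q.2 *
    (if 0 ≤ (q.2 : ℤ) + q.1 then cker (2 ^ j) ((q.2 : ℤ) + q.1).toNat else 0) * w q.1 with hf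
  set e : ℕ × ℕ → ℤ × ℕ := fun p => ((p.2 : ℤ) - p.1, p.1) with he
  have hei : Function.Injective e := by
    rintro ⟨a, b⟩ ⟨c, d⟩ h
    simp only [he, Prod.mk.injEq] at h
    obtain ⟨h1, h2⟩ := h
    simp only [Prod.mk.injEq]
    omega
  have hfe : ∀ p : ℕ × ℕ, f (e p)
      = cker (2 ^ i) p.1 * cker (2 ^ j) p.2 * w ((p.2 : ℤ) - p.1) := by
    intro p
    simp only [hf, he]
    have h1 : (p.1 : ℤ) + ((p.2 : ℤ) - p.1) = p.2 := by ring
    rw [h1, if_pos (Int.natCast_nonneg _), Int.toNat_natCast]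
  have hsupp : Function.support f ⊆ Set.range e := by
    intro q hq
    rw [Function.mem_support] at hq
    by_cases h : 0 ≤ (q.2 : ℤ) + q.1
    · refine ⟨(q.2, ((q.2 : ℤ) + q.1).toNat), ?_⟩
      simp only [he]
      rw [Int.toNat_of_nonneg h]
      ext
      · simp
      · simp
    · exfalso
      apply hq
      simp only [hf]
      rw [if_neg h]
      ring
  have hsum_e : Summable (f ∘ e) := by
    have := b4_summ i j w M hw
    refine this.congr fun p => ?_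
    exact (hfe p).symm
  have hsum_f : Summable f := by
    refine (hei.summable_iff fun x hx => ?_).1 hsum_e
    by_contra hne
    exact hx (hsupp (Function.mem_support.2 hne))
  have h1 : ∑' p : ℕ × ℕ, cker (2 ^ i) p.1 * cker (2 ^ j) p.2 * w ((p.2 : ℤ) - p.1)
      = ∑' q, f q := by
    rw [← hei.tsum_eq hsupp]
    exact tsum_congr fun p => (hfe p).symm
  rw [h1, hsum_f.tsum_prod]
  have h2 : ∀ d : ℤ, ∑' k : ℕ, f (d, k) = (∑' k : ℕ, cker (2 ^ i) k *
      (if 0 ≤ (k : ℤ) + d then cker (2 ^ j) ((k : ℤ) + d).toNat else 0)) * w d := by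
    intro d
    simp only [hf]
    rw [tsum_mul_right]
  simp only [h2]
  set γ : ℤ → ℝ := fun d => ∑' k : ℕ, cker (2 ^ i) k *
      (if 0 ≤ (k : ℤ) + d then cker (2 ^ j) ((k : ℤ) + d).toNat else 0) with hγ
  have hb1 : ∀ d, |γ d * w d| ≤ |γ d| * M := fun d => by
    rw [abs_mul]
    exact mul_le_mul_of_nonneg_left (hw d) (abs_nonneg _)
  have hs1 : Summable fun d => |γ d| * M := hs.mul_right M
  have hs2 : Summable fun d => ‖γ d * w d‖ :=
    Summable.of_nonneg_of_le (fun _ => norm_nonneg _) hb1 hs1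
  calc |∑' d, γ d * w d| ≤ ∑' d, ‖γ d * w d‖ := norm_tsum_le_tsum_norm hs2
    _ ≤ ∑' d, |γ d| * M := hs2.tsum_le_tsum hb1 hs1
    _ = (∑' d, |γ d|) * M := tsum_mul_right
    _ ≤ B * M := mul_le_mul_of_nonneg_right hb hM

theorem b4_conv' {C r : ℝ}
    (hC : ∀ i j : ℕ, i ≤ j →
    (Summable fun d : ℤ => |∑' k : ℕ, cker (2 ^ i) k *
      (if 0 ≤ (k : ℤ) + d then cker (2 ^ j) ((k : ℤ) + d).toNat else 0)|) ∧
    ∑' d : ℤ, |∑' k : ℕ, cker (2 ^ i) k *
      (if 0 ≤ (k : ℤ) + d then cker (2 ^ j) ((k : ℤ) + d).toNat else 0)|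
      ≤ C * √((2 : ℝ) ^ i) * √((2 : ℝ) ^ j) * r ^ (j - i))
    (i j : ℕ) (w : ℤ → ℝ) (M : ℝ) (hM : 0 ≤ M) (hw : ∀ d, |w d| ≤ M) :
    |∑' p : ℕ × ℕ, cker (2 ^ i) p.1 * cker (2 ^ j) p.2 * w ((p.2 : ℤ) - p.1)|
      ≤ C * √((2 : ℝ) ^ i) * √((2 : ℝ) ^ j) * r ^ ((i - j) + (j - i)) * M := by
  rcases le_total i j with h | h
  · have h1 := b4_conv i j _ (hC i j h).1 (hC i j h).2 w M hM hw
    have h2 : i - j = 0 := Nat.sub_eq_zero_of_le h
    rw [h2, zero_add]
    exact h1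
  · have h1 := b4_conv j i _ (hC j i h).1 (hC j i h).2 (fun d => w (-d)) M hM fun d => hw _
    have h2 : j - i = 0 := Nat.sub_eq_zero_of_le h
    rw [h2, add_zero]
    have h3 : ∑' p : ℕ × ℕ, cker (2 ^ i) p.1 * cker (2 ^ j) p.2 * w ((p.2 : ℤ) - p.1)
        = ∑' p : ℕ × ℕ, cker (2 ^ j) p.1 * cker (2 ^ i) p.2 * w (-((p.2 : ℤ) - p.1)) := by
      rw [← (Equiv.prodComm ℕ ℕ).tsum_eq]
      refine tsum_congr fun p => ?_
      simp only [Equiv.prodComm_apply, Prod.fst_swap, Prod.snd_swap, neg_sub]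
      ring
    rw [h3]
    refine h1.trans (le_of_eq ?_)
    ring

theorem b4_geom {r : ℝ} (h0 : 0 < r) (h1 : r < 1) (n : ℕ) :
    ∑ m ∈ Finset.range n, r ^ m ≤ (1 - r)⁻¹ := by
  rw [geom_sum_eq h1.ne]
  have h2 : 0 < 1 - r := by linarith
  have h3 : (r ^ n - 1) / (r - 1) = (1 - r ^ n) * (1 - r)⁻¹ := by
    rw [← neg_div_neg_eq, neg_sub, neg_sub, div_eq_mul_inv]
  rw [h3]
  have h4 : 1 - r ^ n ≤ 1 := by
    have := pow_pos h0 n
    linarith
  calc (1 - r ^ n) * (1 - r)⁻¹ ≤ 1 * (1 - r)⁻¹ :=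
        mul_le_mul_of_nonneg_right h4 (inv_pos.2 h2).le
    _ = _ := one_mul _

theorem b4_row {r : ℝ} (h0 : 0 < r) (h1 : r < 1) (L i : ℕ) :
    ∑ j ∈ Finset.range L, r ^ ((i - j) + (j - i)) ≤ 2 * (1 - r)⁻¹ := by
  have hA : ∑ j ∈ Finset.range L, r ^ ((i - j) + (j - i)) ≤
      ∑ j ∈ Finset.range (i + 1), r ^ (i - j) + ∑ j ∈ Finset.Ico i (max i L), r ^ (j - i) := by
    have hsplit : ∑ j ∈ Finset.range L, r ^ ((i - j) + (j - i))
        ≤ ∑ j ∈ Finset.range (i + 1) ∪ Finset.Ico i (max i L), r ^ ((i - j) + (j - i)) := by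
      apply Finset.sum_le_sum_of_subset_of_nonneg
      · intro j hj
        simp only [Finset.mem_union, Finset.mem_range, Finset.mem_Ico] at hj ⊢
        omega
      · intro j _ _
        positivity
    have hun : ∑ j ∈ Finset.range (i + 1) ∪ Finset.Ico i (max i L), r ^ ((i - j) + (j - i))
        ≤ ∑ j ∈ Finset.range (i + 1), r ^ ((i - j) + (j - i))
          + ∑ j ∈ Finset.Ico i (max i L), r ^ ((i - j) + (j - i)) := by
      rw [← Finset.sum_union_inter]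
      have : 0 ≤ ∑ j ∈ Finset.range (i + 1) ∩ Finset.Ico i (max i L),
          r ^ ((i - j) + (j - i)) := Finset.sum_nonneg fun j _ => by positivity
      linarith
    refine hsplit.trans (hun.trans ?_)
    apply add_le_add
    · refine le_of_eq (Finset.sum_congr rfl fun j hj => ?_)
      rw [Finset.mem_range] at hj
      congr 1
      omega
    · refine le_of_eq (Finset.sum_congr rfl fun j hj => ?_)
      rw [Finset.mem_Ico] at hj
      congr 1
      omega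
  have hB : ∑ j ∈ Finset.range (i + 1), r ^ (i - j) ≤ (1 - r)⁻¹ := by
    have := Finset.sum_range_reflect (fun m => r ^ m) (i + 1)
    simp only [Nat.add_sub_cancel] at this
    rw [this]
    exact b4_geom h0 h1 _
  have hD : ∑ j ∈ Finset.Ico i (max i L), r ^ (j - i) ≤ (1 - r)⁻¹ := by
    rw [Finset.sum_Ico_eq_sum_range]
    simp only [Nat.add_sub_cancel_left]
    exact b4_geom h0 h1 _
  linarith

theorem b4_schur {r : ℝ} (h0 : 0 < r) (h1 : r < 1) (L : ℕ) (u : ℕ → ℝ) :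
    ∑ i ∈ Finset.range L, ∑ j ∈ Finset.range L, r ^ ((i - j) + (j - i)) * (u i * u j)
      ≤ 2 * (1 - r)⁻¹ * ∑ i ∈ Finset.range L, u i ^ 2 := by
  have h2 : ∑ i ∈ Finset.range L, ∑ j ∈ Finset.range L, r ^ ((i - j) + (j - i)) * (u i * u j)
      ≤ ∑ i ∈ Finset.range L, ∑ j ∈ Finset.range L,
        (r ^ ((i - j) + (j - i)) * (u i ^ 2 / 2) + r ^ ((i - j) + (j - i)) * (u j ^ 2 / 2)) := by
    apply Finset.sum_le_sum
    intro i _
    apply Finset.sum_le_sum
    intro j _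
    rw [← mul_add]
    apply mul_le_mul_of_nonneg_left _ (by positivity)
    nlinarith [sq_nonneg (u i - u j)]
  refine h2.trans ?_
  simp only [Finset.sum_add_distrib]
  have h3 : ∑ i ∈ Finset.range L, ∑ j ∈ Finset.range L, r ^ ((i - j) + (j - i)) * (u j ^ 2 / 2)
      = ∑ i ∈ Finset.range L, ∑ j ∈ Finset.range L, r ^ ((i - j) + (j - i)) * (u i ^ 2 / 2) := by
    rw [Finset.sum_comm]
    refine Finset.sum_congr rfl fun i _ => Finset.sum_congr rfl fun j _ => ?_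
    rw [add_comm (i - j) (j - i)]
  rw [h3]
  have h4 : ∑ i ∈ Finset.range L, ∑ j ∈ Finset.range L, r ^ ((i - j) + (j - i)) * (u i ^ 2 / 2)
      ≤ ∑ i ∈ Finset.range L, 2 * (1 - r)⁻¹ * (u i ^ 2 / 2) := by
    apply Finset.sum_le_sum
    intro i _
    rw [← Finset.sum_mul]
    exact mul_le_mul_of_nonneg_right (b4_row h0 h1 L i) (by positivity)
  have h5 : ∑ i ∈ Finset.range L, 2 * (1 - r)⁻¹ * (u i ^ 2 / 2)
      = (1 - r)⁻¹ * ∑ i ∈ Finset.range L, u i ^ 2 := by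
    rw [Finset.mul_sum]
    refine Finset.sum_congr rfl fun i _ => ?_
    ring
  rw [h5] at h4
  linarith

theorem b4_tendsto (f : ℕ × ℕ → ℝ) (hf : Summable f) :
    Tendsto (fun K : ℕ => ∑ k ∈ Finset.range K, ∑ l ∈ Finset.range K, f (k, l)) atTop
      (𝓝 (∑' p, f p)) := by
  have h1 : Tendsto (fun K : ℕ => Finset.range K ×ˢ Finset.range K) atTop atTop := by
    apply tendsto_atTop_finset_of_monotone
    · intro a b hab
      exact Finset.product_subset_product (Finset.range_mono hab) (Finset.range_mono hab)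
    · rintro ⟨a, b⟩
      refine ⟨max a b + 1, ?_⟩
      simp only [Finset.mem_product, Finset.mem_range]
      omega
  have h2 := hf.hasSum.comp h1
  refine h2.congr fun K => ?_
  simp only [Function.comp]
  exact Finset.sum_product _ _ _

theorem b4_main (T : H →L[ℝ] H) (hT : ‖T‖ ≤ 1) (g : H) (L : ℕ) (y : ℕ → H) (a : ℕ → ℝ) :
    (∑ j ∈ Finset.range L, a j * ⟪Mg T g (2 ^ j), y j⟫_ℝ) ^ 2 ≤
      ‖g‖ ^ 2 * ∑ i ∈ Finset.range L, ∑ j ∈ Finset.range L, a i * a j *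
        ∑' p : ℕ × ℕ, cker (2 ^ i) p.1 * cker (2 ^ j) p.2 *
          (fun d : ℤ => ⟪y i, (T ^ (-d).toNat)
            (((ContinuousLinearMap.adjoint T) ^ d.toNat) (y j))⟫_ℝ) ((p.2 : ℤ) - p.1) := by
  set A := ContinuousLinearMap.adjoint T with hA
  set w : ℕ → ℕ → ℤ → ℝ := fun i j d =>
    ⟪y i, (T ^ (-d).toNat) ((A ^ d.toNat) (y j))⟫_ℝ with hw
  have hwb : ∀ i j d, |w i j d| ≤ ‖y i‖ * ‖y j‖ := by
    intro i j d
    refine (abs_real_inner_le_norm _ _).trans ?_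
    apply mul_le_mul_of_nonneg_left _ (norm_nonneg _)
    exact (b4_pow_norm T hT _ _).trans (b4_pow_norm A (b4_adj_norm T hT) _ _)
  set z : ℕ → H := fun k => ∑ j ∈ Finset.range L, (a j * cker (2 ^ j) k) • y j with hz
  -- finite inequality
  have hfin : ∀ K : ℕ, (∑ j ∈ Finset.range L, a j *
      ⟪∑ k ∈ Finset.range K, cker (2 ^ j) k • (T ^ k) g, y j⟫_ℝ) ^ 2 ≤
      ‖g‖ ^ 2 * ∑ i ∈ Finset.range L, ∑ j ∈ Finset.range L, a i * a j *
        ∑ k ∈ Finset.range K, ∑ l ∈ Finset.range K,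
          cker (2 ^ i) k * cker (2 ^ j) l * w i j ((l : ℤ) - k) := by
    intro K
    have h1 := b4_star T hT K z
    have h2 : ∑ j ∈ Finset.range L, a j *
        ⟪∑ k ∈ Finset.range K, cker (2 ^ j) k • (T ^ k) g, y j⟫_ℝ
        = ⟪g, ∑ k ∈ Finset.range K, (A ^ k) (z k)⟫_ℝ := by
      rw [inner_sum]
      have h3 : ∀ k ∈ Finset.range K, ⟪g, (A ^ k) (z k)⟫_ℝ
          = ∑ j ∈ Finset.range L, a j * (cker (2 ^ j) k * ⟪(T ^ k) g, y j⟫_ℝ) := by
        intro k _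
        rw [real_inner_comm, b4_adj, hz]
        simp only
        rw [sum_inner]
        refine Finset.sum_congr rfl fun j _ => ?_
        rw [real_inner_smul_left, real_inner_comm]
        ring
      rw [Finset.sum_congr rfl h3, Finset.sum_comm]
      refine Finset.sum_congr rfl fun j _ => ?_
      rw [sum_inner, Finset.mul_sum]
      refine Finset.sum_congr rfl fun k _ => ?_
      rw [real_inner_smul_left]
    have h4 : ∑ k ∈ Finset.range K, ∑ l ∈ Finset.range K,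
        ⟪z k, (T ^ (k - l)) ((A ^ (l - k)) (z l))⟫_ℝ
        = ∑ i ∈ Finset.range L, ∑ j ∈ Finset.range L, a i * a j *
        ∑ k ∈ Finset.range K, ∑ l ∈ Finset.range K,
          cker (2 ^ i) k * cker (2 ^ j) l * w i j ((l : ℤ) - k) := by
      have h5 : ∀ k l : ℕ, ⟪z k, (T ^ (k - l)) ((A ^ (l - k)) (z l))⟫_ℝ
          = ∑ i ∈ Finset.range L, ∑ j ∈ Finset.range L, a i * a j *
            (cker (2 ^ i) k * cker (2 ^ j) l * w i j ((l : ℤ) - k)) := by
        intro k l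
        have h6 : (-((l : ℤ) - k)).toNat = k - l := by omega
        have h7 : ((l : ℤ) - k).toNat = l - k := by omega
        simp only [hw, h6, h7, hz]
        rw [map_sum, map_sum, sum_inner]
        refine Finset.sum_congr rfl fun i _ => ?_
        rw [inner_sum]
        refine Finset.sum_congr rfl fun j _ => ?_
        rw [map_smul, map_smul, real_inner_smul_left, real_inner_smul_right]
        ring
      simp only [h5]
      -- reorder the four sums
      have h8 : ∀ k, ∑ l ∈ Finset.range K, ∑ i ∈ Finset.range L, ∑ j ∈ Finset.range L, a i * a j *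
            (cker (2 ^ i) k * cker (2 ^ j) l * w i j ((l : ℤ) - k))
          = ∑ i ∈ Finset.range L, ∑ j ∈ Finset.range L, a i * a j *
            ∑ l ∈ Finset.range K, cker (2 ^ i) k * cker (2 ^ j) l * w i j ((l : ℤ) - k) := by
        intro k
        rw [Finset.sum_comm]
        refine Finset.sum_congr rfl fun i _ => ?_
        rw [Finset.sum_comm]
        refine Finset.sum_congr rfl fun j _ => ?_
        rw [Finset.mul_sum]
      simp only [h8]
      rw [Finset.sum_comm]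
      refine Finset.sum_congr rfl fun i _ => ?_
      rw [Finset.sum_comm]
      refine Finset.sum_congr rfl fun j _ => ?_
      rw [Finset.mul_sum]
    rw [h2, ← h4]
    have h9 : ⟪g, ∑ k ∈ Finset.range K, (A ^ k) (z k)⟫_ℝ ^ 2
        ≤ (‖g‖ * ‖∑ k ∈ Finset.range K, (A ^ k) (z k)‖) ^ 2 := by
      rw [← sq_abs]
      exact pow_le_pow_left₀ (abs_nonneg _) (abs_real_inner_le_norm _ _) 2
    rw [mul_pow] at h9
    exact h9.trans (mul_le_mul_of_nonneg_left h1 (by positivity))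
  -- limits
  have hlim1 : Tendsto (fun K : ℕ => (∑ j ∈ Finset.range L, a j *
      ⟪∑ k ∈ Finset.range K, cker (2 ^ j) k • (T ^ k) g, y j⟫_ℝ) ^ 2) atTop
      (𝓝 ((∑ j ∈ Finset.range L, a j * ⟪Mg T g (2 ^ j), y j⟫_ℝ) ^ 2)) := by
    apply Tendsto.pow
    apply tendsto_finsetSum
    intro j _
    apply Tendsto.const_mul
    apply Tendsto.inner _ tendsto_const_nhds
    exact (summable_Mg T hT g (2 ^ j)).hasSum.tendsto_sum_nat
  have hlim2 : Tendsto (fun K : ℕ => ‖g‖ ^ 2 * ∑ i ∈ Finset.range L, ∑ j ∈ Finset.range L,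
        a i * a j * ∑ k ∈ Finset.range K, ∑ l ∈ Finset.range K,
          cker (2 ^ i) k * cker (2 ^ j) l * w i j ((l : ℤ) - k)) atTop
      (𝓝 (‖g‖ ^ 2 * ∑ i ∈ Finset.range L, ∑ j ∈ Finset.range L, a i * a j *
        ∑' p : ℕ × ℕ, cker (2 ^ i) p.1 * cker (2 ^ j) p.2 * w i j ((p.2 : ℤ) - p.1))) := by
    apply Tendsto.const_mul
    apply tendsto_finsetSum
    intro i _
    apply tendsto_finsetSum
    intro j _
    apply Tendsto.const_mul
    exact b4_tendsto (fun p => cker (2 ^ i) p.1 * cker (2 ^ j) p.2 * w i j ((p.2 : ℤ) - p.1))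
      (b4_summ i j (w i j) _ (hwb i j))
  exact le_of_tendsto_of_tendsto' hlim1 hlim2 hfin

/-- the square function estimate -/
theorem square_function (T : H →L[ℝ] H) (hT : ‖T‖ ≤ 1) :
    ∃ C : ℝ, 0 ≤ C ∧ ∀ (g : H) (L : ℕ),
      ∑ j ∈ Finset.range L, ‖Mg T g (2 ^ j)‖ ^ 2 / 2 ^ j ≤ C * ‖g‖ ^ 2 := by
  obtain ⟨C, r, hC0, hr0, hr1, hC⟩ := cker_conv
  have hr2 : 0 < (1 - r)⁻¹ := inv_pos.2 (by linarith)
  refine ⟨C * (2 * (1 - r)⁻¹), by positivity, fun g L => ?_⟩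
  set a : ℕ → ℝ := fun j => 1 / √((2 : ℝ) ^ j) with ha
  have hsq : ∀ j : ℕ, 0 < √((2 : ℝ) ^ j) := fun j => Real.sqrt_pos.2 (by positivity)
  have ha0 : ∀ j, 0 < a j := fun j => by
    simp only [ha]
    exact one_div_pos.2 (hsq j)
  have haa : ∀ j, a j * a j = 1 / 2 ^ j := by
    intro j
    simp only [ha]
    rw [div_mul_div_comm, one_mul, Real.mul_self_sqrt (by positivity)]
  set y : ℕ → H := fun j => a j • Mg T g (2 ^ j) with hy
  set X : ℝ := ∑ j ∈ Finset.range L, ‖Mg T g (2 ^ j)‖ ^ 2 / 2 ^ j with hX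
  have hyn : ∀ j, ‖y j‖ ^ 2 = ‖Mg T g (2 ^ j)‖ ^ 2 / 2 ^ j := by
    intro j
    simp only [hy]
    rw [norm_smul, mul_pow, Real.norm_of_nonneg (ha0 j).le, sq (a j), haa j]
    ring
  have h1 := b4_main T hT g L y a
  have h2 : ∑ j ∈ Finset.range L, a j * ⟪Mg T g (2 ^ j), y j⟫_ℝ = X := by
    rw [hX]
    refine Finset.sum_congr rfl fun j _ => ?_
    simp only [hy]
    rw [real_inner_smul_right, real_inner_self_eq_norm_sq, ← mul_assoc, haa j]
    ring
  rw [h2] at h1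
  have h3 : ∑ i ∈ Finset.range L, ∑ j ∈ Finset.range L, a i * a j *
        ∑' p : ℕ × ℕ, cker (2 ^ i) p.1 * cker (2 ^ j) p.2 *
          (fun d : ℤ => ⟪y i, (T ^ (-d).toNat)
            (((ContinuousLinearMap.adjoint T) ^ d.toNat) (y j))⟫_ℝ) ((p.2 : ℤ) - p.1)
      ≤ C * ∑ i ∈ Finset.range L, ∑ j ∈ Finset.range L,
        r ^ ((i - j) + (j - i)) * (‖y i‖ * ‖y j‖) := by
    rw [Finset.mul_sum]
    apply Finset.sum_le_sum
    intro i _
    rw [Finset.mul_sum]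
    apply Finset.sum_le_sum
    intro j _
    have h4 := b4_conv' hC i j (fun d : ℤ => ⟪y i, (T ^ (-d).toNat)
            (((ContinuousLinearMap.adjoint T) ^ d.toNat) (y j))⟫_ℝ) (‖y i‖ * ‖y j‖)
            (by positivity) (fun d => by
              refine (abs_real_inner_le_norm _ _).trans ?_
              apply mul_le_mul_of_nonneg_left _ (norm_nonneg _)
              exact (b4_pow_norm T hT _ _).trans
                (b4_pow_norm _ (b4_adj_norm T hT) _ _))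
    have h5 : 0 < a i * a j := mul_pos (ha0 i) (ha0 j)
    have h6 := mul_le_mul_of_nonneg_left ((le_abs_self _).trans h4) h5.le
    refine h6.trans (le_of_eq ?_)
    have h7 : a i * √((2 : ℝ) ^ i) = 1 := by
      simp only [ha]
      exact one_div_mul_cancel (hsq i).ne'
    have h8 : a j * √((2 : ℝ) ^ j) = 1 := by
      simp only [ha]
      exact one_div_mul_cancel (hsq j).ne'
    calc a i * a j * (C * √((2 : ℝ) ^ i) * √((2 : ℝ) ^ j) * r ^ ((i - j) + (j - i))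
          * (‖y i‖ * ‖y j‖))
        = (a i * √((2 : ℝ) ^ i)) * (a j * √((2 : ℝ) ^ j)) *
          (C * (r ^ ((i - j) + (j - i)) * (‖y i‖ * ‖y j‖))) := by ring
      _ = C * (r ^ ((i - j) + (j - i)) * (‖y i‖ * ‖y j‖)) := by rw [h7, h8]; ring
  have h9 := b4_schur hr0 hr1 L fun j => ‖y j‖
  have h10 : ∑ i ∈ Finset.range L, ‖y i‖ ^ 2 = X := by
    rw [hX]
    exact Finset.sum_congr rfl fun j _ => hyn j
  simp only [h10] at h9
  have h11 : X ^ 2 ≤ ‖g‖ ^ 2 * (C * (2 * (1 - r)⁻¹ * X)) := by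
    refine h1.trans (mul_le_mul_of_nonneg_left ?_ (by positivity))
    exact h3.trans (mul_le_mul_of_nonneg_left h9 hC0.le)
  have hX0 : 0 ≤ X := Finset.sum_nonneg fun j _ => by positivity
  rcases hX0.eq_or_lt with h | h
  · rw [← h]
    positivity
  · have h12 : X * X ≤ (C * (2 * (1 - r)⁻¹) * ‖g‖ ^ 2) * X := by
      calc X * X = X ^ 2 := (sq X).symm
        _ ≤ _ := h11
        _ = _ := by ring
    exact le_of_mul_le_mul_right h12 h

end hilb4

end TwoSidedCLT
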