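import Pool.Agent.H374e.Defs
import Pool.Agent.H374e.CB3a
import Pool.Agent.H374e.CB4

open MeasureTheory ProbabilityTheory Filter Topology
open scoped ENNReal NNReal InnerProductSpace

set_option linter.unusedVariables false
set_option warn.classDefReducibility false

namespace TwoSidedCLT

section hilb5a

variable {H : Type*} [NormedAddCommGroup H] [InnerProductSpace ℝ H] [CompleteSpace H]

theorem summable_Mn (T : H →L[ℝ] H) (hT : ‖T‖ ≤ 1) (g : H) :
    Summable fun j : ℕ => ‖Mn T (sqrtOp T g) (2 ^ j)‖ ^ 2 / 2 ^ j := by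
  obtain ⟨C, -, hC⟩ := square_function T hT
  refine summable_of_sum_range_le (c := C * ‖g‖ ^ 2) (fun j => by positivity) (fun L => ?_)
  refine le_trans (le_of_eq ?_) (hC g L)
  refine Finset.sum_congr rfl fun j _ => ?_
  rw [Mn_sqrtOp T hT g (2 ^ j)]

theorem summable_Nn (T : H →L[ℝ] H) (hT : ‖T‖ ≤ 1) (g : H) :
    Summable fun j : ℕ =>
      ‖Nn T (sqrtOp (ContinuousLinearMap.adjoint T) g) (2 ^ j)‖ ^ 2 / 2 ^ j := by
  have hT' : ‖ContinuousLinearMap.adjoint T‖ ≤ 1 := by
    rw [LinearIsometryEquiv.norm_map]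
    exact hT
  refine Summable.of_nonneg_of_le (fun j => by positivity) (fun j => ?_)
    (summable_Mn (ContinuousLinearMap.adjoint T) hT' g)
  have key : ‖Nn T (sqrtOp (ContinuousLinearMap.adjoint T) g) (2 ^ j)‖ ≤
      ‖Mn (ContinuousLinearMap.adjoint T) (sqrtOp (ContinuousLinearMap.adjoint T) g) (2 ^ j)‖ := by
    have e : Nn T (sqrtOp (ContinuousLinearMap.adjoint T) g) (2 ^ j) =
        ContinuousLinearMap.adjoint T
          (Mn (ContinuousLinearMap.adjoint T) (sqrtOp (ContinuousLinearMap.adjoint T) g) (2 ^ j)) := by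
      unfold Nn Mn
      rw [map_sum]
      refine Finset.sum_congr rfl fun k _ => ?_
      rw [pow_succ']
      rfl
    rw [e]
    refine (ContinuousLinearMap.le_opNorm _ _).trans ?_
    calc ‖ContinuousLinearMap.adjoint T‖ * _ ≤ 1 * _ :=
          mul_le_mul_of_nonneg_right hT' (norm_nonneg _)
      _ = _ := one_mul _
  gcongr

end hilb5a

end TwoSidedCLT
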