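import Pool.Agent.H374e.Defs

open MeasureTheory ProbabilityTheory Filter Topology
open scoped ENNReal NNReal InnerProductSpace

set_option linter.unusedVariables false
set_option warn.classDefReducibility false

namespace TwoSidedCLT

theorem b1b_rec (n : ℕ) :
    2 * ((n : ℝ) + 1) * sqrtCoeff (n + 1) = (2 * (n : ℝ) - 1) * sqrtCoeff n := by
  unfold sqrtCoeff
  have h1 : ((n : ℝ) + 1) * (Nat.centralBinom (n + 1) : ℝ) =
      2 * (2 * (n : ℝ) + 1) * (Nat.centralBinom n : ℝ) := by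
    have := Nat.succ_mul_centralBinom_succ n
    exact_mod_cast this
  have h2 : (2 * (n : ℝ) - 1) ≠ 0 := by
    intro h
    have h3 : (2 * (n : ℝ)) = 1 := by linarith
    have h4 : 2 * n = 1 := by exact_mod_cast h3
    omega
  have h5 : (2 * ((n + 1 : ℕ) : ℝ) - 1) ≠ 0 := by
    push_cast
    have : (0 : ℝ) ≤ n := Nat.cast_nonneg n
    intro h
    linarith
  rw [mul_div_assoc', mul_div_assoc', div_eq_div_iff (by positivity) (by positivity)]
  push_cast
  rw [pow_succ]
  linear_combination (2 * (2 * (n : ℝ) - 1) * 4 ^ n) * h1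

theorem b1b_half (n : ℕ) (S : ℝ)
    (hS : ∑ p ∈ Finset.HasAntidiagonal.antidiagonal n, sqrtCoeff p.1 * sqrtCoeff p.2 = S) :
    2 * ∑ p ∈ Finset.HasAntidiagonal.antidiagonal n, (p.1 : ℝ) * (sqrtCoeff p.1 * sqrtCoeff p.2)
      = n * S := by
  have h1 : ∑ p ∈ Finset.HasAntidiagonal.antidiagonal n,
      (p.2 : ℝ) * (sqrtCoeff p.1 * sqrtCoeff p.2) =
      ∑ p ∈ Finset.HasAntidiagonal.antidiagonal n,
        (p.1 : ℝ) * (sqrtCoeff p.1 * sqrtCoeff p.2) := by
    rw [← Finset.Nat.sum_antidiagonal_swap]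
    refine Finset.sum_congr rfl fun p _ => ?_
    simp only [Prod.fst_swap, Prod.snd_swap]
    ring
  have h2 : ∑ p ∈ Finset.HasAntidiagonal.antidiagonal n,
      ((p.1 : ℝ) * (sqrtCoeff p.1 * sqrtCoeff p.2) + (p.2 : ℝ) * (sqrtCoeff p.1 * sqrtCoeff p.2))
      = n * S := by
    rw [← hS, Finset.mul_sum]
    refine Finset.sum_congr rfl fun p hp => ?_
    have h3 : ((p.1 + p.2 : ℕ) : ℝ) = n := by rw [Finset.HasAntidiagonal.mem_antidiagonal.1 hp]
    push_cast at h3
    rw [← add_mul, h3]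
  rw [Finset.sum_add_distrib, h1] at h2
  linarith

theorem b1b_step (n : ℕ) :
    ((n : ℝ) + 1) * ∑ p ∈ Finset.HasAntidiagonal.antidiagonal (n + 1),
      sqrtCoeff p.1 * sqrtCoeff p.2 =
    ((n : ℝ) - 1) * ∑ p ∈ Finset.HasAntidiagonal.antidiagonal n,
      sqrtCoeff p.1 * sqrtCoeff p.2 := by
  have h1 := b1b_half (n + 1) _ rfl
  have h2 := b1b_half n _ rfl
  rw [Finset.Nat.sum_antidiagonal_succ] at h1
  have h3 : 2 * ∑ p ∈ Finset.HasAntidiagonal.antidiagonal n,
      (((p.1 + 1 : ℕ) : ℝ) * (sqrtCoeff (p.1 + 1) * sqrtCoeff p.2)) =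
      2 * ∑ p ∈ Finset.HasAntidiagonal.antidiagonal n,
        (p.1 : ℝ) * (sqrtCoeff p.1 * sqrtCoeff p.2) -
      ∑ p ∈ Finset.HasAntidiagonal.antidiagonal n, sqrtCoeff p.1 * sqrtCoeff p.2 := by
    rw [Finset.mul_sum, Finset.mul_sum, ← Finset.sum_sub_distrib]
    refine Finset.sum_congr rfl fun p _ => ?_
    have h4 := b1b_rec p.1
    push_cast
    linear_combination sqrtCoeff p.2 * h4
  push_cast at h1 h3
  simp only [zero_mul, zero_add] at h1
  linarith

/-- `(1 - ∑ δ_n x^n)^2 = 1 - x` on coefficients; recall `sqrtCoeff 0 = -1`. -/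
theorem sqrt_conv (n : ℕ) :
    ∑ p ∈ Finset.HasAntidiagonal.antidiagonal n, sqrtCoeff p.1 * sqrtCoeff p.2
    = if n = 0 then 1 else if n = 1 then -1 else 0 := by
  have h0 : ∑ p ∈ Finset.HasAntidiagonal.antidiagonal 0, sqrtCoeff p.1 * sqrtCoeff p.2 = 1 := by
    simp [sqrtCoeff]
  have h1 : ∑ p ∈ Finset.HasAntidiagonal.antidiagonal 1, sqrtCoeff p.1 * sqrtCoeff p.2 = -1 := by
    have := b1b_step 0
    rw [h0] at this
    norm_num at this
    simpa using this
  have h2 : ∀ m : ℕ, ∑ p ∈ Finset.HasAntidiagonal.antidiagonal (m + 2),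
      sqrtCoeff p.1 * sqrtCoeff p.2 = 0 := by
    intro m
    induction m with
    | zero =>
      have := b1b_step 1
      rw [h1] at this
      norm_num at this
      simpa using this
    | succ m ih =>
      have := b1b_step (m + 2)
      rw [ih, mul_zero] at this
      have h3 : (((m + 2 : ℕ) : ℝ) + 1) ≠ 0 := by positivity
      exact (mul_eq_zero.1 this).resolve_left h3
  rcases n with _ | _ | m
  · simpa using h0
  · simpa using h1
  · simpa using h2 m

end TwoSidedCLT
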