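import Pool.Agent.H374e.Defs
import Pool.Agent.H374e.CB1a
import Pool.Agent.H374e.CB1b

open MeasureTheory ProbabilityTheory Filter Topology
open scoped ENNReal NNReal InnerProductSpace

set_option linter.unusedVariables false
set_option warn.classDefReducibility false

namespace TwoSidedCLT

section hilb3b

variable {H : Type*} [NormedAddCommGroup H] [InnerProductSpace ℝ H] [CompleteSpace H]

omit [CompleteSpace H] in
theorem b3b_norm_pow_le (T : H →L[ℝ] H) (hT : ‖T‖ ≤ 1) (n : ℕ) : ‖T ^ n‖ ≤ 1 := by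
  induction n with
  | zero =>
    rw [pow_zero]
    exact ContinuousLinearMap.norm_id_le (𝕜 := ℝ) (E := H)
  | succ n ih =>
    rw [pow_succ]
    calc ‖T ^ n * T‖ ≤ ‖T ^ n‖ * ‖T‖ := norm_mul_le _ _
      _ ≤ 1 * 1 := mul_le_mul ih hT (norm_nonneg _) zero_le_one
      _ = 1 := one_mul 1

theorem b3b_coeff_nonneg (n : ℕ) : 0 ≤ sqrtCoeff (n + 1) := by
  rw [sqrtCoeff_succ]
  exact sub_nonneg.2 (dco_succ_le n)

theorem b3b_summable_coeff : Summable fun n : ℕ => sqrtCoeff (n + 1) := by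
  refine summable_of_sum_range_le (c := 1) b3b_coeff_nonneg ?_
  intro n
  have h : ∑ i ∈ Finset.range n, sqrtCoeff (i + 1) = dco 0 - dco n := by
    rw [← Finset.sum_range_sub' dco n]
    exact Finset.sum_congr rfl fun i _ => sqrtCoeff_succ i
  rw [h, dco_zero]
  linarith [dco_pos n]

theorem b3b_coeff_zero : sqrtCoeff 0 = -1 := by
  simp [sqrtCoeff]

theorem b3b_summable_abs : Summable fun n : ℕ => |sqrtCoeff n| := by
  rw [← summable_nat_add_iff 1]
  refine b3b_summable_coeff.congr fun n => ?_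
  rw [abs_of_nonneg (b3b_coeff_nonneg n)]

omit [CompleteSpace H] in
theorem b3b_summable_norm (T : H →L[ℝ] H) (hT : ‖T‖ ≤ 1) :
    Summable fun n : ℕ => ‖sqrtCoeff n • T ^ n‖ := by
  refine Summable.of_nonneg_of_le (fun _ => norm_nonneg _) (fun n => ?_) b3b_summable_abs
  rw [norm_smul, Real.norm_eq_abs]
  exact mul_le_of_le_one_right (abs_nonneg _) (b3b_norm_pow_le T hT n)

theorem b3b_sqrtOp_eq (T : H →L[ℝ] H) (hT : ‖T‖ ≤ 1) :
    sqrtOp T = - ∑' n : ℕ, sqrtCoeff n • T ^ n := by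
  have hs : Summable fun n : ℕ => sqrtCoeff n • T ^ n := (b3b_summable_norm T hT).of_norm
  rw [hs.tsum_eq_zero_add, sqrtOp, b3b_coeff_zero]
  simp only [pow_zero, neg_smul, one_smul]
  abel

theorem sqrtOp_comp (T : H →L[ℝ] H) (hT : ‖T‖ ≤ 1) : sqrtOp T ∘L sqrtOp T = 1 - T := by
  have hn := b3b_summable_norm T hT
  have key := tsum_mul_tsum_eq_tsum_sum_antidiagonal_of_summable_norm hn hn
  have h1 : sqrtOp T ∘L sqrtOp T = sqrtOp T * sqrtOp T := rfl
  rw [h1, b3b_sqrtOp_eq T hT, neg_mul_neg, key]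
  have h2 : ∀ n : ℕ, (∑ kl ∈ Finset.HasAntidiagonal.antidiagonal n,
      (sqrtCoeff kl.1 • T ^ kl.1) * (sqrtCoeff kl.2 • T ^ kl.2))
      = (if n = 0 then (1:ℝ) else if n = 1 then -1 else 0) • T ^ n := by
    intro n
    rw [← sqrt_conv n, Finset.sum_smul]
    refine Finset.sum_congr rfl fun p hp => ?_
    have hp' : p.1 + p.2 = n := Finset.HasAntidiagonal.mem_antidiagonal.1 hp
    rw [smul_mul_smul_comm, ← pow_add, hp']
  rw [tsum_congr h2, tsum_eq_sum (s := Finset.range 2)]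
  · rw [Finset.sum_range_succ, Finset.sum_range_succ, Finset.sum_range_zero]
    simp [sub_eq_add_neg]
  · intro n hn'
    have hn2 : 2 ≤ n := by
      by_contra hc
      exact hn' (Finset.mem_range.2 (not_le.1 hc))
    rw [if_neg (by omega), if_neg (by omega), zero_smul]

theorem b3b_adjoint_pow (T : H →L[ℝ] H) (n : ℕ) :
    ContinuousLinearMap.adjoint (T ^ n) = (ContinuousLinearMap.adjoint T) ^ n := by
  have h := star_pow T n
  rwa [ContinuousLinearMap.star_eq_adjoint, ContinuousLinearMap.star_eq_adjoint] at h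

theorem adjoint_sqrtOp (T : H →L[ℝ] H) (hT : ‖T‖ ≤ 1) :
    ContinuousLinearMap.adjoint (sqrtOp T) = sqrtOp (ContinuousLinearMap.adjoint T) := by
  have hT' : ‖ContinuousLinearMap.adjoint T‖ ≤ 1 := by
    rw [LinearIsometryEquiv.norm_map]
    exact hT
  have hs : Summable fun n : ℕ => sqrtCoeff n • T ^ n := (b3b_summable_norm T hT).of_norm
  rw [b3b_sqrtOp_eq T hT, b3b_sqrtOp_eq _ hT', map_neg]
  congr 1
  have h3 := (ContinuousLinearMap.adjoint (𝕜 := ℝ) (E := H)
    (F := H)).toContinuousLinearEquiv.map_tsum (L := SummationFilter.unconditional ℕ)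
    (f := fun n : ℕ => sqrtCoeff n • T ^ n)
  have h4 : ContinuousLinearMap.adjoint (∑' n : ℕ, sqrtCoeff n • T ^ n)
      = ∑' n : ℕ, ContinuousLinearMap.adjoint (sqrtCoeff n • T ^ n) := h3
  rw [h4]
  refine tsum_congr fun n => ?_
  rw [map_smulₛₗ, b3b_adjoint_pow]
  simp

end hilb3b

end TwoSidedCLT
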