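import Pool.Agent.H374e.Defs
import Pool.Agent.H374e.CB3b

open MeasureTheory ProbabilityTheory Filter Topology
open scoped ENNReal NNReal InnerProductSpace

set_option linter.unusedVariables false
set_option warn.classDefReducibility false

namespace TwoSidedCLT

section hilb5b

variable {H : Type*} [NormedAddCommGroup H] [InnerProductSpace ℝ H] [CompleteSpace H]

theorem b5b_comm (T : H →L[ℝ] H) (hT : ‖T‖ ≤ 1) : Commute (sqrtOp T) T := by
  have h : sqrtOp T * sqrtOp T = 1 - T := sqrtOp_comp T hT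
  have h2 : Commute (sqrtOp T) (1 - sqrtOp T * sqrtOp T) :=
    (Commute.one_right _).sub_right ((Commute.refl _).mul_right (Commute.refl _))
  rw [h, sub_sub_cancel] at h2
  exact h2

theorem b5b_inner (T : H →L[ℝ] H) (hT : ‖T‖ ≤ 1) (f g g' : H) (hg : f = sqrtOp T g)
    (hg' : f = sqrtOp (ContinuousLinearMap.adjoint T) g') (k : ℕ) :
    ⟪f, (T ^ k) f⟫_ℝ = ⟪g', (T ^ k) g⟫_ℝ - ⟪g', (T ^ (k + 1)) g⟫_ℝ := by
  have hg'' : f = ContinuousLinearMap.adjoint (sqrtOp T) g' := by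
    rw [adjoint_sqrtOp T hT]; exact hg'
  have h : sqrtOp T * sqrtOp T = 1 - T := sqrtOp_comp T hT
  have hc : Commute (sqrtOp T) (T ^ k) := (b5b_comm T hT).pow_right k
  have e : sqrtOp T * T ^ k * sqrtOp T = T ^ k - T ^ (k + 1) := by
    rw [hc.eq, mul_assoc, h, mul_sub, mul_one, pow_succ]
  have e2 : sqrtOp T ((T ^ k) (sqrtOp T g)) = (T ^ k) g - (T ^ (k + 1)) g := by
    have := congrArg (fun A : H →L[ℝ] H => A g) e
    simpa using this
  calc ⟪f, (T ^ k) f⟫_ℝ = ⟪ContinuousLinearMap.adjoint (sqrtOp T) g', (T ^ k) (sqrtOp T g)⟫_ℝ := by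
        rw [← hg'', ← hg]
    _ = ⟪g', sqrtOp T ((T ^ k) (sqrtOp T g))⟫_ℝ := by
        rw [ContinuousLinearMap.adjoint_inner_left]
    _ = _ := by rw [e2, inner_sub_right]

theorem b5b_tele (u : ℕ → ℝ) (n : ℕ) :
    ∑ i ∈ Finset.range n, (u (n - i) - u (n - i + 1)) = u 1 - u (n + 1) := by
  have h := Finset.sum_range_sub (fun i => u (n + 1 - i)) n
  have e : n + 1 - n = 1 := by omega
  simp only [e, Nat.sub_zero] at h
  rw [← h]
  refine Finset.sum_congr rfl fun i hi => ?_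
  have hi' : i < n := Finset.mem_range.1 hi
  have e1 : n + 1 - (i + 1) = n - i := by omega
  have e2 : n + 1 - i = n - i + 1 := by omega
  rw [e1, e2]

theorem b5b_succ (T : H →L[ℝ] H) (hT : ‖T‖ ≤ 1) (f g g' : H) (hg : f = sqrtOp T g)
    (hg' : f = sqrtOp (ContinuousLinearMap.adjoint T) g') (n : ℕ) :
    varSum T f (n + 1) = varSum T f n + (‖f‖ ^ 2 + 2 * (⟪g', T g⟫_ℝ - ⟪g', (T ^ (n + 1)) g⟫_ℝ)) := by
  have hI := b5b_inner T hT f g g' hg hg'
  have key := b5b_tele (fun k => ⟪g', (T ^ k) g⟫_ℝ) n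
  simp only [pow_one] at key
  have h1 : ∑ i ∈ Finset.range n, ⟪f, (T ^ ((i - n) + (n - i))) f⟫_ℝ
      = ⟪g', T g⟫_ℝ - ⟪g', (T ^ (n + 1)) g⟫_ℝ := by
    rw [← key]
    refine Finset.sum_congr rfl fun i hi => ?_
    have hi' : i < n := Finset.mem_range.1 hi
    have e1 : (i - n) + (n - i) = n - i := by omega
    rw [e1, hI]
  have h2 : ∑ i ∈ Finset.range n, ⟪f, (T ^ ((n - i) + (i - n))) f⟫_ℝ
      = ⟪g', T g⟫_ℝ - ⟪g', (T ^ (n + 1)) g⟫_ℝ := by
    rw [← h1]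
    refine Finset.sum_congr rfl fun i hi => ?_
    rw [add_comm (n - i)]
  have h3 : ⟪f, (T ^ ((n - n) + (n - n))) f⟫_ℝ = ‖f‖ ^ 2 := by
    simp
  unfold varSum
  rw [Finset.sum_range_succ, Finset.sum_range_succ (f := fun j => ⟪f, (T ^ ((n - j) + (j - n))) f⟫_ℝ),
    h2, h3]
  simp only [Finset.sum_range_succ (n := n)]
  rw [Finset.sum_add_distrib, h1]
  ring

theorem b5b_formula (T : H →L[ℝ] H) (hT : ‖T‖ ≤ 1) (f g g' : H) (hg : f = sqrtOp T g)
    (hg' : f = sqrtOp (ContinuousLinearMap.adjoint T) g') (n : ℕ) :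
    varSum T f n = n * (‖f‖ ^ 2 + 2 * ⟪g', T g⟫_ℝ)
      - 2 * ⟪g', T (∑ k ∈ Finset.range n, (T ^ k) g)⟫_ℝ := by
  induction n with
  | zero => simp [varSum]
  | succ n ih =>
    rw [b5b_succ T hT f g g' hg hg' n, ih, Finset.sum_range_succ, map_add, inner_add_right]
    have e : T ((T ^ n) g) = (T ^ (n + 1)) g := by
      rw [pow_succ']; rfl
    rw [e]
    push_cast
    ring

omit [CompleteSpace H] in
theorem b5b_pow_norm (T : H →L[ℝ] H) (hT : ‖T‖ ≤ 1) (g : H) (k : ℕ) : ‖(T ^ k) g‖ ≤ ‖g‖ := by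
  calc ‖(T ^ k) g‖ ≤ ‖T ^ k‖ * ‖g‖ := ContinuousLinearMap.le_opNorm _ _
    _ ≤ 1 * ‖g‖ := by
        refine mul_le_mul_of_nonneg_right ?_ (norm_nonneg _)
        rcases Nat.eq_zero_or_pos k with rfl | hk
        · rw [pow_zero]
          exact ContinuousLinearMap.norm_id_le
        · exact (norm_pow_le' T hk).trans (pow_le_one₀ (norm_nonneg _) hT)
    _ = ‖g‖ := one_mul _

omit [CompleteSpace H] in
theorem b5b_iter (T : H →L[ℝ] H) (g : H) (k : ℕ) : T^[k] g = (T ^ k) g := by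
  induction k with
  | zero => simp
  | succ k ih => rw [Function.iterate_succ_apply', ih, pow_succ']; rfl

theorem var_bound (T : H →L[ℝ] H) (hT : ‖T‖ ≤ 1) (f g g' : H) (hg : f = sqrtOp T g)
    (hg' : f = sqrtOp (ContinuousLinearMap.adjoint T) g') :
    ∃ C : ℝ, 0 ≤ C ∧ ∀ n : ℕ, varSum T f n ≤ C ^ 2 * n := by
  refine ⟨√(‖f‖ ^ 2 + 4 * (‖g'‖ * ‖g‖)), Real.sqrt_nonneg _, fun n => ?_⟩
  rw [Real.sq_sqrt (by positivity), b5b_formula T hT f g g' hg hg' n]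
  have hTg : ∀ x : H, ‖T x‖ ≤ ‖x‖ := fun x => by
    simpa using b5b_pow_norm T hT x 1
  have h1 : ⟪g', T g⟫_ℝ ≤ ‖g'‖ * ‖g‖ :=
    (real_inner_le_norm _ _).trans (mul_le_mul_of_nonneg_left (hTg g) (norm_nonneg _))
  have h2 : ‖∑ k ∈ Finset.range n, (T ^ k) g‖ ≤ n * ‖g‖ := by
    refine (norm_sum_le _ _).trans ?_
    calc ∑ k ∈ Finset.range n, ‖(T ^ k) g‖ ≤ ∑ k ∈ Finset.range n, ‖g‖ :=
          Finset.sum_le_sum fun k _ => b5b_pow_norm T hT g k
      _ = n * ‖g‖ := by simp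
  have h3 : -⟪g', T (∑ k ∈ Finset.range n, (T ^ k) g)⟫_ℝ ≤ ‖g'‖ * (n * ‖g‖) := by
    refine (neg_le_abs _).trans ((abs_real_inner_le_norm _ _).trans ?_)
    exact mul_le_mul_of_nonneg_left ((hTg _).trans h2) (norm_nonneg _)
  have hn : (0 : ℝ) ≤ n := Nat.cast_nonneg n
  nlinarith [mul_le_mul_of_nonneg_left h1 hn]

theorem var_lim (T : H →L[ℝ] H) (hT : ‖T‖ ≤ 1) (f g g' : H) (hg : f = sqrtOp T g)
    (hg' : f = sqrtOp (ContinuousLinearMap.adjoint T) g') :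
    ∃ s : ℝ, Tendsto (fun n : ℕ => varSum T f n / n) atTop (𝓝 s) := by
  have hlim := ContinuousLinearMap.tendsto_birkhoffAverage_orthogonalProjection T hT g
  set p : H := _ with hp
  have hlim' : Tendsto (fun n : ℕ => birkhoffAverage ℝ T _root_.id n g) atTop (𝓝 p) := hlim
  refine ⟨(‖f‖ ^ 2 + 2 * ⟪g', T g⟫_ℝ) - 2 * ⟪g', T p⟫_ℝ, ?_⟩
  have h1 : Tendsto (fun n : ℕ => (‖f‖ ^ 2 + 2 * ⟪g', T g⟫_ℝ)
      - 2 * ⟪g', T (birkhoffAverage ℝ T _root_.id n g)⟫_ℝ) atTop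
      (𝓝 ((‖f‖ ^ 2 + 2 * ⟪g', T g⟫_ℝ) - 2 * ⟪g', T p⟫_ℝ)) := by
    refine Tendsto.const_sub _ (Tendsto.const_mul _ ?_)
    exact Tendsto.inner tendsto_const_nhds ((T.continuous.tendsto p).comp hlim')
  refine h1.congr' ?_
  filter_upwards [eventually_gt_atTop 0] with n hn
  have hn' : (n : ℝ) ≠ 0 := by positivity
  have hb : birkhoffAverage ℝ T _root_.id n g = (n : ℝ)⁻¹ • ∑ k ∈ Finset.range n, (T ^ k) g := by
    simp only [birkhoffAverage, birkhoffSum, _root_.id]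
    congr 1
    refine Finset.sum_congr rfl fun k _ => ?_
    exact b5b_iter T g k
  rw [b5b_formula T hT f g g' hg hg' n, hb, map_smul, inner_smul_right]
  field_simp

end hilb5b

end TwoSidedCLT
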