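import Pool.Agent.H374e.Defs
import Pool.Agent.H374e.CB6a

open MeasureTheory ProbabilityTheory Filter Topology
open scoped ENNReal NNReal InnerProductSpace

set_option linter.unusedVariables false
set_option warn.classDefReducibility false

namespace TwoSidedCLT

section pathB6b

variable {Ω S : Type*} [mΩ : MeasurableSpace Ω] [mS : MeasurableSpace S]
  {P : Measure Ω} [IsProbabilityMeasure P] {π : Measure S} {ξ : ℕ → Ω → S}
  {T : Lp ℝ 2 π →L[ℝ] Lp ℝ 2 π}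

lemma b6b_norm_eb (f : S → ℝ) (ξ : ℕ → Ω → S) (lam : ℝ) (a n : ℕ) (ω : Ω) :
    ‖eb f ξ lam a n ω‖ = 1 := by
  unfold eb
  exact Complex.norm_exp_ofReal_mul_I _

lemma b6b_eb_measurable {m : MeasurableSpace Ω} (f : Lp ℝ 2 π) (lam : ℝ) (a n : ℕ)
    (H : ∀ k < n, @Measurable Ω S m mS (ξ (a + k))) :
    @Measurable Ω ℂ m _ (eb f ξ lam a n) := by
  have hf : Measurable (f : S → ℝ) := (Lp.stronglyMeasurable f).measurable
  have h1 : @Measurable Ω ℝ m _ (fun ω => Sb f ξ a n ω) := by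
    unfold Sb
    exact Finset.measurable_sum _ (fun k hk => hf.comp (H k (Finset.mem_range.1 hk)))
  unfold eb
  exact Complex.measurable_exp.comp
    ((Complex.measurable_ofReal.comp (h1.const_mul lam)).mul_const Complex.I)

lemma b6b_comap_le (m : MeasurableSpace Ω) (k : ℕ) (hk : MeasurableSpace.comap (ξ k) mS ≤ m) :
    @Measurable Ω S m mS (ξ k) := by
  intro A hA
  exact hk _ ⟨A, hA, rfl⟩

lemma b6b_past_le (h : Setup P π ξ T) (s : ℕ) : past ξ s ≤ mΩ := by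
  unfold past
  exact iSup_le fun k => iSup_le fun _ => (h.meas k).comap_le

lemma b6b_eb_int (h : Setup P π ξ T) (f : Lp ℝ 2 π) (lam : ℝ) (a n : ℕ) :
    Integrable (eb f ξ lam a n) P := by
  refine Integrable.of_bound
    (b6b_eb_measurable f lam a n (fun k _ => h.meas _)).aestronglyMeasurable 1 ?_
  exact Eventually.of_forall fun ω => (b6b_norm_eb f ξ lam a n ω).le

/-- pull-out, integrated -/
lemma b6b_pull {m : MeasurableSpace Ω} (hm : m ≤ mΩ) (u G : Ω → ℂ)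
    (hG : StronglyMeasurable[m] G) (hu : Integrable u P) (huG : Integrable (fun ω => u ω * G ω) P) :
    ∫ ω, u ω * G ω ∂P = ∫ ω, (P[u | m]) ω * G ω ∂P := by
  have h1 : P[fun ω => u ω * G ω | m] =ᵐ[P] fun ω => (P[u | m]) ω * G ω :=
    condExp_bilin_of_stronglyMeasurable_right (ContinuousLinearMap.mul ℝ ℂ) hG huG hu
  rw [← integral_condExp hm (f := fun ω => u ω * G ω)]
  exact integral_congr_ae h1

theorem Ye_norm_le (h : Setup P π ξ T) (f : Lp ℝ 2 π) (lam : ℝ) (s : ℕ) :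
    ∀ᵐ ω ∂P, ‖Ye P f ξ lam s ω‖ ≤ 1 := by
  unfold Ye
  exact ae_bdd_norm_condExp_of_ae_bdd_norm
    (Eventually.of_forall fun ω => (b6b_norm_eb f ξ lam 0 s ω).le)

theorem Ye_meas (f : Lp ℝ 2 π) (lam : ℝ) (s : ℕ) :
    StronglyMeasurable[pres ξ s] (Ye P f ξ lam s) := stronglyMeasurable_condExp

theorem Ye_zero (h : Setup P π ξ T) (f : Lp ℝ 2 π) (lam : ℝ) :
    Ye P f ξ lam 0 =ᵐ[P] fun _ => 1 := by
  have h1 : eb f ξ lam 0 0 = fun _ => (1 : ℂ) := by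
    funext ω
    simp [eb, Sb]
  unfold Ye
  rw [h1, condExp_const (pres_le h 0)]

theorem Ye_integral (h : Setup P π ξ T) (f : Lp ℝ 2 π) (lam : ℝ) (s : ℕ) :
    ∫ ω, Ye P f ξ lam s ω ∂P = ∫ ω, eb f ξ lam 0 s ω ∂P := by
  unfold Ye
  exact integral_condExp (pres_le h s)

theorem eb_meas (h : Setup P π ξ T) (f : Lp ℝ 2 π) (lam : ℝ) (a n : ℕ) :
    StronglyMeasurable[fut ξ a] (eb f ξ lam a n) := by
  have h1 : @Measurable Ω ℂ (fut ξ a) _ (eb f ξ lam a n) := by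
    refine b6b_eb_measurable f lam a n fun k _ => b6b_comap_le _ _ ?_
    unfold fut
    exact le_iSup_of_le (a + k) (le_iSup_of_le (Nat.le_add_right a k) le_rfl)
  exact h1.stronglyMeasurable

lemma b6b_eb_past (f : Lp ℝ 2 π) (lam : ℝ) (s : ℕ) :
    StronglyMeasurable[past ξ s] (eb f ξ lam 0 s) := by
  have h1 : @Measurable Ω ℂ (past ξ s) _ (eb f ξ lam 0 s) := by
    refine b6b_eb_measurable f lam 0 s fun k hk => b6b_comap_le _ _ ?_
    unfold past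
    exact le_iSup_of_le (0 + k) (le_iSup_of_le (by omega) le_rfl)
  exact h1.stronglyMeasurable

lemma b6b_eb_mul (f : S → ℝ) (ξ : ℕ → Ω → S) (lam : ℝ) (s n : ℕ) (ω : Ω) :
    eb f ξ lam 0 s ω * eb f ξ lam s n ω = eb f ξ lam 0 (s + n) ω := by
  have h1 : Sb f ξ 0 (s + n) ω = Sb f ξ 0 s ω + Sb f ξ s n ω := by
    unfold Sb
    rw [Finset.sum_range_add]
    simp
  unfold eb
  rw [h1, ← Complex.exp_add]
  congr 1
  push_cast
  ring

lemma b6b_Ye_aesm (h : Setup P π ξ T) (f : Lp ℝ 2 π) (lam : ℝ) (s : ℕ) :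
    AEStronglyMeasurable (Ye P f ξ lam s) P :=
  ((Ye_meas f lam s).mono (pres_le h s)).aestronglyMeasurable

/-- (I2) -/
theorem Ye_exp (h : Setup P π ξ T) (f : Lp ℝ 2 π) (lam : ℝ) (s n : ℕ) (G : Ω → ℂ)
    (hG : StronglyMeasurable[pres ξ (s + n)] G) (hGi : Integrable G P) :
    ∫ ω, Ye P f ξ lam s ω * eb f ξ lam s n ω * G ω ∂P
      = ∫ ω, Ye P f ξ lam (s + n) ω * G ω ∂P := by
  have hpf : pres ξ (s + n) ≤ fut ξ s := by
    unfold pres fut
    exact le_iSup_of_le (s + n) (le_iSup_of_le (Nat.le_add_right s n) le_rfl)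
  set Φ : Ω → ℂ := fun ω => eb f ξ lam s n ω * G ω with hΦ
  have hebm : ∀ a b, AEStronglyMeasurable (eb f ξ lam a b) P := fun a b =>
    (b6b_eb_int h f lam a b).aestronglyMeasurable
  have hΦm : StronglyMeasurable[fut ξ s] Φ := (eb_meas h f lam s n).mul (hG.mono hpf)
  have hΦi : Integrable Φ P := by
    refine hGi.bdd_mul (hebm s n) (c := 1) ?_
    exact Eventually.of_forall fun ω => (b6b_norm_eb f ξ lam s n ω).le
  have hYm := b6b_Ye_aesm h f lam s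
  -- step 1
  have e1 : ∫ ω, Ye P f ξ lam s ω * Φ ω ∂P
      = ∫ ω, Ye P f ξ lam s ω * (P[Φ | pres ξ s]) ω ∂P := by
    have h2 := b6b_pull (P := P) (pres_le h s) Φ (Ye P f ξ lam s) (Ye_meas f lam s) hΦi
      (hΦi.mul_bdd (c := 1) hYm (Ye_norm_le h f lam s))
    calc ∫ ω, Ye P f ξ lam s ω * Φ ω ∂P = ∫ ω, Φ ω * Ye P f ξ lam s ω ∂P := by
          congr 1; funext ω; ring
      _ = _ := h2
      _ = _ := by congr 1; funext ω; ring
  have hB : Integrable (P[Φ | pres ξ s]) P := integrable_condExp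
  -- step 2
  have e2 : ∫ ω, eb f ξ lam 0 s ω * (P[Φ | pres ξ s]) ω ∂P
      = ∫ ω, Ye P f ξ lam s ω * (P[Φ | pres ξ s]) ω ∂P :=
    b6b_pull (P := P) (pres_le h s) (eb f ξ lam 0 s) (P[Φ | pres ξ s]) stronglyMeasurable_condExp
      (b6b_eb_int h f lam 0 s)
      (hB.bdd_mul (c := 1) (hebm 0 s)
        (Eventually.of_forall fun ω => (b6b_norm_eb f ξ lam 0 s ω).le))
  -- step 3
  have e3 : ∫ ω, eb f ξ lam 0 s ω * (P[Φ | pres ξ s]) ω ∂P
      = ∫ ω, eb f ξ lam 0 s ω * (P[Φ | past ξ s]) ω ∂P := by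
    refine integral_congr_ae ?_
    filter_upwards [h.markov s Φ hΦm hΦi] with ω hω
    rw [hω]
  -- step 4
  have e4 : ∫ ω, eb f ξ lam 0 s ω * Φ ω ∂P
      = ∫ ω, eb f ξ lam 0 s ω * (P[Φ | past ξ s]) ω ∂P := by
    have h2 := b6b_pull (P := P) (b6b_past_le h s) Φ (eb f ξ lam 0 s) (b6b_eb_past f lam s) hΦi
      (hΦi.mul_bdd (c := 1) (hebm 0 s)
        (Eventually.of_forall fun ω => (b6b_norm_eb f ξ lam 0 s ω).le))
    calc ∫ ω, eb f ξ lam 0 s ω * Φ ω ∂P = ∫ ω, Φ ω * eb f ξ lam 0 s ω ∂P := by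
          congr 1; funext ω; ring
      _ = _ := h2
      _ = _ := by congr 1; funext ω; ring
  -- step 5
  have e5 : ∫ ω, eb f ξ lam 0 (s + n) ω * G ω ∂P = ∫ ω, Ye P f ξ lam (s + n) ω * G ω ∂P :=
    b6b_pull (P := P) (pres_le h (s + n)) (eb f ξ lam 0 (s + n)) G hG
      (b6b_eb_int h f lam 0 (s + n))
      (hGi.bdd_mul (c := 1) (hebm 0 (s + n))
        (Eventually.of_forall fun ω => (b6b_norm_eb f ξ lam 0 (s + n) ω).le))
  calc ∫ ω, Ye P f ξ lam s ω * eb f ξ lam s n ω * G ω ∂P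
      = ∫ ω, Ye P f ξ lam s ω * Φ ω ∂P := by congr 1; funext ω; rw [hΦ]; ring
    _ = ∫ ω, eb f ξ lam 0 s ω * Φ ω ∂P := by rw [e1, ← e2, e3, ← e4]
    _ = ∫ ω, eb f ξ lam 0 (s + n) ω * G ω ∂P := by
        congr 1; funext ω; rw [hΦ, ← b6b_eb_mul f ξ lam s n ω]; ring
    _ = _ := e5

/-- energy identity -/
theorem energy (h : Setup P π ξ T) (f : Lp ℝ 2 π) (lam : ℝ) (s n : ℕ) :
    ∫ ω, ‖Ye P f ξ lam (s + n) ω - eb f ξ lam s n ω * Ye P f ξ lam s ω‖ ^ 2 ∂P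
      = ∫ ω, ‖Ye P f ξ lam s ω‖ ^ 2 ∂P - ∫ ω, ‖Ye P f ξ lam (s + n) ω‖ ^ 2 ∂P := by
  have hYi : ∀ s, Integrable (Ye P f ξ lam s) P := fun s => integrable_condExp
  have hYm := fun s => b6b_Ye_aesm (P := P) h f lam s
  have hY2 : ∀ s, Integrable (fun ω => ‖Ye P f ξ lam s ω‖ ^ 2) P := fun s => by
    refine Integrable.of_bound ((hYm s).norm.pow 2) 1 ?_
    filter_upwards [Ye_norm_le h f lam s] with ω hω
    rw [Real.norm_eq_abs, abs_of_nonneg (by positivity)]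
    exact pow_le_one₀ (norm_nonneg _) hω
  have hGm : StronglyMeasurable[pres ξ (s + n)]
      (fun ω => (starRingEnd ℂ) (Ye P f ξ lam (s + n) ω)) :=
    Complex.continuous_conj.comp_stronglyMeasurable (Ye_meas f lam (s + n))
  have hGi : Integrable (fun ω => (starRingEnd ℂ) (Ye P f ξ lam (s + n) ω)) P := by
    refine Integrable.of_bound (hGm.mono (pres_le h (s + n))).aestronglyMeasurable 1 ?_
    filter_upwards [Ye_norm_le h f lam (s + n)] with ω hω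
    simpa using hω
  have h1 := Ye_exp h f lam s n _ hGm hGi
  have hprod : Integrable (fun ω => Ye P f ξ lam s ω * eb f ξ lam s n ω *
      (starRingEnd ℂ) (Ye P f ξ lam (s + n) ω)) P := by
    refine Integrable.of_bound (((hYm s).mul (b6b_eb_int h f lam s n).aestronglyMeasurable).mul
      hGi.aestronglyMeasurable) 1 ?_
    filter_upwards [Ye_norm_le h f lam s, Ye_norm_le h f lam (s + n)] with ω h2 h3
    rw [norm_mul, norm_mul, b6b_norm_eb, mul_one]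
    have h4 : ‖(starRingEnd ℂ) (Ye P f ξ lam (s + n) ω)‖ ≤ 1 := by simpa using h3
    exact mul_le_one₀ h2 (norm_nonneg _) h4
  have h5 : ∫ ω, (Ye P f ξ lam s ω * eb f ξ lam s n ω *
      (starRingEnd ℂ) (Ye P f ξ lam (s + n) ω)).re ∂P = ∫ ω, ‖Ye P f ξ lam (s + n) ω‖ ^ 2 ∂P := by
    have h6 : ∫ ω, (Ye P f ξ lam s ω * eb f ξ lam s n ω *
        (starRingEnd ℂ) (Ye P f ξ lam (s + n) ω)).re ∂P
        = (∫ ω, Ye P f ξ lam s ω * eb f ξ lam s n ω *
        (starRingEnd ℂ) (Ye P f ξ lam (s + n) ω) ∂P).re := integral_re hprod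
    have h7 : ∫ ω, Ye P f ξ lam (s + n) ω * (starRingEnd ℂ) (Ye P f ξ lam (s + n) ω) ∂P
        = ((∫ ω, ‖Ye P f ξ lam (s + n) ω‖ ^ 2 ∂P : ℝ) : ℂ) := by
      rw [← integral_complex_ofReal]
      congr 1
      funext ω
      rw [Complex.mul_conj, Complex.normSq_eq_norm_sq]
    rw [h6, h1, h7, Complex.ofReal_re]
  have h8 : ∀ ω, ‖Ye P f ξ lam (s + n) ω - eb f ξ lam s n ω * Ye P f ξ lam s ω‖ ^ 2
      = ‖Ye P f ξ lam (s + n) ω‖ ^ 2 + ‖Ye P f ξ lam s ω‖ ^ 2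
        - 2 * (Ye P f ξ lam s ω * eb f ξ lam s n ω *
          (starRingEnd ℂ) (Ye P f ξ lam (s + n) ω)).re := by
    intro ω
    have h9 : ‖eb f ξ lam s n ω * Ye P f ξ lam s ω‖ = ‖Ye P f ξ lam s ω‖ := by
      rw [norm_mul, b6b_norm_eb, one_mul]
    rw [← h9, ← Complex.normSq_eq_norm_sq, ← Complex.normSq_eq_norm_sq,
      ← Complex.normSq_eq_norm_sq, Complex.normSq_sub]
    congr 2
    have h10 : (Ye P f ξ lam (s + n) ω *
        (starRingEnd ℂ) (eb f ξ lam s n ω * Ye P f ξ lam s ω))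
        = (starRingEnd ℂ) (Ye P f ξ lam s ω * eb f ξ lam s n ω *
          (starRingEnd ℂ) (Ye P f ξ lam (s + n) ω)) := by
      simp only [map_mul, Complex.conj_conj]
      ring
    rw [h10, Complex.conj_re]
  have hre : Integrable (fun ω => 2 * (Ye P f ξ lam s ω * eb f ξ lam s n ω *
      (starRingEnd ℂ) (Ye P f ξ lam (s + n) ω)).re) P := (hprod.re).const_mul 2
  calc ∫ ω, ‖Ye P f ξ lam (s + n) ω - eb f ξ lam s n ω * Ye P f ξ lam s ω‖ ^ 2 ∂P
      = ∫ ω, (‖Ye P f ξ lam (s + n) ω‖ ^ 2 + ‖Ye P f ξ lam s ω‖ ^ 2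
        - 2 * (Ye P f ξ lam s ω * eb f ξ lam s n ω *
          (starRingEnd ℂ) (Ye P f ξ lam (s + n) ω)).re) ∂P := by
        congr 1; funext ω; exact h8 ω
    _ = (∫ ω, ‖Ye P f ξ lam (s + n) ω‖ ^ 2 ∂P + ∫ ω, ‖Ye P f ξ lam s ω‖ ^ 2 ∂P)
        - 2 * ∫ ω, ‖Ye P f ξ lam (s + n) ω‖ ^ 2 ∂P := by
        have h11 : Integrable (fun ω => ‖Ye P f ξ lam (s + n) ω‖ ^ 2 + ‖Ye P f ξ lam s ω‖ ^ 2) P :=
          (hY2 (s + n)).add (hY2 s)
        rw [integral_sub h11 hre, integral_add (hY2 (s + n)) (hY2 s),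
          integral_const_mul, h5]
    _ = _ := by ring

end pathB6b

end TwoSidedCLT
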