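import Pool.Agent.H374e.Defs
import Pool.Agent.H374e.CB6a
import Pool.Agent.H374e.CB6b

open MeasureTheory ProbabilityTheory Filter Topology
open scoped ENNReal NNReal InnerProductSpace

set_option linter.unusedVariables false
set_option warn.classDefReducibility false

namespace TwoSidedCLT

section pathB9aux

variable {Ω S : Type*} [mΩ : MeasurableSpace Ω] [mS : MeasurableSpace S]
  {P : Measure Ω} [IsProbabilityMeasure P] {π : Measure S} {ξ : ℕ → Ω → S}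
  {T : Lp ℝ 2 π →L[ℝ] Lp ℝ 2 π}

theorem au_mp (h : Setup P π ξ T) (s : ℕ) : MeasurePreserving (ξ s) P π := ⟨h.meas s, h.law s⟩

theorem au_memLp (h : Setup P π ξ T) (u : Lp ℝ 2 π) (s : ℕ) : MemLp (fun ω => u (ξ s ω)) 2 P :=
  (Lp.memLp u).comp_measurePreserving (au_mp h s)

theorem au_int (h : Setup P π ξ T) (u : Lp ℝ 2 π) (s : ℕ) :
    Integrable (fun ω => u (ξ s ω)) P := (au_memLp h u s).integrable (by norm_num)

theorem au_intC (h : Setup P π ξ T) (u : Lp ℝ 2 π) (s : ℕ) :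
    Integrable (fun ω => (u (ξ s ω) : ℂ)) P := (au_int h u s).ofReal

theorem au_norm_one (h : Setup P π ξ T) (u : Lp ℝ 2 π) (s : ℕ) :
    ∫ ω, |u (ξ s ω)| ∂P ≤ ‖u‖ := by
  have h1 : ∫ ω, ‖u (ξ s ω)‖ ∂P = (eLpNorm (fun ω => u (ξ s ω)) 1 P).toReal := by
    rw [eLpNorm_one_eq_lintegral_enorm, integral_norm_eq_lintegral_enorm (au_int h u s).1]
  have h2 : eLpNorm (fun ω => u (ξ s ω)) 1 P ≤ eLpNorm (fun ω => u (ξ s ω)) 2 P :=
    eLpNorm_le_eLpNorm_of_exponent_le (by norm_num) (au_int h u s).1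
  have h3 : eLpNorm (fun ω => u (ξ s ω)) 2 P = eLpNorm u 2 π :=
    eLpNorm_comp_measurePreserving (Lp.aestronglyMeasurable u) (au_mp h s)
  have h4 : ‖u‖ = (eLpNorm u 2 π).toReal := Lp.norm_def u
  simp only [Real.norm_eq_abs] at h1
  rw [h1, h4, ← h3]
  exact ENNReal.toReal_mono (by rw [h3]; exact (Lp.memLp u).2.ne) h2

theorem au_smeas (u : Lp ℝ 2 π) (s : ℕ) :
    StronglyMeasurable[pres ξ s] (fun ω => (u (ξ s ω) : ℂ)) := by
  have h1 : StronglyMeasurable[mS] (fun x => (u x : ℂ)) :=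
    Complex.continuous_ofReal.comp_stronglyMeasurable (Lp.stronglyMeasurable u)
  exact h1.comp_measurable (comap_measurable (ξ s))

theorem au_Ye_ae (h : Setup P π ξ T) (f : Lp ℝ 2 π) (lam : ℝ) (s : ℕ) :
    AEStronglyMeasurable (Ye P f ξ lam s) P :=
  ((Ye_meas (P := P) f lam s).mono (pres_le h s)).aestronglyMeasurable

theorem au_eb_ae (h : Setup P π ξ T) (f : Lp ℝ 2 π) (lam : ℝ) (a n : ℕ) :
    AEStronglyMeasurable (eb f ξ lam a n) P := by
  have : fut ξ a ≤ mΩ := iSup₂_le fun k _ => (h.meas k).comap_le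
  exact ((eb_meas h f lam a n).mono this).aestronglyMeasurable

theorem au_eb_norm (f : S → ℝ) (lam : ℝ) (a n : ℕ) (ω : Ω) : ‖eb f ξ lam a n ω‖ = 1 := by
  unfold eb
  rw [Complex.norm_exp_ofReal_mul_I]

theorem au_Y_int (h : Setup P π ξ T) (f u : Lp ℝ 2 π) (lam : ℝ) (s r : ℕ) :
    Integrable (fun ω => Ye P f ξ lam s ω * (u (ξ r ω) : ℂ)) P :=
  (au_intC h u r).bdd_mul (au_Ye_ae h f lam s) (Ye_norm_le h f lam s)

theorem au_Ye_int (h : Setup P π ξ T) (f u : Lp ℝ 2 π) (lam : ℝ) (s n r : ℕ) :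
    Integrable (fun ω => Ye P f ξ lam s ω * eb f ξ lam s n ω * (u (ξ r ω) : ℂ)) P := by
  refine (au_intC h u r).bdd_mul (c := 1) ((au_Ye_ae h f lam s).mul (au_eb_ae h f lam s n)) ?_
  filter_upwards [Ye_norm_le h f lam s] with ω hω
  rw [norm_mul, au_eb_norm, mul_one]; exact hω

theorem au_Y_le (h : Setup P π ξ T) (f u : Lp ℝ 2 π) (lam : ℝ) (s r : ℕ) :
    ‖∫ ω, Ye P f ξ lam s ω * (u (ξ r ω) : ℂ) ∂P‖ ≤ ‖u‖ := by
  calc ‖∫ ω, Ye P f ξ lam s ω * (u (ξ r ω) : ℂ) ∂P‖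
      ≤ ∫ ω, ‖Ye P f ξ lam s ω * (u (ξ r ω) : ℂ)‖ ∂P := norm_integral_le_integral_norm _
    _ ≤ ∫ ω, |u (ξ r ω)| ∂P := by
        refine integral_mono_ae (au_Y_int h f u lam s r).norm (au_int h u r).norm ?_
        filter_upwards [Ye_norm_le h f lam s] with ω hω
        rw [norm_mul, Complex.norm_real, Real.norm_eq_abs]
        exact mul_le_of_le_one_left (abs_nonneg _) hω
    _ ≤ ‖u‖ := au_norm_one h u r

/-- the difference functional as a difference of two integrals -/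
theorem au_Dd (h : Setup P π ξ T) (f u : Lp ℝ 2 π) (lam : ℝ) (t n : ℕ) :
    Dd P f u ξ lam t n = ∑ s ∈ Finset.range t,
      ((∫ ω, Ye P f ξ lam (s + n) ω * (u (ξ (s + n) ω) : ℂ) ∂P)
        - ∫ ω, Ye P f ξ lam s ω * (u (ξ (s + n) ω) : ℂ) ∂P) := by
  unfold Dd
  refine Finset.sum_congr rfl fun s _ => ?_
  rw [← Ye_exp h f lam s n _ (au_smeas u (s + n)) (au_intC h u (s + n)),
    ← integral_sub (au_Ye_int h f u lam s n (s + n)) (au_Y_int h f u lam s (s + n))]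
  congr 1
  ext ω
  ring

end pathB9aux

end TwoSidedCLT
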