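import Pool.Agent.H374e.Defs
import Pool.Agent.H374e.CB6a

open MeasureTheory ProbabilityTheory Filter Topology
open scoped ENNReal NNReal InnerProductSpace

set_option linter.unusedVariables false
set_option warn.classDefReducibility false

namespace TwoSidedCLT

set_option linter.unusedSectionVars false

section pathB7b

variable {Ω S : Type*} [mΩ : MeasurableSpace Ω] [mS : MeasurableSpace S]
  {P : Measure Ω} [IsProbabilityMeasure P] {π : Measure S} {ξ : ℕ → Ω → S}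
  {T : Lp ℝ 2 π →L[ℝ] Lp ℝ 2 π}

theorem b7b_mp (h : Setup P π ξ T) (r : ℕ) : MeasurePreserving (ξ r) P π :=
  ⟨h.meas r, h.law r⟩

theorem b7b_memLp (h : Setup P π ξ T) (u : Lp ℝ 2 π) (r : ℕ) :
    MemLp (fun ω => u (ξ r ω)) 2 P :=
  (Lp.memLp u).comp_measurePreserving (b7b_mp h r)

theorem b7b_past_le (h : Setup P π ξ T) (s : ℕ) : past ξ s ≤ mΩ :=
  iSup₂_le fun k _ => (h.meas k).comap_le

theorem b7b_comap (u : Lp ℝ 2 π) (r : ℕ) :
    Measurable[MeasurableSpace.comap (ξ r) mS] (fun ω => u (ξ r ω)) :=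
  (Lp.stronglyMeasurable u).measurable.comp (comap_measurable (ξ r))

theorem b7b_past_meas (u : Lp ℝ 2 π) {r s : ℕ} (hrs : r ≤ s) :
    StronglyMeasurable[past ξ s] (fun ω => u (ξ r ω)) := by
  have h1 : MeasurableSpace.comap (ξ r) mS ≤ past ξ s :=
    le_iSup₂ (f := fun k (_ : k ≤ s) => MeasurableSpace.comap (ξ k) mS) r hrs
  exact ((b7b_comap u r).mono h1 le_rfl).stronglyMeasurable

theorem b7b_fut_meas (u : Lp ℝ 2 π) {r s : ℕ} (hrs : s ≤ r) :
    StronglyMeasurable[fut ξ s] (fun ω => ((u (ξ r ω) : ℝ) : ℂ)) := by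
  have h1 : MeasurableSpace.comap (ξ r) mS ≤ fut ξ s :=
    le_iSup₂ (f := fun k (_ : s ≤ k) => MeasurableSpace.comap (ξ k) mS) r hrs
  exact ((Complex.measurable_ofReal.comp (b7b_comap u r)).mono h1 le_rfl).stronglyMeasurable

theorem b7b_re {m : MeasurableSpace Ω} (u : Ω → ℝ) (hu : Integrable u P) :
    P[u | m] =ᵐ[P] fun ω => (P[fun ω => ((u ω : ℝ) : ℂ) | m] ω).re := by
  have h1 := Complex.reCLM.comp_condExp_comm (m := m) (μ := P)
    (f := fun ω => ((u ω : ℝ) : ℂ)) hu.ofReal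
  have h2 : (Complex.reCLM ∘ fun ω => ((u ω : ℝ) : ℂ)) = u := by
    funext ω; simp
  rw [h2] at h1
  exact h1.symm

/-- the Markov property for the past, real functions -/
theorem b7b_markov (h : Setup P π ξ T) (u : Lp ℝ 2 π) (s : ℕ) :
    P[fun ω => u (ξ (s + 1) ω) | past ξ s] =ᵐ[P] fun ω => T u (ξ s ω) := by
  have hi : Integrable (fun ω => u (ξ (s + 1) ω)) P :=
    (b7b_memLp h u (s + 1)).integrable one_le_two
  have h1 := b7b_re (m := past ξ s) _ hi
  have h2 := b7b_re (m := pres ξ s) _ hi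
  have h3 := h.markov s (fun ω => ((u (ξ (s + 1) ω) : ℝ) : ℂ)) (b7b_fut_meas u (by omega))
    hi.ofReal
  have h4 := h.op s u
  filter_upwards [h1, h2, h3, h4] with ω e1 e2 e3 e4
  rw [e1, e3, ← e2, e4]

theorem b7b_step (h : Setup P π ξ T) (f : Lp ℝ 2 π) (r k : ℕ) :
    ∀ u : Lp ℝ 2 π, ∫ ω, f (ξ r ω) * u (ξ (r + k) ω) ∂P
      = ∫ ω, f (ξ r ω) * ((T ^ k) u) (ξ r ω) ∂P := by
  induction k with
  | zero => intro u; simp
  | succ k ih =>
    intro u
    have hA := b7b_memLp h f r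
    have hB := b7b_memLp h u (r + k + 1)
    have hAB : Integrable ((fun ω => f (ξ r ω)) * fun ω => u (ξ (r + k + 1) ω)) P :=
      hA.integrable_mul hB
    have hBi : Integrable (fun ω => u (ξ (r + k + 1) ω)) P := hB.integrable one_le_two
    have h1 := condExp_mul_of_stronglyMeasurable_left (μ := P) (m := past ξ (r + k))
      (b7b_past_meas (ξ := ξ) f (Nat.le_add_right r k)) hAB hBi
    have h2 := b7b_markov h u (r + k)
    have hm := b7b_past_le h (r + k)
    have h3 := integral_condExp (μ := P) (f := (fun ω => f (ξ r ω)) *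
      fun ω => u (ξ (r + k + 1) ω)) hm
    have h4 : ∫ ω, f (ξ r ω) * u (ξ (r + k + 1) ω) ∂P
        = ∫ ω, f (ξ r ω) * (T u) (ξ (r + k) ω) ∂P := by
      calc ∫ ω, f (ξ r ω) * u (ξ (r + k + 1) ω) ∂P
          = ∫ ω, (P[(fun ω => f (ξ r ω)) * fun ω => u (ξ (r + k + 1) ω) | past ξ (r + k)]) ω ∂P :=
            h3.symm
        _ = ∫ ω, f (ξ r ω) * (T u) (ξ (r + k) ω) ∂P := by
            refine integral_congr_ae ?_
            filter_upwards [h1, h2] with ω e1 e2
            rw [e1, Pi.mul_apply, e2]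
    rw [← add_assoc, h4, ih (T u)]
    rw [pow_succ]
    rfl

theorem b7b_inner (u v : Lp ℝ 2 π) : ⟪u, v⟫_ℝ = ∫ x, u x * v x ∂π := by
  rw [L2.inner_def]
  refine integral_congr_ae (Eventually.of_forall fun x => ?_)
  simp [mul_comm]

theorem b7b_law (h : Setup P π ξ T) (u v : Lp ℝ 2 π) (r : ℕ) :
    ∫ ω, u (ξ r ω) * v (ξ r ω) ∂P = ⟪u, v⟫_ℝ := by
  rw [b7b_inner]
  exact integral_law h r (fun x => u x * v x)
    ((Lp.aestronglyMeasurable u).mul (Lp.aestronglyMeasurable v))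

theorem b7b_pair (h : Setup P π ξ T) (f u : Lp ℝ 2 π) (r k : ℕ) :
    ∫ ω, f (ξ r ω) * u (ξ (r + k) ω) ∂P
      = ∫ ω, ((ContinuousLinearMap.adjoint T) ^ k) f (ξ (r + k) ω) * u (ξ (r + k) ω) ∂P := by
  rw [b7b_step h, b7b_law h, b7b_law h]
  have h1 : (ContinuousLinearMap.adjoint T) ^ k = ContinuousLinearMap.adjoint (T ^ k) := by
    rw [← ContinuousLinearMap.star_eq_adjoint, ← ContinuousLinearMap.star_eq_adjoint, star_pow]
  rw [h1, ContinuousLinearMap.adjoint_inner_left]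

theorem b7b_Nn (h : Setup P π ξ T) (f : Lp ℝ 2 π) (s n r : ℕ) :
    ∀ᵐ ω ∂P, (Nn T f n) (ξ r ω)
      = ∑ k ∈ Finset.range n, (((ContinuousLinearMap.adjoint T) ^ (k + 1)) f) (ξ r ω) := by
  have h1 : ∀ m : ℕ, (Nn T f m : Lp ℝ 2 π) =ᵐ[π]
      fun x => ∑ k ∈ Finset.range m, (((ContinuousLinearMap.adjoint T) ^ (k + 1)) f) x := by
    intro m
    induction m with
    | zero =>
      have : Nn T f 0 = 0 := by simp [Nn]
      rw [this]
      filter_upwards [Lp.coeFn_zero ℝ 2 π] with x hx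
      rw [Finset.range_zero, Finset.sum_empty]
      exact hx
    | succ m ih =>
      have : Nn T f (m + 1) = Nn T f m + ((ContinuousLinearMap.adjoint T) ^ (m + 1)) f := by
        simp [Nn, Finset.sum_range_succ]
      rw [this]
      filter_upwards [ih, Lp.coeFn_add (Nn T f m) (((ContinuousLinearMap.adjoint T) ^ (m + 1)) f)]
        with x e1 e2
      rw [e2, Pi.add_apply, e1, Finset.sum_range_succ]
  have h2 := (b7b_mp h r).quasiMeasurePreserving.ae (h1 n)
  exact h2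

/-- real version -/
theorem b7b_real (h : Setup P π ξ T) (f u : Lp ℝ 2 π) (s n : ℕ) :
    ∫ ω, Sb f ξ s n ω * u (ξ (s + n) ω) ∂P = ∫ ω, (Nn T f n) (ξ (s + n) ω) * u (ξ (s + n) ω) ∂P := by
  have e1 : ∫ ω, Sb f ξ s n ω * u (ξ (s + n) ω) ∂P
      = ∑ j ∈ Finset.range n, ∫ ω, f (ξ (s + j) ω) * u (ξ (s + n) ω) ∂P := by
    rw [← integral_finsetSum]
    · refine integral_congr_ae (Eventually.of_forall fun ω => ?_)
      simp only [Sb, Finset.sum_mul]
    · intro j _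
      exact (b7b_memLp h f (s + j)).integrable_mul (b7b_memLp h u (s + n))
  have e2 : ∫ ω, (Nn T f n) (ξ (s + n) ω) * u (ξ (s + n) ω) ∂P
      = ∑ j ∈ Finset.range n,
        ∫ ω, (((ContinuousLinearMap.adjoint T) ^ (j + 1)) f) (ξ (s + n) ω) * u (ξ (s + n) ω) ∂P := by
    rw [← integral_finsetSum]
    · refine integral_congr_ae ?_
      filter_upwards [b7b_Nn h f s n (s + n)] with ω e
      rw [e, Finset.sum_mul]
    · intro j _
      exact (b7b_memLp h _ (s + n)).integrable_mul (b7b_memLp h u (s + n))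
  rw [e1, e2, ← Finset.sum_range_reflect]
  refine Finset.sum_congr rfl fun j hj => ?_
  have hj' : j < n := Finset.mem_range.mp hj
  have e3 := b7b_pair h f u (s + (n - 1 - j)) (j + 1)
  have e4 : s + (n - 1 - j) + (j + 1) = s + n := by omega
  rw [e4] at e3
  exact e3

/-- (I6) -/
theorem Sb_back (h : Setup P π ξ T) (f : Lp ℝ 2 π) (s n : ℕ) (G : Ω → ℂ)
    (hG : StronglyMeasurable[pres ξ (s + n)] G) (hGi : MemLp G 2 P) :
    ∫ ω, (Sb f ξ s n ω : ℂ) * G ω ∂P = ∫ ω, ((Nn T f n) (ξ (s + n) ω) : ℂ) * G ω ∂P := by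
  obtain ⟨H, hH, rfl⟩ := StronglyMeasurable.exists_eq_measurable_comp (mY := mS) (f := ξ (s + n)) hG
  have hmp := b7b_mp h (s + n)
  have hHL : MemLp H 2 π := by
    have h1 := (memLp_map_measure_iff (μ := P) (f := ξ (s + n)) (g := H) (p := 2)
      (by rw [h.law]; exact hH.aestronglyMeasurable) (h.meas _).aemeasurable).2 hGi
    rwa [h.law] at h1
  have hre : MemLp (fun x => (H x).re) 2 π := hHL.re
  have him : MemLp (fun x => (H x).im) 2 π := hHL.im
  have r1 := b7b_real h f (hre.toLp _) s n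
  have r2 := b7b_real h f (him.toLp _) s n
  have c1 : ∀ᵐ ω ∂P, (hre.toLp _ : Lp ℝ 2 π) (ξ (s + n) ω) = (H (ξ (s + n) ω)).re :=
    hmp.quasiMeasurePreserving.ae hre.coeFn_toLp
  have c2 : ∀ᵐ ω ∂P, (him.toLp _ : Lp ℝ 2 π) (ξ (s + n) ω) = (H (ξ (s + n) ω)).im :=
    hmp.quasiMeasurePreserving.ae him.coeFn_toLp
  -- general splitting
  have hsplit : ∀ A : Ω → ℝ, MemLp A 2 P →
      ∫ ω, ((A ω : ℝ) : ℂ) * (H ∘ ξ (s + n)) ω ∂P
        = ((∫ ω, A ω * (hre.toLp _ : Lp ℝ 2 π) (ξ (s + n) ω) ∂P : ℝ) : ℂ)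
          + ((∫ ω, A ω * (him.toLp _ : Lp ℝ 2 π) (ξ (s + n) ω) ∂P : ℝ) : ℂ) * Complex.I := by
    intro A hA
    have i1 : Integrable (fun ω => A ω * (hre.toLp _ : Lp ℝ 2 π) (ξ (s + n) ω)) P :=
      hA.integrable_mul (b7b_memLp h _ (s + n))
    have i2 : Integrable (fun ω => A ω * (him.toLp _ : Lp ℝ 2 π) (ξ (s + n) ω)) P :=
      hA.integrable_mul (b7b_memLp h _ (s + n))
    rw [← integral_complex_ofReal, ← integral_complex_ofReal, ← integral_mul_const,
      ← integral_add i1.ofReal (i2.ofReal.mul_const _)]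
    refine integral_congr_ae ?_
    filter_upwards [c1, c2] with ω e1 e2
    rw [e1, e2, Function.comp_apply]
    conv_lhs => rw [← Complex.re_add_im (H (ξ (s + n) ω))]
    push_cast
    ring
  have hSb : MemLp (fun ω => Sb f ξ s n ω) 2 P := by
    have : (fun ω => Sb f ξ s n ω) = ∑ k ∈ Finset.range n, fun ω => f (ξ (s + k) ω) := by
      funext ω; simp [Sb, Finset.sum_apply]
    rw [this]
    exact memLp_finsetSum' _ fun k _ => b7b_memLp h f (s + k)
  have hNn : MemLp (fun ω => (Nn T f n) (ξ (s + n) ω)) 2 P := b7b_memLp h _ (s + n)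
  rw [hsplit _ hSb, hsplit _ hNn, r1, r2]

end pathB7b

end TwoSidedCLT
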