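import Pool.Agent.H374e.Defs
import Pool.Agent.H374e.CB6a

open MeasureTheory ProbabilityTheory Filter Topology
open scoped ENNReal NNReal InnerProductSpace

set_option linter.unusedVariables false
set_option warn.classDefReducibility false

namespace TwoSidedCLT

section pathB7c

variable {Ω S : Type*} [mΩ : MeasurableSpace Ω] [mS : MeasurableSpace S]
  {P : Measure Ω} [IsProbabilityMeasure P] {π : Measure S} {ξ : ℕ → Ω → S}
  {T : Lp ℝ 2 π →L[ℝ] Lp ℝ 2 π}

theorem b7c_mp (h : Setup P π ξ T) (s : ℕ) : MeasurePreserving (ξ s) P π := ⟨h.meas s, h.law s⟩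

theorem b7c_memLp (h : Setup P π ξ T) (u : Lp ℝ 2 π) (s : ℕ) :
    MemLp (fun ω => u (ξ s ω)) 2 P :=
  (Lp.memLp u).comp_measurePreserving (b7c_mp h s)

theorem b7c_memLpC (h : Setup P π ξ T) (u : Lp ℝ 2 π) (s : ℕ) :
    MemLp (fun ω => (u (ξ s ω) : ℂ)) 2 P :=
  (b7c_memLp h u s).ofReal

theorem b7c_past_le (h : Setup P π ξ T) (s : ℕ) : past ξ s ≤ mΩ :=
  iSup_le fun k => iSup_le fun _ => (h.meas k).comap_le

theorem b7c_meas_fut (ξ : ℕ → Ω → S) {s m : ℕ} (hsm : s ≤ m) : Measurable[fut ξ s] (ξ m) := by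
  have h1 : MeasurableSpace.comap (ξ m) mS ≤ fut ξ s := le_iSup_of_le m (le_iSup_of_le hsm le_rfl)
  exact (comap_measurable (ξ m)).mono h1 le_rfl

theorem b7c_meas_past (ξ : ℕ → Ω → S) {s m : ℕ} (hsm : s ≤ m) : Measurable[past ξ m] (ξ s) := by
  have h1 : MeasurableSpace.comap (ξ s) mS ≤ past ξ m := le_iSup_of_le s (le_iSup_of_le hsm le_rfl)
  exact (comap_measurable (ξ s)).mono h1 le_rfl

/-- one step of the chain, tested with a function of the past -/
theorem b7c_step (h : Setup P π ξ T) (u : Lp ℝ 2 π) (m : ℕ) (Y : Ω → ℂ)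
    (hY : StronglyMeasurable[past ξ m] Y) (hY2 : MemLp Y 2 P) :
    ∫ ω, Y ω * (u (ξ (m + 1) ω) : ℂ) ∂P = ∫ ω, Y ω * ((T u) (ξ m ω) : ℂ) ∂P := by
  have hle := b7c_past_le h m
  set Φ : Ω → ℂ := fun ω => (u (ξ (m + 1) ω) : ℂ) with hΦ
  have hΦ2 : MemLp Φ 2 P := b7c_memLpC h u (m + 1)
  have hΦi : Integrable Φ P := hΦ2.integrable (by norm_num)
  have hΦm : StronglyMeasurable[fut ξ m] Φ :=
    Complex.continuous_ofReal.comp_stronglyMeasurable
      ((Lp.stronglyMeasurable u).comp_measurable (b7c_meas_fut ξ (Nat.le_succ m)))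
  have h1 : P[Φ | past ξ m] =ᵐ[P] P[Φ | pres ξ m] := h.markov m Φ hΦm hΦi
  have h2 : P[Φ | pres ξ m] =ᵐ[P] fun ω => ((T u) (ξ m ω) : ℂ) := by
    have hi : Integrable (fun ω => u (ξ (m + 1) ω)) P :=
      (b7c_memLp h u (m + 1)).integrable (by norm_num)
    have h3 := Complex.ofRealCLM.comp_condExp_comm (m := pres ξ m) hi
    have h4 := h.op m u
    have h5 : (Complex.ofRealCLM ∘ fun ω => u (ξ (m + 1) ω)) = Φ := rfl
    rw [h5] at h3
    filter_upwards [h3, h4] with ω e3 e4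
    rw [← e3]
    show ((P[fun ω => u (ξ (m + 1) ω) | pres ξ m] ω : ℝ) : ℂ) = _
    rw [e4]
  have hYΦ : Integrable (fun ω => Y ω * Φ ω) P := hY2.integrable_mul hΦ2
  have h6 := condExp_bilin_of_stronglyMeasurable_left (m := past ξ m) (μ := P)
    (ContinuousLinearMap.mul ℝ ℂ) hY hYΦ hΦi
  rw [← integral_condExp hle (f := fun ω => Y ω * Φ ω)]
  apply integral_congr_ae
  filter_upwards [h1, h2, h6] with ω e1 e2 e6
  have e7 : P[fun ω => Y ω * Φ ω | past ξ m] ω = Y ω * P[Φ | past ξ m] ω := e6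
  rw [e7, e1, e2]

/-- powers of `T`, tested with a function of the past -/
theorem b7c_pow (h : Setup P π ξ T) (m n : ℕ) (Y : Ω → ℂ)
    (hY : StronglyMeasurable[past ξ m] Y) (hY2 : MemLp Y 2 P) (u : Lp ℝ 2 π) :
    ∫ ω, Y ω * (u (ξ (m + n) ω) : ℂ) ∂P = ∫ ω, Y ω * (((T ^ n) u) (ξ m ω) : ℂ) ∂P := by
  induction n generalizing u with
  | zero => rfl
  | succ n ih =>
    have hle : past ξ m ≤ past ξ (m + n) :=
      iSup_le fun k => iSup_le fun hk => le_iSup_of_le k (le_iSup_of_le (by omega) le_rfl)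
    have h1 := b7c_step h u (m + n) Y (hY.mono hle) hY2
    rw [← Nat.add_assoc, h1, ih (T u)]
    rfl

/-- the covariances -/
theorem b7c_cov (h : Setup P π ξ T) (f u : Lp ℝ 2 π) (m n : ℕ) :
    ∫ ω, f (ξ m ω) * u (ξ (m + n) ω) ∂P = ⟪f, (T ^ n) u⟫_ℝ := by
  have hY : StronglyMeasurable[past ξ m] (fun ω => (f (ξ m ω) : ℂ)) :=
    Complex.continuous_ofReal.comp_stronglyMeasurable
      ((Lp.stronglyMeasurable f).comp_measurable (b7c_meas_past ξ le_rfl))
  have h1 := b7c_pow h m n _ hY (b7c_memLpC h f m) u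
  have h2 : ∫ ω, f (ξ m ω) * u (ξ (m + n) ω) ∂P =
      ∫ ω, f (ξ m ω) * ((T ^ n) u) (ξ m ω) ∂P := by
    have e1 : ∀ ω, (f (ξ m ω) : ℂ) * (u (ξ (m + n) ω) : ℂ) =
        ((f (ξ m ω) * u (ξ (m + n) ω) : ℝ) : ℂ) := fun ω => by push_cast; rfl
    have e2 : ∀ ω, (f (ξ m ω) : ℂ) * (((T ^ n) u) (ξ m ω) : ℂ) =
        ((f (ξ m ω) * ((T ^ n) u) (ξ m ω) : ℝ) : ℂ) := fun ω => by push_cast; rfl
    simp_rw [e1, e2] at h1
    rw [integral_complex_ofReal, integral_complex_ofReal] at h1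
    exact_mod_cast h1
  rw [h2, integral_law h m (fun x => f x * ((T ^ n) u) x)
    ((Lp.aestronglyMeasurable f).mul (Lp.aestronglyMeasurable _)), L2.inner_def]
  apply integral_congr_ae
  filter_upwards with x
  show f x * ((T ^ n) u) x = ⟪f x, ((T ^ n) u) x⟫_ℝ
  rw [real_inner_eq_re_inner, RCLike.inner_apply]
  simp [mul_comm]

theorem Sb_memLp (h : Setup P π ξ T) (f : Lp ℝ 2 π) (a n : ℕ) : MemLp (Sb f ξ a n) 2 P :=
  memLp_finsetSum (Finset.range n) fun k _ => b7c_memLp h f (a + k)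

theorem Sb_sq (h : Setup P π ξ T) (f : Lp ℝ 2 π) (a n : ℕ) :
    ∫ ω, (Sb f ξ a n ω) ^ 2 ∂P = varSum T f n := by
  have e1 : ∀ ω, (Sb f ξ a n ω) ^ 2 = ∑ i ∈ Finset.range n, ∑ j ∈ Finset.range n,
      f (ξ (a + i) ω) * f (ξ (a + j) ω) := by
    intro ω
    unfold Sb
    rw [sq, Finset.sum_mul_sum]
  have i1 : ∀ i j, Integrable (fun ω => f (ξ (a + i) ω) * f (ξ (a + j) ω)) P :=
    fun i j => (b7c_memLp h f (a + i)).integrable_mul (b7c_memLp h f (a + j))
  have i2 : ∀ i ∈ Finset.range n, Integrable (fun ω => ∑ j ∈ Finset.range n,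
      f (ξ (a + i) ω) * f (ξ (a + j) ω)) P :=
    fun i _ => integrable_finsetSum _ fun j _ => i1 i j
  simp_rw [e1]
  rw [integral_finsetSum _ i2]
  unfold varSum
  refine Finset.sum_congr rfl fun i _ => ?_
  rw [integral_finsetSum _ fun j _ => i1 i j]
  refine Finset.sum_congr rfl fun j _ => ?_
  rcases le_total i j with hij | hij
  · have e2 : a + j = a + i + (j - i) := by omega
    have e3 : i - j + (j - i) = j - i := by omega
    rw [e2, e3]
    exact b7c_cov h f f (a + i) (j - i)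
  · have e2 : a + i = a + j + (i - j) := by omega
    have e3 : i - j + (j - i) = i - j := by omega
    rw [e2, e3]
    rw [← b7c_cov h f f (a + j) (i - j)]
    exact integral_congr_ae (ae_of_all _ fun ω => mul_comm _ _)

theorem Sb_law (h : Setup P π ξ T) (f : Lp ℝ 2 π) (a n : ℕ) :
    P.map (Sb f ξ a n) = P.map (Sb f ξ 0 n) := by
  have hf : Measurable (fun x : S => f x) := (Lp.stronglyMeasurable f).measurable
  let F : (ℕ → S) → ℝ := fun x => ∑ k ∈ Finset.range n, f (x k)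
  have hF : Measurable F := Finset.measurable_sum _ fun k _ => hf.comp (measurable_pi_apply k)
  have hm : ∀ b : ℕ, Measurable fun (ω : Ω) (n : ℕ) => ξ (n + b) ω :=
    fun b => measurable_pi_lambda _ fun k => h.meas (k + b)
  have e1 : ∀ b : ℕ, Sb f ξ b n = F ∘ fun (ω : Ω) (n : ℕ) => ξ (n + b) ω := by
    intro b
    funext ω
    show ∑ k ∈ Finset.range n, f (ξ (b + k) ω) = ∑ k ∈ Finset.range n, f (ξ (k + b) ω)
    exact Finset.sum_congr rfl fun k _ => by rw [Nat.add_comm]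
  rw [e1 a, e1 0, ← Measure.map_map hF (hm a), ← Measure.map_map hF (hm 0), h.stat a, h.stat 0]

end pathB7c

end TwoSidedCLT
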