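import Pool.Agent.H374e.Defs
import Pool.Agent.H374e.CAux
import Pool.Agent.H374e.CB6a
import Pool.Agent.H374e.CB6b
import Pool.Agent.H374e.CB7b
import Pool.Agent.H374e.CB7c

open MeasureTheory ProbabilityTheory Filter Topology
open scoped ENNReal NNReal InnerProductSpace

set_option linter.unusedVariables false
set_option warn.classDefReducibility false

namespace TwoSidedCLT

/-! ### elementary inequalities -/

theorem b8_exp_one (x : ℝ) : ‖1 - Complex.exp (-((x : ℂ) * Complex.I))‖ ≤ |x| := by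
  have h := Real.norm_exp_I_mul_ofReal_sub_one_le (x := -x)
  rw [norm_sub_rev]
  have e : -((x : ℂ) * Complex.I) = Complex.I * ((-x : ℝ) : ℂ) := by push_cast; ring
  rw [e]
  calc _ ≤ ‖(-x : ℝ)‖ := h
    _ = |x| := by rw [norm_neg, Real.norm_eq_abs]

theorem b8_exp_two_nonneg (x : ℝ) (hx : 0 ≤ x) :
    ‖Complex.exp ((x : ℂ) * Complex.I) - 1 - (x : ℂ) * Complex.I‖ ≤ x ^ 2 / 2 := by
  have hd : ∀ y : ℝ, HasDerivAt (fun y : ℝ => Complex.exp ((y : ℂ) * Complex.I) - 1 - (y : ℂ) * Complex.I)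
      (Complex.exp ((y : ℂ) * Complex.I) * Complex.I - Complex.I) y := by
    intro y
    have h1 : HasDerivAt (fun y : ℝ => (y : ℂ) * Complex.I) Complex.I y := by
      simpa using (Complex.ofRealCLM.hasDerivAt (x := y)).mul_const Complex.I
    have h2 := h1.cexp
    exact (h2.sub_const 1).sub h1
  have hB : ∀ y : ℝ, HasDerivAt (fun y : ℝ => y ^ 2 / 2) y y := by
    intro y
    have := ((hasDerivAt_id y).pow 2).div_const 2
    simpa using this
  have key := image_norm_le_of_norm_deriv_right_le_deriv_boundary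
    (f := fun y : ℝ => Complex.exp ((y : ℂ) * Complex.I) - 1 - (y : ℂ) * Complex.I)
    (f' := fun y : ℝ => Complex.exp ((y : ℂ) * Complex.I) * Complex.I - Complex.I)
    (a := 0) (b := x) (B := fun y : ℝ => y ^ 2 / 2) (B' := fun y => y)
    (fun y _ => (hd y).continuousAt.continuousWithinAt)
    (fun y _ => (hd y).hasDerivWithinAt) (by simp) hB (by
      intro y hy
      have e : Complex.exp ((y : ℂ) * Complex.I) * Complex.I - Complex.I
          = (Complex.exp (Complex.I * (y : ℂ)) - 1) * Complex.I := by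
        rw [mul_comm (y : ℂ)]; ring
      rw [e, norm_mul, Complex.norm_I, mul_one]
      calc _ ≤ ‖y‖ := Real.norm_exp_I_mul_ofReal_sub_one_le
        _ = y := Real.norm_of_nonneg hy.1)
  exact key ⟨hx, le_rfl⟩

theorem b8_exp_two (x : ℝ) :
    ‖Complex.exp ((x : ℂ) * Complex.I) - 1 - (x : ℂ) * Complex.I‖ ≤ x ^ 2 / 2 := by
  rcases le_total 0 x with hx | hx
  · exact b8_exp_two_nonneg x hx
  · have h := b8_exp_two_nonneg (-x) (by linarith)
    have e : (starRingEnd ℂ) (Complex.exp ((x : ℂ) * Complex.I) - 1 - (x : ℂ) * Complex.I)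
        = Complex.exp (((-x : ℝ) : ℂ) * Complex.I) - 1 - ((-x : ℝ) : ℂ) * Complex.I := by
      simp only [map_sub, map_mul, map_one, Complex.conj_I, Complex.conj_ofReal,
        ← Complex.exp_conj]
      push_cast
      ring_nf
    rw [← Complex.norm_conj, e]
    calc _ ≤ (-x) ^ 2 / 2 := h
      _ = x ^ 2 / 2 := by ring

/-- Cauchy-Schwarz for real functions -/
theorem b8_cs {Ω : Type*} [MeasurableSpace Ω] {P : Measure Ω} (a b : Ω → ℝ) (ha : MemLp a 2 P)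
    (hb : MemLp b 2 P) : ∫ ω, |a ω| * |b ω| ∂P ≤ √(∫ ω, a ω ^ 2 ∂P) * √(∫ ω, b ω ^ 2 ∂P) := by
  have h := integral_mul_le_Lp_mul_Lq_of_nonneg (μ := P) Real.HolderConjugate.two_two
    (f := fun ω => |a ω|) (g := fun ω => |b ω|)
    (Filter.Eventually.of_forall fun _ => abs_nonneg _)
    (Filter.Eventually.of_forall fun _ => abs_nonneg _)
    (by simpa using ha.norm) (by simpa using hb.norm)
  have e1 : ∀ a : Ω → ℝ, (∫ ω, |a ω| ^ (2 : ℝ) ∂P) ^ ((1 : ℝ) / 2) = √(∫ ω, a ω ^ 2 ∂P) := by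
    intro a
    rw [Real.sqrt_eq_rpow]
    congr 1
    refine integral_congr_ae (Filter.Eventually.of_forall fun ω => ?_)
    simp only
    rw [Real.rpow_two, sq_abs]
  rw [e1, e1] at h
  exact h

theorem b8_sum_sqrt (E : ℕ → ℝ) (h0 : ∀ s, 0 ≤ E s) (h1 : ∀ s, E s ≤ 1) (n t : ℕ)
    (hd : ∀ s, E (s + n) ≤ E s) :
    ∑ s ∈ Finset.range t, √(E s - E (s + n)) ≤ √(t : ℝ) * √(n : ℝ) := by
  have hsum : ∑ s ∈ Finset.range t, (E s - E (s + n)) ≤ n := by
    have e : ∑ s ∈ Finset.range t, (E s - E (s + n))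
        = ∑ s ∈ Finset.range n, (E s - E (t + s)) := by
      rw [Finset.sum_sub_distrib, Finset.sum_sub_distrib]
      have h1 : ∑ s ∈ Finset.range (t + n), E s
          = ∑ s ∈ Finset.range t, E s + ∑ s ∈ Finset.range n, E (t + s) :=
        Finset.sum_range_add _ _ _
      have h2 : ∑ s ∈ Finset.range (n + t), E s
          = ∑ s ∈ Finset.range n, E s + ∑ s ∈ Finset.range t, E (n + s) :=
        Finset.sum_range_add _ _ _
      have h3 : ∑ s ∈ Finset.range t, E (n + s) = ∑ s ∈ Finset.range t, E (s + n) :=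
        Finset.sum_congr rfl fun s _ => by rw [add_comm]
      rw [add_comm n t, h1, h3] at h2
      linarith
    rw [e]
    calc ∑ s ∈ Finset.range n, (E s - E (t + s)) ≤ ∑ s ∈ Finset.range n, (1 : ℝ) :=
          Finset.sum_le_sum fun s _ => by linarith [h0 (t + s), h1 s]
      _ = n := by simp
  have hcs := Finset.sum_mul_sq_le_sq_mul_sq (Finset.range t) (fun _ => (1 : ℝ))
    (fun s => √(E s - E (s + n)))
  have e2 : ∑ s ∈ Finset.range t, √(E s - E (s + n)) ^ 2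
      = ∑ s ∈ Finset.range t, (E s - E (s + n)) :=
    Finset.sum_congr rfl fun s _ => Real.sq_sqrt (by linarith [hd s])
  simp only [one_mul, one_pow, e2, Finset.sum_const, Finset.card_range, nsmul_eq_mul,
    mul_one] at hcs
  have h3 : (∑ s ∈ Finset.range t, √(E s - E (s + n))) ^ 2 ≤ t * n :=
    hcs.trans (mul_le_mul_of_nonneg_left hsum (Nat.cast_nonneg t))
  rw [← Real.sqrt_mul (Nat.cast_nonneg t)]
  exact Real.le_sqrt_of_sq_le h3

section pathB8aux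

variable {Ω S : Type*} [mΩ : MeasurableSpace Ω] [mS : MeasurableSpace S]
  {P : Measure Ω} [IsProbabilityMeasure P] {π : Measure S} {ξ : ℕ → Ω → S}
  {T : Lp ℝ 2 π →L[ℝ] Lp ℝ 2 π}

theorem b8_norm_sq (h : Setup P π ξ T) (u : Lp ℝ 2 π) (s : ℕ) :
    ∫ ω, (u (ξ s ω)) ^ 2 ∂P = ‖u‖ ^ 2 := by
  rw [integral_law h s (fun x => (u x) ^ 2) ((Lp.aestronglyMeasurable u).pow 2),
    ← real_inner_self_eq_norm_sq, L2.inner_def]
  refine integral_congr_ae (Filter.Eventually.of_forall fun x => ?_)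
  simp [sq]

theorem b8_sqrt_norm (h : Setup P π ξ T) (u : Lp ℝ 2 π) (s : ℕ) :
    √(∫ ω, (u (ξ s ω)) ^ 2 ∂P) = ‖u‖ := by
  rw [b8_norm_sq h, Real.sqrt_sq (norm_nonneg _)]

theorem b8_S_le (h : Setup P π ξ T) (f : Lp ℝ 2 π) (C0 : ℝ) (hC0 : 0 ≤ C0)
    (hvar : ∀ n : ℕ, varSum T f n ≤ C0 ^ 2 * n) (s n : ℕ) :
    √(∫ ω, (Sb f ξ s n ω) ^ 2 ∂P) ≤ C0 * √(n : ℝ) := by
  rw [Sb_sq h]
  calc √(varSum T f n) ≤ √(C0 ^ 2 * n) := Real.sqrt_le_sqrt (hvar n)
    _ = C0 * √(n : ℝ) := by rw [Real.sqrt_mul (by positivity), Real.sqrt_sq hC0]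

theorem b8_eb_sub (f : S → ℝ) (lam : ℝ) (a n : ℕ) (ω : Ω) :
    ‖eb f ξ lam a n ω - 1‖ ≤ |lam| * |Sb f ξ a n ω| := by
  have h := Real.norm_exp_I_mul_ofReal_sub_one_le (x := lam * Sb f ξ a n ω)
  unfold eb
  rw [mul_comm ((lam * Sb f ξ a n ω : ℝ) : ℂ)]
  calc _ ≤ _ := h
    _ = |lam| * |Sb f ξ a n ω| := by rw [Real.norm_eq_abs, abs_mul]

theorem Tn_bound_L2 (h : Setup P π ξ T) (f : Lp ℝ 2 π) (C0 : ℝ) (hC0 : 0 ≤ C0)
    (hvar : ∀ n : ℕ, varSum T f n ≤ C0 ^ 2 * n) (c : ℝ) (N : ℕ) (hN : 1 ≤ N) (t : ℕ) (ht : t ≤ N)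
    (n : ℕ) (hn : 1 ≤ n) (u : Lp ℝ 2 π) :
    |c| / √(N : ℝ) * ‖Dd P f u ξ (c / √(N : ℝ)) t n‖ / (2 * n)
      ≤ c ^ 2 / 2 * C0 * (‖u‖ / √(n : ℝ)) := by
  set lam := c / √(N : ℝ) with hlam
  have hN0 : (0 : ℝ) < N := by exact_mod_cast hN
  have hn0 : (0 : ℝ) < n := by exact_mod_cast hn
  have hsN : 0 < √(N : ℝ) := Real.sqrt_pos.mpr hN0
  have hsn : 0 < √(n : ℝ) := Real.sqrt_pos.mpr hn0
  have hterm : ∀ s, ‖∫ ω, Ye P f ξ lam s ω * (eb f ξ lam s n ω - 1) * (u (ξ (s + n) ω) : ℂ) ∂P‖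
      ≤ |lam| * (C0 * √(n : ℝ)) * ‖u‖ := by
    intro s
    have hS := Sb_memLp h f s n
    have hu := au_memLp h u (s + n)
    have hi : Integrable (fun ω => |Sb f ξ s n ω| * |u (ξ (s + n) ω)|) P :=
      hS.abs.integrable_mul hu.abs
    calc _ ≤ ∫ ω, ‖Ye P f ξ lam s ω * (eb f ξ lam s n ω - 1) * (u (ξ (s + n) ω) : ℂ)‖ ∂P :=
          norm_integral_le_integral_norm _
      _ ≤ ∫ ω, |lam| * (|Sb f ξ s n ω| * |u (ξ (s + n) ω)|) ∂P := by
          refine integral_mono_of_nonneg (Filter.Eventually.of_forall fun _ => norm_nonneg _)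
            (hi.const_mul _) ?_
          filter_upwards [Ye_norm_le h f lam s] with ω hω
          rw [norm_mul, norm_mul, Complex.norm_real, Real.norm_eq_abs]
          have h1 := b8_eb_sub f lam s n ω (ξ := ξ)
          calc _ ≤ 1 * (|lam| * |Sb f ξ s n ω|) * |u (ξ (s + n) ω)| := by gcongr
            _ = _ := by ring
      _ = |lam| * ∫ ω, |Sb f ξ s n ω| * |u (ξ (s + n) ω)| ∂P := integral_const_mul _ _
      _ ≤ |lam| * (√(∫ ω, (Sb f ξ s n ω) ^ 2 ∂P) * √(∫ ω, (u (ξ (s + n) ω)) ^ 2 ∂P)) := by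
          gcongr
          exact b8_cs _ _ hS hu
      _ ≤ |lam| * ((C0 * √(n : ℝ)) * ‖u‖) := by
          rw [b8_sqrt_norm h]
          gcongr
          exact b8_S_le h f C0 hC0 hvar s n
      _ = _ := by ring
  have hD : ‖Dd P f u ξ lam t n‖ ≤ t * (|lam| * (C0 * √(n : ℝ)) * ‖u‖) := by
    unfold Dd
    calc _ ≤ ∑ s ∈ Finset.range t, _ := norm_sum_le _ _
      _ ≤ ∑ s ∈ Finset.range t, (|lam| * (C0 * √(n : ℝ)) * ‖u‖) :=
          Finset.sum_le_sum fun s _ => hterm s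
      _ = _ := by simp
  have hlamabs : |lam| = |c| / √(N : ℝ) := by
    rw [hlam, abs_div, abs_of_pos hsN]
  have hlam2 : |c| / √(N : ℝ) * |lam| * N = c ^ 2 := by
    rw [hlamabs]
    have : √(N : ℝ) * √(N : ℝ) = N := Real.mul_self_sqrt hN0.le
    have h2 : |c| / √(N : ℝ) * (|c| / √(N : ℝ)) * N = |c| ^ 2 * (N / (√(N : ℝ) * √(N : ℝ))) := by
      field_simp
    rw [h2, this, div_self hN0.ne', sq_abs, mul_one]
  have ht' : (t : ℝ) ≤ N := by exact_mod_cast ht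
  calc |c| / √(N : ℝ) * ‖Dd P f u ξ lam t n‖ / (2 * n)
      ≤ |c| / √(N : ℝ) * (N * (|lam| * (C0 * √(n : ℝ)) * ‖u‖)) / (2 * n) := by
        gcongr
        exact hD.trans (by gcongr)
    _ = (|c| / √(N : ℝ) * |lam| * N) * (C0 * ‖u‖) * (√(n : ℝ) / n) / 2 := by
        field_simp
    _ = c ^ 2 / 2 * C0 * (‖u‖ / √(n : ℝ)) := by
        rw [hlam2]
        have : √(n : ℝ) / n = 1 / √(n : ℝ) := by
          rw [div_eq_div_iff hn0.ne' hsn.ne', Real.mul_self_sqrt hn0.le, one_mul]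
        rw [this]
        ring

theorem b8_Sint (h : Setup P π ξ T) (f : Lp ℝ 2 π) (a n : ℕ) :
    Integrable (fun ω => (Sb f ξ a n ω) ^ 2) P := (Sb_memLp h f a n).integrable_sq

/-- bound of a single term -/
theorem b8_term (h : Setup P π ξ T) (f : Lp ℝ 2 π) (C0 : ℝ) (hC0 : 0 ≤ C0)
    (hvar : ∀ n : ℕ, varSum T f n ≤ C0 ^ 2 * n) (lam : ℝ) (s n : ℕ) (u : Lp ℝ 2 π) (B : ℝ)
    (hB : 0 < B) :
    ‖∫ ω, Ye P f ξ lam s ω * (eb f ξ lam s n ω - 1) * (u (ξ (s + n) ω) : ℂ) ∂P‖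
      ≤ |lam| * (‖Nn T f n‖ * ‖u‖) + lam ^ 2 / 2 * (C0 ^ 2 * n) * B
        + |lam| * B * (C0 * √(n : ℝ)) *
          √((∫ ω, ‖Ye P f ξ lam s ω‖ ^ 2 ∂P) - ∫ ω, ‖Ye P f ξ lam (s + n) ω‖ ^ 2 ∂P)
        + 2 * ∫ x in {x | B < |u x|}, |u x| ∂π := by
  have hum : Measurable (u : S → ℝ) := (Lp.stronglyMeasurable u).measurable
  have hVm : MeasurableSet {x | B < |u x|} := measurableSet_lt measurable_const hum.abs
  set v : S → ℝ := fun x => if B < |u x| then 0 else u x with hv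
  set w : S → ℝ := fun x => if B < |u x| then u x else 0 with hw
  have huvw : ∀ x, u x = v x + w x := by
    intro x; simp only [hv, hw]; split_ifs <;> simp
  have hvm : Measurable v := Measurable.ite hVm measurable_const hum
  have hwm : Measurable w := Measurable.ite hVm hum measurable_const
  have hvB : ∀ x, |v x| ≤ B := by
    intro x; simp only [hv]; split_ifs with hx
    · simp [hB.le]
    · exact not_lt.mp hx
  have hvu : ∀ x, |v x| ≤ |u x| := by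
    intro x; simp only [hv]; split_ifs with hx
    · simp
    · exact le_rfl
  have hwu : ∀ x, |w x| ≤ |u x| := by
    intro x; simp only [hw]; split_ifs with hx
    · exact le_rfl
    · simp
  have hξ : Measurable (ξ (s + n)) := h.meas (s + n)
  have hui := au_int h u (s + n)
  have hwi : Integrable (fun ω => w (ξ (s + n) ω)) P :=
    hui.mono (hwm.comp hξ).aestronglyMeasurable (Filter.Eventually.of_forall fun ω => hwu _)
  have hvi : Integrable (fun ω => v (ξ (s + n) ω)) P :=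
    hui.mono (hvm.comp hξ).aestronglyMeasurable (Filter.Eventually.of_forall fun ω => hvu _)
  have hYae := au_Ye_ae h f lam s
  have hY2ae := au_Ye_ae h f lam (s + n)
  have heae := au_eb_ae h f lam s n
  have hY1 := Ye_norm_le h f lam s
  have hY2 := Ye_norm_le h f lam (s + n)
  have hSm := Sb_memLp h f s n
  have hSi := b8_Sint h f s n
  -- the factor q
  set x : Ω → ℝ := fun ω => lam * Sb f ξ s n ω with hx
  set q : Ω → ℂ := fun ω => 1 - Complex.exp (-((x ω : ℂ) * Complex.I)) with hq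
  set eps : Ω → ℂ := fun ω => Ye P f ξ lam (s + n) ω - eb f ξ lam s n ω * Ye P f ξ lam s ω with heps
  have hxae : AEStronglyMeasurable (fun ω => (x ω : ℂ)) P :=
    Complex.continuous_ofReal.comp_aestronglyMeasurable (hSm.1.const_mul lam)
  have hqae : AEStronglyMeasurable q P := by
    refine aestronglyMeasurable_const.sub ?_
    exact Complex.continuous_exp.comp_aestronglyMeasurable ((hxae.mul_const Complex.I).neg)
  have hepsae : AEStronglyMeasurable eps P := hY2ae.sub (heae.mul hYae)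
  have hqx : ∀ ω, ‖q ω‖ ≤ |lam| * |Sb f ξ s n ω| := by
    intro ω
    calc ‖q ω‖ ≤ |x ω| := b8_exp_one (x ω)
      _ = _ := abs_mul _ _
  have hq2 : ∀ ω, ‖q ω‖ ≤ 2 := by
    intro ω
    calc ‖q ω‖ ≤ ‖(1 : ℂ)‖ + ‖Complex.exp (-((x ω : ℂ) * Complex.I))‖ := norm_sub_le _ _
      _ = 2 := by
        have : -((x ω : ℂ) * Complex.I) = ((-x ω : ℝ) : ℂ) * Complex.I := by push_cast; ring
        rw [this, Complex.norm_exp_ofReal_mul_I]; norm_num
  have hr : ∀ ω, ‖q ω - (x ω : ℂ) * Complex.I‖ ≤ lam ^ 2 / 2 * (Sb f ξ s n ω) ^ 2 := by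
    intro ω
    have h1 := b8_exp_two (-(x ω))
    have e : q ω - (x ω : ℂ) * Complex.I
        = -(Complex.exp (((-x ω : ℝ) : ℂ) * Complex.I) - 1 - ((-x ω : ℝ) : ℂ) * Complex.I) := by
      simp only [hq]; push_cast; ring_nf
    rw [e, norm_neg]
    calc _ ≤ (-(x ω)) ^ 2 / 2 := h1
      _ = _ := by simp only [hx]; ring
  have hqe : ∀ ω, q ω * eb f ξ lam s n ω = eb f ξ lam s n ω - 1 := by
    intro ω
    have : Complex.exp (-((x ω : ℂ) * Complex.I)) * eb f ξ lam s n ω = 1 := by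
      unfold eb
      rw [← Complex.exp_add]
      simp [hx]
    simp only [hq]
    rw [sub_mul, this, one_mul]
  have heps2 : ∀ᵐ ω ∂P, ‖eps ω‖ ≤ 2 := by
    filter_upwards [hY1, hY2] with ω h1 h2
    calc ‖eps ω‖ ≤ ‖Ye P f ξ lam (s + n) ω‖ + ‖eb f ξ lam s n ω * Ye P f ξ lam s ω‖ :=
          norm_sub_le _ _
      _ ≤ 1 + 1 := by
          rw [norm_mul, au_eb_norm, one_mul]; exact add_le_add h2 h1
      _ = 2 := by norm_num
  have hepsL : MemLp (fun ω => ‖eps ω‖) 2 P :=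
    MemLp.of_bound hepsae.norm 2 (by simpa using heps2)
  have hE : ∫ ω, ‖eps ω‖ ^ 2 ∂P
      = (∫ ω, ‖Ye P f ξ lam s ω‖ ^ 2 ∂P) - ∫ ω, ‖Ye P f ξ lam (s + n) ω‖ ^ 2 ∂P :=
    energy h f lam s n
  -- integrability
  have hvC : Integrable (fun ω => (v (ξ (s + n) ω) : ℂ)) P := hvi.ofReal
  have hwC : Integrable (fun ω => (w (ξ (s + n) ω) : ℂ)) P := hwi.ofReal
  have hGi : MemLp (fun ω => Ye P f ξ lam (s + n) ω * (v (ξ (s + n) ω) : ℂ)) 2 P := by
    refine MemLp.of_bound (hY2ae.mul hvC.1) B ?_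
    filter_upwards [hY2] with ω h2
    rw [norm_mul, Complex.norm_real, Real.norm_eq_abs]
    calc _ ≤ 1 * B := by
          gcongr
          exact hvB _
      _ = B := one_mul B
  have hGm : StronglyMeasurable[pres ξ (s + n)]
      (fun ω => Ye P f ξ lam (s + n) ω * (v (ξ (s + n) ω) : ℂ)) := by
    refine (Ye_meas (P := P) f lam (s + n)).mul ?_
    have h1 : StronglyMeasurable[mS] (fun x => (v x : ℂ)) :=
      Complex.continuous_ofReal.comp_stronglyMeasurable hvm.stronglyMeasurable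
    exact h1.comp_measurable (comap_measurable (ξ (s + n)))
  -- term 1
  set I1 : ℂ := ∫ ω, (Sb f ξ s n ω : ℂ) * (Ye P f ξ lam (s + n) ω * (v (ξ (s + n) ω) : ℂ)) ∂P
    with hI1
  set I2 : ℂ := ∫ ω, (q ω - (x ω : ℂ) * Complex.I) *
    (Ye P f ξ lam (s + n) ω * (v (ξ (s + n) ω) : ℂ)) ∂P with hI2
  set I3 : ℂ := ∫ ω, q ω * eps ω * (v (ξ (s + n) ω) : ℂ) ∂P with hI3
  set I4 : ℂ := ∫ ω, Ye P f ξ lam s ω * (eb f ξ lam s n ω - 1) * (w (ξ (s + n) ω) : ℂ) ∂P with hI4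
  have hi1 : Integrable (fun ω => (Sb f ξ s n ω : ℂ) *
      (Ye P f ξ lam (s + n) ω * (v (ξ (s + n) ω) : ℂ))) P :=
    hSm.ofReal.integrable_mul hGi
  have hi2 : Integrable (fun ω => (q ω - (x ω : ℂ) * Complex.I) *
      (Ye P f ξ lam (s + n) ω * (v (ξ (s + n) ω) : ℂ))) P := by
    refine ((hSi.const_mul (lam ^ 2 / 2)).mul_const B).mono
      ((hqae.sub (hxae.mul_const _)).mul hGi.1) ?_
    filter_upwards [hY2] with ω h2
    rw [norm_mul, norm_mul, Complex.norm_real, Real.norm_eq_abs, Real.norm_eq_abs]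
    have hnn : 0 ≤ lam ^ 2 / 2 * (Sb f ξ s n ω) ^ 2 * B := by positivity
    rw [abs_of_nonneg hnn]
    calc _ ≤ (lam ^ 2 / 2 * (Sb f ξ s n ω) ^ 2) * (1 * B) := by
          gcongr
          · exact hr ω
          · exact hvB _
      _ = _ := by ring
  have hi3 : Integrable (fun ω => q ω * eps ω * (v (ξ (s + n) ω) : ℂ)) P := by
    refine hvC.bdd_mul (c := 4) (hqae.mul hepsae) ?_
    filter_upwards [heps2] with ω h2
    rw [norm_mul]
    calc _ ≤ (2 : ℝ) * 2 := by gcongr; exact hq2 ω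
      _ = 4 := by norm_num
  have hi4 : Integrable (fun ω => Ye P f ξ lam s ω * (eb f ξ lam s n ω - 1) *
      (w (ξ (s + n) ω) : ℂ)) P := by
    refine hwC.bdd_mul (c := 2) (hYae.mul (heae.sub aestronglyMeasurable_const)) ?_
    filter_upwards [hY1] with ω h1
    rw [norm_mul]
    calc _ ≤ (1 : ℝ) * (1 + 1) := by
          gcongr
          calc _ ≤ ‖eb f ξ lam s n ω‖ + ‖(1 : ℂ)‖ := norm_sub_le _ _
            _ = 1 + 1 := by rw [au_eb_norm, norm_one]
      _ = 2 := by norm_num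
  have hdec : ∫ ω, Ye P f ξ lam s ω * (eb f ξ lam s n ω - 1) * (u (ξ (s + n) ω) : ℂ) ∂P
      = (lam : ℂ) * Complex.I * I1 + I2 - I3 + I4 := by
    have hi12 : Integrable (fun ω => (lam : ℂ) * Complex.I * ((Sb f ξ s n ω : ℂ) *
        (Ye P f ξ lam (s + n) ω * (v (ξ (s + n) ω) : ℂ))) + (q ω - (x ω : ℂ) * Complex.I) *
        (Ye P f ξ lam (s + n) ω * (v (ξ (s + n) ω) : ℂ))) P := (hi1.const_mul _).add hi2
    have hi123 : Integrable (fun ω => (lam : ℂ) * Complex.I * ((Sb f ξ s n ω : ℂ) *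
        (Ye P f ξ lam (s + n) ω * (v (ξ (s + n) ω) : ℂ))) + (q ω - (x ω : ℂ) * Complex.I) *
        (Ye P f ξ lam (s + n) ω * (v (ξ (s + n) ω) : ℂ)) - q ω * eps ω *
        (v (ξ (s + n) ω) : ℂ)) P := hi12.sub hi3
    rw [hI1, hI2, hI3, hI4, ← integral_const_mul, ← integral_add (hi1.const_mul _) hi2,
      ← integral_sub hi12 hi3, ← integral_add hi123 hi4]
    refine integral_congr_ae (Filter.Eventually.of_forall fun ω => ?_)
    simp only [Pi.add_apply, Pi.sub_apply]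
    rw [huvw (ξ (s + n) ω)]
    have h1 := hqe ω
    simp only [heps, hx]
    push_cast
    linear_combination (- Ye P f ξ lam s ω * (v (ξ (s + n) ω) : ℂ)) * h1
  have hb1 : ‖I1‖ ≤ ‖Nn T f n‖ * ‖u‖ := by
    rw [hI1, Sb_back h f s n _ hGm hGi]
    have hNu : Integrable (fun ω => |(Nn T f n) (ξ (s + n) ω)| * |u (ξ (s + n) ω)|) P :=
      (au_memLp h (Nn T f n) (s + n)).abs.integrable_mul (au_memLp h u (s + n)).abs
    calc _ ≤ ∫ ω, ‖((Nn T f n) (ξ (s + n) ω) : ℂ) *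
          (Ye P f ξ lam (s + n) ω * (v (ξ (s + n) ω) : ℂ))‖ ∂P := norm_integral_le_integral_norm _
      _ ≤ ∫ ω, |(Nn T f n) (ξ (s + n) ω)| * |u (ξ (s + n) ω)| ∂P := by
          refine integral_mono_of_nonneg (Filter.Eventually.of_forall fun _ => norm_nonneg _) hNu ?_
          filter_upwards [hY2] with ω h2
          rw [norm_mul, norm_mul, Complex.norm_real, Complex.norm_real, Real.norm_eq_abs,
            Real.norm_eq_abs]
          calc _ ≤ |(Nn T f n) (ξ (s + n) ω)| * (1 * |u (ξ (s + n) ω)|) :=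
                mul_le_mul_of_nonneg_left (mul_le_mul h2 (hvu _) (abs_nonneg _) zero_le_one)
                  (abs_nonneg _)
            _ = _ := by ring
      _ ≤ √(∫ ω, ((Nn T f n) (ξ (s + n) ω)) ^ 2 ∂P) * √(∫ ω, (u (ξ (s + n) ω)) ^ 2 ∂P) :=
          b8_cs _ _ (au_memLp h (Nn T f n) (s + n)) (au_memLp h u (s + n))
      _ = _ := by rw [b8_sqrt_norm h, b8_sqrt_norm h]
  have hb2 : ‖I2‖ ≤ lam ^ 2 / 2 * (C0 ^ 2 * n) * B := by
    calc ‖I2‖ ≤ ∫ ω, ‖(q ω - (x ω : ℂ) * Complex.I) *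
          (Ye P f ξ lam (s + n) ω * (v (ξ (s + n) ω) : ℂ))‖ ∂P := norm_integral_le_integral_norm _
      _ ≤ ∫ ω, lam ^ 2 / 2 * (Sb f ξ s n ω) ^ 2 * B ∂P := by
          refine integral_mono_of_nonneg (Filter.Eventually.of_forall fun _ => norm_nonneg _)
            ((hSi.const_mul (lam ^ 2 / 2)).mul_const B) ?_
          filter_upwards [hY2] with ω h2
          rw [norm_mul, norm_mul, Complex.norm_real, Real.norm_eq_abs]
          calc _ ≤ (lam ^ 2 / 2 * (Sb f ξ s n ω) ^ 2) * (1 * B) := by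
                gcongr
                · exact hr ω
                · exact hvB _
            _ = _ := by ring
      _ = lam ^ 2 / 2 * (∫ ω, (Sb f ξ s n ω) ^ 2 ∂P) * B := by
          rw [integral_mul_const, integral_const_mul]
      _ ≤ _ := by
          rw [Sb_sq h]
          gcongr
          exact hvar n
  have hb3 : ‖I3‖ ≤ |lam| * B * (C0 * √(n : ℝ)) *
      √((∫ ω, ‖Ye P f ξ lam s ω‖ ^ 2 ∂P) - ∫ ω, ‖Ye P f ξ lam (s + n) ω‖ ^ 2 ∂P) := by
    have hSe : Integrable (fun ω => |Sb f ξ s n ω| * |‖eps ω‖|) P :=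
      hSm.abs.integrable_mul hepsL.abs
    calc ‖I3‖ ≤ ∫ ω, ‖q ω * eps ω * (v (ξ (s + n) ω) : ℂ)‖ ∂P := norm_integral_le_integral_norm _
      _ ≤ ∫ ω, |lam| * B * (|Sb f ξ s n ω| * |‖eps ω‖|) ∂P := by
          refine integral_mono_of_nonneg (Filter.Eventually.of_forall fun _ => norm_nonneg _)
            (hSe.const_mul _) ?_
          filter_upwards with ω
          rw [norm_mul, norm_mul, Complex.norm_real, Real.norm_eq_abs, abs_norm]
          calc _ ≤ (|lam| * |Sb f ξ s n ω|) * ‖eps ω‖ * B := by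
                gcongr
                · exact hqx ω
                · exact hvB _
            _ = _ := by ring
      _ = |lam| * B * ∫ ω, |Sb f ξ s n ω| * |‖eps ω‖| ∂P := integral_const_mul _ _
      _ ≤ |lam| * B * (√(∫ ω, (Sb f ξ s n ω) ^ 2 ∂P) * √(∫ ω, ‖eps ω‖ ^ 2 ∂P)) := by
          gcongr
          exact b8_cs _ _ hSm hepsL
      _ ≤ |lam| * B * ((C0 * √(n : ℝ)) * √(∫ ω, ‖eps ω‖ ^ 2 ∂P)) := by
          gcongr
          exact b8_S_le h f C0 hC0 hvar s n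
      _ = _ := by rw [hE]; ring
  have hW : ∫ ω, |w (ξ (s + n) ω)| ∂P = ∫ x in {x | B < |u x|}, |u x| ∂π := by
    rw [integral_law h (s + n) (fun x => |w x|) hwm.abs.aestronglyMeasurable,
      ← integral_indicator hVm]
    refine integral_congr_ae (Filter.Eventually.of_forall fun x => ?_)
    simp only [hw, Set.indicator, Set.mem_ofPred_eq]
    split_ifs <;> simp
  have hb4 : ‖I4‖ ≤ 2 * ∫ x in {x | B < |u x|}, |u x| ∂π := by
    calc ‖I4‖ ≤ ∫ ω, ‖Ye P f ξ lam s ω * (eb f ξ lam s n ω - 1) * (w (ξ (s + n) ω) : ℂ)‖ ∂P :=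
          norm_integral_le_integral_norm _
      _ ≤ ∫ ω, 2 * |w (ξ (s + n) ω)| ∂P := by
          refine integral_mono_of_nonneg (Filter.Eventually.of_forall fun _ => norm_nonneg _)
            (hwi.abs.const_mul 2) ?_
          filter_upwards [hY1] with ω h1
          rw [norm_mul, norm_mul, Complex.norm_real, Real.norm_eq_abs]
          calc _ ≤ 1 * (1 + 1) * |w (ξ (s + n) ω)| := by
                gcongr
                calc _ ≤ ‖eb f ξ lam s n ω‖ + ‖(1 : ℂ)‖ := norm_sub_le _ _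
                  _ = 1 + 1 := by rw [au_eb_norm, norm_one]
            _ = _ := by ring
      _ = 2 * ∫ ω, |w (ξ (s + n) ω)| ∂P := integral_const_mul _ _
      _ = _ := by rw [hW]
  rw [hdec]
  calc ‖(lam : ℂ) * Complex.I * I1 + I2 - I3 + I4‖
      ≤ ‖(lam : ℂ) * Complex.I * I1‖ + ‖I2‖ + ‖I3‖ + ‖I4‖ := by
        calc _ ≤ ‖(lam : ℂ) * Complex.I * I1 + I2 - I3‖ + ‖I4‖ := norm_add_le _ _
          _ ≤ ‖(lam : ℂ) * Complex.I * I1 + I2‖ + ‖I3‖ + ‖I4‖ := by
              gcongr; exact norm_sub_le _ _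
          _ ≤ _ := by gcongr; exact norm_add_le _ _
    _ ≤ _ := by
        have : ‖(lam : ℂ) * Complex.I * I1‖ = |lam| * ‖I1‖ := by
          rw [norm_mul, norm_mul, Complex.norm_I, Complex.norm_real, Real.norm_eq_abs, mul_one]
        rw [this]
        gcongr

theorem b8_alg (C B C0 W X m k N n : ℝ) (hm : 0 < m) (hk : 0 < k) (hN : m ^ 2 = N)
    (hn : k ^ 2 = n) :
    C / m * (N * (C / m * X + C ^ 2 / m ^ 2 / 2 * (C0 ^ 2 * n) * B + 2 * W)
      + C / m * B * (C0 * k) * (m * k)) / (2 * n)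
    = C ^ 2 / 2 * (X / n) + (C * C ^ 2 / 4 * C0 ^ 2 + C ^ 2 / 2 * C0) * (B / m)
      + C * m / n * W := by
  subst hN hn
  field_simp
  ring

/-- the basic bound for one scale -/
theorem Tn_bound (h : Setup P π ξ T) (f : Lp ℝ 2 π) (C0 : ℝ) (hC0 : 0 ≤ C0)
    (hvar : ∀ n : ℕ, varSum T f n ≤ C0 ^ 2 * n) (c : ℝ) (N : ℕ) (hN : 1 ≤ N) (t : ℕ) (ht : t ≤ N)
    (n : ℕ) (hn : 1 ≤ n) (u : Lp ℝ 2 π) (B : ℝ) (hB : 0 < B) :
    |c| / √(N : ℝ) * ‖Dd P f u ξ (c / √(N : ℝ)) t n‖ / (2 * n)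
      ≤ c ^ 2 / 2 * (‖Nn T f n‖ * ‖u‖ / n)
        + (|c| ^ 3 / 4 * C0 ^ 2 + c ^ 2 / 2 * C0) * (B / √(N : ℝ))
        + |c| * √(N : ℝ) / n * ∫ x in {x | B < |u x|}, |u x| ∂π := by
  set lam := c / √(N : ℝ) with hlam
  set W := ∫ x in {x | B < |u x|}, |u x| ∂π with hWdef
  have hN0 : (0 : ℝ) < N := by exact_mod_cast hN
  have hn0 : (0 : ℝ) < n := by exact_mod_cast hn
  have hsN : 0 < √(N : ℝ) := Real.sqrt_pos.mpr hN0
  have hsn : 0 < √(n : ℝ) := Real.sqrt_pos.mpr hn0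
  have hW0 : 0 ≤ W := setIntegral_nonneg_of_ae_restrict (Filter.Eventually.of_forall fun x => abs_nonneg _)
  set E : ℕ → ℝ := fun s => ∫ ω, ‖Ye P f ξ lam s ω‖ ^ 2 ∂P with hE
  have hE0 : ∀ s, 0 ≤ E s := fun s => integral_nonneg fun ω => by positivity
  have hE1 : ∀ s, E s ≤ 1 := by
    intro s
    calc E s ≤ ∫ ω, (1 : ℝ) ∂P := by
          refine integral_mono_of_nonneg (Filter.Eventually.of_forall fun _ => by positivity)
            (integrable_const _) ?_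
          filter_upwards [Ye_norm_le h f lam s] with ω hω
          have h0 := norm_nonneg (Ye P f ξ lam s ω)
          nlinarith
      _ = 1 := by simp
  have hEd : ∀ s, E (s + n) ≤ E s := by
    intro s
    have h1 := energy h f lam s n
    have h2 : 0 ≤ ∫ ω, ‖Ye P f ξ lam (s + n) ω - eb f ξ lam s n ω * Ye P f ξ lam s ω‖ ^ 2 ∂P :=
      integral_nonneg fun ω => by positivity
    simp only [hE]
    linarith
  have hsum := b8_sum_sqrt E hE0 hE1 n t hEd
  have ht' : (t : ℝ) ≤ N := by exact_mod_cast ht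
  have hD : ‖Dd P f u ξ lam t n‖ ≤ N * (|lam| * (‖Nn T f n‖ * ‖u‖) + lam ^ 2 / 2 * (C0 ^ 2 * n) * B
      + 2 * W) + |lam| * B * (C0 * √(n : ℝ)) * (√(N : ℝ) * √(n : ℝ)) := by
    unfold Dd
    calc _ ≤ ∑ s ∈ Finset.range t, ‖∫ ω, Ye P f ξ lam s ω * (eb f ξ lam s n ω - 1) *
          (u (ξ (s + n) ω) : ℂ) ∂P‖ := norm_sum_le _ _
      _ ≤ ∑ s ∈ Finset.range t, ((|lam| * (‖Nn T f n‖ * ‖u‖) + lam ^ 2 / 2 * (C0 ^ 2 * n) * B
            + 2 * W) + |lam| * B * (C0 * √(n : ℝ)) * √(E s - E (s + n))) := by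
          refine Finset.sum_le_sum fun s _ => ?_
          have := b8_term h f C0 hC0 hvar lam s n u B hB
          simp only [hE, hWdef]
          linarith
      _ = t * (|lam| * (‖Nn T f n‖ * ‖u‖) + lam ^ 2 / 2 * (C0 ^ 2 * n) * B + 2 * W)
            + |lam| * B * (C0 * √(n : ℝ)) * ∑ s ∈ Finset.range t, √(E s - E (s + n)) := by
          rw [Finset.sum_add_distrib, ← Finset.mul_sum]; simp; ring
      _ ≤ _ := by
          have h3 : √(t : ℝ) ≤ √(N : ℝ) := Real.sqrt_le_sqrt ht'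
          have h4 : 0 ≤ |lam| * (‖Nn T f n‖ * ‖u‖) + lam ^ 2 / 2 * (C0 ^ 2 * n) * B + 2 * W := by
            positivity
          have h5 : ∑ s ∈ Finset.range t, √(E s - E (s + n)) ≤ √(N : ℝ) * √(n : ℝ) :=
            hsum.trans (by gcongr)
          gcongr
  have hlamabs : |lam| = |c| / √(N : ℝ) := by
    rw [hlam, abs_div, abs_of_pos hsN]
  have hNN : √(N : ℝ) ^ 2 = N := Real.sq_sqrt hN0.le
  have hnn : √(n : ℝ) ^ 2 = n := Real.sq_sqrt hn0.le
  have hc3 : |c| ^ 3 = |c| * c ^ 2 := by rw [pow_succ, sq_abs]; ring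
  calc |c| / √(N : ℝ) * ‖Dd P f u ξ lam t n‖ / (2 * n)
      ≤ |c| / √(N : ℝ) * (N * (|lam| * (‖Nn T f n‖ * ‖u‖) + lam ^ 2 / 2 * (C0 ^ 2 * n) * B
      + 2 * W) + |lam| * B * (C0 * √(n : ℝ)) * (√(N : ℝ) * √(n : ℝ))) / (2 * n) := by
        gcongr
    _ = c ^ 2 / 2 * (‖Nn T f n‖ * ‖u‖ / n)
        + (|c| ^ 3 / 4 * C0 ^ 2 + c ^ 2 / 2 * C0) * (B / √(N : ℝ))
        + |c| * √(N : ℝ) / n * W := by
        rw [hlamabs, hlam, hc3]
        have hcc : c ^ 2 = |c| ^ 2 := (sq_abs c).symm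
        rw [div_pow, hcc]
        exact b8_alg |c| B C0 W (‖Nn T f n‖ * ‖u‖) (√(N : ℝ)) (√(n : ℝ)) N n hsN hsn hNN hnn

end pathB8aux

end TwoSidedCLT
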