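import Pool.Agent.H374e.Defs
import Pool.Agent.H374e.CA1a
import Pool.Agent.H374e.CB4
import Pool.Agent.H374e.CB5a
import Pool.Agent.H374e.CB5b
import Pool.Agent.H374e.CB6a
import Pool.Agent.H374e.CB8

open MeasureTheory ProbabilityTheory Filter Topology
open scoped ENNReal NNReal InnerProductSpace

set_option linter.unusedVariables false
set_option warn.classDefReducibility false

namespace TwoSidedCLT

section pathA1b_aux

theorem a1b_sqrt_pow (j : ℕ) : √((2 : ℝ) ^ j) = √2 ^ j := by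
  have h : ((2 : ℝ) ^ j) = (√2 ^ j) ^ 2 := by
    rw [← pow_mul, mul_comm, pow_mul, Real.sq_sqrt (by norm_num)]
  rw [h, Real.sqrt_sq (by positivity)]

theorem a1b_sqrt2_ge : (4 / 3 : ℝ) ≤ √2 := by
  apply Real.le_sqrt_of_sq_le; norm_num

theorem a1b_sqrt2_le : √2 ≤ (3 / 2 : ℝ) := by
  rw [Real.sqrt_le_left (by norm_num)]; norm_num

theorem a1b_low (y : ℝ) (hy : 0 ≤ y) (n : ℕ) :
    ∑ j ∈ Finset.range n, (if √((2 : ℝ) ^ j) ≤ y then √((2 : ℝ) ^ j) else 0)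
      ≤ 3 * min (√2 * y) (√2 ^ n) := by
  have h1 := a1b_sqrt2_ge
  induction n with
  | zero =>
    simp only [Finset.range_zero, Finset.sum_empty, pow_zero]
    have : 0 ≤ min (√2 * y) 1 := le_min (by positivity) (by norm_num)
    linarith
  | succ n ih =>
    rw [Finset.sum_range_succ]
    have hn : 0 < √2 ^ n := by positivity
    have hstep : √2 ^ (n + 1) = √2 ^ n * √2 := pow_succ _ _
    have ha : √2 ^ n * (4 / 3) ≤ √2 ^ (n + 1) := by
      rw [hstep]; exact mul_le_mul_of_nonneg_left h1 hn.le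
    have ih1 := le_trans ih (mul_le_mul_of_nonneg_left (min_le_left _ _) (by norm_num : (0:ℝ) ≤ 3))
    have ih2 := le_trans ih (mul_le_mul_of_nonneg_left (min_le_right _ _) (by norm_num : (0:ℝ) ≤ 3))
    rw [a1b_sqrt_pow]
    split_ifs with hc
    · have hb : √2 ^ (n + 1) ≤ √2 * y := by
        rw [hstep, mul_comm]; exact mul_le_mul_of_nonneg_left hc (by positivity)
      rw [min_eq_right hb]
      linarith
    · rw [← sub_nonneg]
      have : ∑ j ∈ Finset.range n, (if √((2 : ℝ) ^ j) ≤ y then √((2 : ℝ) ^ j) else 0)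
          ≤ 3 * min (√2 * y) (√2 ^ (n + 1)) := by
        rcases le_total (√2 * y) (√2 ^ (n + 1)) with h2 | h2
        · rw [min_eq_left h2]; exact ih1
        · rw [min_eq_right h2]; linarith
      linarith

theorem a1b_high (y : ℝ) (hy : 0 < y) (n : ℕ) :
    ∑ j ∈ Finset.range n, (if √((2 : ℝ) ^ j) ≤ y then 0 else 1 / √((2 : ℝ) ^ j))
      ≤ 4 * (1 / y - 1 / max (√2 ^ n) y) := by
  have h1 := a1b_sqrt2_ge
  induction n with
  | zero =>
    simp only [Finset.range_zero, Finset.sum_empty, pow_zero]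
    have : 1 / max 1 y ≤ 1 / y := one_div_le_one_div_of_le hy (le_max_right _ _)
    linarith
  | succ n ih =>
    rw [Finset.sum_range_succ]
    have hn : 0 < √2 ^ n := by positivity
    have hn1 : 0 < √2 ^ (n + 1) := by positivity
    have hstep : √2 ^ (n + 1) = √2 ^ n * √2 := pow_succ _ _
    rw [a1b_sqrt_pow]
    split_ifs with hc
    · rw [max_eq_right hc] at ih
      have : 1 / max (√2 ^ (n + 1)) y ≤ 1 / y := one_div_le_one_div_of_le hy (le_max_right _ _)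
      linarith
    · push Not at hc
      rw [max_eq_left hc.le] at ih
      have hlt : y < √2 ^ (n + 1) := by
        rw [hstep]; nlinarith
      rw [max_eq_left hlt.le]
      have h3 : 1 / √2 ^ (n + 1) = 1 / √2 ^ n * (1 / √2) := by
        rw [hstep]; field_simp
      have h4 : 1 / √2 ≤ 3 / 4 := by
        rw [div_le_div_iff₀ (by positivity) (by norm_num)]; linarith
      have h5 : 0 < 1 / √2 ^ n := by positivity
      have h6 : 1 / √2 ^ (n + 1) ≤ 1 / √2 ^ n * (3 / 4) := by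
        rw [h3]; exact mul_le_mul_of_nonneg_left h4 h5.le
      linarith

theorem a1b_min_sum (a b : ℝ) (ha : 0 ≤ a) (hb : 0 ≤ b) (F : ℕ → ℝ) (l n : ℕ)
    (h1 : ∀ j, F j ≤ a * √((2 : ℝ) ^ j)) (h2 : ∀ j, F j ≤ b / √((2 : ℝ) ^ j)) :
    ∑ j ∈ Finset.Ico l n, F j ≤ 9 * √(a * b) := by
  rcases ha.eq_or_lt with ha0 | ha0
  · have : ∑ j ∈ Finset.Ico l n, F j ≤ 0 := Finset.sum_nonpos fun j _ => by
      have := h1 j; rw [← ha0, zero_mul] at this; exact this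
    have h3 : 0 ≤ 9 * √(a * b) := by positivity
    linarith
  rcases hb.eq_or_lt with hb0 | hb0
  · have : ∑ j ∈ Finset.Ico l n, F j ≤ 0 := Finset.sum_nonpos fun j _ => by
      have := h2 j; rw [← hb0, zero_div] at this; exact this
    have h3 : 0 ≤ 9 * √(a * b) := by positivity
    linarith
  set y : ℝ := √(b / a) with hy
  have hy0 : 0 < y := by positivity
  have hG : ∀ j, F j ≤ a * (if √((2 : ℝ) ^ j) ≤ y then √((2 : ℝ) ^ j) else 0)
      + b * (if √((2 : ℝ) ^ j) ≤ y then 0 else 1 / √((2 : ℝ) ^ j)) := by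
    intro j
    split_ifs with hc
    · have := h1 j; linarith
    · have := h2 j
      rw [mul_one_div]; linarith
  have hG0 : ∀ j, 0 ≤ a * (if √((2 : ℝ) ^ j) ≤ y then √((2 : ℝ) ^ j) else 0)
      + b * (if √((2 : ℝ) ^ j) ≤ y then 0 else 1 / √((2 : ℝ) ^ j)) := by
    intro j
    split_ifs with hc <;> positivity
  have hsub : Finset.Ico l n ⊆ Finset.range n := by
    intro x hx; rw [Finset.mem_Ico] at hx; exact Finset.mem_range.2 hx.2
  calc ∑ j ∈ Finset.Ico l n, F j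
      ≤ ∑ j ∈ Finset.Ico l n, (a * (if √((2 : ℝ) ^ j) ≤ y then √((2 : ℝ) ^ j) else 0)
      + b * (if √((2 : ℝ) ^ j) ≤ y then 0 else 1 / √((2 : ℝ) ^ j))) :=
        Finset.sum_le_sum fun j _ => hG j
    _ ≤ ∑ j ∈ Finset.range n, (a * (if √((2 : ℝ) ^ j) ≤ y then √((2 : ℝ) ^ j) else 0)
      + b * (if √((2 : ℝ) ^ j) ≤ y then 0 else 1 / √((2 : ℝ) ^ j))) :=
        Finset.sum_le_sum_of_subset_of_nonneg hsub fun j _ _ => hG0 j
    _ = a * (∑ j ∈ Finset.range n, (if √((2 : ℝ) ^ j) ≤ y then √((2 : ℝ) ^ j) else 0))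
      + b * ∑ j ∈ Finset.range n, (if √((2 : ℝ) ^ j) ≤ y then 0 else 1 / √((2 : ℝ) ^ j)) := by
        rw [Finset.sum_add_distrib, ← Finset.mul_sum, ← Finset.mul_sum]
    _ ≤ a * (5 * y) + b * (4 / y) := by
        apply add_le_add
        · apply mul_le_mul_of_nonneg_left _ ha
          have := a1b_low y hy0.le n
          have h3 := mul_le_mul_of_nonneg_left (min_le_left (√2 * y) (√2 ^ n))
            (by norm_num : (0:ℝ) ≤ 3)
          have h4 := mul_le_mul_of_nonneg_right a1b_sqrt2_le hy0.le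
          linarith
        · apply mul_le_mul_of_nonneg_left _ hb
          have := a1b_high y hy0 n
          have h3 : 0 ≤ 1 / max (√2 ^ n) y := by positivity
          have h4 : 4 / y = 4 * (1 / y) := by ring
          linarith
    _ = 9 * √(a * b) := by
        have e1 : a * y = √(a * b) := by
          rw [hy]
          have : a = √(a ^ 2) := (Real.sqrt_sq ha).symm
          nth_rewrite 1 [this]
          rw [← Real.sqrt_mul (by positivity)]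
          congr 1
          field_simp
        have e2 : b / y = √(a * b) := by
          rw [div_eq_iff hy0.ne', ← e1, mul_assoc, hy, Real.mul_self_sqrt (by positivity)]
          field_simp
        have : a * (5 * y) + b * (4 / y) = 5 * (a * y) + 4 * (b / y) := by ring
        rw [this, e1, e2]; ring

theorem a1b_w_ge : (8 / 7 : ℝ) ≤ √(√2) := by
  apply Real.le_sqrt_of_sq_le
  apply Real.le_sqrt_of_sq_le
  norm_num

theorem a1b_w_pow (j : ℕ) : √(√((2 : ℝ) ^ j)) = √(√2) ^ j := by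
  rw [a1b_sqrt_pow]
  have h : (√2 ^ j) = (√(√2) ^ j) ^ 2 := by
    rw [← pow_mul, mul_comm, pow_mul, Real.sq_sqrt (by positivity)]
  rw [h, Real.sqrt_sq (by positivity)]

theorem a1b_wsum (l n : ℕ) : ∑ j ∈ Finset.Ico l n, √(√((2 : ℝ) ^ j)) ≤ 7 * √(√((2 : ℝ) ^ n)) := by
  have h1 := a1b_w_ge
  have hr : ∑ j ∈ Finset.range n, √(√((2 : ℝ) ^ j)) ≤ 7 * √(√((2 : ℝ) ^ n)) := by
    induction n with
    | zero => simp
    | succ n ih =>
      rw [Finset.sum_range_succ]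
      rw [a1b_w_pow] at ih ⊢
      rw [a1b_w_pow, pow_succ]
      have : 0 < √(√2) ^ n := by positivity
      nlinarith
  refine le_trans (Finset.sum_le_sum_of_subset_of_nonneg ?_ fun j _ _ => by positivity) hr
  intro x hx; rw [Finset.mem_Ico] at hx; exact Finset.mem_range.2 hx.2

end pathA1b_aux

section pathA1b

variable {Ω S : Type*} [mΩ : MeasurableSpace Ω] [mS : MeasurableSpace S]
  {P : Measure Ω} [IsProbabilityMeasure P] {π : Measure S} {ξ : ℕ → Ω → S}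
  {T : Lp ℝ 2 π →L[ℝ] Lp ℝ 2 π}

theorem a1b_scale (h : Setup P π ξ T) (f : Lp ℝ 2 π) (C0 : ℝ) (hC0 : 0 ≤ C0)
    (hvar : ∀ n : ℕ, varSum T f n ≤ C0 ^ 2 * n) (c : ℝ) (N : ℕ) (hN : 1 ≤ N) (t : ℕ) (ht : t ≤ N)
    (n : ℕ) (hn : 1 ≤ n) (v : Lp ℝ 2 π) (B : ℝ) (hB : 0 ≤ B) :
    |c| / √(N : ℝ) * ‖Dd P f v ξ (c / √(N : ℝ)) t n‖ / (2 * n)
      ≤ c ^ 2 / 2 * (‖Nn T f n‖ * ‖v‖ / n)
        + (|c| ^ 3 / 4 * C0 ^ 2 + c ^ 2 / 2 * C0) * (B / √(N : ℝ))
        + |c| * √(N : ℝ) / n * ∫ x in {x | B < |v x|}, |v x| ∂π := by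
  haveI := h.prob
  apply le_of_forall_pos_le_add
  intro ε hε
  set D : ℝ := |c| ^ 3 / 4 * C0 ^ 2 + c ^ 2 / 2 * C0 with hD
  have hD0 : 0 ≤ D := by positivity
  have hN1 : (1 : ℝ) ≤ √(N : ℝ) := by
    rw [Real.one_le_sqrt]; exact_mod_cast hN
  have hb := Tn_bound h f C0 hC0 hvar c N hN t ht n hn v (B + ε / (D + 1)) (by positivity)
  rw [← hD] at hb
  have hint : Integrable (fun x => |v x|) π :=
    ((Lp.memLp v).integrable (by norm_num)).abs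
  have h1 : ∫ x in {x | B + ε / (D + 1) < |v x|}, |v x| ∂π ≤ ∫ x in {x | B < |v x|}, |v x| ∂π := by
    apply setIntegral_mono_set hint.integrableOn
    · exact Filter.Eventually.of_forall fun x => abs_nonneg _
    · apply Filter.Eventually.of_forall
      intro x hx
      have hx' : B + ε / (D + 1) < |v x| := hx
      have : 0 < ε / (D + 1) := by positivity
      show B < |v x|
      linarith
  have h2 : D * ((B + ε / (D + 1)) / √(N : ℝ)) ≤ D * (B / √(N : ℝ)) + ε := by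
    rw [add_div, mul_add]
    have : D * (ε / (D + 1) / √(N : ℝ)) ≤ ε := by
      have h3 : ε / (D + 1) / √(N : ℝ) ≤ ε / (D + 1) := div_le_self (by positivity) hN1
      calc D * (ε / (D + 1) / √(N : ℝ)) ≤ D * (ε / (D + 1)) := mul_le_mul_of_nonneg_left h3 hD0
        _ = ε * (D / (D + 1)) := by ring
        _ ≤ ε * 1 := by
            apply mul_le_mul_of_nonneg_left _ hε.le
            rw [div_le_one (by positivity)]; linarith
        _ = ε := mul_one ε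
    linarith
  have h3 := mul_le_mul_of_nonneg_left h1 (by positivity : 0 ≤ |c| * √(N : ℝ) / n)
  linarith

theorem a1b_scale_bdd (h : Setup P π ξ T) (f : Lp ℝ 2 π) (C0 : ℝ) (hC0 : 0 ≤ C0)
    (hvar : ∀ n : ℕ, varSum T f n ≤ C0 ^ 2 * n) (c : ℝ) (N : ℕ) (hN : 1 ≤ N) (t : ℕ) (ht : t ≤ N)
    (u : Lp ℝ 2 π) (K : ℝ) (hK0 : 0 ≤ K) (hK : ∀ᵐ x ∂π, |u x| ≤ K) (j : ℕ) :
    |c| / √(N : ℝ) * (‖Dd P f (Mg T u (2 ^ j)) ξ (c / √(N : ℝ)) t (2 ^ j)‖ / (2 * 2 ^ j))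
      ≤ c ^ 2 / 2 * (‖Nn T f (2 ^ j)‖ * ‖Mg T u (2 ^ j)‖ / 2 ^ j)
        + (|c| ^ 3 / 4 * C0 ^ 2 + c ^ 2 / 2 * C0) * (4 * K) / √(N : ℝ) * √((2 : ℝ) ^ j) := by
  have hb := a1b_scale h f C0 hC0 hvar c N hN t ht (2 ^ j) Nat.one_le_two_pow (Mg T u (2 ^ j))
    (4 * √((2 : ℝ) ^ j) * K) (by positivity)
  have hM := Mg_bdd h u K hK (2 ^ j)
  push_cast at hb hM
  have hz : ∫ x in {x | 4 * √((2 : ℝ) ^ j) * K < |Mg T u (2 ^ j) x|}, |Mg T u (2 ^ j) x| ∂π = 0 := by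
    apply setIntegral_measure_zero
    have : {x | 4 * √((2 : ℝ) ^ j) * K < |Mg T u (2 ^ j) x|}
        = {x | ¬ |Mg T u (2 ^ j) x| ≤ 4 * √((2 : ℝ) ^ j) * K} := by
      ext x; simp
    rw [this]
    exact ae_iff.1 hM
  rw [hz, mul_zero, add_zero] at hb
  rw [← mul_div_assoc]
  refine hb.trans (le_of_eq ?_)
  ring

theorem a1b_scale_L1 (h : Setup P π ξ T) (f : Lp ℝ 2 π) (C0 : ℝ) (hC0 : 0 ≤ C0)
    (hvar : ∀ n : ℕ, varSum T f n ≤ C0 ^ 2 * n) (c : ℝ) (N : ℕ) (hN : 1 ≤ N) (t : ℕ) (ht : t ≤ N)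
    (u : Lp ℝ 2 π) (j : ℕ) :
    |c| / √(N : ℝ) * (‖Dd P f (Mg T u (2 ^ j)) ξ (c / √(N : ℝ)) t (2 ^ j)‖ / (2 * 2 ^ j))
      ≤ c ^ 2 / 2 * (‖Nn T f (2 ^ j)‖ * ‖Mg T u (2 ^ j)‖ / 2 ^ j)
        + 4 * |c| * √(N : ℝ) * (∫ x, |u x| ∂π) / √((2 : ℝ) ^ j) := by
  haveI := h.prob
  have hb := a1b_scale h f C0 hC0 hvar c N hN t ht (2 ^ j) Nat.one_le_two_pow (Mg T u (2 ^ j))
    0 le_rfl
  have hM := Mg_L1 h u (2 ^ j)
  push_cast at hb hM
  have hint : Integrable (fun x => |Mg T u (2 ^ j) x|) π :=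
    ((Lp.memLp (Mg T u (2 ^ j))).integrable (by norm_num)).abs
  have h1 : ∫ x in {x | 0 < |Mg T u (2 ^ j) x|}, |Mg T u (2 ^ j) x| ∂π
      ≤ ∫ x, |Mg T u (2 ^ j) x| ∂π :=
    setIntegral_le_integral hint (Filter.Eventually.of_forall fun x => abs_nonneg _)
  have h2 := mul_le_mul_of_nonneg_left (h1.trans hM)
    (by positivity : 0 ≤ |c| * √(N : ℝ) / (2 : ℝ) ^ j)
  have hs : (2 : ℝ) ^ j = √((2 : ℝ) ^ j) * √((2 : ℝ) ^ j) :=
    (Real.mul_self_sqrt (by positivity)).symm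
  have h3 : |c| * √(N : ℝ) / (2 : ℝ) ^ j * (4 * √((2 : ℝ) ^ j) * ∫ x, |u x| ∂π)
      = 4 * |c| * √(N : ℝ) * (∫ x, |u x| ∂π) / √((2 : ℝ) ^ j) := by
    have hs0 : 0 < √((2 : ℝ) ^ j) := by positivity
    rw [div_mul_eq_mul_div, div_eq_div_iff (by positivity) hs0.ne']
    nth_rewrite 3 [hs]
    ring
  rw [h3] at h2
  rw [← mul_div_assoc]
  rw [zero_div, mul_zero, add_zero] at hb
  linarith

theorem a1b_sumM (T : Lp ℝ 2 π →L[ℝ] Lp ℝ 2 π) (hT : ‖T‖ ≤ 1) (u : Lp ℝ 2 π) :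
    Summable fun j : ℕ => ‖Mg T u (2 ^ j)‖ ^ 2 / 2 ^ j := by
  obtain ⟨C, hC, hb⟩ := square_function T hT
  exact summable_of_sum_range_le (fun j => by positivity) (fun n => hb u n)

theorem a1b_sumN (T : Lp ℝ 2 π →L[ℝ] Lp ℝ 2 π) (hT : ‖T‖ ≤ 1) (f g' : Lp ℝ 2 π)
    (hg' : f = sqrtOp (ContinuousLinearMap.adjoint T) g') :
    Summable fun j : ℕ => ‖Nn T f (2 ^ j)‖ ^ 2 / 2 ^ j := by
  rw [hg']
  exact summable_Nn T hT g'

/-- the contribution of a bounded function with small `L¹` norm -/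
theorem class_bound (h : Setup P π ξ T) (f g g' : Lp ℝ 2 π) (hg : f = sqrtOp T g)
    (hg' : f = sqrtOp (ContinuousLinearMap.adjoint T) g') (c : ℝ) :
    ∃ C : ℝ, 0 ≤ C ∧ ∀ (u : Lp ℝ 2 π) (K : ℝ), 0 ≤ K → (∀ᵐ x ∂π, |u x| ≤ K) →
      ∀ (N : ℕ), 1 ≤ N → ∀ t ≤ N, ∀ l J' : ℕ, 2 ^ J' ≤ N →
      |c| / √(N : ℝ) * ∑ j ∈ Finset.Ico l J',
          ‖Dd P f (Mg T u (2 ^ j)) ξ (c / √(N : ℝ)) t (2 ^ j)‖ / (2 * 2 ^ j)
        ≤ C * (‖u‖ + √(K * ∫ x, |u x| ∂π)) := by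
  obtain ⟨C0, hC0, hvar⟩ := var_bound T h.norm_le f g g' hg hg'
  obtain ⟨Cs, hCs, hsq⟩ := square_function T h.norm_le
  have hsN := a1b_sumN T h.norm_le f g' hg'
  set SN : ℝ := ∑' j : ℕ, ‖Nn T f (2 ^ j)‖ ^ 2 / 2 ^ j with hSN
  set D : ℝ := |c| ^ 3 / 4 * C0 ^ 2 + c ^ 2 / 2 * C0 with hD
  have hD0 : 0 ≤ D := by positivity
  refine ⟨c ^ 2 / 2 * (√SN * √Cs) + 36 * √(D * |c|), by positivity, ?_⟩
  intro u K hK0 hK N hN t ht l J' hJ'
  have hI0 : 0 ≤ ∫ x, |u x| ∂π := integral_nonneg fun x => abs_nonneg _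
  have hNpos : 0 < √(N : ℝ) := by
    apply Real.sqrt_pos.2; exact_mod_cast hN
  set Tm : ℕ → ℝ := fun j =>
    |c| / √(N : ℝ) * (‖Dd P f (Mg T u (2 ^ j)) ξ (c / √(N : ℝ)) t (2 ^ j)‖ / (2 * 2 ^ j)) with hTm
  set Pm : ℕ → ℝ := fun j => c ^ 2 / 2 * (‖Nn T f (2 ^ j)‖ * ‖Mg T u (2 ^ j)‖ / 2 ^ j) with hPm
  have key := a1b_min_sum (D * (4 * K) / √(N : ℝ)) (4 * |c| * √(N : ℝ) * (∫ x, |u x| ∂π))
    (by positivity) (by positivity) (fun j => Tm j - Pm j) l J'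
    (fun j => by
      have := a1b_scale_bdd h f C0 hC0 hvar c N hN t ht u K hK0 hK j
      rw [← hD] at this
      simp only [hTm, hPm]
      linarith)
    (fun j => by
      have := a1b_scale_L1 h f C0 hC0 hvar c N hN t ht u j
      simp only [hTm, hPm]
      linarith)
  have e1 : √(D * (4 * K) / √(N : ℝ) * (4 * |c| * √(N : ℝ) * (∫ x, |u x| ∂π)))
      = 4 * (√(D * |c|) * √(K * ∫ x, |u x| ∂π)) := by
    have : D * (4 * K) / √(N : ℝ) * (4 * |c| * √(N : ℝ) * (∫ x, |u x| ∂π))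
        = 4 ^ 2 * ((D * |c|) * (K * ∫ x, |u x| ∂π)) := by
      field_simp
    rw [this, Real.sqrt_mul (by positivity), Real.sqrt_sq (by norm_num),
      Real.sqrt_mul (by positivity)]
  rw [e1, Finset.sum_sub_distrib] at key
  have hcs : ∑ j ∈ Finset.Ico l J', Pm j ≤ c ^ 2 / 2 * (√SN * √Cs) * ‖u‖ := by
    have hpt : ∀ j : ℕ, ‖Nn T f (2 ^ j)‖ * ‖Mg T u (2 ^ j)‖ / 2 ^ j
        = (‖Nn T f (2 ^ j)‖ / √((2 : ℝ) ^ j)) * (‖Mg T u (2 ^ j)‖ / √((2 : ℝ) ^ j)) := by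
      intro j
      rw [div_mul_div_comm, Real.mul_self_sqrt (by positivity)]
    have h1 := Real.sum_mul_le_sqrt_mul_sqrt (Finset.Ico l J')
      (fun j => ‖Nn T f (2 ^ j)‖ / √((2 : ℝ) ^ j)) (fun j => ‖Mg T u (2 ^ j)‖ / √((2 : ℝ) ^ j))
    have h2 : ∑ j ∈ Finset.Ico l J', (‖Nn T f (2 ^ j)‖ / √((2 : ℝ) ^ j)) ^ 2 ≤ SN := by
      have : ∀ j : ℕ, (‖Nn T f (2 ^ j)‖ / √((2 : ℝ) ^ j)) ^ 2 = ‖Nn T f (2 ^ j)‖ ^ 2 / 2 ^ j := by
        intro j; rw [div_pow, Real.sq_sqrt (by positivity)]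
      simp only [this]
      exact hsN.sum_le_tsum _ fun j _ => by positivity
    have h3 : ∑ j ∈ Finset.Ico l J', (‖Mg T u (2 ^ j)‖ / √((2 : ℝ) ^ j)) ^ 2 ≤ Cs * ‖u‖ ^ 2 := by
      have : ∀ j : ℕ, (‖Mg T u (2 ^ j)‖ / √((2 : ℝ) ^ j)) ^ 2 = ‖Mg T u (2 ^ j)‖ ^ 2 / 2 ^ j := by
        intro j; rw [div_pow, Real.sq_sqrt (by positivity)]
      simp only [this]
      refine le_trans (Finset.sum_le_sum_of_subset_of_nonneg ?_ fun j _ _ => by positivity)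
        (hsq u J')
      intro x hx; rw [Finset.mem_Ico] at hx; exact Finset.mem_range.2 hx.2
    have h4 : √(Cs * ‖u‖ ^ 2) = √Cs * ‖u‖ := by
      rw [Real.sqrt_mul hCs, Real.sqrt_sq (norm_nonneg _)]
    have h5 : √(∑ j ∈ Finset.Ico l J', (‖Nn T f (2 ^ j)‖ / √((2 : ℝ) ^ j)) ^ 2)
        * √(∑ j ∈ Finset.Ico l J', (‖Mg T u (2 ^ j)‖ / √((2 : ℝ) ^ j)) ^ 2)
        ≤ √SN * (√Cs * ‖u‖) := by
      rw [← h4]
      exact mul_le_mul (Real.sqrt_le_sqrt h2) (Real.sqrt_le_sqrt h3) (Real.sqrt_nonneg _)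
        (Real.sqrt_nonneg _)
    have h6 : ∑ j ∈ Finset.Ico l J', Pm j = c ^ 2 / 2 * ∑ j ∈ Finset.Ico l J',
        (‖Nn T f (2 ^ j)‖ / √((2 : ℝ) ^ j)) * (‖Mg T u (2 ^ j)‖ / √((2 : ℝ) ^ j)) := by
      rw [Finset.mul_sum]
      refine Finset.sum_congr rfl fun j _ => ?_
      simp only [hPm]
      rw [hpt j]
    rw [h6]
    have h7 := mul_le_mul_of_nonneg_left (h1.trans h5) (by positivity : 0 ≤ c ^ 2 / 2)
    refine h7.trans (le_of_eq (by ring))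
  have hfin : |c| / √(N : ℝ) * ∑ j ∈ Finset.Ico l J',
      ‖Dd P f (Mg T u (2 ^ j)) ξ (c / √(N : ℝ)) t (2 ^ j)‖ / (2 * 2 ^ j)
      = ∑ j ∈ Finset.Ico l J', Tm j := by
    rw [Finset.mul_sum]
  rw [hfin]
  have hA : 0 ≤ c ^ 2 / 2 * (√SN * √Cs) := by positivity
  have hBq : 0 ≤ √(K * ∫ x, |u x| ∂π) := Real.sqrt_nonneg _
  have hDc : 0 ≤ √(D * |c|) := Real.sqrt_nonneg _
  have hun := norm_nonneg u
  nlinarith [mul_nonneg hA hBq, mul_nonneg hDc hun]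

/-- the contribution of a bounded function tends to zero -/
theorem bounded_part (h : Setup P π ξ T) (f g g' : Lp ℝ 2 π) (hg : f = sqrtOp T g)
    (hg' : f = sqrtOp (ContinuousLinearMap.adjoint T) g') (c : ℝ)
    (u : Lp ℝ 2 π) (K : ℝ) (hK : ∀ᵐ x ∂π, |u x| ≤ K) (ε : ℝ) (hε : 0 < ε) :
    ∃ l0 : ℕ, ∀ l ≥ l0, ∀ (N : ℕ), 1 ≤ N → ∀ t ≤ N, ∀ J' : ℕ, 2 ^ J' ≤ N →
      |c| / √(N : ℝ) * ∑ j ∈ Finset.Ico l J',
          ‖Dd P f (Mg T u (2 ^ j)) ξ (c / √(N : ℝ)) t (2 ^ j)‖ / (2 * 2 ^ j) ≤ ε := by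
  obtain ⟨C0, hC0, hvar⟩ := var_bound T h.norm_le f g g' hg hg'
  have hsN := a1b_sumN T h.norm_le f g' hg'
  have hsM := a1b_sumM T h.norm_le u
  set D : ℝ := |c| ^ 3 / 4 * C0 ^ 2 + c ^ 2 / 2 * C0 with hD
  have hD0 : 0 ≤ D := by positivity
  have hK' : ∀ᵐ x ∂π, |u x| ≤ |K| := hK.mono fun x hx => hx.trans (le_abs_self K)
  set a : ℝ := D * (4 * |K|) with ha
  have ha0 : 0 ≤ a := by positivity
  set Pm : ℕ → ℝ := fun j => c ^ 2 / 2 * (‖Nn T f (2 ^ j)‖ * ‖Mg T u (2 ^ j)‖ / 2 ^ j) with hPm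
  have hPs : Summable Pm := by
    apply Summable.mul_left
    refine Summable.of_nonneg_of_le (fun j => by positivity) (fun j => ?_) (hsN.add hsM)
    rw [← add_div]
    apply div_le_div_of_nonneg_right _ (by positivity)
    nlinarith [sq_nonneg (‖Nn T f (2 ^ j)‖ - ‖Mg T u (2 ^ j)‖), sq_nonneg (‖Nn T f (2 ^ j)‖),
      sq_nonneg (‖Mg T u (2 ^ j)‖)]
  obtain ⟨s, hs⟩ := summable_iff_vanishing_norm.1 hPs (ε / 2) (by positivity)
  -- the bound `q_j`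
  set δ : ℝ := (ε / 14) ^ 2 / (a + 1) with hδ
  have hδ0 : 0 < δ := by positivity
  have hq : Tendsto (fun j : ℕ => c ^ 2 / 2 * C0 * (‖Mg T u (2 ^ j)‖ / √((2 : ℝ) ^ j))) atTop
      (𝓝 0) := by
    have h1 := hsM.tendsto_atTop_zero
    have h2 := (Real.continuous_sqrt.tendsto 0).comp h1
    rw [Real.sqrt_zero] at h2
    have h3 := h2.const_mul (c ^ 2 / 2 * C0)
    rw [mul_zero] at h3
    refine h3.congr fun j => ?_
    simp only [Function.comp]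
    rw [Real.sqrt_div (by positivity), Real.sqrt_sq (norm_nonneg _)]
  obtain ⟨l1, hl1⟩ := Filter.eventually_atTop.1 (hq.eventually (gt_mem_nhds hδ0))
  refine ⟨max l1 (s.sup id + 1), ?_⟩
  intro l hl N hN t ht J' hJ'
  have hNr : (1 : ℝ) ≤ N := by exact_mod_cast hN
  have hNpos : 0 < √(N : ℝ) := by
    apply Real.sqrt_pos.2; linarith
  set Tm : ℕ → ℝ := fun j =>
    |c| / √(N : ℝ) * (‖Dd P f (Mg T u (2 ^ j)) ξ (c / √(N : ℝ)) t (2 ^ j)‖ / (2 * 2 ^ j)) with hTm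
  have hterm : ∀ j ∈ Finset.Ico l J', Tm j ≤ Pm j + √(a * δ) / √(√(N : ℝ)) * √(√((2 : ℝ) ^ j)) := by
    intro j hj
    rw [Finset.mem_Ico] at hj
    have h1 := a1b_scale_bdd h f C0 hC0 hvar c N hN t ht u |K| (abs_nonneg _) hK' j
    have h2 := Tn_bound_L2 h f C0 hC0 hvar c N hN t ht (2 ^ j) Nat.one_le_two_pow (Mg T u (2 ^ j))
    have h3 := hl1 j (le_trans (le_max_left _ _) (le_trans hl hj.1))
    rw [← hD, ← ha] at h1
    push_cast at h2
    rw [mul_div_assoc] at h2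
    have hT1 : Tm j - Pm j ≤ a / √(N : ℝ) * √((2 : ℝ) ^ j) := by
      simp only [hTm, hPm]; linarith
    have hP0 : 0 ≤ Pm j := by positivity
    have hT2 : Tm j - Pm j ≤ δ := by
      have : Tm j ≤ δ := by
        simp only [hTm]
        refine h2.trans h3.le
      linarith
    have hrhs : √(a * δ) / √(√(N : ℝ)) * √(√((2 : ℝ) ^ j))
        = √(a / √(N : ℝ) * √((2 : ℝ) ^ j) * δ) := by
      rw [← Real.sqrt_div (by positivity), ← Real.sqrt_mul (by positivity)]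
      congr 1
      ring
    rw [hrhs]
    rcases le_total (Tm j - Pm j) 0 with hneg | hpos
    · have := Real.sqrt_nonneg (a / √(N : ℝ) * √((2 : ℝ) ^ j) * δ)
      linarith
    · have : Tm j - Pm j ≤ √(a / √(N : ℝ) * √((2 : ℝ) ^ j) * δ) := by
        apply Real.le_sqrt_of_sq_le
        rw [sq]
        exact mul_le_mul hT1 hT2 hpos (by positivity)
      linarith
  have hfin : |c| / √(N : ℝ) * ∑ j ∈ Finset.Ico l J',
      ‖Dd P f (Mg T u (2 ^ j)) ξ (c / √(N : ℝ)) t (2 ^ j)‖ / (2 * 2 ^ j)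
      = ∑ j ∈ Finset.Ico l J', Tm j := by
    rw [Finset.mul_sum]
  rw [hfin]
  have hdisj : Disjoint (Finset.Ico l J') s := by
    rw [Finset.disjoint_left]
    intro x hx hxs
    rw [Finset.mem_Ico] at hx
    have h1 : x ≤ s.sup id := Finset.le_sup (f := id) hxs
    have h2 := le_trans (le_max_right l1 (s.sup id + 1)) hl
    omega
  have h1 := hs _ hdisj
  rw [Real.norm_eq_abs] at h1
  have h2 := (le_abs_self _).trans h1.le
  have h3 : ∑ j ∈ Finset.Ico l J', √(a * δ) / √(√(N : ℝ)) * √(√((2 : ℝ) ^ j)) ≤ ε / 2 := by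
    rw [← Finset.mul_sum]
    have h4 := a1b_wsum l J'
    have h5 : √(√((2 : ℝ) ^ J')) ≤ √(√(N : ℝ)) := by
      apply Real.sqrt_le_sqrt
      apply Real.sqrt_le_sqrt
      exact_mod_cast hJ'
    have hNN : 0 < √(√(N : ℝ)) := Real.sqrt_pos.2 hNpos
    have h6 : ∑ j ∈ Finset.Ico l J', √(√((2 : ℝ) ^ j)) ≤ 7 * √(√(N : ℝ)) := by linarith
    have h7 : √(a * δ) ≤ ε / 14 := by
      rw [Real.sqrt_le_left (by positivity), hδ, ← mul_div_assoc, div_le_iff₀ (by positivity)]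
      nlinarith [sq_nonneg (ε / 14)]
    calc √(a * δ) / √(√(N : ℝ)) * ∑ j ∈ Finset.Ico l J', √(√((2 : ℝ) ^ j))
        ≤ √(a * δ) / √(√(N : ℝ)) * (7 * √(√(N : ℝ))) :=
          mul_le_mul_of_nonneg_left h6 (by positivity)
      _ = 7 * √(a * δ) := by field_simp
      _ ≤ ε / 2 := by linarith
  calc ∑ j ∈ Finset.Ico l J', Tm j
      ≤ ∑ j ∈ Finset.Ico l J', (Pm j + √(a * δ) / √(√(N : ℝ)) * √(√((2 : ℝ) ^ j))) :=
        Finset.sum_le_sum hterm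
    _ = ∑ j ∈ Finset.Ico l J', Pm j
        + ∑ j ∈ Finset.Ico l J', √(a * δ) / √(√(N : ℝ)) * √(√((2 : ℝ) ^ j)) :=
        Finset.sum_add_distrib
    _ ≤ ε := by linarith

end pathA1b

end TwoSidedCLT
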