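import Pool.Agent.H374e.Defs
import Pool.Agent.H374e.CB6a
import Pool.Agent.H374e.CB6b

open MeasureTheory ProbabilityTheory Filter Topology
open scoped ENNReal NNReal InnerProductSpace

set_option linter.unusedVariables false
set_option warn.classDefReducibility false

namespace TwoSidedCLT

section pathB7a

variable {Ω S : Type*} [mΩ : MeasurableSpace Ω] [mS : MeasurableSpace S]
  {P : Measure Ω} [IsProbabilityMeasure P] {π : Measure S} {ξ : ℕ → Ω → S}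
  {T : Lp ℝ 2 π →L[ℝ] Lp ℝ 2 π}

theorem b7a_mp (h : Setup P π ξ T) (s : ℕ) : MeasurePreserving (ξ s) P π := ⟨h.meas s, h.law s⟩

theorem b7a_memLp (h : Setup P π ξ T) (u : Lp ℝ 2 π) (s : ℕ) :
    MemLp (fun ω => u (ξ s ω)) 2 P :=
  (Lp.memLp u).comp_measurePreserving (b7a_mp h s)

theorem b7a_memLpC (h : Setup P π ξ T) (u : Lp ℝ 2 π) (s : ℕ) :
    MemLp (fun ω => (u (ξ s ω) : ℂ)) 2 P :=
  (b7a_memLp h u s).ofReal

theorem b7a_past_le (h : Setup P π ξ T) (s : ℕ) : past ξ s ≤ mΩ :=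
  iSup_le fun k => iSup_le fun _ => (h.meas k).comap_le

theorem b7a_pres_past (ξ : ℕ → Ω → S) {s m : ℕ} (hsm : s ≤ m) : pres ξ s ≤ past ξ m :=
  le_iSup_of_le s (le_iSup_of_le hsm le_rfl)

theorem b7a_meas_fut (ξ : ℕ → Ω → S) {s m : ℕ} (hsm : s ≤ m) : Measurable[fut ξ s] (ξ m) := by
  have h1 : MeasurableSpace.comap (ξ m) mS ≤ fut ξ s := le_iSup_of_le m (le_iSup_of_le hsm le_rfl)
  exact (comap_measurable (ξ m)).mono h1 le_rfl

/-- one step of the chain, tested with a function of the past -/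
theorem b7a_step (h : Setup P π ξ T) (u : Lp ℝ 2 π) (m : ℕ) (Y : Ω → ℂ)
    (hY : StronglyMeasurable[past ξ m] Y) (hY2 : MemLp Y 2 P) :
    ∫ ω, Y ω * (u (ξ (m + 1) ω) : ℂ) ∂P = ∫ ω, Y ω * ((T u) (ξ m ω) : ℂ) ∂P := by
  have hle := b7a_past_le h m
  set Φ : Ω → ℂ := fun ω => (u (ξ (m + 1) ω) : ℂ) with hΦ
  have hΦ2 : MemLp Φ 2 P := b7a_memLpC h u (m + 1)
  have hΦi : Integrable Φ P := hΦ2.integrable (by norm_num)
  have hΦm : StronglyMeasurable[fut ξ m] Φ :=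
    Complex.continuous_ofReal.comp_stronglyMeasurable
      ((Lp.stronglyMeasurable u).comp_measurable (b7a_meas_fut ξ (Nat.le_succ m)))
  have h1 : P[Φ | past ξ m] =ᵐ[P] P[Φ | pres ξ m] := h.markov m Φ hΦm hΦi
  have h2 : P[Φ | pres ξ m] =ᵐ[P] fun ω => ((T u) (ξ m ω) : ℂ) := by
    have hi : Integrable (fun ω => u (ξ (m + 1) ω)) P :=
      (b7a_memLp h u (m + 1)).integrable (by norm_num)
    have h3 := Complex.ofRealCLM.comp_condExp_comm (m := pres ξ m) hi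
    have h4 := h.op m u
    have h5 : (Complex.ofRealCLM ∘ fun ω => u (ξ (m + 1) ω)) = Φ := rfl
    rw [h5] at h3
    filter_upwards [h3, h4] with ω e3 e4
    rw [← e3]
    show ((P[fun ω => u (ξ (m + 1) ω) | pres ξ m] ω : ℝ) : ℂ) = _
    rw [e4]
  have hYΦ : Integrable (fun ω => Y ω * Φ ω) P := hY2.integrable_mul hΦ2
  have h6 := condExp_bilin_of_stronglyMeasurable_left (m := past ξ m) (μ := P)
    (ContinuousLinearMap.mul ℝ ℂ) hY hYΦ hΦi
  rw [← integral_condExp hle (f := fun ω => Y ω * Φ ω)]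
  apply integral_congr_ae
  filter_upwards [h1, h2, h6] with ω e1 e2 e6
  have e7 : P[fun ω => Y ω * Φ ω | past ξ m] ω = Y ω * P[Φ | past ξ m] ω := e6
  rw [e7, e1, e2]

/-- powers of `T`, tested with a function of the past -/
theorem b7a_pow (h : Setup P π ξ T) (m n : ℕ) (Y : Ω → ℂ)
    (hY : StronglyMeasurable[past ξ m] Y) (hY2 : MemLp Y 2 P) (u : Lp ℝ 2 π) :
    ∫ ω, Y ω * (u (ξ (m + n) ω) : ℂ) ∂P = ∫ ω, Y ω * (((T ^ n) u) (ξ m ω) : ℂ) ∂P := by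
  induction n generalizing u with
  | zero => rfl
  | succ n ih =>
    have hle : past ξ m ≤ past ξ (m + n) :=
      iSup_le fun k => iSup_le fun hk => le_iSup_of_le k (le_iSup_of_le (by omega) le_rfl)
    have h1 := b7a_step h u (m + n) Y (hY.mono hle) hY2
    rw [← Nat.add_assoc, h1, ih (T u)]
    rfl

theorem b7a_Ye_memLp (h : Setup P π ξ T) (f : Lp ℝ 2 π) (lam : ℝ) (s : ℕ) :
    MemLp (Ye P f ξ lam s) 2 P :=
  MemLp.of_bound ((Ye_meas f lam s).mono (pres_le h s)).aestronglyMeasurable 1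
    (Ye_norm_le h f lam s)

/-- (I3) -/
theorem Ye_pow (h : Setup P π ξ T) (f u : Lp ℝ 2 π) (lam : ℝ) (s n : ℕ) :
    ∫ ω, Ye P f ξ lam s ω * (u (ξ (s + n) ω) : ℂ) ∂P
      = ∫ ω, Ye P f ξ lam s ω * (((T ^ n) u) (ξ s ω) : ℂ) ∂P :=
  b7a_pow h s n _ ((Ye_meas f lam s).mono (b7a_pres_past ξ le_rfl)) (b7a_Ye_memLp h f lam s) u

/-- (I5) -/
theorem Ye_Sb (h : Setup P π ξ T) (f : Lp ℝ 2 π) (lam : ℝ) (s n : ℕ) :
    ∫ ω, Ye P f ξ lam s ω * (Sb f ξ s n ω : ℂ) ∂P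
      = ∫ ω, Ye P f ξ lam s ω * ((Mn T f n) (ξ s ω) : ℂ) ∂P := by
  have hY := b7a_Ye_memLp h f lam s
  have e1 : ∀ ω, Ye P f ξ lam s ω * (Sb f ξ s n ω : ℂ) =
      ∑ k ∈ Finset.range n, Ye P f ξ lam s ω * (f (ξ (s + k) ω) : ℂ) := by
    intro ω
    unfold Sb
    push_cast
    rw [Finset.mul_sum]
  have e2 : (fun ω => Ye P f ξ lam s ω * ((Mn T f n) (ξ s ω) : ℂ)) =ᵐ[P]
      fun ω => ∑ k ∈ Finset.range n, Ye P f ξ lam s ω * (((T ^ k) f) (ξ s ω) : ℂ) := by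
    have h1 : ∀ᵐ x ∂π, (Mn T f n) x = ∑ k ∈ Finset.range n, ((T ^ k) f) x := by
      have h2 := Lp.coeFn_finsetSum (Finset.range n) (fun k => (T ^ k) f)
      filter_upwards [h2] with x hx
      unfold Mn
      rw [hx]
      simp
    have h3 := (b7a_mp h s).quasiMeasurePreserving.ae h1
    filter_upwards [h3] with ω hω
    rw [hω]
    push_cast
    rw [Finset.mul_sum]
  have i1 : ∀ k ∈ Finset.range n,
      Integrable (fun ω => Ye P f ξ lam s ω * (f (ξ (s + k) ω) : ℂ)) P :=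
    fun k _ => hY.integrable_mul (b7a_memLpC h f (s + k))
  have i2 : ∀ k ∈ Finset.range n,
      Integrable (fun ω => Ye P f ξ lam s ω * (((T ^ k) f) (ξ s ω) : ℂ)) P :=
    fun k _ => hY.integrable_mul (b7a_memLpC h ((T ^ k) f) s)
  rw [integral_congr_ae e2]
  simp_rw [e1]
  rw [integral_finsetSum _ i1, integral_finsetSum _ i2]
  exact Finset.sum_congr rfl fun k _ => Ye_pow h f f lam s k

end pathB7a

end TwoSidedCLT
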