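import Pool.Agent.H374e.Defs
import Pool.Agent.H374e.CAux
import Pool.Agent.H374e.CB7a

open MeasureTheory ProbabilityTheory Filter Topology
open scoped ENNReal NNReal InnerProductSpace

set_option linter.unusedVariables false
set_option warn.classDefReducibility false

namespace TwoSidedCLT

theorem b9_Mn_double {H : Type*} [NormedAddCommGroup H] [InnerProductSpace ℝ H]
    (T : H →L[ℝ] H) (f : H) (n : ℕ) : Mn T f (2 * n) = Mn T f n + (T ^ n) (Mn T f n) := by
  unfold Mn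
  rw [two_mul, Finset.sum_range_add, map_sum]
  congr 1
  refine Finset.sum_congr rfl fun k _ => ?_
  rw [pow_add]; rfl

theorem b9_shift (x : ℕ → ℂ) (A : ℝ) (hx : ∀ s, ‖x s‖ ≤ A) (t n : ℕ) :
    ‖∑ s ∈ Finset.range t, (x s - x (s + n))‖ ≤ 2 * n * A := by
  have e : ∑ s ∈ Finset.range t, (x s - x (s + n))
      = ∑ s ∈ Finset.range n, (x s - x (t + s)) := by
    rw [Finset.sum_sub_distrib, Finset.sum_sub_distrib]
    have h1 : ∑ s ∈ Finset.range (t + n), x s
        = ∑ s ∈ Finset.range t, x s + ∑ s ∈ Finset.range n, x (t + s) := Finset.sum_range_add _ _ _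
    have h2 : ∑ s ∈ Finset.range (n + t), x s
        = ∑ s ∈ Finset.range n, x s + ∑ s ∈ Finset.range t, x (n + s) := Finset.sum_range_add _ _ _
    have h3 : ∑ s ∈ Finset.range t, x (n + s) = ∑ s ∈ Finset.range t, x (s + n) :=
      Finset.sum_congr rfl fun s _ => by rw [add_comm]
    rw [add_comm n t, h1, h3] at h2
    linear_combination h2
  rw [e]
  calc ‖∑ s ∈ Finset.range n, (x s - x (t + s))‖ ≤ ∑ s ∈ Finset.range n, ‖x s - x (t + s)‖ :=
        norm_sum_le _ _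
    _ ≤ ∑ s ∈ Finset.range n, (2 * A) := by
        refine Finset.sum_le_sum fun s _ => ?_
        calc ‖x s - x (t + s)‖ ≤ ‖x s‖ + ‖x (t + s)‖ := norm_sub_le _ _
          _ ≤ 2 * A := by linarith [hx s, hx (t + s)]
    _ = 2 * n * A := by simp; ring

section pathB9a

variable {Ω S : Type*} [mΩ : MeasurableSpace Ω] [mS : MeasurableSpace S]
  {P : Measure Ω} [IsProbabilityMeasure P] {π : Measure S} {ξ : ℕ → Ω → S}
  {T : Lp ℝ 2 π →L[ℝ] Lp ℝ 2 π}

theorem Ff_double (h : Setup P π ξ T) (f : Lp ℝ 2 π) (lam : ℝ) (t n : ℕ) (hn : 1 ≤ n) :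
    ‖Ff P T f ξ lam t n - Ff P T f ξ lam t (2 * n) - Dd P f (Mn T f n) ξ lam t n / (2 * n)‖
      ≤ ‖Mn T f n‖ := by
  set M := Mn T f n with hM
  set x : ℕ → ℂ := fun s => ∫ ω, Ye P f ξ lam s ω * (M (ξ s ω) : ℂ) ∂P with hx
  have h2n : ∀ s, ∫ ω, Ye P f ξ lam s ω * ((Mn T f (2 * n)) (ξ s ω) : ℂ) ∂P
      = x s + ∫ ω, Ye P f ξ lam s ω * (M (ξ (s + n) ω) : ℂ) ∂P := by
    intro s
    rw [Ye_pow h f M lam s n, hx]
    simp only
    rw [← integral_add (au_Y_int h f M lam s s) (au_Y_int h f _ lam s s)]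
    refine integral_congr_ae ?_
    have hadd := (au_mp h s).quasiMeasurePreserving.ae (Lp.coeFn_add M ((T ^ n) M))
    filter_upwards [hadd] with ω hω
    rw [b9_Mn_double, ← hM, hω]
    simp only [Pi.add_apply]
    push_cast
    ring
  have e : Ff P T f ξ lam t n - Ff P T f ξ lam t (2 * n) - Dd P f M ξ lam t n / (2 * n)
      = (∑ s ∈ Finset.range t, (x s - x (s + n))) / (2 * n) := by
    rw [au_Dd h f M lam t n]
    unfold Ff
    simp only [h2n, ← hM]
    have hn' : (n : ℂ) ≠ 0 := by exact_mod_cast (by omega : n ≠ 0)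
    simp only [Finset.sum_add_distrib, Finset.sum_sub_distrib, hx]
    push_cast
    field_simp
    ring
  rw [e, norm_div]
  have hn0 : (0 : ℝ) < n := by exact_mod_cast hn
  have hnn : ‖(2 * (n : ℂ))‖ = 2 * n := by
    rw [norm_mul]; simp
  rw [hnn, div_le_iff₀ (by positivity)]
  have := b9_shift x ‖M‖ (fun s => au_Y_le h f M lam s s) t n
  linarith

theorem Ff_top (h : Setup P π ξ T) (f : Lp ℝ 2 π) (lam : ℝ) (t n : ℕ) (hn : 1 ≤ n) :
    ‖Ff P T f ξ lam t n‖ ≤ (t : ℝ) / n * ‖Mn T f n‖ := by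
  have hn0 : (0 : ℝ) < n := by exact_mod_cast hn
  unfold Ff
  rw [norm_div]
  have hnn : ‖(n : ℂ)‖ = n := by simp
  rw [hnn, div_le_iff₀ hn0]
  calc _ ≤ ∑ s ∈ Finset.range t, ‖∫ ω, Ye P f ξ lam s ω * ((Mn T f n) (ξ s ω) : ℂ) ∂P‖ :=
        norm_sum_le _ _
    _ ≤ ∑ s ∈ Finset.range t, ‖Mn T f n‖ := Finset.sum_le_sum fun s _ => au_Y_le h f _ lam s s
    _ = _ := by simp; field_simp

end pathB9a

end TwoSidedCLT
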