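import Pool.Agent.H374e.Defs
import Pool.Agent.H374e.CB8
import Pool.Agent.H374e.CB9a

open MeasureTheory ProbabilityTheory Filter Topology
open scoped ENNReal NNReal InnerProductSpace

set_option linter.unusedVariables false
set_option warn.classDefReducibility false

namespace TwoSidedCLT

theorem b9b_geom (A : ℝ) (hA : 0 ≤ A) (J : ℕ) :
    ∑ j ∈ Finset.range J, A * √((2 : ℝ) ^ j) ≤ 3 * A * √((2 : ℝ) ^ J) := by
  induction J with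
  | zero => simp; positivity
  | succ J ih =>
    rw [Finset.sum_range_succ]
    have h2 : √((2 : ℝ) ^ (J + 1)) = √2 * √((2 : ℝ) ^ J) := by
      rw [pow_succ, mul_comm, Real.sqrt_mul (by norm_num)]
    rw [h2]
    have h3 : (4 : ℝ) / 3 ≤ √2 := by
      rw [show (4 : ℝ) / 3 = √((4 / 3) ^ 2) by rw [Real.sqrt_sq (by norm_num)]]
      exact Real.sqrt_le_sqrt (by norm_num)
    have h4 : 0 ≤ A * √((2 : ℝ) ^ J) := by positivity
    nlinarith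

section pathB9b

variable {Ω S : Type*} [mΩ : MeasurableSpace Ω] [mS : MeasurableSpace S]
  {P : Measure Ω} [IsProbabilityMeasure P] {π : Measure S} {ξ : ℕ → Ω → S}
  {T : Lp ℝ 2 π →L[ℝ] Lp ℝ 2 π}

theorem b9b_tele (h : Setup P π ξ T) (f : Lp ℝ 2 π) (lam : ℝ) (t l d : ℕ) :
    ‖Ff P T f ξ lam t (2 ^ l)‖ ≤ ‖Ff P T f ξ lam t (2 ^ (l + d))‖
      + ∑ j ∈ Finset.Ico l (l + d), ‖Mn T f (2 ^ j)‖
      + ‖∑ j ∈ Finset.Ico l (l + d), Dd P f (Mn T f (2 ^ j)) ξ lam t (2 ^ j) / (2 * 2 ^ j)‖ := by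
  have key : ‖Ff P T f ξ lam t (2 ^ l) - Ff P T f ξ lam t (2 ^ (l + d))
      - ∑ j ∈ Finset.Ico l (l + d), Dd P f (Mn T f (2 ^ j)) ξ lam t (2 ^ j) / (2 * 2 ^ j)‖
      ≤ ∑ j ∈ Finset.Ico l (l + d), ‖Mn T f (2 ^ j)‖ := by
    induction d with
    | zero => simp
    | succ d ih =>
      rw [← add_assoc, Finset.sum_Ico_succ_top (by omega), Finset.sum_Ico_succ_top (by omega)]
      have h1 := Ff_double h f lam t (2 ^ (l + d)) Nat.one_le_two_pow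
      have e : (2 : ℕ) * 2 ^ (l + d) = 2 ^ (l + d + 1) := by ring
      rw [e] at h1
      push_cast at h1
      calc _ = ‖(Ff P T f ξ lam t (2 ^ l) - Ff P T f ξ lam t (2 ^ (l + d))
              - ∑ j ∈ Finset.Ico l (l + d), Dd P f (Mn T f (2 ^ j)) ξ lam t (2 ^ j) / (2 * 2 ^ j))
            + (Ff P T f ξ lam t (2 ^ (l + d)) - Ff P T f ξ lam t (2 ^ (l + d + 1))
              - Dd P f (Mn T f (2 ^ (l + d))) ξ lam t (2 ^ (l + d)) / (2 * 2 ^ (l + d)))‖ := by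
            congr 1; ring
        _ ≤ _ := (norm_add_le _ _).trans (add_le_add ih h1)
  set D := ∑ j ∈ Finset.Ico l (l + d), Dd P f (Mn T f (2 ^ j)) ξ lam t (2 ^ j) / (2 * 2 ^ j)
  set F1 := Ff P T f ξ lam t (2 ^ l)
  set F2 := Ff P T f ξ lam t (2 ^ (l + d))
  calc ‖F1‖ = ‖(F1 - F2 - D) + F2 + D‖ := by congr 1; ring
    _ ≤ ‖F1 - F2 - D‖ + ‖F2‖ + ‖D‖ := norm_add₃_le
    _ ≤ _ := by linarith

theorem Ff_tele (h : Setup P π ξ T) (f : Lp ℝ 2 π) (c : ℝ) (l J : ℕ) (hlJ : l ≤ J) (A : ℝ)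
    (hA : ∀ j, l ≤ j → ‖Mn T f (2 ^ j)‖ ≤ A * √((2 : ℝ) ^ j))
    (N : ℕ) (hN1 : 2 ^ J ≤ N) (hN2 : N < 2 ^ (J + 1)) (t : ℕ) (ht : t ≤ N) :
    ∃ J' : ℕ, l ≤ J' ∧ J' ≤ J ∧ |c| / √(N : ℝ) * ‖Ff P T f ξ (c / √(N : ℝ)) t (2 ^ l)‖
      ≤ 10 * |c| * A + |c| / √(N : ℝ) *
        ‖∑ j ∈ Finset.Ico l J', Dd P f (Mn T f (2 ^ j)) ξ (c / √(N : ℝ)) t (2 ^ j) / (2 * 2 ^ j)‖ := by
  have hA0 : 0 ≤ A := by
    have h1 := (norm_nonneg _).trans (hA l le_rfl)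
    have h2 : 0 < √((2 : ℝ) ^ l) := Real.sqrt_pos.mpr (by positivity)
    by_contra hneg
    push Not at hneg
    nlinarith
  have hN0 : (0 : ℝ) < N := by
    have : 1 ≤ N := Nat.one_le_two_pow.trans hN1
    exact_mod_cast this
  have hsN : 0 < √(N : ℝ) := Real.sqrt_pos.mpr hN0
  -- choice of J'
  obtain ⟨d, hdJ, htop⟩ : ∃ d : ℕ, l + d ≤ J ∧ (t : ℝ) ≤ 2 * 2 ^ (l + d) := by
    by_cases hlt : t < 2 ^ l
    · refine ⟨0, by omega, ?_⟩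
      have : (t : ℝ) < 2 ^ l := by exact_mod_cast hlt
      have h2 : (0 : ℝ) < 2 ^ l := by positivity
      simp only [add_zero]
      linarith
    · push Not at hlt
      have ht0 : t ≠ 0 := by
        have := Nat.one_le_two_pow (n := l)
        omega
      have h1 : l ≤ Nat.log 2 t := Nat.le_log_of_pow_le (by norm_num) hlt
      have h2 : Nat.log 2 t ≤ J := by
        have : Nat.log 2 t < J + 1 := Nat.log_lt_of_lt_pow ht0 (ht.trans_lt hN2)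
        omega
      refine ⟨Nat.log 2 t - l, by omega, ?_⟩
      have e : l + (Nat.log 2 t - l) = Nat.log 2 t := by omega
      rw [e]
      have h3 : t < 2 ^ (Nat.log 2 t + 1) := Nat.lt_pow_succ_log_self (by norm_num) t
      have h4 : (t : ℝ) < 2 ^ (Nat.log 2 t + 1) := by exact_mod_cast h3
      rw [pow_succ] at h4
      linarith
  refine ⟨l + d, by omega, hdJ, ?_⟩
  have htl := b9b_tele h f (c / √(N : ℝ)) t l d
  have hF2 : ‖Ff P T f ξ (c / √(N : ℝ)) t (2 ^ (l + d))‖ ≤ 2 * (A * √((2 : ℝ) ^ (l + d))) := by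
    have h1 := Ff_top h f (c / √(N : ℝ)) t (2 ^ (l + d)) Nat.one_le_two_pow
    have h2 : (t : ℝ) / ((2 ^ (l + d) : ℕ) : ℝ) ≤ 2 := by
      rw [div_le_iff₀ (by positivity)]
      push_cast
      exact htop
    calc _ ≤ _ := h1
      _ ≤ 2 * ‖Mn T f (2 ^ (l + d))‖ := by gcongr
      _ ≤ _ := by
        gcongr
        exact hA (l + d) (by omega)
  have hsum : ∑ j ∈ Finset.Ico l (l + d), ‖Mn T f (2 ^ j)‖ ≤ 3 * A * √((2 : ℝ) ^ (l + d)) := by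
    calc _ ≤ ∑ j ∈ Finset.Ico l (l + d), A * √((2 : ℝ) ^ j) :=
          Finset.sum_le_sum fun j hj => hA j (Finset.mem_Ico.mp hj).1
      _ ≤ ∑ j ∈ Finset.range (l + d), A * √((2 : ℝ) ^ j) := by
          refine Finset.sum_le_sum_of_subset_of_nonneg ?_ fun j _ _ => by positivity
          intro j hj
          exact Finset.mem_range.mpr (Finset.mem_Ico.mp hj).2
      _ ≤ _ := b9b_geom A hA0 (l + d)
  have hs : √((2 : ℝ) ^ (l + d)) ≤ √(N : ℝ) := by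
    refine Real.sqrt_le_sqrt ?_
    have : 2 ^ (l + d) ≤ N := (Nat.pow_le_pow_right (by norm_num) hdJ).trans hN1
    exact_mod_cast this
  have hc : 0 ≤ |c| / √(N : ℝ) := by positivity
  have hcs : |c| / √(N : ℝ) * (5 * A * √((2 : ℝ) ^ (l + d))) ≤ 5 * |c| * A := by
    calc _ ≤ |c| / √(N : ℝ) * (5 * A * √(N : ℝ)) := by gcongr
      _ = 5 * |c| * A := by field_simp
  calc |c| / √(N : ℝ) * ‖Ff P T f ξ (c / √(N : ℝ)) t (2 ^ l)‖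
      ≤ |c| / √(N : ℝ) * (5 * A * √((2 : ℝ) ^ (l + d)) + ‖∑ j ∈ Finset.Ico l (l + d),
        Dd P f (Mn T f (2 ^ j)) ξ (c / √(N : ℝ)) t (2 ^ j) / (2 * 2 ^ j)‖) := by
        refine mul_le_mul_of_nonneg_left ?_ hc
        linarith
    _ ≤ _ := by
        rw [mul_add]
        have : 0 ≤ |c| * A := by positivity
        linarith

theorem Ff_bound (h : Setup P π ξ T) (f : Lp ℝ 2 π) (C0 : ℝ) (hC0 : 0 ≤ C0)
    (hvar : ∀ n : ℕ, varSum T f n ≤ C0 ^ 2 * n) (c : ℝ) (l J : ℕ) (hlJ : l ≤ J) (A : ℝ)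
    (hA : ∀ j, l ≤ j → ‖Mn T f (2 ^ j)‖ ≤ A * √((2 : ℝ) ^ j))
    (N : ℕ) (hN1 : 2 ^ J ≤ N) (hN2 : N < 2 ^ (J + 1)) (t : ℕ) (ht : t ≤ N) (B : ℝ) (hB : 0 < B) :
    |c| / √(N : ℝ) * ‖Ff P T f ξ (c / √(N : ℝ)) t (2 ^ l)‖
      ≤ 10 * |c| * A
        + c ^ 2 / 2 * ∑ j ∈ Finset.Ico l (J + 1), ‖Nn T f (2 ^ j)‖ * ‖Mn T f (2 ^ j)‖ / 2 ^ j
        + (J + 1) * (|c| ^ 3 / 4 * C0 ^ 2 + c ^ 2 / 2 * C0) * (B / √(N : ℝ))
        + |c| * √(N : ℝ) * ∑ j ∈ Finset.Ico l (J + 1),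
            (∫ x in {x | B < |(Mn T f (2 ^ j)) x|}, |(Mn T f (2 ^ j)) x| ∂π) / 2 ^ j := by
  obtain ⟨J', hl', hJ', hF⟩ := Ff_tele h f c l J hlJ A hA N hN1 hN2 t ht
  have hN1' : 1 ≤ N := Nat.one_le_two_pow.trans hN1
  have hN0 : (0 : ℝ) < N := by exact_mod_cast hN1'
  have hsN : 0 < √(N : ℝ) := Real.sqrt_pos.mpr hN0
  set lam := c / √(N : ℝ) with hlam
  set W : ℕ → ℝ := fun j => ∫ x in {x | B < |(Mn T f (2 ^ j)) x|}, |(Mn T f (2 ^ j)) x| ∂π with hW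
  have hW0 : ∀ j, 0 ≤ W j := fun j =>
    setIntegral_nonneg_of_ae_restrict (Filter.Eventually.of_forall fun x => abs_nonneg _)
  set K := (|c| ^ 3 / 4 * C0 ^ 2 + c ^ 2 / 2 * C0) * (B / √(N : ℝ)) with hK
  have hK0 : 0 ≤ K := by positivity
  have hj : ∀ j, |c| / √(N : ℝ) * ‖Dd P f (Mn T f (2 ^ j)) ξ lam t (2 ^ j) / (2 * 2 ^ j)‖
      ≤ c ^ 2 / 2 * (‖Nn T f (2 ^ j)‖ * ‖Mn T f (2 ^ j)‖ / 2 ^ j) + K
        + |c| * √(N : ℝ) * (W j / 2 ^ j) := by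
    intro j
    have h1 := Tn_bound h f C0 hC0 hvar c N hN1' t ht (2 ^ j) Nat.one_le_two_pow (Mn T f (2 ^ j))
      B hB
    push_cast at h1
    have e : ‖(2 * 2 ^ j : ℂ)‖ = 2 * 2 ^ j := by simp
    rw [norm_div, e]
    calc _ = |c| / √(N : ℝ) * ‖Dd P f (Mn T f (2 ^ j)) ξ lam t (2 ^ j)‖ / (2 * 2 ^ j) := by ring
      _ ≤ _ := h1
      _ = _ := by simp only [hK, hW]; ring
  have hsum : |c| / √(N : ℝ) *
      ‖∑ j ∈ Finset.Ico l J', Dd P f (Mn T f (2 ^ j)) ξ lam t (2 ^ j) / (2 * 2 ^ j)‖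
      ≤ ∑ j ∈ Finset.Ico l (J + 1), (c ^ 2 / 2 * (‖Nn T f (2 ^ j)‖ * ‖Mn T f (2 ^ j)‖ / 2 ^ j) + K
        + |c| * √(N : ℝ) * (W j / 2 ^ j)) := by
    calc _ ≤ |c| / √(N : ℝ) * ∑ j ∈ Finset.Ico l J',
          ‖Dd P f (Mn T f (2 ^ j)) ξ lam t (2 ^ j) / (2 * 2 ^ j)‖ := by
          gcongr; exact norm_sum_le _ _
      _ = ∑ j ∈ Finset.Ico l J', |c| / √(N : ℝ) *
          ‖Dd P f (Mn T f (2 ^ j)) ξ lam t (2 ^ j) / (2 * 2 ^ j)‖ := Finset.mul_sum _ _ _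
      _ ≤ ∑ j ∈ Finset.Ico l J', (c ^ 2 / 2 * (‖Nn T f (2 ^ j)‖ * ‖Mn T f (2 ^ j)‖ / 2 ^ j) + K
        + |c| * √(N : ℝ) * (W j / 2 ^ j)) := Finset.sum_le_sum fun j _ => hj j
      _ ≤ _ := by
          refine Finset.sum_le_sum_of_subset_of_nonneg ?_ fun j _ _ => ?_
          · intro j hj
            rw [Finset.mem_Ico] at hj ⊢
            omega
          · have := hW0 j
            positivity
  have hsplit : ∑ j ∈ Finset.Ico l (J + 1), (c ^ 2 / 2 * (‖Nn T f (2 ^ j)‖ * ‖Mn T f (2 ^ j)‖ / 2 ^ j) + K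
        + |c| * √(N : ℝ) * (W j / 2 ^ j))
      = c ^ 2 / 2 * ∑ j ∈ Finset.Ico l (J + 1), ‖Nn T f (2 ^ j)‖ * ‖Mn T f (2 ^ j)‖ / 2 ^ j
        + ((J + 1 - l : ℕ) : ℝ) * K
        + |c| * √(N : ℝ) * ∑ j ∈ Finset.Ico l (J + 1), W j / 2 ^ j := by
    rw [Finset.sum_add_distrib, Finset.sum_add_distrib, Finset.mul_sum, Finset.mul_sum,
      Finset.sum_const, Nat.card_Ico, nsmul_eq_mul]
  have hK1 : ((J + 1 - l : ℕ) : ℝ) * K ≤ (J + 1) * K := by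
    gcongr
    have : J + 1 - l ≤ J + 1 := Nat.sub_le _ _
    exact_mod_cast this
  rw [hsplit] at hsum
  have hKe : ((J : ℝ) + 1) * (|c| ^ 3 / 4 * C0 ^ 2 + c ^ 2 / 2 * C0) * (B / √(N : ℝ)) = (J + 1) * K := by
    simp only [hK]; ring
  rw [hKe]
  linarith

end pathB9b

end TwoSidedCLT
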