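import Pool.Agent.H374e.Defs
import Pool.Agent.H374e.CA1b
import Pool.Agent.H374e.CB3a
import Pool.Agent.H374e.CB5a
import Pool.Agent.H374e.CB5b
import Pool.Agent.H374e.CB6a
import Pool.Agent.H374e.CB6b
import Pool.Agent.H374e.CB8
import Pool.Agent.H374e.CB9b

open MeasureTheory ProbabilityTheory Filter Topology
open scoped ENNReal NNReal InnerProductSpace

set_option linter.unusedVariables false
set_option warn.classDefReducibility false

namespace TwoSidedCLT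

section pathA2

variable {Ω S : Type*} [mΩ : MeasurableSpace Ω] [mS : MeasurableSpace S]
  {P : Measure Ω} [IsProbabilityMeasure P] {π : Measure S} {ξ : ℕ → Ω → S}
  {T : Lp ℝ 2 π →L[ℝ] Lp ℝ 2 π}


theorem a2_mp (h : Setup P π ξ T) (n : ℕ) : MeasurePreserving (ξ n) P π := ⟨h.meas n, h.law n⟩

theorem a2_fut_le (h : Setup P π ξ T) (s : ℕ) : fut ξ s ≤ mΩ :=
  iSup₂_le fun k _ => pres_le h k

theorem a2_int (h : Setup P π ξ T) (f u : Lp ℝ 2 π) (lam : ℝ) (s n : ℕ) :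
    Integrable (fun ω => Ye P f ξ lam s ω * (eb f ξ lam s n ω - 1) * (u (ξ (s + n) ω) : ℂ)) P := by
  have hu : Integrable (fun ω => (u (ξ (s + n) ω) : ℂ)) P := by
    have h1 : MemLp (⇑u ∘ ξ (s + n)) 2 P := (Lp.memLp u).comp_measurePreserving (a2_mp h (s + n))
    exact (h1.integrable (by norm_num)).ofReal
  refine hu.bdd_mul (c := 2) ?_ ?_
  · have hY : AEStronglyMeasurable (Ye P f ξ lam s) P :=
      ((Ye_meas f lam s).mono (pres_le h s)).aestronglyMeasurable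
    have he : AEStronglyMeasurable (eb f ξ lam s n) P :=
      ((eb_meas h f lam s n).mono (a2_fut_le h s)).aestronglyMeasurable
    exact hY.mul (he.sub aestronglyMeasurable_const)
  · filter_upwards [Ye_norm_le h f lam s] with ω hω
    rw [norm_mul]
    have h1 : ‖eb f ξ lam s n ω - 1‖ ≤ 2 := by
      calc ‖eb f ξ lam s n ω - 1‖ ≤ ‖eb f ξ lam s n ω‖ + ‖(1 : ℂ)‖ := norm_sub_le _ _
        _ = 1 + 1 := by unfold eb; rw [Complex.norm_exp_ofReal_mul_I, norm_one]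
        _ = 2 := by norm_num
    calc _ ≤ 1 * 2 := mul_le_mul hω h1 (norm_nonneg _) zero_le_one
      _ = 2 := by norm_num

theorem a2_Dd_add (h : Setup P π ξ T) (f u v : Lp ℝ 2 π) (lam : ℝ) (t n : ℕ) :
    Dd P f (u + v) ξ lam t n = Dd P f u ξ lam t n + Dd P f v ξ lam t n := by
  unfold Dd
  rw [← Finset.sum_add_distrib]
  apply Finset.sum_congr rfl
  intro s _
  rw [← integral_add (a2_int h f u lam s n) (a2_int h f v lam s n)]
  apply integral_congr_ae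
  have h1 : ∀ᵐ x ∂π, (u + v : Lp ℝ 2 π) x = u x + v x := Lp.coeFn_add u v
  have h2 := (a2_mp h (s + n)).quasiMeasurePreserving.ae h1
  filter_upwards [h2] with ω hω
  rw [hω]
  push_cast
  ring

theorem a2_Mg_add (h : Setup P π ξ T) (u v : Lp ℝ 2 π) (n : ℕ) :
    Mg T (u + v) n = Mg T u n + Mg T v n := by
  unfold Mg
  rw [← (summable_Mg T h.norm_le u n).tsum_add (summable_Mg T h.norm_le v n)]
  apply tsum_congr
  intro k
  rw [map_add, smul_add]

/-- the weighted sum over scales -/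
noncomputable def a2_Phi (P : Measure Ω) (T : Lp ℝ 2 π →L[ℝ] Lp ℝ 2 π) (f : Lp ℝ 2 π)
    (ξ : ℕ → Ω → S) (c : ℝ) (N t l J' : ℕ) (u : Lp ℝ 2 π) : ℝ :=
  |c| / √(N : ℝ) * ∑ j ∈ Finset.Ico l J',
          ‖Dd P f (Mg T u (2 ^ j)) ξ (c / √(N : ℝ)) t (2 ^ j)‖ / (2 * 2 ^ j)

theorem a2_Phi_add_le (h : Setup P π ξ T) (f : Lp ℝ 2 π) (c : ℝ) (N t l J' : ℕ) (u v : Lp ℝ 2 π) :
    a2_Phi P T f ξ c N t l J' (u + v)
      ≤ a2_Phi P T f ξ c N t l J' u + a2_Phi P T f ξ c N t l J' v := by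
  unfold a2_Phi
  rw [← mul_add, ← Finset.sum_add_distrib]
  apply mul_le_mul_of_nonneg_left _ (by positivity)
  apply Finset.sum_le_sum
  intro j _
  rw [a2_Mg_add h, a2_Dd_add h, ← add_div]
  exact div_le_div_of_nonneg_right (norm_add_le _ _) (by positivity)

theorem a2_Phi_sum_le (h : Setup P π ξ T) (f : Lp ℝ 2 π) (c : ℝ) (N t l J' : ℕ) (a : Lp ℝ 2 π)
    (v : ℕ → Lp ℝ 2 π) (m : ℕ) :
    a2_Phi P T f ξ c N t l J' (a + ∑ i ∈ Finset.range m, v i)
      ≤ a2_Phi P T f ξ c N t l J' a + ∑ i ∈ Finset.range m, a2_Phi P T f ξ c N t l J' (v i) := by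
  induction m with
  | zero => simp
  | succ m ih =>
    rw [Finset.sum_range_succ, Finset.sum_range_succ, ← add_assoc, ← add_assoc]
    exact (a2_Phi_add_le h f c N t l J' _ _).trans (by linarith)

theorem a2_norm_sq (u : Lp ℝ 2 π) : ‖u‖ ^ 2 = ∫ x, (u x) ^ 2 ∂π := by
  rw [← real_inner_self_eq_norm_sq u, L2.inner_def]
  apply integral_congr_ae
  filter_upwards with x
  show inner ℝ (u x) (u x) = (u x) ^ 2
  rw [real_inner_self_eq_norm_sq, Real.norm_eq_abs, sq_abs]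

theorem a2_meas_lt (g : Lp ℝ 2 π) (a : ℝ) : MeasurableSet {x | |g x| < a} :=
  measurableSet_lt ((Lp.stronglyMeasurable g).measurable.abs) measurable_const

theorem a2_meas_le (g : Lp ℝ 2 π) (a : ℝ) : MeasurableSet {x | a ≤ |g x|} :=
  measurableSet_le measurable_const ((Lp.stronglyMeasurable g).measurable.abs)

/-- truncation at `2^s` -/
noncomputable def a2_cut (g : Lp ℝ 2 π) (s : ℕ) : Lp ℝ 2 π :=
  ((Lp.memLp g).indicator (a2_meas_lt g ((2 : ℝ) ^ s))).toLp _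

theorem a2_cut_ae (g : Lp ℝ 2 π) (s : ℕ) :
    ∀ᵐ x ∂π, a2_cut g s x = Set.indicator {x | |g x| < (2 : ℝ) ^ s} g x :=
  MemLp.coeFn_toLp _

theorem a2_cut_bdd (g : Lp ℝ 2 π) (s : ℕ) : ∀ᵐ x ∂π, |a2_cut g s x| ≤ (2 : ℝ) ^ s := by
  filter_upwards [a2_cut_ae g s] with x hx
  rw [hx]
  by_cases hc : |g x| < (2 : ℝ) ^ s
  · rw [Set.indicator_of_mem (show x ∈ {x | |g x| < (2 : ℝ) ^ s} from hc)]
    exact hc.le
  · rw [Set.indicator_of_notMem (show x ∉ {x | |g x| < (2 : ℝ) ^ s} from hc), abs_zero]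
    positivity

theorem a2_class_ae (g : Lp ℝ 2 π) (s : ℕ) :
    ∀ᵐ x ∂π, |(a2_cut g (s + 1) - a2_cut g s : Lp ℝ 2 π) x| ≤
      Set.indicator {x | (2 : ℝ) ^ s ≤ |g x|} (fun _ => (2 : ℝ) ^ (s + 1)) x := by
  filter_upwards [a2_cut_ae g s, a2_cut_ae g (s + 1), Lp.coeFn_sub (a2_cut g (s + 1)) (a2_cut g s)]
    with x h0 h1 h2
  rw [h2, Pi.sub_apply, h0, h1]
  have h12 : (2 : ℝ) ^ s ≤ (2 : ℝ) ^ (s + 1) := pow_le_pow_right₀ (by norm_num) (Nat.le_succ s)
  by_cases hc : |g x| < (2 : ℝ) ^ s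
  · rw [Set.indicator_of_mem (show x ∈ {x | |g x| < (2 : ℝ) ^ s} from hc),
      Set.indicator_of_mem (show x ∈ {x | |g x| < (2 : ℝ) ^ (s + 1)} from lt_of_lt_of_le hc h12),
      Set.indicator_of_notMem (show x ∉ {x | (2 : ℝ) ^ s ≤ |g x|} from not_le.mpr hc), sub_self,
      abs_zero]
  · rw [Set.indicator_of_notMem (show x ∉ {x | |g x| < (2 : ℝ) ^ s} from hc),
      Set.indicator_of_mem (show x ∈ {x | (2 : ℝ) ^ s ≤ |g x|} from not_lt.mp hc), sub_zero]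
    by_cases hd : |g x| < (2 : ℝ) ^ (s + 1)
    · rw [Set.indicator_of_mem (show x ∈ {x | |g x| < (2 : ℝ) ^ (s + 1)} from hd)]
      exact hd.le
    · rw [Set.indicator_of_notMem (show x ∉ {x | |g x| < (2 : ℝ) ^ (s + 1)} from hd), abs_zero]
      positivity

theorem a2_class_L1 [IsProbabilityMeasure π] (g : Lp ℝ 2 π) (s : ℕ) :
    ∫ x, |(a2_cut g (s + 1) - a2_cut g s : Lp ℝ 2 π) x| ∂π
      ≤ 2 ^ (s + 1) * π.real {x | (2 : ℝ) ^ s ≤ |g x|} := by
  have hm := a2_meas_le g ((2 : ℝ) ^ s)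
  calc ∫ x, |(a2_cut g (s + 1) - a2_cut g s : Lp ℝ 2 π) x| ∂π
      ≤ ∫ x, Set.indicator {x | (2 : ℝ) ^ s ≤ |g x|} (fun _ => (2 : ℝ) ^ (s + 1)) x ∂π := by
        apply integral_mono_ae
        · exact ((Lp.memLp _).integrable (by norm_num)).abs
        · exact (integrable_const _).indicator hm
        · exact a2_class_ae g s
    _ = 2 ^ (s + 1) * π.real {x | (2 : ℝ) ^ s ≤ |g x|} := by
        rw [integral_indicator hm, setIntegral_const, smul_eq_mul, mul_comm]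

theorem a2_class_L2 [IsProbabilityMeasure π] (g : Lp ℝ 2 π) (s : ℕ) :
    ‖(a2_cut g (s + 1) - a2_cut g s : Lp ℝ 2 π)‖
      ≤ 2 ^ (s + 1) * √(π.real {x | (2 : ℝ) ^ s ≤ |g x|}) := by
  have hm := a2_meas_le g ((2 : ℝ) ^ s)
  have h1 : ‖(a2_cut g (s + 1) - a2_cut g s : Lp ℝ 2 π)‖ ^ 2
      ≤ (2 ^ (s + 1) * √(π.real {x | (2 : ℝ) ^ s ≤ |g x|})) ^ 2 := by
    rw [a2_norm_sq, mul_pow, Real.sq_sqrt measureReal_nonneg]
    calc ∫ x, ((a2_cut g (s + 1) - a2_cut g s : Lp ℝ 2 π) x) ^ 2 ∂π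
        ≤ ∫ x, Set.indicator {x | (2 : ℝ) ^ s ≤ |g x|} (fun _ => ((2 : ℝ) ^ (s + 1)) ^ 2) x ∂π := by
          apply integral_mono_ae
          · exact (Lp.memLp _).integrable_sq
          · exact (integrable_const _).indicator hm
          · filter_upwards [a2_class_ae g s] with x hx
            rw [← sq_abs]
            by_cases hc : (2 : ℝ) ^ s ≤ |g x|
            · rw [Set.indicator_of_mem (show x ∈ {x | (2 : ℝ) ^ s ≤ |g x|} from hc)] at hx ⊢
              exact pow_le_pow_left₀ (abs_nonneg _) hx 2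
            · rw [Set.indicator_of_notMem (show x ∉ {x | (2 : ℝ) ^ s ≤ |g x|} from hc)] at hx ⊢
              have : |(a2_cut g (s + 1) - a2_cut g s : Lp ℝ 2 π) x| = 0 :=
                le_antisymm hx (abs_nonneg _)
              rw [this]; norm_num
      _ = (2 ^ (s + 1)) ^ 2 * π.real {x | (2 : ℝ) ^ s ≤ |g x|} := by
          rw [integral_indicator hm, setIntegral_const, smul_eq_mul, mul_comm]
  exact le_of_sq_le_sq h1 (by positivity)

theorem a2_cut_tendsto (g : Lp ℝ 2 π) :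
    Tendsto (fun s : ℕ => ‖g - a2_cut g s‖) atTop (𝓝 0) := by
  have h1 : Tendsto (fun s : ℕ => ∫ x, (Set.indicator {x | (2 : ℝ) ^ s ≤ |g x|} g x) ^ 2 ∂π) atTop
      (𝓝 (∫ _, (0 : ℝ) ∂π)) := by
    apply tendsto_integral_of_dominated_convergence (fun x => (g x) ^ 2)
    · intro s
      exact (((Lp.stronglyMeasurable g).indicator (a2_meas_le g _)).pow 2).aestronglyMeasurable
    · exact (Lp.memLp g).integrable_sq
    · intro s
      filter_upwards with x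
      rw [Real.norm_eq_abs, abs_of_nonneg (sq_nonneg _)]
      by_cases hc : (2 : ℝ) ^ s ≤ |g x|
      · rw [Set.indicator_of_mem (show x ∈ {x | (2 : ℝ) ^ s ≤ |g x|} from hc)]
      · rw [Set.indicator_of_notMem (show x ∉ {x | (2 : ℝ) ^ s ≤ |g x|} from hc)]
        nlinarith [sq_nonneg (g x)]
    · filter_upwards with x
      apply tendsto_const_nhds.congr'
      obtain ⟨s0, hs0⟩ := pow_unbounded_of_one_lt |g x| (one_lt_two : (1 : ℝ) < 2)
      filter_upwards [eventually_ge_atTop s0] with s hs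
      have : |g x| < (2 : ℝ) ^ s := lt_of_lt_of_le hs0 (pow_le_pow_right₀ (by norm_num) hs)
      rw [Set.indicator_of_notMem (show x ∉ {x | (2 : ℝ) ^ s ≤ |g x|} from not_le.mpr this)]
      norm_num
  rw [integral_zero] at h1
  have h2 : ∀ s, ‖g - a2_cut g s‖ =
      √(∫ x, (Set.indicator {x | (2 : ℝ) ^ s ≤ |g x|} g x) ^ 2 ∂π) := by
    intro s
    rw [← Real.sqrt_sq (norm_nonneg (g - a2_cut g s)), a2_norm_sq]
    congr 1
    apply integral_congr_ae
    filter_upwards [a2_cut_ae g s, Lp.coeFn_sub g (a2_cut g s)] with x h0 h2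
    rw [h2, Pi.sub_apply, h0]
    by_cases hc : |g x| < (2 : ℝ) ^ s
    · rw [Set.indicator_of_mem (show x ∈ {x | |g x| < (2 : ℝ) ^ s} from hc),
        Set.indicator_of_notMem (show x ∉ {x | (2 : ℝ) ^ s ≤ |g x|} from not_le.mpr hc), sub_self]
    · rw [Set.indicator_of_notMem (show x ∉ {x | |g x| < (2 : ℝ) ^ s} from hc),
        Set.indicator_of_mem (show x ∈ {x | (2 : ℝ) ^ s ≤ |g x|} from not_lt.mp hc), sub_zero]
  have h3 := h1.sqrt
  rw [Real.sqrt_zero] at h3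
  exact h3.congr fun s => (h2 s).symm

theorem a2_summable [IsProbabilityMeasure π] (g : Lp ℝ 2 π)
    (hL : ∫⁻ t in Set.Ioi (0 : ℝ), (π {x | t < |g x|}) ^ (1 / 2 : ℝ) ≠ ∞) :
    Summable fun s : ℕ => (2 : ℝ) ^ s * √(π.real {x | (2 : ℝ) ^ s ≤ |g x|}) := by
  set F : ℝ → ℝ≥0∞ := fun t => (π {x | t < |g x|}) ^ (1 / 2 : ℝ) with hF
  have hdis : Pairwise (Function.onFun Disjoint
      (fun s : ℕ => Set.Ico ((2 : ℝ) ^ s / 2) ((2 : ℝ) ^ s))) := by
    intro i j hij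
    wlog hlt : i < j generalizing i j
    · exact (this hij.symm (lt_of_le_of_ne (not_lt.mp hlt) hij.symm)).symm
    rw [Function.onFun, Set.disjoint_left]
    intro x hx hx'
    have h1 : (2 : ℝ) ^ i ≤ (2 : ℝ) ^ j / 2 := by
      have : (2 : ℝ) ^ (i + 1) ≤ (2 : ℝ) ^ j := pow_le_pow_right₀ (by norm_num) hlt
      rw [pow_succ] at this
      linarith
    linarith [hx.2, hx'.1]
  have hsub : (⋃ s : ℕ, Set.Ico ((2 : ℝ) ^ s / 2) ((2 : ℝ) ^ s)) ⊆ Set.Ioi (0 : ℝ) := by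
    intro x hx
    obtain ⟨s, hs⟩ := Set.mem_iUnion.mp hx
    have : (0 : ℝ) < (2 : ℝ) ^ s / 2 := by positivity
    exact lt_of_lt_of_le this hs.1
  have h1 : ∑' s : ℕ, ∫⁻ t in Set.Ico ((2 : ℝ) ^ s / 2) ((2 : ℝ) ^ s), F t ≠ ∞ := by
    rw [← lintegral_iUnion (fun s => measurableSet_Ico) hdis]
    exact ne_top_of_le_ne_top hL (lintegral_mono_set hsub)
  have h2 : ∀ s : ℕ, ENNReal.ofReal ((2 : ℝ) ^ s / 2) * (π {x | (2 : ℝ) ^ s ≤ |g x|}) ^ (1 / 2 : ℝ)
      ≤ ∫⁻ t in Set.Ico ((2 : ℝ) ^ s / 2) ((2 : ℝ) ^ s), F t := by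
    intro s
    calc ENNReal.ofReal ((2 : ℝ) ^ s / 2) * (π {x | (2 : ℝ) ^ s ≤ |g x|}) ^ (1 / 2 : ℝ)
        = ∫⁻ _ in Set.Ico ((2 : ℝ) ^ s / 2) ((2 : ℝ) ^ s),
            (π {x | (2 : ℝ) ^ s ≤ |g x|}) ^ (1 / 2 : ℝ) := by
          rw [setLIntegral_const, Real.volume_Ico, mul_comm]
          congr 2
          ring
      _ ≤ ∫⁻ t in Set.Ico ((2 : ℝ) ^ s / 2) ((2 : ℝ) ^ s), F t := by
          apply setLIntegral_mono' measurableSet_Ico
          intro t ht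
          apply ENNReal.rpow_le_rpow _ (by norm_num)
          exact measure_mono fun x hx => lt_of_lt_of_le ht.2 hx
  have h3 : ∑' s : ℕ, ENNReal.ofReal ((2 : ℝ) ^ s / 2) *
      (π {x | (2 : ℝ) ^ s ≤ |g x|}) ^ (1 / 2 : ℝ) ≠ ∞ :=
    ne_top_of_le_ne_top h1 (ENNReal.tsum_le_tsum h2)
  have h4 := ENNReal.summable_toReal h3
  have h5 := h4.mul_left 2
  refine h5.congr fun s => ?_
  rw [ENNReal.toReal_mul, ENNReal.toReal_ofReal (by positivity), ← ENNReal.toReal_rpow,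
    Real.sqrt_eq_rpow, Measure.real]
  ring

theorem a2_Phi_L2 (h : Setup P π ξ T) (f : Lp ℝ 2 π) (C0 : ℝ) (hC0 : 0 ≤ C0)
    (hvar : ∀ n : ℕ, varSum T f n ≤ C0 ^ 2 * n) (c : ℝ) (N : ℕ) (hN : 1 ≤ N) (t : ℕ) (ht : t ≤ N)
    (l J' : ℕ) (w : Lp ℝ 2 π) :
    a2_Phi P T f ξ c N t l J' w ≤ J' * (c ^ 2 / 2 * C0 * (4 * ‖w‖)) := by
  unfold a2_Phi
  rw [Finset.mul_sum]
  calc ∑ j ∈ Finset.Ico l J', |c| / √(N : ℝ) *
        (‖Dd P f (Mg T w (2 ^ j)) ξ (c / √(N : ℝ)) t (2 ^ j)‖ / (2 * 2 ^ j))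
      ≤ ∑ j ∈ Finset.Ico l J', (c ^ 2 / 2 * C0 * (4 * ‖w‖)) := by
        apply Finset.sum_le_sum
        intro j _
        have h1 := Tn_bound_L2 h f C0 hC0 hvar c N hN t ht (2 ^ j) Nat.one_le_two_pow (Mg T w (2 ^ j))
        have h2 := Mg_norm_le T h.norm_le w (2 ^ j)
        push_cast at h1 h2
        rw [← mul_div_assoc]
        refine h1.trans ?_
        apply mul_le_mul_of_nonneg_left _ (by positivity)
        rw [div_le_iff₀ (by positivity)]
        linarith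
    _ = ((J' - l : ℕ) : ℝ) * (c ^ 2 / 2 * C0 * (4 * ‖w‖)) := by
        rw [Finset.sum_const, Nat.card_Ico, nsmul_eq_mul]
    _ ≤ J' * (c ^ 2 / 2 * C0 * (4 * ‖w‖)) := by
        apply mul_le_mul_of_nonneg_right _ (by positivity)
        exact_mod_cast Nat.sub_le _ _

/-- the first order functional is small if `g ∈ L^{2,1}(π)` -/
theorem Ff_small (h : Setup P π ξ T) (f g g' : Lp ℝ 2 π) (hg : f = sqrtOp T g)
    (hg' : f = sqrtOp (ContinuousLinearMap.adjoint T) g') (c : ℝ)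
    (hL : ∫⁻ t in Set.Ioi (0 : ℝ), (π {x | t < |g x|}) ^ (1 / 2 : ℝ) ≠ ∞) (ε : ℝ) (hε : 0 < ε) :
    ∃ l0 : ℕ, ∀ l ≥ l0, ∃ N0 : ℕ, ∀ N ≥ N0, ∀ t ≤ N,
      |c| / √(N : ℝ) * ‖Ff P T f ξ (c / √(N : ℝ)) t (2 ^ l)‖ ≤ ε := by
  haveI := h.prob
  obtain ⟨C0, hC0, hvar⟩ := var_bound T h.norm_le f g g' hg hg'
  obtain ⟨C, hC, hclass⟩ := class_bound h f g g' hg hg' c
  -- the tail of the classes
  set x : ℕ → ℝ := fun s => (2 : ℝ) ^ s * √(π.real {x | (2 : ℝ) ^ s ≤ |g x|}) with hx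
  have hxs : Summable x := a2_summable g hL
  have hx0 : ∀ s, 0 ≤ x s := fun s => by positivity
  have hs0 : ∃ s0 : ℕ, 4 * C * ∑' k, x (k + s0) ≤ ε / 4 := by
    have h1 := (tendsto_sum_nat_add x).const_mul (4 * C)
    rw [mul_zero] at h1
    obtain ⟨s0, hs0⟩ := (h1.eventually (ge_mem_nhds (show (0 : ℝ) < ε / 4 by positivity))).exists
    exact ⟨s0, hs0⟩
  obtain ⟨s0, hs0⟩ := hs0
  -- the bounded part
  obtain ⟨l1, hl1⟩ := bounded_part h f g g' hg hg' c (a2_cut g s0) ((2 : ℝ) ^ s0) (a2_cut_bdd g s0)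
    (ε / 4) (by positivity)
  -- the size of Mn
  have hA : ∃ l2 : ℕ, ∀ j ≥ l2, ‖Mn T f (2 ^ j)‖ ≤ (ε / (40 * (|c| + 1))) * √((2 : ℝ) ^ j) := by
    have h1 := (summable_Mn T h.norm_le g).tendsto_atTop_zero
    rw [← hg] at h1
    have h2 := h1.eventually (ge_mem_nhds
      (show (0 : ℝ) < (ε / (40 * (|c| + 1))) ^ 2 by positivity))
    obtain ⟨l2, hl2⟩ := eventually_atTop.mp h2
    refine ⟨l2, fun j hj => ?_⟩
    have h3 := hl2 j hj
    rw [div_le_iff₀ (by positivity)] at h3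
    have h4 : ‖Mn T f (2 ^ j)‖ ^ 2 ≤ ((ε / (40 * (|c| + 1))) * √((2 : ℝ) ^ j)) ^ 2 := by
      rw [mul_pow, Real.sq_sqrt (by positivity)]
      exact h3
    exact le_of_sq_le_sq h4 (by positivity)
  obtain ⟨l2, hl2⟩ := hA
  refine ⟨max l1 l2, fun l hl => ⟨2 ^ l, fun N hN t ht => ?_⟩⟩
  have hll1 : l1 ≤ l := (le_max_left _ _).trans hl
  have hll2 : l2 ≤ l := (le_max_right _ _).trans hl
  have hN1 : 1 ≤ N := le_trans Nat.one_le_two_pow hN
  have hN0 : N ≠ 0 := by omega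
  have hlJ : l ≤ Nat.log 2 N := (Nat.le_log_iff_pow_le (by norm_num) hN0).mpr hN
  have hJ1 : 2 ^ Nat.log 2 N ≤ N := Nat.pow_log_le_self 2 hN0
  have hJ2 : N < 2 ^ (Nat.log 2 N + 1) := Nat.lt_pow_succ_log_self (by norm_num) N
  obtain ⟨J', hJ'1, hJ'2, hmain⟩ := Ff_tele h f c l (Nat.log 2 N) hlJ (ε / (40 * (|c| + 1)))
    (fun j hj => hl2 j (hll2.trans hj)) N hJ1 hJ2 t ht
  have hJ'N : 2 ^ J' ≤ N := (Nat.pow_le_pow_right (by norm_num) hJ'2).trans hJ1
  refine hmain.trans ?_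
  -- first term
  have e1 : 10 * |c| * (ε / (40 * (|c| + 1))) ≤ ε / 4 := by
    have hc := abs_nonneg c
    rw [← mul_div_assoc, div_le_div_iff₀ (by positivity) (by norm_num)]
    nlinarith
  -- the sum
  have e2 : |c| / √(N : ℝ) *
        ‖∑ j ∈ Finset.Ico l J', Dd P f (Mn T f (2 ^ j)) ξ (c / √(N : ℝ)) t (2 ^ j) / (2 * 2 ^ j)‖
      ≤ a2_Phi P T f ξ c N t l J' g := by
    unfold a2_Phi
    apply mul_le_mul_of_nonneg_left _ (by positivity)
    refine (norm_sum_le _ _).trans (le_of_eq ?_)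
    apply Finset.sum_congr rfl
    intro j _
    rw [norm_div, hg, Mn_sqrtOp T h.norm_le, ← hg]
    congr 1
    rw [norm_mul, norm_pow]
    norm_num
  -- choose m
  have hm : ∃ m : ℕ, J' * (c ^ 2 / 2 * C0 * (4 * ‖g - a2_cut g (s0 + m)‖)) ≤ ε / 4 := by
    have h1 := (a2_cut_tendsto g).comp (tendsto_add_atTop_nat s0)
    have h2 := ((h1.const_mul 4).const_mul (c ^ 2 / 2 * C0)).const_mul (J' : ℝ)
    rw [mul_zero, mul_zero, mul_zero] at h2
    obtain ⟨m, hm⟩ := (h2.eventually (ge_mem_nhds (show (0 : ℝ) < ε / 4 by positivity))).exists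
    refine ⟨m, ?_⟩
    rw [add_comm s0 m]
    exact hm
  obtain ⟨m, hm⟩ := hm
  have hdec : g = (a2_cut g s0 + ∑ i ∈ Finset.range m, (a2_cut g (s0 + (i + 1)) - a2_cut g (s0 + i)))
      + (g - a2_cut g (s0 + m)) := by
    rw [Finset.sum_range_sub (fun i => a2_cut g (s0 + i)) m, add_zero]
    abel
  have e3 : a2_Phi P T f ξ c N t l J' g ≤ a2_Phi P T f ξ c N t l J' (a2_cut g s0)
      + ∑ i ∈ Finset.range m,
        a2_Phi P T f ξ c N t l J' (a2_cut g (s0 + (i + 1)) - a2_cut g (s0 + i))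
      + a2_Phi P T f ξ c N t l J' (g - a2_cut g (s0 + m)) := by
    conv_lhs => rw [hdec]
    refine (a2_Phi_add_le h f c N t l J' _ _).trans ?_
    have := a2_Phi_sum_le h f c N t l J' (a2_cut g s0)
      (fun i => a2_cut g (s0 + (i + 1)) - a2_cut g (s0 + i)) m
    linarith
  have e4 : a2_Phi P T f ξ c N t l J' (a2_cut g s0) ≤ ε / 4 := hl1 l hll1 N hN1 t ht J' hJ'N
  have e5 : a2_Phi P T f ξ c N t l J' (g - a2_cut g (s0 + m)) ≤ ε / 4 :=
    (a2_Phi_L2 h f C0 hC0 hvar c N hN1 t ht l J' _).trans hm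
  have e6 : ∑ i ∈ Finset.range m,
        a2_Phi P T f ξ c N t l J' (a2_cut g (s0 + (i + 1)) - a2_cut g (s0 + i)) ≤ ε / 4 := by
    refine le_trans ?_ hs0
    have hsh : Summable fun k => x (k + s0) := (summable_nat_add_iff s0).mpr hxs
    calc ∑ i ∈ Finset.range m,
        a2_Phi P T f ξ c N t l J' (a2_cut g (s0 + (i + 1)) - a2_cut g (s0 + i))
        ≤ ∑ i ∈ Finset.range m, 4 * C * x (i + s0) := by
          apply Finset.sum_le_sum
          intro i _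
          have hb := hclass (a2_cut g (s0 + (i + 1)) - a2_cut g (s0 + i)) ((2 : ℝ) ^ (s0 + i + 1))
            (by positivity) (by
              filter_upwards [a2_class_ae g (s0 + i)] with y hy
              rw [← add_assoc]
              refine hy.trans ?_
              exact Set.indicator_le_self' (fun _ _ => by positivity) y) N hN1 t ht l J' hJ'N
          refine hb.trans ?_
          have q1 := a2_class_L2 g (s0 + i)
          have q2 := a2_class_L1 g (s0 + i)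
          rw [← add_assoc]
          have q3 : √((2 : ℝ) ^ (s0 + i + 1) *
              ∫ x, |(a2_cut g (s0 + i + 1) - a2_cut g (s0 + i) : Lp ℝ 2 π) x| ∂π)
              ≤ 2 ^ (s0 + i + 1) * √(π.real {x | (2 : ℝ) ^ (s0 + i) ≤ |g x|}) := by
            rw [Real.sqrt_le_left (by positivity), mul_pow, Real.sq_sqrt measureReal_nonneg]
            calc (2 : ℝ) ^ (s0 + i + 1) *
                  ∫ x, |(a2_cut g (s0 + i + 1) - a2_cut g (s0 + i) : Lp ℝ 2 π) x| ∂π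
                ≤ (2 : ℝ) ^ (s0 + i + 1) *
                  (2 ^ (s0 + i + 1) * π.real {x | (2 : ℝ) ^ (s0 + i) ≤ |g x|}) :=
                  mul_le_mul_of_nonneg_left q2 (by positivity)
              _ = _ := by ring
          have q4 : 4 * C * x (i + s0) = C * (2 ^ (s0 + i + 1) *
              √(π.real {x | (2 : ℝ) ^ (s0 + i) ≤ |g x|}) + 2 ^ (s0 + i + 1) *
              √(π.real {x | (2 : ℝ) ^ (s0 + i) ≤ |g x|})) := by
            simp only [hx]
            rw [add_comm i s0]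
            ring
          rw [q4]
          exact mul_le_mul_of_nonneg_left (add_le_add q1 q3) hC
      _ = 4 * C * ∑ i ∈ Finset.range m, x (i + s0) := by rw [Finset.mul_sum]
      _ ≤ 4 * C * ∑' k, x (k + s0) := by
          apply mul_le_mul_of_nonneg_left _ (by positivity)
          exact hsh.sum_le_tsum _ fun i _ => hx0 _
  linarith

end pathA2

end TwoSidedCLT
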