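import Pool.Agent.H374e.Defs
import Pool.Agent.H374e.CB6a
import Pool.Agent.H374e.CB6b
import Pool.Agent.H374e.CB7a

open MeasureTheory ProbabilityTheory Filter Topology
open scoped ENNReal NNReal InnerProductSpace

set_option linter.unusedVariables false
set_option warn.classDefReducibility false

namespace TwoSidedCLT

section b10aux

variable {Ω S : Type*} [mΩ : MeasurableSpace Ω] [mS : MeasurableSpace S]
  {P : Measure Ω} [IsProbabilityMeasure P] {π : Measure S} {ξ : ℕ → Ω → S}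
  {T : Lp ℝ 2 π →L[ℝ] Lp ℝ 2 π}

theorem b10_ae (h : Setup P π ξ T) (s : ℕ) {p : S → Prop} (hp : ∀ᵐ x ∂π, p x) :
    ∀ᵐ ω ∂P, p (ξ s ω) := by
  rw [← h.law s] at hp
  exact ae_of_ae_map (h.meas s).aemeasurable hp

theorem b10_integrable (h : Setup P π ξ T) (s : ℕ) {φ : S → ℝ} (hφ : Integrable φ π) :
    Integrable (fun ω => φ (ξ s ω)) P := by
  rw [← h.law s] at hφ
  exact hφ.comp_aemeasurable (h.meas s).aemeasurable

theorem b10_Y_aesm (h : Setup P π ξ T) (f : Lp ℝ 2 π) (lam : ℝ) (s : ℕ) :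
    AEStronglyMeasurable (Ye P f ξ lam s) P :=
  ((Ye_meas f lam s).mono (pres_le h s)).aestronglyMeasurable

theorem b10_Yint (h : Setup P π ξ T) (f : Lp ℝ 2 π) (lam : ℝ) (s k : ℕ) {φ : S → ℝ}
    (hφ : Integrable φ π) : Integrable (fun ω => Ye P f ξ lam s ω * (φ (ξ k ω) : ℂ)) P :=
  (b10_integrable h k hφ).ofReal.bdd_mul (b10_Y_aesm h f lam s) (Ye_norm_le h f lam s)

theorem b10_Ynorm (h : Setup P π ξ T) (f : Lp ℝ 2 π) (lam : ℝ) (s : ℕ) {φ : S → ℝ}
    (hφ : Integrable φ π) :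
    ‖∫ ω, Ye P f ξ lam s ω * (φ (ξ s ω) : ℂ) ∂P‖ ≤ ∫ x, |φ x| ∂π := by
  refine (norm_integral_le_integral_norm _).trans ?_
  rw [← integral_law h s (fun x => |φ x|) hφ.abs.aestronglyMeasurable]
  refine integral_mono_ae (b10_Yint h f lam s s hφ).norm (b10_integrable h s hφ).abs ?_
  filter_upwards [Ye_norm_le h f lam s] with ω hω
  rw [norm_mul, Complex.norm_real, Real.norm_eq_abs]
  exact mul_le_of_le_one_left (abs_nonneg _) hω

theorem b10_L1_le (h : Setup P π ξ T) (u : Lp ℝ 2 π) : ∫ x, |u x| ∂π ≤ ‖u‖ := by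
  have := h.prob
  have h1 : ∫ x, |u x| ∂π = (eLpNorm u 1 π).toReal := by
    rw [eLpNorm_one_eq_lintegral_enorm, ← integral_norm_eq_lintegral_enorm (Lp.aestronglyMeasurable u)]
    rfl
  rw [h1, Lp.norm_def]
  exact ENNReal.toReal_mono (Lp.eLpNorm_ne_top u)
    (eLpNorm_le_eLpNorm_of_exponent_le one_le_two (Lp.aestronglyMeasurable u))

theorem b10_Lint (h : Setup P π ξ T) (u : Lp ℝ 2 π) : Integrable u π := by
  have := h.prob
  exact (Lp.memLp u).integrable one_le_two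

/-- the integral as a linear map -/
noncomputable def b10_I (h : Setup P π ξ T) : Lp ℝ 2 π →ₗ[ℝ] ℝ where
  toFun u := ∫ x, u x ∂π
  map_add' u v := by
    rw [← integral_add (b10_Lint h u) (b10_Lint h v)]
    exact integral_congr_ae (Lp.coeFn_add u v)
  map_smul' c u := by
    show ∫ x, (c • u) x ∂π = c • ∫ x, u x ∂π
    rw [← integral_smul]
    exact integral_congr_ae (Lp.coeFn_smul c u)

/-- the pairing with `Y_s` as a linear map -/
noncomputable def b10_L (h : Setup P π ξ T) (f : Lp ℝ 2 π) (lam : ℝ) (s : ℕ) : Lp ℝ 2 π →ₗ[ℝ] ℂ where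
  toFun u := ∫ ω, Ye P f ξ lam s ω * (u (ξ s ω) : ℂ) ∂P
  map_add' u v := by
    rw [← integral_add (b10_Yint h f lam s s (b10_Lint h u)) (b10_Yint h f lam s s (b10_Lint h v))]
    refine integral_congr_ae ?_
    filter_upwards [b10_ae h s (Lp.coeFn_add u v)] with ω hω
    rw [hω, Pi.add_apply]
    push_cast
    ring
  map_smul' c u := by
    show ∫ ω, Ye P f ξ lam s ω * ((c • u) (ξ s ω) : ℂ) ∂P = c • ∫ ω, Ye P f ξ lam s ω * (u (ξ s ω) : ℂ) ∂P
    rw [← integral_smul]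
    refine integral_congr_ae ?_
    filter_upwards [b10_ae h s (Lp.coeFn_smul c u)] with ω hω
    rw [hω, Pi.smul_apply, smul_eq_mul, Complex.real_smul]
    push_cast
    ring

theorem b10_intT (h : Setup P π ξ T) (u : Lp ℝ 2 π) : b10_I h (T u) = b10_I h u := by
  have h1 := h.op 0 u
  have h2 : ∫ ω, (P[fun ω => u (ξ (0 + 1) ω) | pres ξ 0]) ω ∂P = ∫ ω, u (ξ (0 + 1) ω) ∂P :=
    integral_condExp (pres_le h 0)
  rw [integral_congr_ae h1, integral_law h 0 (T u) (Lp.aestronglyMeasurable _),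
    integral_law h (0 + 1) u (Lp.aestronglyMeasurable _)] at h2
  exact h2

theorem b10_intTk (h : Setup P π ξ T) (u : Lp ℝ 2 π) (k : ℕ) : b10_I h ((T ^ k) u) = b10_I h u := by
  induction k with
  | zero => simp
  | succ k ih => rw [pow_succ', mul_apply_eq_comp, b10_intT, ih]

theorem b10_I_le (h : Setup P π ξ T) (u : Lp ℝ 2 π) : |b10_I h u| ≤ ‖u‖ :=
  (abs_integral_le_integral_abs).trans (b10_L1_le h u)

/-- mean ergodic theorem -/
theorem b10_mean (h : Setup P π ξ T)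
    (herg : ∀ u : Lp ℝ 2 π, T u = u → ∃ a : ℝ, u =ᵐ[π] fun _ => a)
    (u : Lp ℝ 2 π) (hu : b10_I h u = 0) (δ : ℝ) (hδ : 0 < δ) :
    ∃ D : ℕ, 1 ≤ D ∧ ‖((D : ℝ)⁻¹) • ∑ k ∈ Finset.range D, (T ^ k) u‖ ≤ δ := by
  have := h.prob
  have h1 := T.tendsto_birkhoffAverage_orthogonalProjection h.norm_le u
  obtain ⟨w, hw⟩ : ∃ w : Lp ℝ 2 π, w = (((T : Lp ℝ 2 π →ₗ[ℝ] Lp ℝ 2 π).eqLocus
    ((1 : Lp ℝ 2 π →L[ℝ] Lp ℝ 2 π) : Lp ℝ 2 π →ₗ[ℝ] Lp ℝ 2 π)).orthogonalProjectionOnto u : Lp ℝ 2 π) := ⟨_, rfl⟩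
  have hTw : T w = w := by
    have h2 := (((T : Lp ℝ 2 π →ₗ[ℝ] Lp ℝ 2 π).eqLocus
      ((1 : Lp ℝ 2 π →L[ℝ] Lp ℝ 2 π) : Lp ℝ 2 π →ₗ[ℝ] Lp ℝ 2 π)).orthogonalProjectionOnto u).2
    rw [← hw] at h2
    exact h2
  have h3 : Tendsto (fun n : ℕ => ((n : ℝ)⁻¹) • ∑ k ∈ Finset.range n, (T ^ k) u) atTop (𝓝 w) := by
    rw [hw]
    refine h1.congr fun n => ?_
    unfold birkhoffAverage birkhoffSum
    simp
  have hI : ∀ n : ℕ, b10_I h (((n : ℝ)⁻¹) • ∑ k ∈ Finset.range n, (T ^ k) u) = 0 := by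
    intro n
    rw [map_smul, map_sum, Finset.sum_congr rfl fun k _ => b10_intTk h u k, hu]
    simp
  have hIw : b10_I h w = 0 := by
    have h4 : Tendsto (fun n : ℕ => ‖w - ((n : ℝ)⁻¹) • ∑ k ∈ Finset.range n, (T ^ k) u‖) atTop (𝓝 0) := by
      have := (tendsto_const_nhds (x := w)).sub h3
      rw [sub_self] at this
      simpa using this.norm
    have h5 : |b10_I h w| ≤ 0 := by
      refine ge_of_tendsto' h4 fun n => ?_
      have h6 : b10_I h w = b10_I h (w - ((n : ℝ)⁻¹) • ∑ k ∈ Finset.range n, (T ^ k) u) := by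
        rw [map_sub, hI, sub_zero]
      rw [h6]
      exact b10_I_le h _
    exact abs_nonpos_iff.1 h5
  obtain ⟨a, ha⟩ := herg w hTw
  have ha0 : a = 0 := by
    have h7 : b10_I h w = a := by
      show ∫ x, w x ∂π = a
      rw [integral_congr_ae ha]
      simp
    rw [← h7, hIw]
  have hw0 : w = 0 := by
    apply Lp.ext
    refine ha.trans ?_
    rw [ha0]
    exact (Lp.coeFn_zero ℝ 2 π).symm
  rw [hw0] at h3
  have h8 : ∀ᶠ n : ℕ in atTop, ‖((n : ℝ)⁻¹) • ∑ k ∈ Finset.range n, (T ^ k) u‖ < δ := by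
    have := h3.norm
    rw [norm_zero] at this
    exact this.eventually_lt_const hδ
  obtain ⟨D, hD1, hD2⟩ := (h8.and (eventually_ge_atTop 1)).exists
  exact ⟨D, hD2, hD1.le⟩

/-- change of time -/
theorem b10_shift (h : Setup P π ξ T) (f u : Lp ℝ 2 π) (lam K : ℝ) (hK0 : 0 ≤ K)
    (hK : ∀ᵐ x ∂π, |u x| ≤ K) (s k : ℕ) :
    ‖b10_L h f lam (s + k) u - b10_L h f lam s ((T ^ k) u)‖ ≤ K * |lam| * k * ∫ x, |f x| ∂π := by
  have hu := b10_Lint h u
  have hGm : StronglyMeasurable[pres ξ (s + k)] (fun ω => (u (ξ (s + k) ω) : ℂ)) := by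
    have h1 : Measurable[pres ξ (s + k)] (ξ (s + k)) := comap_measurable _
    exact Complex.continuous_ofReal.comp_stronglyMeasurable ((Lp.stronglyMeasurable u).comp_measurable h1)
  have hGi : Integrable (fun ω => (u (ξ (s + k) ω) : ℂ)) P := (b10_integrable h (s + k) hu).ofReal
  have e3 : b10_L h f lam (s + k) u =
      ∫ ω, Ye P f ξ lam s ω * eb f ξ lam s k ω * (u (ξ (s + k) ω) : ℂ) ∂P :=
    (Ye_exp h f lam s k (fun ω => (u (ξ (s + k) ω) : ℂ)) hGm hGi).symm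
  have e4 : b10_L h f lam s ((T ^ k) u) = ∫ ω, Ye P f ξ lam s ω * (u (ξ (s + k) ω) : ℂ) ∂P :=
    (Ye_pow h f u lam s k).symm
  have hSm : Measurable (Sb f ξ s k) := by
    have h2 : ∀ j ∈ Finset.range k, Measurable fun ω => f (ξ (s + j) ω) := fun j _ =>
      (Lp.stronglyMeasurable f).measurable.comp (h.meas _)
    exact Finset.measurable_fun_sum _ h2
  have hem : Measurable (eb f ξ lam s k) := by
    have h3 : Measurable fun ω => (((lam * Sb f ξ s k ω : ℝ) : ℂ) * Complex.I) :=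
      (Complex.measurable_ofReal.comp (hSm.const_mul lam)).mul_const _
    exact Complex.measurable_exp.comp h3
  have hen : ∀ ω, ‖eb f ξ lam s k ω‖ = 1 := fun ω => Complex.norm_exp_ofReal_mul_I _
  have i1 : Integrable (fun ω => Ye P f ξ lam s ω * eb f ξ lam s k ω * (u (ξ (s + k) ω) : ℂ)) P := by
    refine hGi.bdd_mul (c := 1) ((b10_Y_aesm h f lam s).mul hem.aestronglyMeasurable) ?_
    filter_upwards [Ye_norm_le h f lam s] with ω hω
    rw [norm_mul, hen, mul_one]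
    exact hω
  have i2 := b10_Yint h f lam s (s + k) hu
  rw [e3, e4, ← integral_sub i1 i2]
  refine (norm_integral_le_integral_norm _).trans ?_
  have i3 : ∀ j ∈ Finset.range k, Integrable (fun ω => |f (ξ (s + j) ω)|) P := fun j _ =>
    (b10_integrable h (s + j) (b10_Lint h f)).abs
  have e6 : ∫ ω, K * |lam| * ∑ j ∈ Finset.range k, |f (ξ (s + j) ω)| ∂P =
      K * |lam| * k * ∫ x, |f x| ∂π := by
    rw [integral_const_mul, integral_finsetSum _ i3,
      Finset.sum_congr rfl fun j _ => integral_law h (s + j) (fun x => |f x|) (b10_Lint h f).abs.aestronglyMeasurable,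
      Finset.sum_const, Finset.card_range, nsmul_eq_mul]
    ring
  rw [← e6]
  refine integral_mono_ae (i1.sub i2).norm ((integrable_finsetSum _ i3).const_mul _) ?_
  filter_upwards [Ye_norm_le h f lam s, b10_ae h (s + k) hK] with ω h1 h2
  have e5 : Ye P f ξ lam s ω * eb f ξ lam s k ω * (u (ξ (s + k) ω) : ℂ) -
      Ye P f ξ lam s ω * (u (ξ (s + k) ω) : ℂ) =
      Ye P f ξ lam s ω * ((eb f ξ lam s k ω - 1) * (u (ξ (s + k) ω) : ℂ)) := by ring
  have h3 : ‖eb f ξ lam s k ω - 1‖ ≤ |lam| * ∑ j ∈ Finset.range k, |f (ξ (s + j) ω)| := by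
    have h4 := Real.norm_exp_I_mul_ofReal_sub_one_le (x := lam * Sb f ξ s k ω)
    rw [mul_comm Complex.I] at h4
    refine h4.trans ?_
    rw [Real.norm_eq_abs, abs_mul]
    exact mul_le_mul_of_nonneg_left (Finset.abs_sum_le_sum_abs _ _) (abs_nonneg _)
  rw [e5, norm_mul, norm_mul, Complex.norm_real, Real.norm_eq_abs]
  calc ‖Ye P f ξ lam s ω‖ * (‖eb f ξ lam s k ω - 1‖ * |u (ξ (s + k) ω)|)
      ≤ 1 * ((|lam| * ∑ j ∈ Finset.range k, |f (ξ (s + j) ω)|) * K) := by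
        refine mul_le_mul h1 ?_ (by positivity) zero_le_one
        exact mul_le_mul h3 h2 (abs_nonneg _) (by positivity)
    _ = K * |lam| * ∑ j ∈ Finset.range k, |f (ξ (s + j) ω)| := by ring

theorem b10_bound (h : Setup P π ξ T) (f u : Lp ℝ 2 π) (lam K : ℝ) (hK0 : 0 ≤ K)
    (hK : ∀ᵐ x ∂π, |u x| ≤ K) (t D : ℕ) (hD : 1 ≤ D) :
    ‖∑ s ∈ Finset.range t, b10_L h f lam s u‖ ≤
      t * ‖((D : ℝ)⁻¹) • ∑ k ∈ Finset.range D, (T ^ k) u‖ +
        t * (K * |lam| * D * ∫ x, |f x| ∂π) + 2 * K * D := by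
  have := h.prob
  have hC1 : 0 ≤ ∫ x, |f x| ∂π := integral_nonneg fun x => abs_nonneg _
  have hD0 : (0 : ℝ) < D := by exact_mod_cast hD
  obtain ⟨X, hX⟩ : ∃ X, X = ∑ s ∈ Finset.range t, b10_L h f lam s u := ⟨_, rfl⟩
  have hx : ∀ s, ‖b10_L h f lam s u‖ ≤ K := by
    intro s
    refine (b10_Ynorm h f lam s (b10_Lint h u)).trans ?_
    calc ∫ x, |u x| ∂π ≤ ∫ _, K ∂π := integral_mono_ae (b10_Lint h u).abs (integrable_const _) hK
      _ = K := by simp
  have hk : ∀ k ∈ Finset.range D, ‖X - ∑ s ∈ Finset.range t, b10_L h f lam s ((T ^ k) u)‖ ≤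
      t * (K * |lam| * D * ∫ x, |f x| ∂π) + 2 * K * D := by
    intro k hkD
    have hkD' : (k : ℝ) ≤ D := by exact_mod_cast (Finset.mem_range.1 hkD).le
    have a1 := Finset.sum_range_add (fun s => b10_L h f lam s u) t k
    have a2 := Finset.sum_range_add (fun s => b10_L h f lam s u) k t
    have a3 : ∑ x ∈ Finset.range t, b10_L h f lam (k + x) u = ∑ s ∈ Finset.range t, b10_L h f lam (s + k) u :=
      Finset.sum_congr rfl fun x _ => by rw [add_comm]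
    rw [add_comm t k, a2, a3, ← hX] at a1
    have h1 : X - ∑ s ∈ Finset.range t, b10_L h f lam s ((T ^ k) u) =
        ∑ s ∈ Finset.range t, (b10_L h f lam (s + k) u - b10_L h f lam s ((T ^ k) u)) +
        (∑ s ∈ Finset.range k, b10_L h f lam s u - ∑ j ∈ Finset.range k, b10_L h f lam (t + j) u) := by
      rw [Finset.sum_sub_distrib]
      linear_combination -a1
    rw [h1]
    refine (norm_add_le _ _).trans (add_le_add ?_ ?_)
    · refine (norm_sum_le _ _).trans ?_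
      calc ∑ s ∈ Finset.range t, ‖b10_L h f lam (s + k) u - b10_L h f lam s ((T ^ k) u)‖
          ≤ ∑ s ∈ Finset.range t, K * |lam| * D * ∫ x, |f x| ∂π := by
            refine Finset.sum_le_sum fun s _ => (b10_shift h f u lam K hK0 hK s k).trans ?_
            gcongr
        _ = _ := by rw [Finset.sum_const, Finset.card_range, nsmul_eq_mul]
    · refine (norm_sub_le _ _).trans ?_
      have b1 : ‖∑ s ∈ Finset.range k, b10_L h f lam s u‖ ≤ k * K := by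
        refine (norm_sum_le _ _).trans ((Finset.sum_le_sum fun s _ => hx s).trans (le_of_eq ?_))
        rw [Finset.sum_const, Finset.card_range, nsmul_eq_mul]
      have b2 : ‖∑ j ∈ Finset.range k, b10_L h f lam (t + j) u‖ ≤ k * K := by
        refine (norm_sum_le _ _).trans ((Finset.sum_le_sum fun s _ => hx _).trans (le_of_eq ?_))
        rw [Finset.sum_const, Finset.card_range, nsmul_eq_mul]
      have b3 : (k : ℝ) * K ≤ D * K := mul_le_mul_of_nonneg_right hkD' hK0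
      linarith
  obtain ⟨A, hA⟩ : ∃ A : Lp ℝ 2 π, A = ((D : ℝ)⁻¹) • ∑ k ∈ Finset.range D, (T ^ k) u := ⟨_, rfl⟩
  have hLA : X - ∑ s ∈ Finset.range t, b10_L h f lam s A =
      ((D : ℝ)⁻¹) • ∑ k ∈ Finset.range D, (X - ∑ s ∈ Finset.range t, b10_L h f lam s ((T ^ k) u)) := by
    rw [Finset.sum_sub_distrib, Finset.sum_const, Finset.card_range, Finset.sum_comm, smul_sub]
    congr 1
    · rw [← Nat.cast_smul_eq_nsmul ℝ, smul_smul, inv_mul_cancel₀ hD0.ne', one_smul]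
    · rw [Finset.smul_sum]
      refine Finset.sum_congr rfl fun s _ => ?_
      rw [hA, map_smul, map_sum]
  have h5 : ‖X - ∑ s ∈ Finset.range t, b10_L h f lam s A‖ ≤
      t * (K * |lam| * D * ∫ x, |f x| ∂π) + 2 * K * D := by
    rw [hLA, norm_smul, Real.norm_of_nonneg (by positivity), inv_mul_le_iff₀ hD0]
    refine (norm_sum_le _ _).trans ((Finset.sum_le_sum hk).trans (le_of_eq ?_))
    rw [Finset.sum_const, Finset.card_range, nsmul_eq_mul]
  have h6 : ‖∑ s ∈ Finset.range t, b10_L h f lam s A‖ ≤ t * ‖A‖ := by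
    refine (norm_sum_le _ _).trans ?_
    calc ∑ s ∈ Finset.range t, ‖b10_L h f lam s A‖ ≤ ∑ s ∈ Finset.range t, ‖A‖ :=
          Finset.sum_le_sum fun s _ => (b10_Ynorm h f lam s (b10_Lint h A)).trans (b10_L1_le h A)
      _ = _ := by rw [Finset.sum_const, Finset.card_range, nsmul_eq_mul]
  rw [← hX, ← hA]
  have h7 : ‖X‖ ≤ ‖X - ∑ s ∈ Finset.range t, b10_L h f lam s A‖ + ‖∑ s ∈ Finset.range t, b10_L h f lam s A‖ := by
    have := norm_add_le (X - ∑ s ∈ Finset.range t, b10_L h f lam s A) (∑ s ∈ Finset.range t, b10_L h f lam s A)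
    rwa [sub_add_cancel] at this
  linarith

end b10aux

section pathB10

variable {Ω S : Type*} [mΩ : MeasurableSpace Ω] [mS : MeasurableSpace S]
  {P : Measure Ω} [IsProbabilityMeasure P] {π : Measure S} {ξ : ℕ → Ω → S}
  {T : Lp ℝ 2 π →L[ℝ] Lp ℝ 2 π}

/-- second order term: ergodic averaging -/
theorem erg (h : Setup P π ξ T)
    (herg : ∀ u : Lp ℝ 2 π, T u = u → ∃ a : ℝ, u =ᵐ[π] fun _ => a)
    (f : Lp ℝ 2 π) (v : S → ℝ) (hvm : Measurable v) (hv : Integrable v π) (c : ℝ)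
    (ε : ℝ) (hε : 0 < ε) :
    ∃ N0 : ℕ, ∀ N ≥ N0, ∀ t ≤ N, ‖∑ s ∈ Finset.range t,
      ((∫ ω, Ye P f ξ (c / √(N : ℝ)) s ω * (v (ξ s ω) : ℂ) ∂P)
        - ((∫ x, v x ∂π : ℝ) : ℂ) * ∫ ω, Ye P f ξ (c / √(N : ℝ)) s ω ∂P)‖ ≤ ε * N := by
  have hprob := h.prob
  obtain ⟨g, hg1, -⟩ := (memLp_one_iff_integrable.2 hv).exists_simpleFunc_eLpNorm_sub_lt ENNReal.one_ne_top
    (ε := ENNReal.ofReal (ε / 8)) (by rw [Ne, ENNReal.ofReal_eq_zero, not_le]; positivity)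
  have hgi : Integrable g π := memLp_one_iff_integrable.1 (g.memLp_of_isFiniteMeasure 1 π)
  have hvg : ∫ x, |v x - g x| ∂π ≤ ε / 8 := by
    have h1 : ∫ x, |v x - g x| ∂π = (eLpNorm (v - ⇑g) 1 π).toReal := by
      rw [eLpNorm_one_eq_lintegral_enorm, ← integral_norm_eq_lintegral_enorm (hv.sub hgi).aestronglyMeasurable]
      rfl
    rw [h1]
    exact ENNReal.toReal_le_of_le_ofReal (by positivity) hg1.le
  obtain ⟨C, hC⟩ := g.exists_forall_norm_le
  obtain ⟨m, hm⟩ : ∃ m, m = ∫ x, g x ∂π := ⟨_, rfl⟩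
  have hu0m : MemLp (fun x => g x - m) 2 π :=
    (g.memLp_of_isFiniteMeasure 2 π).sub (memLp_const m)
  obtain ⟨u, hu⟩ : ∃ u : Lp ℝ 2 π, u =ᵐ[π] fun x => g x - m := ⟨hu0m.toLp _, hu0m.coeFn_toLp⟩
  obtain ⟨x0⟩ : Nonempty S := nonempty_of_isProbabilityMeasure π
  have hC0 : 0 ≤ C := (norm_nonneg _).trans (hC x0)
  obtain ⟨K, hKdef⟩ : ∃ K, K = C + |m| := ⟨_, rfl⟩
  have hK0 : 0 ≤ K := by rw [hKdef]; positivity
  have hK : ∀ᵐ x ∂π, |u x| ≤ K := by
    filter_upwards [hu] with x hx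
    rw [hx, hKdef]
    exact (abs_sub _ _).trans (add_le_add (hC x) le_rfl)
  have hIu : b10_I h u = 0 := by
    show ∫ x, u x ∂π = 0
    rw [integral_congr_ae hu, integral_sub hgi (integrable_const _), ← hm]
    simp
  obtain ⟨D, hD1, hD⟩ := b10_mean h herg u hIu (ε / 4) (by positivity)
  obtain ⟨C1, hC1⟩ : ∃ C1, C1 = ∫ x, |f x| ∂π := ⟨_, rfl⟩
  have hC10 : 0 ≤ C1 := by rw [hC1]; exact integral_nonneg fun x => abs_nonneg _
  obtain ⟨N0, hN0⟩ := exists_nat_ge (max 1 (max ((4 * K * |c| * D * C1 / ε) ^ 2) (8 * K * D / ε)))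
  refine ⟨N0, fun N hN t ht => ?_⟩
  have hNr : (N0 : ℝ) ≤ N := by exact_mod_cast hN
  have hN1 : (1 : ℝ) ≤ N := ((le_max_left _ _).trans hN0).trans hNr
  have hN2 : (4 * K * |c| * D * C1 / ε) ^ 2 ≤ N :=
    (((le_max_left _ _).trans (le_max_right _ _)).trans hN0).trans hNr
  have hN3 : 8 * K * D / ε ≤ N := (((le_max_right _ _).trans (le_max_right _ _)).trans hN0).trans hNr
  have hNpos : (0 : ℝ) < N := by linarith
  have htN : (t : ℝ) ≤ N := by exact_mod_cast ht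
  obtain ⟨lam, hlam⟩ : ∃ lam, lam = c / √(N : ℝ) := ⟨_, rfl⟩
  rw [← hlam]
  have hdiff : ∀ s, ‖((∫ ω, Ye P f ξ lam s ω * (v (ξ s ω) : ℂ) ∂P) -
      ((∫ x, v x ∂π : ℝ) : ℂ) * ∫ ω, Ye P f ξ lam s ω ∂P) - b10_L h f lam s u‖ ≤ ε / 4 := by
    intro s
    obtain ⟨mv, hmv⟩ : ∃ mv, mv = ∫ x, v x ∂π := ⟨_, rfl⟩
    have hYi : Integrable (Ye P f ξ lam s) P :=
      Integrable.of_bound (b10_Y_aesm h f lam s) 1 (Ye_norm_le h f lam s)
    have hφ : Integrable (fun x => (v x - g x) - (mv - m)) π := (hv.sub hgi).sub (integrable_const _)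
    have e1 : ((∫ ω, Ye P f ξ lam s ω * (v (ξ s ω) : ℂ) ∂P) -
        ((∫ x, v x ∂π : ℝ) : ℂ) * ∫ ω, Ye P f ξ lam s ω ∂P) - b10_L h f lam s u =
        ∫ ω, Ye P f ξ lam s ω * ((((v (ξ s ω) - g (ξ s ω)) - (mv - m) : ℝ)) : ℂ) ∂P := by
      show ((∫ ω, Ye P f ξ lam s ω * (v (ξ s ω) : ℂ) ∂P) -
        ((∫ x, v x ∂π : ℝ) : ℂ) * ∫ ω, Ye P f ξ lam s ω ∂P) -
        ∫ ω, Ye P f ξ lam s ω * (u (ξ s ω) : ℂ) ∂P = _
      have j1 : Integrable (fun ω => Ye P f ξ lam s ω * (v (ξ s ω) : ℂ) - (mv : ℂ) * Ye P f ξ lam s ω) P :=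
        (b10_Yint h f lam s s hv).sub (hYi.const_mul _)
      rw [← hmv, ← integral_const_mul, ← integral_sub (b10_Yint h f lam s s hv) (hYi.const_mul _),
        ← integral_sub j1 (b10_Yint h f lam s s (b10_Lint h u))]
      refine integral_congr_ae ?_
      filter_upwards [b10_ae h s hu] with ω hω
      rw [hω]
      push_cast
      ring
    rw [e1]
    refine (b10_Ynorm h f lam s hφ).trans ?_
    have h2 : |mv - m| ≤ ∫ x, |v x - g x| ∂π := by
      rw [hmv, hm, ← integral_sub hv hgi]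
      exact abs_integral_le_integral_abs
    have h3 : ∫ x, |(v x - g x) - (mv - m)| ∂π ≤ ∫ x, (|v x - g x| + |mv - m|) ∂π :=
      integral_mono hφ.abs ((hv.sub hgi).abs.add (integrable_const _)) fun x => abs_sub _ _
    have h4 : ∫ x, (|v x - g x| + |mv - m|) ∂π = ∫ x, |v x - g x| ∂π + |mv - m| := by
      have j2 : Integrable (fun x => |v x - g x|) π := (hv.sub hgi).abs
      rw [integral_add j2 (integrable_const _)]
      simp
    linarith
  have hmain := b10_bound h f u lam K hK0 hK t D hD1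
  rw [← hC1] at hmain
  have hsplit : ∑ s ∈ Finset.range t, ((∫ ω, Ye P f ξ lam s ω * (v (ξ s ω) : ℂ) ∂P) -
      ((∫ x, v x ∂π : ℝ) : ℂ) * ∫ ω, Ye P f ξ lam s ω ∂P) =
      ∑ s ∈ Finset.range t, (((∫ ω, Ye P f ξ lam s ω * (v (ξ s ω) : ℂ) ∂P) -
      ((∫ x, v x ∂π : ℝ) : ℂ) * ∫ ω, Ye P f ξ lam s ω ∂P) - b10_L h f lam s u) +
      ∑ s ∈ Finset.range t, b10_L h f lam s u := by
    rw [← Finset.sum_add_distrib]
    exact Finset.sum_congr rfl fun s _ => by ring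
  rw [hsplit]
  have g1 : ‖∑ s ∈ Finset.range t, (((∫ ω, Ye P f ξ lam s ω * (v (ξ s ω) : ℂ) ∂P) -
      ((∫ x, v x ∂π : ℝ) : ℂ) * ∫ ω, Ye P f ξ lam s ω ∂P) - b10_L h f lam s u)‖ ≤ N * (ε / 4) := by
    refine (norm_sum_le _ _).trans ((Finset.sum_le_sum fun s _ => hdiff s).trans ?_)
    rw [Finset.sum_const, Finset.card_range, nsmul_eq_mul]
    gcongr
  have g2 : (t : ℝ) * ‖((D : ℝ)⁻¹) • ∑ k ∈ Finset.range D, (T ^ k) u‖ ≤ N * (ε / 4) :=
    mul_le_mul htN hD (norm_nonneg _) hNpos.le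
  have g3 : (t : ℝ) * (K * |lam| * D * C1) ≤ N * (ε / 4) := by
    refine mul_le_mul htN ?_ (by positivity) hNpos.le
    have hsq : 0 < √(N : ℝ) := Real.sqrt_pos.2 hNpos
    have h5 : 4 * K * |c| * D * C1 / ε ≤ √(N : ℝ) := Real.le_sqrt_of_sq_le hN2
    rw [div_le_iff₀ hε] at h5
    rw [hlam, abs_div, abs_of_pos hsq]
    have h6 : K * (|c| / √(N : ℝ)) * D * C1 = (K * |c| * D * C1) / √(N : ℝ) := by ring
    rw [h6, div_le_iff₀ hsq]
    linarith
  have g4 : 2 * K * D ≤ N * (ε / 4) := by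
    rw [div_le_iff₀ hε] at hN3
    linarith
  have g5 := norm_add_le (∑ s ∈ Finset.range t, (((∫ ω, Ye P f ξ lam s ω * (v (ξ s ω) : ℂ) ∂P) -
      ((∫ x, v x ∂π : ℝ) : ℂ) * ∫ ω, Ye P f ξ lam s ω ∂P) - b10_L h f lam s u))
      (∑ s ∈ Finset.range t, b10_L h f lam s u)
  linarith

end pathB10

end TwoSidedCLT
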