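import Pool.Agent.H374e.Defs
import Pool.Agent.H374e.CB6a
import Pool.Agent.H374e.CB6b
import Pool.Agent.H374e.CB7c

open MeasureTheory ProbabilityTheory Filter Topology
open scoped ENNReal NNReal InnerProductSpace

set_option linter.unusedVariables false
set_option warn.classDefReducibility false

namespace TwoSidedCLT

section pathB11

variable {Ω S : Type*} [mΩ : MeasurableSpace Ω] [mS : MeasurableSpace S]
  {P : Measure Ω} [IsProbabilityMeasure P] {π : Measure S} {ξ : ℕ → Ω → S}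
  {T : Lp ℝ 2 π →L[ℝ] Lp ℝ 2 π}

/-- Taylor remainder of `e^{ix}` -/
noncomputable def b11_rho (x : ℝ) : ℂ :=
  Complex.exp ((x : ℂ) * Complex.I) - 1 - Complex.I * (x : ℂ) + (x : ℂ) ^ 2 / 2

theorem b11_rho_bound (x : ℝ) : ‖b11_rho x‖ ≤ 4 * x ^ 2 ∧ ‖b11_rho x‖ ≤ 4 * |x| ^ 3 := by
  have habs : 0 ≤ |x| := abs_nonneg x
  have hsq : |x| ^ 2 = x ^ 2 := sq_abs x
  rcases le_or_gt |x| 1 with hx | hx
  · have h1 := Complex.exp_bound (x := (x : ℂ) * Complex.I) (by simpa using hx) (n := 3)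
      (by norm_num)
    have h2 : b11_rho x = Complex.exp ((x : ℂ) * Complex.I)
        - ∑ m ∈ Finset.range 3, ((x : ℂ) * Complex.I) ^ m / (m.factorial : ℂ) := by
      simp only [b11_rho, Finset.sum_range_succ, Finset.sum_range_zero, Nat.factorial]
      have : ((x : ℂ) * Complex.I) ^ 2 = - (x : ℂ) ^ 2 := by
        rw [mul_pow, Complex.I_sq]; ring
      rw [this]
      push_cast
      ring
    have h3 : ‖b11_rho x‖ ≤ |x| ^ 3 := by
      rw [h2]
      refine h1.trans ?_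
      have : ‖(x : ℂ) * Complex.I‖ = |x| := by simp
      rw [this]
      have h4 : ((Nat.succ 3 : ℕ) : ℝ) * (((Nat.factorial 3 : ℕ) : ℝ) * ((3 : ℕ) : ℝ))⁻¹ ≤ 1 := by
        norm_num [Nat.factorial]
      calc |x| ^ 3 * (((Nat.succ 3 : ℕ) : ℝ) * (((Nat.factorial 3 : ℕ) : ℝ) * ((3 : ℕ) : ℝ))⁻¹)
          ≤ |x| ^ 3 * 1 := by gcongr
        _ = |x| ^ 3 := mul_one _
    constructor
    · have : |x| ^ 3 ≤ |x| ^ 2 := by
        calc |x| ^ 3 = |x| ^ 2 * |x| := by ring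
          _ ≤ |x| ^ 2 * 1 := by gcongr
          _ = |x| ^ 2 := mul_one _
      nlinarith [sq_nonneg x]
    · have : 0 ≤ |x| ^ 3 := by positivity
      linarith
  · have h1 : ‖b11_rho x‖ ≤ 2 + |x| + x ^ 2 / 2 := by
      have e1 : ‖Complex.exp ((x : ℂ) * Complex.I)‖ = 1 := Complex.norm_exp_ofReal_mul_I x
      have e2 : ‖Complex.I * (x : ℂ)‖ = |x| := by simp
      have e3 : ‖(x : ℂ) ^ 2 / 2‖ = x ^ 2 / 2 := by
        simp
      calc ‖b11_rho x‖ ≤ ‖Complex.exp ((x : ℂ) * Complex.I) - 1 - Complex.I * (x : ℂ)‖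
            + ‖(x : ℂ) ^ 2 / 2‖ := norm_add_le _ _
        _ ≤ (‖Complex.exp ((x : ℂ) * Complex.I) - 1‖ + ‖Complex.I * (x : ℂ)‖)
            + ‖(x : ℂ) ^ 2 / 2‖ := by gcongr; exact norm_sub_le _ _
        _ ≤ ((‖Complex.exp ((x : ℂ) * Complex.I)‖ + ‖(1 : ℂ)‖) + ‖Complex.I * (x : ℂ)‖)
            + ‖(x : ℂ) ^ 2 / 2‖ := by gcongr; exact norm_sub_le _ _
        _ = 2 + |x| + x ^ 2 / 2 := by rw [e1, e2, e3]; simp; norm_num
    have h2 : |x| ≤ x ^ 2 := by rw [← hsq]; nlinarith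
    have h3 : 1 ≤ x ^ 2 := by rw [← hsq]; nlinarith
    have h4 : ‖b11_rho x‖ ≤ 4 * x ^ 2 := by linarith
    refine ⟨h4, h4.trans ?_⟩
    have : |x| ^ 3 = x ^ 2 * |x| := by rw [← hsq]; ring
    rw [this]
    nlinarith [sq_nonneg x]

theorem b11_rho_cont : Continuous b11_rho := by
  unfold b11_rho
  fun_prop

theorem b11_Ye_aesm (h : Setup P π ξ T) (f : Lp ℝ 2 π) (lam : ℝ) (s : ℕ) :
    AEStronglyMeasurable (Ye P f ξ lam s) P :=
  ((Ye_meas f lam s).mono (pres_le h s)).aestronglyMeasurable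

theorem b11_mul_int (h : Setup P π ξ T) (f : Lp ℝ 2 π) (lam : ℝ) (s : ℕ) (g : Ω → ℂ)
    (hg : Integrable g P) : Integrable (fun ω => Ye P f ξ lam s ω * g ω) P :=
  hg.bdd_mul (b11_Ye_aesm h f lam s) (Ye_norm_le h f lam s)

theorem b11_mul_norm (h : Setup P π ξ T) (f : Lp ℝ 2 π) (lam : ℝ) (s : ℕ) (g : Ω → ℂ)
    (hg : Integrable g P) : ‖∫ ω, Ye P f ξ lam s ω * g ω ∂P‖ ≤ ∫ ω, ‖g ω‖ ∂P := by
  refine norm_integral_le_of_norm_le hg.norm ?_
  filter_upwards [Ye_norm_le h f lam s] with ω hω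
  rw [norm_mul]
  calc ‖Ye P f ξ lam s ω‖ * ‖g ω‖ ≤ 1 * ‖g ω‖ := by gcongr
    _ = ‖g ω‖ := one_mul _

theorem b11_Sb_aem (h : Setup P π ξ T) (f : Lp ℝ 2 π) (a n : ℕ) : AEMeasurable (Sb f ξ a n) P :=
  (Sb_memLp h f a n).aestronglyMeasurable.aemeasurable

theorem b11_eb_int (h : Setup P π ξ T) (f : Lp ℝ 2 π) (lam : ℝ) (a n : ℕ) :
    Integrable (eb f ξ lam a n) P := by
  have hc : Continuous fun x : ℝ => Complex.exp (((lam * x : ℝ) : ℂ) * Complex.I) := by fun_prop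
  have hm : AEStronglyMeasurable (eb f ξ lam a n) P := by
    have := hc.comp_aestronglyMeasurable (Sb_memLp h f a n).aestronglyMeasurable
    exact this
  refine Integrable.of_bound hm 1 (Filter.Eventually.of_forall fun ω => ?_)
  unfold eb
  rw [Complex.norm_exp_ofReal_mul_I]

theorem b11_step (h : Setup P π ξ T) (f : Lp ℝ 2 π) (lam : ℝ) (s n : ℕ) :
    (∫ ω, Ye P f ξ lam (s + n) ω ∂P) - ∫ ω, Ye P f ξ lam s ω ∂P
      = ∫ ω, Ye P f ξ lam s ω * (eb f ξ lam s n ω - 1) ∂P := by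
  have h1 := Ye_exp h f lam s n (fun _ => 1) stronglyMeasurable_const (integrable_const _)
  simp only [mul_one] at h1
  rw [← h1, ← integral_sub]
  · congr 1
    ext ω
    ring
  · exact b11_mul_int h f lam s _ (b11_eb_int h f lam s n)
  · have := b11_mul_int h f lam s (fun _ => 1) (integrable_const _)
    simpa using this

theorem b11_Sb_abs (h : Setup P π ξ T) (f : Lp ℝ 2 π) (a n : ℕ) :
    ∫ ω, |Sb f ξ a n ω| ∂P = ∫ ω, |Sb f ξ 0 n ω| ∂P := by
  have e : ∀ b, ∫ ω, |Sb f ξ b n ω| ∂P = ∫ x, |x| ∂(P.map (Sb f ξ b n)) := by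
    intro b
    rw [integral_map (b11_Sb_aem h f b n) (by fun_prop)]
  rw [e a, e 0, Sb_law h f a n]

theorem b11_rho_law (h : Setup P π ξ T) (f : Lp ℝ 2 π) (lam : ℝ) (a n : ℕ) :
    ∫ ω, ‖b11_rho (lam * Sb f ξ a n ω)‖ ∂P = ∫ ω, ‖b11_rho (lam * Sb f ξ 0 n ω)‖ ∂P := by
  have hc : Continuous fun x : ℝ => ‖b11_rho (lam * x)‖ :=
    (b11_rho_cont.comp (continuous_const.mul continuous_id)).norm
  have e : ∀ b, ∫ ω, ‖b11_rho (lam * Sb f ξ b n ω)‖ ∂P
      = ∫ x, ‖b11_rho (lam * x)‖ ∂(P.map (Sb f ξ b n)) := by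
    intro b
    rw [integral_map (b11_Sb_aem h f b n) hc.aestronglyMeasurable]
  rw [e a, e 0, Sb_law h f a n]

theorem b11_chi_diff (h : Setup P π ξ T) (f : Lp ℝ 2 π) (lam : ℝ) (s n : ℕ) :
    ‖(∫ ω, Ye P f ξ lam (s + n) ω ∂P) - ∫ ω, Ye P f ξ lam s ω ∂P‖
      ≤ |lam| * ∫ ω, |Sb f ξ 0 n ω| ∂P := by
  rw [b11_step h f lam s n, ← b11_Sb_abs h f s n, ← integral_const_mul]
  refine (b11_mul_norm h f lam s _ ((b11_eb_int h f lam s n).sub (integrable_const _))).trans ?_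
  have hS : Integrable (Sb f ξ s n) P := (Sb_memLp h f s n).integrable (by norm_num)
  refine integral_mono ((b11_eb_int h f lam s n).sub (integrable_const _)).norm
    (hS.norm.const_mul _) fun ω => ?_
  show ‖eb f ξ lam s n ω - 1‖ ≤ |lam| * ‖Sb f ξ s n ω‖
  have := Real.norm_exp_I_mul_ofReal_sub_one_le (x := lam * Sb f ξ s n ω)
  unfold eb
  rw [mul_comm (((lam * Sb f ξ s n ω : ℝ) : ℂ)) Complex.I]
  refine this.trans ?_
  rw [norm_mul, Real.norm_eq_abs]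

theorem b11_tele (χ : ℕ → ℂ) (t m : ℕ) :
    ∑ s ∈ Finset.range t, (χ (s + m) - χ s) = ∑ j ∈ Finset.range m, (χ (t + j) - χ j) := by
  induction t with
  | zero => simp
  | succ t ih =>
    rw [Finset.sum_range_succ, ih]
    have h1 : ∑ j ∈ Finset.range m, (χ (t + 1 + j) - χ j)
        = ∑ j ∈ Finset.range m, (χ (t + (j + 1)) - χ (t + j)) 
          + ∑ j ∈ Finset.range m, (χ (t + j) - χ j) := by
      rw [← Finset.sum_add_distrib]
      refine Finset.sum_congr rfl fun j _ => ?_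
      rw [show t + 1 + j = t + (j + 1) by ring]
      ring
    rw [h1, Finset.sum_range_sub (fun j => χ (t + j))]
    simp only [add_zero]
    ring

theorem b11_rho_int (h : Setup P π ξ T) (f : Lp ℝ 2 π) (lam : ℝ) (a n : ℕ) :
    Integrable (fun ω => b11_rho (lam * Sb f ξ a n ω)) P := by
  have hc : Continuous fun x : ℝ => b11_rho (lam * x) :=
    b11_rho_cont.comp (continuous_const.mul continuous_id)
  have hm : AEStronglyMeasurable (fun ω => b11_rho (lam * Sb f ξ a n ω)) P :=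
    hc.comp_aestronglyMeasurable (Sb_memLp h f a n).aestronglyMeasurable
  have hS2 : Integrable (fun ω => (Sb f ξ a n ω) ^ 2) P := (Sb_memLp h f a n).integrable_sq
  refine (hS2.const_mul (4 * lam ^ 2)).mono' hm (Filter.Eventually.of_forall fun ω => ?_)
  refine (b11_rho_bound _).1.trans (le_of_eq ?_)
  ring

theorem b11_expand (h : Setup P π ξ T) (f : Lp ℝ 2 π) (lam : ℝ) (s m : ℕ) :
    ∫ ω, Ye P f ξ lam s ω * (eb f ξ lam s m ω - 1) ∂P
      = (Complex.I * ((lam : ℝ) : ℂ) *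
            (∫ ω, Ye P f ξ lam s ω * (Sb f ξ s m ω : ℂ) ∂P)
          - (((lam) ^ 2 / 2 : ℝ) : ℂ) *
            (∫ ω, Ye P f ξ lam s ω * ((Sb f ξ s m ω : ℂ) ^ 2) ∂P))
        + ∫ ω, Ye P f ξ lam s ω * b11_rho (lam * Sb f ξ s m ω) ∂P := by
  have hS : Integrable (fun ω => (Sb f ξ s m ω : ℂ)) P :=
    ((Sb_memLp h f s m).integrable (by norm_num)).ofReal
  have hS2 : Integrable (fun ω => (Sb f ξ s m ω : ℂ) ^ 2) P := by
    have := ((Sb_memLp h f s m).integrable_sq).ofReal (𝕜 := ℂ)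
    refine this.congr (Filter.Eventually.of_forall fun ω => ?_)
    push_cast
    rfl
  have i1 := b11_mul_int h f lam s _ hS
  have i2 := b11_mul_int h f lam s _ hS2
  have i3 := b11_mul_int h f lam s _ (b11_rho_int h f lam s m)
  have i12 := (i1.const_mul (Complex.I * ((lam : ℝ) : ℂ))).sub
    (i2.const_mul (((lam) ^ 2 / 2 : ℝ) : ℂ))
  rw [← integral_const_mul, ← integral_const_mul, ← integral_sub (i1.const_mul _) (i2.const_mul _)]
  refine Eq.trans ?_ (integral_add i12 i3)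
  congr 1
  ext ω
  simp only [eb, b11_rho]
  push_cast
  ring

theorem b11_lim (h : Setup P π ξ T) (f : Lp ℝ 2 π) (c : ℝ) (m : ℕ) :
    Tendsto (fun N : ℕ => (N : ℝ) * ∫ ω, ‖b11_rho (c / √(N : ℝ) * Sb f ξ 0 m ω)‖ ∂P)
      atTop (𝓝 0) := by
  have hS2 : Integrable (fun ω => (Sb f ξ 0 m ω) ^ 2) P := (Sb_memLp h f 0 m).integrable_sq
  have key : Tendsto (fun N : ℕ => ∫ ω, (N : ℝ) * ‖b11_rho (c / √(N : ℝ) * Sb f ξ 0 m ω)‖ ∂P)
      atTop (𝓝 (∫ ω, (0 : ℝ) ∂P)) := by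
    refine tendsto_integral_of_dominated_convergence (fun ω => 4 * c ^ 2 * (Sb f ξ 0 m ω) ^ 2)
      (fun N => ?_) (hS2.const_mul _) (fun N => Filter.Eventually.of_forall fun ω => ?_)
      (Filter.Eventually.of_forall fun ω => ?_)
    · exact (b11_rho_int h f (c / √(N : ℝ)) 0 m).aestronglyMeasurable.norm.const_mul _
    · rw [Real.norm_of_nonneg (by positivity)]
      rcases Nat.eq_zero_or_pos N with hN | hN
      · subst hN
        simp
        positivity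
      · have hN' : (0 : ℝ) < N := by exact_mod_cast hN
        have hs : √(N : ℝ) ^ 2 = N := Real.sq_sqrt hN'.le
        have hs0 : √(N : ℝ) ≠ 0 := (Real.sqrt_pos.mpr hN').ne'
        calc (N : ℝ) * ‖b11_rho (c / √(N : ℝ) * Sb f ξ 0 m ω)‖
            ≤ N * (4 * (c / √(N : ℝ) * Sb f ξ 0 m ω) ^ 2) := by
              gcongr
              exact (b11_rho_bound _).1
          _ = 4 * c ^ 2 * (Sb f ξ 0 m ω) ^ 2 := by
              rw [mul_pow, div_pow, hs]
              field_simp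
    · have hb : ∀ᶠ N : ℕ in atTop, (N : ℝ) * ‖b11_rho (c / √(N : ℝ) * Sb f ξ 0 m ω)‖
          ≤ 4 * |c * Sb f ξ 0 m ω| ^ 3 * (√(N : ℝ))⁻¹ := by
        filter_upwards [eventually_gt_atTop 0] with N hN
        have hN' : (0 : ℝ) < N := by exact_mod_cast hN
        have hs : √(N : ℝ) ^ 2 = N := Real.sq_sqrt hN'.le
        have hs1 : 0 < √(N : ℝ) := Real.sqrt_pos.mpr hN'
        calc (N : ℝ) * ‖b11_rho (c / √(N : ℝ) * Sb f ξ 0 m ω)‖
            ≤ N * (4 * |c / √(N : ℝ) * Sb f ξ 0 m ω| ^ 3) := by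
              gcongr
              exact (b11_rho_bound _).2
          _ = 4 * |c * Sb f ξ 0 m ω| ^ 3 * (√(N : ℝ))⁻¹ := by
              have e1 : |c / √(N : ℝ) * Sb f ξ 0 m ω| = |c * Sb f ξ 0 m ω| / √(N : ℝ) := by
                rw [div_mul_eq_mul_div, abs_div, abs_of_pos hs1]
              rw [e1, div_pow]
              nth_rewrite 1 [← hs]
              field_simp
      have hlim : Tendsto (fun N : ℕ => 4 * |c * Sb f ξ 0 m ω| ^ 3 * (√(N : ℝ))⁻¹) atTop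
          (𝓝 0) := by
        have h1 : Tendsto (fun N : ℕ => √(N : ℝ)) atTop atTop :=
          Real.tendsto_sqrt_atTop.comp tendsto_natCast_atTop_atTop
        have h2 := (h1.inv_tendsto_atTop).const_mul (4 * |c * Sb f ξ 0 m ω| ^ 3)
        simpa using h2
      refine squeeze_zero' (Filter.Eventually.of_forall fun N => by positivity) hb hlim
  simp only [integral_zero] at key
  refine key.congr fun N => ?_
  rw [integral_const_mul]

/-- Taylor expansion over blocks of length `m` -/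
theorem taylor (h : Setup P π ξ T) (f : Lp ℝ 2 π) (c : ℝ) (m : ℕ) (hm : 1 ≤ m)
    (ε : ℝ) (hε : 0 < ε) :
    ∃ N0 : ℕ, ∀ N ≥ N0, ∀ t ≤ N,
      ‖(∫ ω, Ye P f ξ (c / √(N : ℝ)) t ω ∂P) - 1 - (∑ s ∈ Finset.range t,
        (Complex.I * ((c / √(N : ℝ) : ℝ) : ℂ) *
            (∫ ω, Ye P f ξ (c / √(N : ℝ)) s ω * (Sb f ξ s m ω : ℂ) ∂P)
          - (((c / √(N : ℝ)) ^ 2 / 2 : ℝ) : ℂ) *
            (∫ ω, Ye P f ξ (c / √(N : ℝ)) s ω * ((Sb f ξ s m ω : ℂ) ^ 2) ∂P))) / m‖ ≤ ε := by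
  set K : ℝ := ∑ j ∈ Finset.range m, ∫ ω, |Sb f ξ 0 j ω| ∂P with hK
  have hK0 : 0 ≤ K := Finset.sum_nonneg fun j _ => integral_nonneg fun ω => abs_nonneg _
  have hlim1 := b11_lim h f c m
  have hlim2 : Tendsto (fun N : ℕ => 2 * |c / √(N : ℝ)| * K) atTop (𝓝 0) := by
    have h1 : Tendsto (fun N : ℕ => √(N : ℝ)) atTop atTop :=
      Real.tendsto_sqrt_atTop.comp tendsto_natCast_atTop_atTop
    have h2 : Tendsto (fun N : ℕ => |c / √(N : ℝ)|) atTop (𝓝 |0|) :=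
      (h1.const_div_atTop c).abs
    have h3 := (h2.const_mul 2).mul_const K
    simpa using h3
  have hlim := hlim1.add hlim2
  rw [add_zero] at hlim
  obtain ⟨N0, hN0⟩ := (hlim.eventually (gt_mem_nhds hε)).exists_forall_of_atTop
  refine ⟨N0, fun N hN t ht => ?_⟩
  have hN1 := hN0 N hN
  set lam : ℝ := c / √(N : ℝ) with hlam
  set χ : ℕ → ℂ := fun s => ∫ ω, Ye P f ξ lam s ω ∂P with hχ
  set A : ℕ → ℂ := fun s => Complex.I * ((lam : ℝ) : ℂ) *
            (∫ ω, Ye P f ξ lam s ω * (Sb f ξ s m ω : ℂ) ∂P)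
          - (((lam) ^ 2 / 2 : ℝ) : ℂ) *
            (∫ ω, Ye P f ξ lam s ω * ((Sb f ξ s m ω : ℂ) ^ 2) ∂P) with hA
  set R : ℕ → ℂ := fun s => ∫ ω, Ye P f ξ lam s ω * b11_rho (lam * Sb f ξ s m ω) ∂P with hR
  have hstep : ∀ s, χ (s + m) - χ s = A s + R s := by
    intro s
    simp only [hχ, hA, hR]
    rw [b11_step h f lam s m, b11_expand h f lam s m]
  have hχ0 : χ 0 = 1 := by
    simp only [hχ]
    rw [integral_congr_ae (Ye_zero h f lam)]
    simp
  have hm0 : (0 : ℝ) < m := by exact_mod_cast hm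
  have hm0' : (m : ℂ) ≠ 0 := by exact_mod_cast hm0.ne'
  show ‖χ t - 1 - (∑ s ∈ Finset.range t, A s) / m‖ ≤ ε
  have hRb : ∀ s, ‖R s‖ ≤ ∫ ω, ‖b11_rho (lam * Sb f ξ 0 m ω)‖ ∂P := by
    intro s
    rw [← b11_rho_law h f lam s m]
    exact b11_mul_norm h f lam s _ (b11_rho_int h f lam s m)
  have hcd : ∀ s j, ‖χ (s + j) - χ s‖ ≤ |lam| * ∫ ω, |Sb f ξ 0 j ω| ∂P :=
    fun s j => b11_chi_diff h f lam s j
  have hident : (m : ℂ) * (χ t - 1 - (∑ s ∈ Finset.range t, A s) / m)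
      = (∑ s ∈ Finset.range t, R s) - ∑ j ∈ Finset.range m, ((χ (t + j) - χ t) - (χ (0 + j) - χ 0)) := by
    have e1 : ∑ s ∈ Finset.range t, (χ (s + m) - χ s)
        = (∑ s ∈ Finset.range t, A s) + ∑ s ∈ Finset.range t, R s := by
      rw [← Finset.sum_add_distrib]
      exact Finset.sum_congr rfl fun s _ => hstep s
    have e2 := b11_tele χ t m
    have e3 : ∑ j ∈ Finset.range m, ((χ (t + j) - χ t) - (χ (0 + j) - χ 0))
        = (∑ j ∈ Finset.range m, (χ (t + j) - χ j)) - m * (χ t - χ 0) := by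
      have : ∀ j ∈ Finset.range m, ((χ (t + j) - χ t) - (χ (0 + j) - χ 0))
        = (χ (t + j) - χ j) - (χ t - χ 0) := by
        intro j _
        rw [zero_add]
        ring
      rw [Finset.sum_congr rfl this, Finset.sum_sub_distrib (f := fun j => χ (t + j) - χ j)
        (g := fun _ => χ t - χ 0), Finset.sum_const, Finset.card_range, nsmul_eq_mul]
    rw [e3, ← e2, e1, hχ0]
    field_simp
    ring
  have hbound : ‖(m : ℂ) * (χ t - 1 - (∑ s ∈ Finset.range t, A s) / m)‖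
      ≤ (N : ℝ) * (∫ ω, ‖b11_rho (lam * Sb f ξ 0 m ω)‖ ∂P) + 2 * |lam| * K := by
    rw [hident]
    refine (norm_sub_le _ _).trans ?_
    have hI0 : 0 ≤ ∫ ω, ‖b11_rho (lam * Sb f ξ 0 m ω)‖ ∂P :=
      integral_nonneg fun ω => norm_nonneg _
    have b1 : ‖∑ s ∈ Finset.range t, R s‖ ≤ (N : ℝ) * (∫ ω, ‖b11_rho (lam * Sb f ξ 0 m ω)‖ ∂P) := by
      refine (norm_sum_le _ _).trans ?_
      refine (Finset.sum_le_sum fun s _ => hRb s).trans ?_
      rw [Finset.sum_const, Finset.card_range, nsmul_eq_mul]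
      have : (t : ℝ) ≤ N := by exact_mod_cast ht
      gcongr
    have b2 : ‖∑ j ∈ Finset.range m, ((χ (t + j) - χ t) - (χ (0 + j) - χ 0))‖ ≤ 2 * |lam| * K := by
      refine (norm_sum_le _ _).trans ?_
      rw [hK, Finset.mul_sum]
      refine Finset.sum_le_sum fun j _ => ?_
      refine (norm_sub_le _ _).trans ?_
      have := hcd t j
      have := hcd 0 j
      linarith
    exact add_le_add b1 b2
  rw [norm_mul, Complex.norm_natCast] at hbound
  have h1m : (1 : ℝ) ≤ m := by exact_mod_cast hm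
  have hn0 : 0 ≤ ‖χ t - 1 - (∑ s ∈ Finset.range t, A s) / m‖ := norm_nonneg _
  nlinarith

end pathB11

end TwoSidedCLT
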