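import Pool.Agent.H374e.Defs

open MeasureTheory ProbabilityTheory Filter Topology
open scoped ENNReal NNReal InnerProductSpace

set_option linter.unusedVariables false
set_option warn.classDefReducibility false

namespace TwoSidedCLT

theorem gronwall (N : ℕ) (x : ℕ → ℂ) (β δ : ℝ) (hβ0 : 0 ≤ β) (hβ1 : β ≤ 1) (hδ : 0 ≤ δ)
    (hx : ∀ t ≤ N, ‖x t - 1 + β * ∑ s ∈ Finset.range t, x s‖ ≤ δ) :
    ‖x N - (((1 - β) ^ N : ℝ) : ℂ)‖ ≤ δ * (1 + β * N) := by
  set z : ℕ → ℂ := fun t => 1 - β * ∑ s ∈ Finset.range t, x s with hz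
  have hxz : ∀ t ≤ N, ‖x t - z t‖ ≤ δ := by
    intro t ht
    have := hx t ht
    have e : x t - z t = x t - 1 + β * ∑ s ∈ Finset.range t, x s := by
      simp only [hz]; ring
    rwa [e]
  have hzz : ∀ t ≤ N, ‖z t - (((1 - β) ^ t : ℝ) : ℂ)‖ ≤ β * δ * t := by
    intro t
    induction t with
    | zero => intro _; simp [hz]
    | succ t ih =>
      intro ht
      have ht' : t ≤ N := by omega
      have h1 := ih ht'
      have e : z (t + 1) - (((1 - β) ^ (t + 1) : ℝ) : ℂ)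
          = (1 - β : ℝ) * (z t - (((1 - β) ^ t : ℝ) : ℂ)) - β * (x t - z t) := by
        simp only [hz, Finset.sum_range_succ]
        push_cast
        ring
      rw [e]
      have h2 : ‖((1 - β : ℝ) : ℂ) * (z t - (((1 - β) ^ t : ℝ) : ℂ))‖ ≤ β * δ * t := by
        rw [norm_mul, Complex.norm_real, Real.norm_of_nonneg (by linarith)]
        calc (1 - β) * ‖z t - (((1 - β) ^ t : ℝ) : ℂ)‖ ≤ 1 * ‖z t - (((1 - β) ^ t : ℝ) : ℂ)‖ := by
              gcongr; linarith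
          _ ≤ β * δ * t := by linarith
      have h3 : ‖(β : ℂ) * (x t - z t)‖ ≤ β * δ := by
        rw [norm_mul, Complex.norm_real, Real.norm_of_nonneg hβ0]
        exact mul_le_mul_of_nonneg_left (hxz t ht') hβ0
      calc _ ≤ ‖((1 - β : ℝ) : ℂ) * (z t - (((1 - β) ^ t : ℝ) : ℂ))‖ + ‖(β : ℂ) * (x t - z t)‖ :=
            norm_sub_le _ _
        _ ≤ β * δ * t + β * δ := by linarith
        _ = β * δ * ((t + 1 : ℕ) : ℝ) := by push_cast; ring
  calc ‖x N - (((1 - β) ^ N : ℝ) : ℂ)‖ = ‖(x N - z N) + (z N - (((1 - β) ^ N : ℝ) : ℂ))‖ := by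
        congr 1; ring
    _ ≤ ‖x N - z N‖ + ‖z N - (((1 - β) ^ N : ℝ) : ℂ)‖ := norm_add_le _ _
    _ ≤ δ + β * δ * N := add_le_add (hxz N le_rfl) (hzz N le_rfl)
    _ = δ * (1 + β * N) := by ring

end TwoSidedCLT
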