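import Pool.Agent.H374e.Defs
import Pool.Agent.H374e.CB6a
import Pool.Agent.H374e.CB6b
import Pool.Agent.H374e.CB7c

open MeasureTheory ProbabilityTheory Filter Topology
open scoped ENNReal NNReal InnerProductSpace

set_option linter.unusedVariables false
set_option warn.classDefReducibility false

namespace TwoSidedCLT

section pathB7d

variable {Ω S : Type*} [mΩ : MeasurableSpace Ω] [mS : MeasurableSpace S]
  {P : Measure Ω} [IsProbabilityMeasure P] {π : Measure S} {ξ : ℕ → Ω → S}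
  {T : Lp ℝ 2 π →L[ℝ] Lp ℝ 2 π}

theorem b7d_sq_int (h : Setup P π ξ T) (f : Lp ℝ 2 π) (s n : ℕ) :
    Integrable (fun ω => (Sb f ξ s n ω) ^ 2) P := (Sb_memLp h f s n).integrable_sq

/-- the functional on paths -/
noncomputable def b7d_Psi (f : S → ℝ) (B : Set S) (n : ℕ) (x : ℕ → S) : ℝ :=
  B.indicator (fun _ => (1 : ℝ)) (x 0) * (∑ k ∈ Finset.range n, f (x k)) ^ 2

theorem b7d_Psi_meas (f : S → ℝ) (hf : Measurable f) (B : Set S) (hB : MeasurableSet B) (n : ℕ) :
    Measurable (b7d_Psi f B n) := by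
  unfold b7d_Psi
  apply Measurable.mul
  · exact (measurable_const.indicator hB).comp (measurable_pi_apply 0)
  · apply Measurable.pow_const
    exact Finset.measurable_sum _ fun k _ => hf.comp (measurable_pi_apply k)

theorem b7d_set (h : Setup P π ξ T) (f : Lp ℝ 2 π) (n s : ℕ) (B : Set S) (hB : MeasurableSet B) :
    ∫ ω in ξ s ⁻¹' B, (Sb f ξ s n ω) ^ 2 ∂P = ∫ ω in ξ 0 ⁻¹' B, (Sb f ξ 0 n ω) ^ 2 ∂P := by
  have hf : Measurable (f : S → ℝ) := (Lp.stronglyMeasurable f).measurable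
  have key : ∀ s : ℕ, ∫ ω in ξ s ⁻¹' B, (Sb f ξ s n ω) ^ 2 ∂P =
      ∫ x, b7d_Psi f B n x ∂(P.map (fun ω n => ξ n ω)) := by
    intro s
    rw [← h.stat s, integral_map (measurable_pi_iff.2 fun k => h.meas (k + s)).aemeasurable
      (b7d_Psi_meas f hf B hB n).aestronglyMeasurable, ← integral_indicator (h.meas s hB)]
    apply integral_congr_ae
    filter_upwards with ω
    unfold b7d_Psi Sb
    beta_reduce
    have e1 : (0 : ℕ) + s = s := Nat.zero_add s
    by_cases hω : ξ s ω ∈ B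
    · rw [Set.indicator_of_mem (show ω ∈ ξ s ⁻¹' B from hω), e1, Set.indicator_of_mem hω, one_mul]
      congr 1
      exact Finset.sum_congr rfl fun k _ => by rw [Nat.add_comm]
    · rw [Set.indicator_of_notMem (show ω ∉ ξ s ⁻¹' B from hω), e1, Set.indicator_of_notMem hω, zero_mul]
  rw [key s, key 0]

theorem b7d_cond (h : Setup P π ξ T) (f : Lp ℝ 2 π) (n : ℕ) (v : S → ℝ) (hv : Measurable v)
    (hvi : Integrable v π) (h0 : P[fun ω => (Sb f ξ 0 n ω) ^ 2 | pres ξ 0] = v ∘ ξ 0) (s : ℕ) :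
    (fun ω => v (ξ s ω)) =ᵐ[P] P[fun ω => (Sb f ξ s n ω) ^ 2 | pres ξ s] := by
  have hint : ∀ s, Integrable (fun ω => v (ξ s ω)) P := by
    intro s
    have h1 : Integrable v (P.map (ξ s)) := by rw [h.law s]; exact hvi
    exact (integrable_map_measure hv.aestronglyMeasurable (h.meas s).aemeasurable).1 h1
  have hset : ∀ (s : ℕ) (B : Set S), MeasurableSet B →
      ∫ ω in ξ s ⁻¹' B, v (ξ s ω) ∂P = ∫ x in B, v x ∂π := by
    intro s B hB
    rw [← h.law s, setIntegral_map hB hv.aestronglyMeasurable (h.meas s).aemeasurable]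
  refine ae_eq_condExp_of_forall_setIntegral_eq (pres_le h s) (b7d_sq_int h f s n)
    (fun A _ _ => (hint s).integrableOn) ?_ ?_
  · rintro A ⟨B, hB, rfl⟩ -
    rw [b7d_set h f n s B hB, hset s B hB, ← hset 0 B hB,
      ← setIntegral_condExp (pres_le h 0) (b7d_sq_int h f 0 n) ⟨B, hB, rfl⟩, h0]
    rfl
  · have : Measurable[pres ξ s] (fun ω => v (ξ s ω)) :=
      hv.comp (comap_measurable (ξ s))
    exact this.stronglyMeasurable.aestronglyMeasurable

/-- (I7) -/
theorem cond_sq (h : Setup P π ξ T) (f : Lp ℝ 2 π) (n : ℕ) :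
    ∃ v : S → ℝ, Measurable v ∧ Integrable v π ∧ ∫ x, v x ∂π = varSum T f n ∧
      ∀ (lam : ℝ) (s : ℕ), ∫ ω, Ye P f ξ lam s ω * ((Sb f ξ s n ω : ℂ) ^ 2) ∂P
        = ∫ ω, Ye P f ξ lam s ω * (v (ξ s ω) : ℂ) ∂P := by
  obtain ⟨v, hv, h0⟩ := StronglyMeasurable.exists_eq_measurable_comp
    (f := ξ 0) (g := P[fun ω => (Sb f ξ 0 n ω) ^ 2 | pres ξ 0])
    (stronglyMeasurable_condExp (m := pres ξ 0) (μ := P) (f := fun ω => (Sb f ξ 0 n ω) ^ 2))
  have hvm : Measurable v := hv.measurable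
  have hvi : Integrable v π := by
    rw [← h.law 0, integrable_map_measure hvm.aestronglyMeasurable (h.meas 0).aemeasurable, ← h0]
    exact integrable_condExp
  refine ⟨v, hvm, hvi, ?_, ?_⟩
  · have e0 : ∫ x, v x ∂π = ∫ ω, v (ξ 0 ω) ∂P := by
      have e2 := integral_map (μ := P) (h.meas 0).aemeasurable
        (f := v) hvm.aestronglyMeasurable
      rw [h.law 0] at e2
      exact e2
    have e1 : ∫ ω, v (ξ 0 ω) ∂P = ∫ ω, (P[fun ω => (Sb f ξ 0 n ω) ^ 2 | pres ξ 0]) ω ∂P := by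
      rw [h0]
      rfl
    rw [e0, e1, integral_condExp (pres_le h 0), Sb_sq h f 0 n]
  · intro lam s
    have hc := b7d_cond h f n v hvm hvi h0 s
    have hY := Ye_meas (P := P) (ξ := ξ) f lam s
    have hYb := Ye_norm_le h f lam s
    have hYm : AEStronglyMeasurable (Ye P f ξ lam s) P := (hY.mono (pres_le h s)).aestronglyMeasurable
    have hX := b7d_sq_int h f s n
    have hYX : Integrable (fun ω => ((ContinuousLinearMap.lsmul ℝ ℝ).flip :
        ℂ →L[ℝ] ℝ →L[ℝ] ℂ) (Ye P f ξ lam s ω) ((Sb f ξ s n ω) ^ 2)) P := by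
      refine Integrable.mono hX ?_ ?_
      · exact hX.aestronglyMeasurable.smul hYm
      · filter_upwards [hYb] with ω hω
        simp only [ContinuousLinearMap.flip_apply, ContinuousLinearMap.lsmul_apply]
        rw [norm_smul]
        exact mul_le_of_le_one_right (norm_nonneg _) hω
    have hp := condExp_bilin_of_stronglyMeasurable_left (μ := P)
      ((ContinuousLinearMap.lsmul ℝ ℝ).flip : ℂ →L[ℝ] ℝ →L[ℝ] ℂ) hY hYX hX
    have e1 : ∫ ω, Ye P f ξ lam s ω * ((Sb f ξ s n ω : ℂ) ^ 2) ∂P =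
        ∫ ω, ((ContinuousLinearMap.lsmul ℝ ℝ).flip : ℂ →L[ℝ] ℝ →L[ℝ] ℂ)
          (Ye P f ξ lam s ω) ((Sb f ξ s n ω) ^ 2) ∂P := by
      apply integral_congr_ae
      filter_upwards with ω
      simp only [ContinuousLinearMap.flip_apply, ContinuousLinearMap.lsmul_apply,
        Complex.real_smul]
      push_cast
      ring
    rw [e1, ← integral_condExp (pres_le h s)]
    apply integral_congr_ae
    filter_upwards [hp, hc] with ω h1 h2
    rw [h1, ← h2]
    simp only [ContinuousLinearMap.flip_apply, ContinuousLinearMap.lsmul_apply,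
      Complex.real_smul]
    ring

end pathB7d

end TwoSidedCLT
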