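import Pool.Agent.H374e.Defs
import Pool.Agent.H374e.CB10
import Pool.Agent.H374e.CB11
import Pool.Agent.H374e.CB12a
import Pool.Agent.H374e.CB6b
import Pool.Agent.H374e.CB7a
import Pool.Agent.H374e.CB7c
import Pool.Agent.H374e.CB7d

open MeasureTheory ProbabilityTheory Filter Topology
open scoped ENNReal NNReal InnerProductSpace

set_option linter.unusedVariables false
set_option warn.classDefReducibility false

namespace TwoSidedCLT

theorem b13_pow_lim (κ : ℝ) (ε : ℝ) (hε : 0 < ε) :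
    ∃ N0 : ℕ, ∀ N ≥ N0, |(1 - κ / N) ^ N - Real.exp (-κ)| ≤ ε := by
  have h := Real.tendsto_one_add_div_pow_exp (-κ)
  rw [Metric.tendsto_atTop] at h
  obtain ⟨N0, hN0⟩ := h ε hε
  refine ⟨N0, fun N hN => ?_⟩
  have := (hN0 N hN).le
  rw [Real.dist_eq] at this
  have e : (1 - κ / N) = 1 + -κ / N := by ring
  rwa [e]

section pathB13

variable {Ω S : Type*} [mΩ : MeasurableSpace Ω] [mS : MeasurableSpace S]
  {P : Measure Ω} [IsProbabilityMeasure P] {π : Measure S} {ξ : ℕ → Ω → S}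
  {T : Lp ℝ 2 π →L[ℝ] Lp ℝ 2 π}

/-- from a bound of the first order functional to the characteristic function -/
theorem cf_core (h : Setup P π ξ T)
    (herg : ∀ u : Lp ℝ 2 π, T u = u → ∃ a : ℝ, u =ᵐ[π] fun _ => a)
    (f : Lp ℝ 2 π) (c : ℝ) (l : ℕ) (ε : ℝ) (hε : 0 < ε) :
    ∃ N0 : ℕ, ∀ N ≥ N0, ∀ δ : ℝ, 0 ≤ δ →
      (∀ t ≤ N, |c| / √(N : ℝ) * ‖Ff P T f ξ (c / √(N : ℝ)) t (2 ^ l)‖ ≤ δ) →
      ‖(∫ ω, eb f ξ (c / √(N : ℝ)) 0 N ω ∂P)
          - ((Real.exp (-(c ^ 2 * (varSum T f (2 ^ l) / 2 ^ l) / 2)) : ℝ) : ℂ)‖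
        ≤ (1 + c ^ 2 * (varSum T f (2 ^ l) / 2 ^ l) / 2) * δ + ε := by
  obtain ⟨v, hvm, hvi, hvV, hv⟩ := cond_sq h f (2 ^ l)
  set V := varSum T f (2 ^ l) with hV
  have hV0 : 0 ≤ V := by
    rw [hV, ← Sb_sq h f 0 (2 ^ l)]
    exact integral_nonneg fun ω => sq_nonneg _
  set m : ℝ := 2 ^ l with hm
  have hm0 : 0 < m := by positivity
  set κ : ℝ := c ^ 2 * (V / m) / 2 with hκ
  have hκ0 : 0 ≤ κ := by positivity
  set η : ℝ := ε / (4 * (1 + κ)) with hη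
  have hη0 : 0 < η := by positivity
  set ε2 : ℝ := η * (2 * m) / (c ^ 2 + 1) with hε2
  have hε20 : 0 < ε2 := by positivity
  obtain ⟨N1, hN1⟩ := taylor h f c (2 ^ l) Nat.one_le_two_pow η hη0
  obtain ⟨N2, hN2⟩ := erg h herg f v hvm hvi c ε2 hε20
  obtain ⟨N3, hN3⟩ := b13_pow_lim κ (ε / 2) (by positivity)
  obtain ⟨N4, hN4⟩ := exists_nat_ge κ
  refine ⟨max (max N1 N2) (max N3 (max N4 1)), fun N hN δ hδ hF => ?_⟩
  have hNN1 : N1 ≤ N := (le_max_left _ _).trans ((le_max_left _ _).trans hN)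
  have hNN2 : N2 ≤ N := (le_max_right _ _).trans ((le_max_left _ _).trans hN)
  have hNN3 : N3 ≤ N := (le_max_left _ _).trans ((le_max_right _ _).trans hN)
  have hNN4 : N4 ≤ N := (le_max_left _ _).trans
    ((le_max_right _ _).trans ((le_max_right _ _).trans hN))
  have hN1' : 1 ≤ N := (le_max_right _ _).trans
    ((le_max_right _ _).trans ((le_max_right _ _).trans hN))
  have hN0 : (0 : ℝ) < N := by exact_mod_cast hN1'
  have hsN : 0 < √(N : ℝ) := Real.sqrt_pos.mpr hN0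
  set lam := c / √(N : ℝ) with hlam
  have hlam2 : lam ^ 2 = c ^ 2 / N := by
    rw [hlam, div_pow, Real.sq_sqrt hN0.le]
  set β : ℝ := κ / N with hβ
  have hβ0 : 0 ≤ β := by positivity
  have hβ1 : β ≤ 1 := by
    rw [hβ, div_le_one hN0]
    exact hN4.trans (by exact_mod_cast hNN4)
  have hβ2 : β = lam ^ 2 / 2 * V / m := by
    rw [hβ, hκ, hlam2]; field_simp
  set x : ℕ → ℂ := fun t => ∫ ω, Ye P f ξ lam t ω ∂P with hx
  have hmain : ∀ t ≤ N, ‖x t - 1 + β * ∑ s ∈ Finset.range t, x s‖ ≤ δ + 2 * η := by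
    intro t ht
    have h1 := hN1 N hNN1 t ht
    have h2 := hN2 N hNN2 t ht
    have h3 := hF t ht
    -- rewrite the Taylor sum
    have e1 : (∑ s ∈ Finset.range t,
        (Complex.I * ((lam : ℝ) : ℂ) * (∫ ω, Ye P f ξ lam s ω * (Sb f ξ s (2 ^ l) ω : ℂ) ∂P)
          - ((lam ^ 2 / 2 : ℝ) : ℂ) *
            (∫ ω, Ye P f ξ lam s ω * ((Sb f ξ s (2 ^ l) ω : ℂ) ^ 2) ∂P))) / ((2 ^ l : ℕ) : ℂ)
        = Complex.I * (lam : ℂ) * Ff P T f ξ lam t (2 ^ l)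
          - ((lam ^ 2 / 2 : ℝ) : ℂ) / m *
            (∑ s ∈ Finset.range t, ((∫ ω, Ye P f ξ lam s ω * (v (ξ s ω) : ℂ) ∂P)
              - ((∫ x, v x ∂π : ℝ) : ℂ) * ∫ ω, Ye P f ξ lam s ω ∂P))
          - β * ∑ s ∈ Finset.range t, x s := by
      have e2 : ∀ s, ∫ ω, Ye P f ξ lam s ω * (Sb f ξ s (2 ^ l) ω : ℂ) ∂P
          = ∫ ω, Ye P f ξ lam s ω * ((Mn T f (2 ^ l)) (ξ s ω) : ℂ) ∂P :=
        fun s => Ye_Sb h f lam s (2 ^ l)
      have e3 : ∀ s, ∫ ω, Ye P f ξ lam s ω * ((Sb f ξ s (2 ^ l) ω : ℂ) ^ 2) ∂P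
          = ∫ ω, Ye P f ξ lam s ω * (v (ξ s ω) : ℂ) ∂P := fun s => hv lam s
      simp only [e2, e3, hvV]
      unfold Ff
      rw [Finset.sum_sub_distrib, Finset.sum_sub_distrib, ← Finset.mul_sum, ← Finset.mul_sum,
        ← Finset.mul_sum, hβ2]
      simp only [hx]
      have hmC : (m : ℂ) = ((2 ^ l : ℕ) : ℂ) := by simp [hm]
      have hmC0 : ((2 ^ l : ℕ) : ℂ) ≠ 0 := by
        rw [← hmC]; exact_mod_cast hm0.ne'
      push_cast at hmC hmC0 ⊢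
      rw [hmC]
      field_simp
      ring
    rw [e1] at h1
    set E1 : ℂ := ∑ s ∈ Finset.range t, ((∫ ω, Ye P f ξ lam s ω * (v (ξ s ω) : ℂ) ∂P)
              - ((∫ x, v x ∂π : ℝ) : ℂ) * ∫ ω, Ye P f ξ lam s ω ∂P) with hE1
    set F1 := Ff P T f ξ lam t (2 ^ l) with hF1
    have e4 : x t - 1 + β * ∑ s ∈ Finset.range t, x s
        = (x t - 1 - (Complex.I * (lam : ℂ) * F1 - ((lam ^ 2 / 2 : ℝ) : ℂ) / m * E1
            - β * ∑ s ∈ Finset.range t, x s))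
          + Complex.I * (lam : ℂ) * F1 - ((lam ^ 2 / 2 : ℝ) : ℂ) / m * E1 := by ring
    rw [e4]
    have hb1 : ‖Complex.I * (lam : ℂ) * F1‖ ≤ δ := by
      rw [norm_mul, norm_mul, Complex.norm_I, Complex.norm_real, Real.norm_eq_abs, one_mul]
      have : |lam| = |c| / √(N : ℝ) := by rw [hlam, abs_div, abs_of_pos hsN]
      rw [this]; exact h3
    have hb2 : ‖((lam ^ 2 / 2 : ℝ) : ℂ) / m * E1‖ ≤ η := by
      rw [norm_mul, norm_div, Complex.norm_real, Complex.norm_real, Real.norm_eq_abs,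
        Real.norm_eq_abs, abs_of_pos hm0, abs_of_nonneg (by positivity)]
      calc lam ^ 2 / 2 / m * ‖E1‖ ≤ lam ^ 2 / 2 / m * (ε2 * N) := by gcongr
        _ = (c ^ 2 / (c ^ 2 + 1)) * η := by
            rw [hlam2, hε2]; field_simp
        _ ≤ 1 * η := by
            gcongr
            rw [div_le_one (by positivity)]; linarith
        _ = η := one_mul η
    calc _ ≤ ‖(x t - 1 - (Complex.I * (lam : ℂ) * F1 - ((lam ^ 2 / 2 : ℝ) : ℂ) / m * E1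
            - β * ∑ s ∈ Finset.range t, x s)) + Complex.I * (lam : ℂ) * F1‖
            + ‖((lam ^ 2 / 2 : ℝ) : ℂ) / m * E1‖ := norm_sub_le _ _
      _ ≤ ‖x t - 1 - (Complex.I * (lam : ℂ) * F1 - ((lam ^ 2 / 2 : ℝ) : ℂ) / m * E1
            - β * ∑ s ∈ Finset.range t, x s)‖ + ‖Complex.I * (lam : ℂ) * F1‖
            + ‖((lam ^ 2 / 2 : ℝ) : ℂ) / m * E1‖ := by
          gcongr; exact norm_add_le _ _
      _ ≤ η + δ + η := by gcongr
      _ = _ := by ring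
  have hg := gronwall N x β (δ + 2 * η) hβ0 hβ1 (by positivity) hmain
  have hβN : β * N = κ := by rw [hβ]; field_simp
  rw [hβN] at hg
  have hxN : x N = ∫ ω, eb f ξ lam 0 N ω ∂P := Ye_integral h f lam N
  have hp := hN3 N hNN3
  have hp' : ‖(((1 - β) ^ N : ℝ) : ℂ) - ((Real.exp (-κ) : ℝ) : ℂ)‖ ≤ ε / 2 := by
    rw [← Complex.ofReal_sub, Complex.norm_real, Real.norm_eq_abs]
    exact hp
  rw [← hxN]
  calc ‖x N - ((Real.exp (-κ) : ℝ) : ℂ)‖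
      = ‖(x N - (((1 - β) ^ N : ℝ) : ℂ)) + ((((1 - β) ^ N : ℝ) : ℂ) - ((Real.exp (-κ) : ℝ) : ℂ))‖ := by
        congr 1; ring
    _ ≤ ‖x N - (((1 - β) ^ N : ℝ) : ℂ)‖ + ‖(((1 - β) ^ N : ℝ) : ℂ) - ((Real.exp (-κ) : ℝ) : ℂ)‖ :=
        norm_add_le _ _
    _ ≤ (δ + 2 * η) * (1 + κ) + ε / 2 := add_le_add hg hp'
    _ = (1 + κ) * δ + ε := by
        rw [hη]; field_simp; ring

end pathB13

end TwoSidedCLT
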