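import Pool.Agent.H374e.Defs

open MeasureTheory ProbabilityTheory Filter Topology
open scoped ENNReal NNReal InnerProductSpace

set_option linter.unusedVariables false
set_option warn.classDefReducibility false

namespace TwoSidedCLT

section chainB16a

theorem b16a_trim {Ω : Type*} {m : MeasurableSpace Ω} [mΩ : MeasurableSpace Ω] {P : Measure Ω}
    (hm : m ≤ mΩ) {f₁ f₂ : Ω → ℝ≥0∞} (h₁ : Measurable f₁) (h₂ : Measurable f₂)
    (h : ∀ B, MeasurableSet[m] B → ∫⁻ ω in B, f₁ ω ∂P = ∫⁻ ω in B, f₂ ω ∂P)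
    {G : Ω → ℝ≥0∞} (hG : Measurable[m] G) :
    ∫⁻ ω, G ω * f₁ ω ∂P = ∫⁻ ω, G ω * f₂ ω ∂P := by
  have e : (P.withDensity f₁).trim hm = (P.withDensity f₂).trim hm := by
    refine @Measure.ext _ m _ _ fun B hB => ?_
    rw [trim_measurableSet_eq hm hB, trim_measurableSet_eq hm hB, withDensity_apply _ (hm _ hB),
      withDensity_apply _ (hm _ hB), h B hB]
  have h3 : ∫⁻ ω, G ω ∂(P.withDensity f₁) = ∫⁻ ω, G ω ∂(P.withDensity f₂) := by
    rw [← lintegral_trim hm hG, ← lintegral_trim hm hG, e]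
  rw [lintegral_withDensity_eq_lintegral_mul _ h₁ (hG.mono hm le_rfl),
    lintegral_withDensity_eq_lintegral_mul _ h₂ (hG.mono hm le_rfl)] at h3
  simpa [mul_comm] using h3

variable {Ω S : Type*} [mΩ : MeasurableSpace Ω] [mS : MeasurableSpace S]
  {P : Measure Ω} [IsProbabilityMeasure P] {π : Measure S} {ξ : ℤ → Ω → S}
  {Q : Kernel S S} [IsMarkovKernel Q] {T : Lp ℝ 2 π →L[ℝ] Lp ℝ 2 π}

omit [IsProbabilityMeasure P] [IsMarkovKernel Q] in
theorem b16a_F_le (hc : IsStationaryMarkovChain P ξ Q π) (n : ℤ) :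
    (⨆ k : ℤ, ⨆ _ : k ≤ n, MeasurableSpace.comap (ξ k) mS) ≤ mΩ :=
  iSup₂_le fun k _ => (hc.meas k).comap_le

omit mΩ in
theorem b16a_comap_le (k n : ℤ) (h : k ≤ n) :
    MeasurableSpace.comap (ξ k) mS ≤ (⨆ k : ℤ, ⨆ _ : k ≤ n, MeasurableSpace.comap (ξ k) mS) :=
  le_iSup₂_of_le k h le_rfl

omit mΩ in
theorem b16a_F_mono (n : ℤ) :
    (⨆ k : ℤ, ⨆ _ : k ≤ n, MeasurableSpace.comap (ξ k) mS) ≤
      (⨆ k : ℤ, ⨆ _ : k ≤ n + 1, MeasurableSpace.comap (ξ k) mS) :=
  iSup₂_le fun k hk => b16a_comap_le k (n + 1) (by omega)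

theorem b16a_bind (hc : IsStationaryMarkovChain P ξ Q π) (n : ℤ) (B : Set Ω)
    (hB : MeasurableSet[⨆ k : ℤ, ⨆ _ : k ≤ n, MeasurableSpace.comap (ξ k) mS] B) :
    (P.restrict B).map (ξ (n + 1)) = ((P.restrict B).map (ξ n)).bind Q := by
  have hF := b16a_F_le hc n
  ext A hA
  have hpre : MeasurableSet (ξ (n + 1) ⁻¹' A) := hc.meas _ hA
  rw [Measure.map_apply (hc.meas _) hA, Measure.restrict_apply hpre,
    Measure.bind_apply hA Q.aemeasurable, lintegral_map (Q.measurable_coe hA) (hc.meas n)]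
  have hint : Integrable ((ξ (n + 1) ⁻¹' A).indicator (fun _ => (1 : ℝ))) P :=
    (integrable_const (1 : ℝ)).indicator hpre
  have h1 := setIntegral_condExp (μ := P) hF hint hB
  have h2 : ∫ x in B, (P[(ξ (n + 1) ⁻¹' A).indicator (fun _ => (1 : ℝ)) |
      ⨆ k : ℤ, ⨆ _ : k ≤ n, MeasurableSpace.comap (ξ k) mS]) x ∂P
      = ∫ x in B, (Q (ξ n x) A).toReal ∂P :=
    integral_congr_ae (ae_restrict_of_ae (hc.markov n A hA))
  rw [h2, integral_indicator hpre] at h1
  rw [Measure.restrict_restrict hpre] at h1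
  simp only [integral_const, smul_eq_mul, mul_one, MeasurableSet.univ, measureReal_restrict_apply,
    Set.univ_inter] at h1
  have h4 : (∫⁻ ω in B, Q (ξ n ω) A ∂P).toReal = ∫ x in B, (Q (ξ n x) A).toReal ∂P := by
    rw [integral_toReal]
    · exact ((Q.measurable_coe hA).comp (hc.meas n)).aemeasurable
    · exact Eventually.of_forall fun ω => measure_lt_top _ _
  rw [← h4] at h1
  have h5 : ∫⁻ ω in B, Q (ξ n ω) A ∂P ≠ ∞ := by
    refine ne_top_of_le_ne_top (b := ∫⁻ ω in B, 1 ∂P) (by simp) ?_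
    exact lintegral_mono fun ω => prob_le_one
  exact ((ENNReal.toReal_eq_toReal_iff' h5 (measure_ne_top _ _)).1 h1).symm

theorem b16a_step (hc : IsStationaryMarkovChain P ξ Q π) (n : ℤ) {g : S → ℝ≥0∞}
    (hg : Measurable g) {G : Ω → ℝ≥0∞}
    (hG : Measurable[⨆ k : ℤ, ⨆ _ : k ≤ n, MeasurableSpace.comap (ξ k) mS] G) :
    ∫⁻ ω, G ω * g (ξ (n + 1) ω) ∂P = ∫⁻ ω, G ω * (∫⁻ y, g y ∂Q (ξ n ω)) ∂P := by
  refine b16a_trim (b16a_F_le hc n) (hg.comp (hc.meas _))
    ((hg.lintegral_kernel (κ := Q)).comp (hc.meas n)) (fun B hB => ?_) hG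
  have h := b16a_bind hc n B hB
  have h2 : ∫⁻ y, g y ∂((P.restrict B).map (ξ (n + 1)))
      = ∫⁻ y, g y ∂(((P.restrict B).map (ξ n)).bind Q) := by rw [h]
  rwa [lintegral_map hg (hc.meas _), Measure.lintegral_bind Q.aemeasurable hg.aemeasurable,
    lintegral_map hg.lintegral_kernel (hc.meas n)] at h2

theorem b16a_multi (hc : IsStationaryMarkovChain P ξ Q π) (m : ℕ) : ∀ (n : ℤ)
    (u : ℕ → S → ℝ≥0∞), (∀ i, Measurable (u i)) → ∃ w : S → ℝ≥0∞, Measurable w ∧
      ∀ G : Ω → ℝ≥0∞, Measurable[⨆ k : ℤ, ⨆ _ : k ≤ n, MeasurableSpace.comap (ξ k) mS] G →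
        ∫⁻ ω, G ω * ∏ i ∈ Finset.range (m + 1), u i (ξ (n + i) ω) ∂P
          = ∫⁻ ω, G ω * w (ξ n ω) ∂P := by
  induction m with
  | zero =>
    intro n u hu
    exact ⟨u 0, hu 0, fun G _ => by simp⟩
  | succ m ih =>
    intro n u hu
    obtain ⟨w1, hw1, hw1'⟩ := ih (n + 1) (fun i => u (i + 1)) (fun i => hu _)
    refine ⟨fun x => u 0 x * ∫⁻ y, w1 y ∂Q x, (hu 0).mul hw1.lintegral_kernel, fun G hG => ?_⟩
    have hG' : Measurable[⨆ k : ℤ, ⨆ _ : k ≤ n, MeasurableSpace.comap (ξ k) mS]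
        (fun ω => G ω * u 0 (ξ n ω)) := by
      refine Measurable.mul hG ?_
      have : Measurable[MeasurableSpace.comap (ξ n) mS] (fun ω => u 0 (ξ n ω)) :=
        (hu 0).comp (comap_measurable (ξ n))
      exact this.mono (b16a_comap_le n n le_rfl) le_rfl
    have e1 := hw1' _ (hG'.mono (b16a_F_mono n) le_rfl)
    have e2 := b16a_step hc n hw1 hG'
    rw [e2] at e1
    calc ∫⁻ ω, G ω * ∏ i ∈ Finset.range (m + 1 + 1), u i (ξ (n + i) ω) ∂P
        = ∫⁻ ω, G ω * u 0 (ξ n ω) * ∏ i ∈ Finset.range (m + 1), u (i + 1) (ξ (n + 1 + i) ω) ∂P := by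
          refine lintegral_congr fun ω => ?_
          rw [Finset.prod_range_succ']
          simp only [Nat.cast_zero, add_zero, Nat.cast_add, Nat.cast_one]
          rw [mul_comm (∏ i ∈ _, _) (u 0 _), ← mul_assoc]
          congr 1
          refine Finset.prod_congr rfl fun i _ => ?_
          rw [show n + ((i : ℤ) + 1) = n + 1 + i by ring]
      _ = _ := by
          rw [e1]
          simp only [mul_assoc]

/-- the key identity: `P(B ∩ A) = ∫_A P[1_B | ξ_s] dP` for `B` in the past, `A` in the future -/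
theorem b16a_key (hc : IsStationaryMarkovChain P ξ Q π) (s : ℕ) (B : Set Ω)
    (hB : MeasurableSet[⨆ k : ℤ, ⨆ _ : k ≤ (s : ℤ), MeasurableSpace.comap (ξ k) mS] B)
    (b : Ω → ℝ≥0∞) (hb : Measurable[MeasurableSpace.comap (ξ (s : ℤ)) mS] b)
    (hbB : ∀ C, MeasurableSet[MeasurableSpace.comap (ξ (s : ℤ)) mS] C →
      ∫⁻ ω in C, b ω ∂P = P (C ∩ B))
    (A : Set Ω) (hA : MeasurableSet[fut (fun n : ℕ => ξ (n : ℤ)) s] A) :
    P (A ∩ B) = ∫⁻ ω in A, b ω ∂P := by
  have hF := b16a_F_le hc s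
  have hpl : MeasurableSpace.comap (ξ (s : ℤ)) mS ≤ mΩ := (hc.meas s).comap_le
  have hfl : fut (fun n : ℕ => ξ (n : ℤ)) s ≤ mΩ := iSup₂_le fun k _ => (hc.meas k).comap_le
  have hb' : Measurable b := hb.mono hpl le_rfl
  have hBm : MeasurableSet B := hF _ hB
  -- exchange of `1_B` and `b` against functions of `ξ_s`
  have hex : ∀ w : S → ℝ≥0∞, Measurable w →
      ∫⁻ ω, B.indicator (fun _ => 1) ω * w (ξ s ω) ∂P = ∫⁻ ω, b ω * w (ξ s ω) ∂P := by
    intro w hw
    have h := b16a_trim (P := P) hpl (f₁ := B.indicator (fun _ => 1)) (f₂ := b)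
      (measurable_const.indicator hBm) hb' (fun C hC => ?_) (G := fun ω => w (ξ s ω))
      (hw.comp (comap_measurable (ξ s)))
    · simpa only [mul_comm] using h
    · rw [hbB C hC, lintegral_indicator hBm, Measure.restrict_restrict hBm]
      simp [Set.inter_comm]
  have hbt : ∫⁻ ω, b ω ∂P ≠ ∞ := by
    have := hbB Set.univ MeasurableSet.univ
    rw [Measure.restrict_univ] at this
    rw [this]
    exact measure_ne_top _ _
  have : IsFiniteMeasure (P.withDensity b) := isFiniteMeasure_withDensity hbt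
  have hgen : fut (fun n : ℕ => ξ (n : ℤ)) s = MeasurableSpace.generateFrom
      (piiUnionInter (fun k : ℕ => {t | MeasurableSet[MeasurableSpace.comap (ξ (k : ℤ)) mS] t})
        {k | s ≤ k}) := by
    exact (generateFrom_piiUnionInter_measurableSet
      (fun k : ℕ => MeasurableSpace.comap (ξ (k : ℤ)) mS) {k | s ≤ k}).symm
  have hpi : IsPiSystem
      (piiUnionInter (fun k : ℕ => {t | MeasurableSet[MeasurableSpace.comap (ξ (k : ℤ)) mS] t})
        {k | s ≤ k}) :=
    isPiSystem_piiUnionInter _ (fun k : ℕ =>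
      @MeasurableSpace.isPiSystem_measurableSet _ (MeasurableSpace.comap (ξ (k : ℤ)) mS)) _
  have hcyl : ∀ A ∈ piiUnionInter
      (fun k : ℕ => {t | MeasurableSet[MeasurableSpace.comap (ξ (k : ℤ)) mS] t}) {k | s ≤ k},
      P (A ∩ B) = ∫⁻ ω in A, b ω ∂P := by
    classical
    rintro A ⟨t, ht, f, hf, rfl⟩
    have hf' : ∀ k : ℕ, ∃ a : Set S, MeasurableSet a ∧ (k ∈ t → ξ (k : ℤ) ⁻¹' a = f k) := by
      intro k
      by_cases hk : k ∈ t
      · obtain ⟨a, ha, ha'⟩ := hf k hk
        exact ⟨a, ha, fun _ => ha'⟩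
      · exact ⟨Set.univ, MeasurableSet.univ, fun h => absurd h hk⟩
    choose a ha ha' using hf'
    obtain ⟨m, hm⟩ : ∃ m : ℕ, ∀ k ∈ t, k < s + (m + 1) := by
      refine ⟨t.sup id, fun k hk => ?_⟩
      have : k ≤ t.sup id := Finset.le_sup (f := id) hk
      omega
    obtain ⟨w, hw, hw'⟩ := b16a_multi hc m s
      (fun i => if s + i ∈ t then (a (s + i)).indicator (fun _ => 1) else fun _ => 1)
      (fun i => by split_ifs; exacts [measurable_const.indicator (ha _), measurable_const])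
    have hprod : ∀ ω, (∏ i ∈ Finset.range (m + 1),
        (if s + i ∈ t then (a (s + i)).indicator (fun _ => (1 : ℝ≥0∞)) else fun _ => 1)
          (ξ ((s : ℤ) + i) ω)) = (⋂ x ∈ t, f x).indicator (fun _ => (1 : ℝ≥0∞)) ω := by
      intro ω
      by_cases hω : ω ∈ ⋂ x ∈ t, f x
      · rw [Set.indicator_of_mem hω]
        refine Finset.prod_eq_one fun i hi => ?_
        by_cases hit : s + i ∈ t
        · rw [if_pos hit, Set.indicator_of_mem]
          have h1 : ω ∈ f (s + i) := by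
            simp only [Set.mem_iInter] at hω
            exact hω _ hit
          rw [← ha' _ hit] at h1
          simpa using h1
        · rw [if_neg hit]
      · rw [Set.indicator_of_notMem hω]
        simp only [Set.mem_iInter, not_forall] at hω
        obtain ⟨k, hk, hkω⟩ := hω
        have hsk : s ≤ k := ht hk
        refine Finset.prod_eq_zero (i := k - s) (by have := hm k hk; simp; omega) ?_
        have e : s + (k - s) = k := by omega
        rw [e, if_pos hk, Set.indicator_of_notMem]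
        rw [← ha' _ hk] at hkω
        have e2 : ((s : ℤ) + ((k - s : ℕ) : ℤ)) = (k : ℤ) := by omega
        rw [e2]
        simpa using hkω
    have hAm : MeasurableSet (⋂ x ∈ t, f x) := by
      refine Finset.measurableSet_biInter _ fun k hk => ?_
      exact (hc.meas k).comap_le _ (hf k hk)
    have e1 := hw' (B.indicator (fun _ => 1)) (measurable_const.indicator hB)
    have e2 := hw' b (hb.mono (b16a_comap_le s s le_rfl) le_rfl)
    rw [hex w hw, ← e2] at e1
    simp only [hprod] at e1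
    rw [← lintegral_indicator_one (hAm.inter hBm), ← lintegral_indicator hAm]
    calc ∫⁻ ω, ((⋂ x ∈ t, f x) ∩ B).indicator 1 ω ∂P
        = ∫⁻ ω, B.indicator (fun _ => 1) ω * (⋂ x ∈ t, f x).indicator (fun _ => 1) ω ∂P := by
          refine lintegral_congr fun ω => ?_
          by_cases h1 : ω ∈ B <;> by_cases h2 : ω ∈ ⋂ x ∈ t, f x <;>
            simp only [Set.indicator, Set.mem_inter_iff, h1, h2] <;> simp
      _ = ∫⁻ ω, b ω * (⋂ x ∈ t, f x).indicator (fun _ => 1) ω ∂P := e1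
      _ = _ := by
          refine lintegral_congr fun ω => ?_
          by_cases h2 : ω ∈ ⋂ x ∈ t, f x <;>
            simp only [Set.indicator, h2] <;> simp
  have heq : (P.restrict B).trim hfl = (P.withDensity b).trim hfl := by
    have : IsFiniteMeasure ((P.restrict B).trim hfl) := isFiniteMeasure_trim hfl
    refine @ext_of_generate_finite _ (fut (fun n : ℕ => ξ (n : ℤ)) s) _ _ _ hgen hpi _ ?_ ?_
    · intro A hA
      have hAf : MeasurableSet[fut (fun n : ℕ => ξ (n : ℤ)) s] A := by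
        rw [hgen]
        exact MeasurableSpace.measurableSet_generateFrom hA
      rw [trim_measurableSet_eq hfl hAf, trim_measurableSet_eq hfl hAf,
        Measure.restrict_apply (hfl _ hAf), withDensity_apply _ (hfl _ hAf), hcyl A hA]
    · rw [trim_measurableSet_eq hfl MeasurableSet.univ, trim_measurableSet_eq hfl MeasurableSet.univ,
        Measure.restrict_apply MeasurableSet.univ, withDensity_apply _ MeasurableSet.univ]
      exact (hbB Set.univ MeasurableSet.univ).symm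
  have h1 : (P.restrict B).trim hfl A = (P.withDensity b).trim hfl A := by rw [heq]
  rwa [trim_measurableSet_eq hfl hA, trim_measurableSet_eq hfl hA,
    Measure.restrict_apply (hfl _ hA), withDensity_apply _ (hfl _ hA)] at h1

/-- the Markov property for functionals of the future -/
theorem b16a_markov (hc : IsStationaryMarkovChain P ξ Q π) (s : ℕ) (Φ : Ω → ℂ)
    (hΦ : StronglyMeasurable[fut (fun n : ℕ => ξ (n : ℤ)) s] Φ) (hΦi : Integrable Φ P) :
    P[Φ | past (fun n : ℕ => ξ (n : ℤ)) s] =ᵐ[P] P[Φ | pres (fun n : ℕ => ξ (n : ℤ)) s] := by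
  have hF := b16a_F_le hc s
  have hpl : pres (fun n : ℕ => ξ (n : ℤ)) s ≤ mΩ := (hc.meas s).comap_le
  have hpal : past (fun n : ℕ => ξ (n : ℤ)) s ≤ mΩ := iSup₂_le fun k _ => (hc.meas k).comap_le
  have hfl : fut (fun n : ℕ => ξ (n : ℤ)) s ≤ mΩ := iSup₂_le fun k _ => (hc.meas k).comap_le
  have hpp : pres (fun n : ℕ => ξ (n : ℤ)) s ≤ past (fun n : ℕ => ξ (n : ℤ)) s :=
    le_iSup₂_of_le s le_rfl le_rfl
  have hpF : past (fun n : ℕ => ξ (n : ℤ)) s ≤
      ⨆ k : ℤ, ⨆ _ : k ≤ (s : ℤ), MeasurableSpace.comap (ξ k) mS :=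
    iSup₂_le fun k hk => b16a_comap_le (k : ℤ) s (by exact_mod_cast hk)
  symm
  refine ae_eq_condExp_of_forall_setIntegral_eq hpal hΦi
    (fun _ _ _ => integrable_condExp.integrableOn) (fun B hB _ => ?_)
    ((stronglyMeasurable_condExp.mono hpp).aestronglyMeasurable)
  have hBm : MeasurableSet B := hpal _ hB
  -- the conditional probability
  set c : Ω → ℝ := P[B.indicator (fun _ => (1 : ℝ)) | pres (fun n : ℕ => ξ (n : ℤ)) s] with hcdef
  have hcm : StronglyMeasurable[pres (fun n : ℕ => ξ (n : ℤ)) s] c := stronglyMeasurable_condExp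
  have hBi : Integrable (B.indicator (fun _ => (1 : ℝ))) P :=
    (integrable_const (1 : ℝ)).indicator hBm
  have hc0 : 0 ≤ᵐ[P] c := condExp_nonneg (Eventually.of_forall fun ω =>
    Set.indicator_nonneg (fun _ _ => zero_le_one) ω)
  have hc1 : ∀ᵐ ω ∂P, ‖c ω‖ ≤ 1 := by
    have h1 : c ≤ᵐ[P] P[fun _ => (1 : ℝ) | pres (fun n : ℕ => ξ (n : ℤ)) s] :=
      condExp_mono hBi (integrable_const 1) (Eventually.of_forall fun ω =>
        Set.indicator_le_self' (fun _ _ => zero_le_one) ω)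
    rw [condExp_const hpl] at h1
    filter_upwards [hc0, h1] with ω h0 h2
    rw [Real.norm_eq_abs, abs_of_nonneg h0]
    exact h2
  have hcint : Integrable c P := integrable_condExp
  set b : Ω → ℝ≥0∞ := fun ω => ENNReal.ofReal (c ω) with hbdef
  have hbm : Measurable[MeasurableSpace.comap (ξ (s : ℤ)) mS] b :=
    ENNReal.measurable_ofReal.comp hcm.measurable
  have hbB : ∀ C, MeasurableSet[MeasurableSpace.comap (ξ (s : ℤ)) mS] C →
      ∫⁻ ω in C, b ω ∂P = P (C ∩ B) := by
    intro C hC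
    have h1 := setIntegral_condExp (μ := P) hpl hBi hC
    rw [← ofReal_integral_eq_lintegral_ofReal hcint.integrableOn (ae_restrict_of_ae hc0), h1,
      integral_indicator hBm, Measure.restrict_restrict hBm]
    simp only [integral_const, smul_eq_mul, mul_one, MeasurableSet.univ, measureReal_restrict_apply,
      Set.univ_inter]
    rw [ofReal_measureReal, Set.inter_comm]
  have hkey := b16a_key hc s B (hpF _ hB) b hbm hbB
  -- the two measures on the future
  have heq : (P.restrict B).trim hfl = (P.withDensity b).trim hfl := by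
    refine @Measure.ext _ (fut (fun n : ℕ => ξ (n : ℤ)) s) _ _ fun A hA => ?_
    rw [trim_measurableSet_eq hfl hA, trim_measurableSet_eq hfl hA,
      Measure.restrict_apply (hfl _ hA), withDensity_apply _ (hfl _ hA), hkey A hA]
  have hb' : Measurable b := hbm.mono hpl le_rfl
  have e1 : ∫ ω in B, Φ ω ∂P = ∫ ω, c ω • Φ ω ∂P := by
    have h1 : ∫ ω, Φ ω ∂(P.restrict B) = ∫ ω, Φ ω ∂(P.withDensity b) := by
      rw [integral_trim hfl hΦ, integral_trim hfl hΦ, heq]
    rw [h1, integral_withDensity_eq_integral_toReal_smul hb'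
      (Eventually.of_forall fun _ => ENNReal.ofReal_lt_top)]
    refine integral_congr_ae ?_
    filter_upwards [hc0] with ω h0
    rw [hbdef]
    simp only
    rw [ENNReal.toReal_ofReal h0]
  have hcΦ : Integrable (c • Φ) P :=
    hΦi.bdd_smul 1 (hcm.mono hpl).aestronglyMeasurable hc1
  have e2 : ∫ ω, c ω • Φ ω ∂P
      = ∫ ω, c ω • (P[Φ | pres (fun n : ℕ => ξ (n : ℤ)) s]) ω ∂P := by
    have h2 := condExp_smul_of_aestronglyMeasurable_left (μ := P) (m := pres (fun n : ℕ => ξ (n : ℤ)) s)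
      hcm.aestronglyMeasurable hcΦ hΦi
    calc ∫ ω, c ω • Φ ω ∂P = ∫ ω, (c • Φ) ω ∂P := rfl
      _ = ∫ ω, (P[c • Φ | pres (fun n : ℕ => ξ (n : ℤ)) s]) ω ∂P := (integral_condExp hpl).symm
      _ = _ := integral_congr_ae h2
  have hΨ : StronglyMeasurable[pres (fun n : ℕ => ξ (n : ℤ)) s]
      (P[Φ | pres (fun n : ℕ => ξ (n : ℤ)) s]) := stronglyMeasurable_condExp
  have e3 : ∫ ω in B, (P[Φ | pres (fun n : ℕ => ξ (n : ℤ)) s]) ω ∂P
      = ∫ ω, c ω • (P[Φ | pres (fun n : ℕ => ξ (n : ℤ)) s]) ω ∂P := by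
    have hi : Integrable (B.indicator (fun _ => (1 : ℝ)) •
        (P[Φ | pres (fun n : ℕ => ξ (n : ℤ)) s])) P := by
      refine integrable_condExp.bdd_smul 1 hBi.aestronglyMeasurable
        (Eventually.of_forall fun ω => ?_)
      by_cases h : ω ∈ B <;> simp [h]
    have h3 := condExp_smul_of_aestronglyMeasurable_right (μ := P)
      (m := pres (fun n : ℕ => ξ (n : ℤ)) s) hBi hi hΨ.aestronglyMeasurable
    calc ∫ ω in B, (P[Φ | pres (fun n : ℕ => ξ (n : ℤ)) s]) ω ∂P
        = ∫ ω, (B.indicator (fun _ => (1 : ℝ)) •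
            (P[Φ | pres (fun n : ℕ => ξ (n : ℤ)) s])) ω ∂P := by
          rw [← integral_indicator hBm]
          refine integral_congr_ae (Eventually.of_forall fun ω => ?_)
          by_cases h : ω ∈ B <;> simp [h]
      _ = ∫ ω, (P[B.indicator (fun _ => (1 : ℝ)) •
            (P[Φ | pres (fun n : ℕ => ξ (n : ℤ)) s]) | pres (fun n : ℕ => ξ (n : ℤ)) s]) ω ∂P :=
          (integral_condExp hpl).symm
      _ = _ := integral_congr_ae h3
  rw [e1, e2, e3]

theorem b16a_op (hc : IsStationaryMarkovChain P ξ Q π) (hT : IsMarkovOperator Q π T) (s : ℕ)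
    (h : Lp ℝ 2 π) :
    P[fun ω => h (ξ ((s + 1 : ℕ) : ℤ) ω) | pres (fun n : ℕ => ξ (n : ℤ)) s]
      =ᵐ[P] fun ω => T h (ξ (s : ℤ) ω) := by
  have hpl : pres (fun n : ℕ => ξ (n : ℤ)) s ≤ mΩ := (hc.meas s).comap_le
  have hπ : IsProbabilityMeasure π := by
    rw [← hc.law 0]
    exact Measure.isProbabilityMeasure_map (hc.meas 0).aemeasurable
  have hhi : Integrable h π := (Lp.memLp h).integrable (by norm_num)
  have hThi : Integrable (T h) π := (Lp.memLp (T h)).integrable (by norm_num)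
  have hlaw1 : P.map (ξ ((s + 1 : ℕ) : ℤ)) = π := hc.law _
  have hlaw0 : P.map (ξ (s : ℤ)) = π := hc.law _
  have hi1 : Integrable (fun ω => h (ξ ((s + 1 : ℕ) : ℤ) ω)) P := by
    have : Integrable h (P.map (ξ ((s + 1 : ℕ) : ℤ))) := by rw [hlaw1]; exact hhi
    exact this.comp_measurable (hc.meas _)
  have hi0 : Integrable (fun ω => T h (ξ (s : ℤ) ω)) P := by
    have : Integrable (T h) (P.map (ξ (s : ℤ))) := by rw [hlaw0]; exact hThi
    exact this.comp_measurable (hc.meas _)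
  symm
  refine ae_eq_condExp_of_forall_setIntegral_eq hpl hi1 (fun _ _ _ => hi0.integrableOn)
    (fun B hB _ => ?_) ?_
  · have hBm : MeasurableSet B := hpl _ hB
    have hBF : MeasurableSet[⨆ k : ℤ, ⨆ _ : k ≤ (s : ℤ), MeasurableSpace.comap (ξ k) mS] B :=
      b16a_comap_le (s : ℤ) s le_rfl _ hB
    have hb := b16a_bind hc s B hBF
    have hac : (P.restrict B).map (ξ ((s : ℤ) + 1)) ≤ π := by
      rw [← hc.law ((s : ℤ) + 1)]
      exact Measure.map_mono Measure.restrict_le_self (hc.meas _)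
    have hac0 : (P.restrict B).map (ξ (s : ℤ)) ≤ π := by
      rw [← hc.law (s : ℤ)]
      exact Measure.map_mono Measure.restrict_le_self (hc.meas _)
    have hh1 : Integrable h ((P.restrict B).map (ξ ((s : ℤ) + 1))) := hhi.mono_measure hac
    have ecast : (((s + 1 : ℕ)) : ℤ) = (s : ℤ) + 1 := by push_cast; ring
    calc ∫ ω in B, T h (ξ (s : ℤ) ω) ∂P
        = ∫ x, T h x ∂((P.restrict B).map (ξ (s : ℤ))) :=
          (integral_map (hc.meas _).aemeasurable (hThi.mono_measure hac0).aestronglyMeasurable).symm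
      _ = ∫ x, (∫ y, h y ∂Q x) ∂((P.restrict B).map (ξ (s : ℤ))) :=
          integral_congr_ae ((Measure.absolutelyContinuous_of_le hac0).ae_le (hT h))
      _ = ∫ y, h y ∂(((P.restrict B).map (ξ (s : ℤ))).bind Q) := by
          rw [hb] at hh1
          rw [Measure.comp_eq_comp_const_apply] at hh1 ⊢
          rw [Kernel.integral_comp hh1]
          simp
      _ = ∫ y, h y ∂((P.restrict B).map (ξ ((s : ℤ) + 1))) := by rw [hb]
      _ = ∫ ω in B, h (ξ ((s : ℤ) + 1) ω) ∂P :=
          integral_map (hc.meas _).aemeasurable hh1.aestronglyMeasurable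
      _ = _ := by rw [ecast]
  · -- measurability
    have h1 : StronglyMeasurable[pres (fun n : ℕ => ξ (n : ℤ)) s]
        (fun ω => T h (ξ (s : ℤ) ω)) :=
      (Lp.stronglyMeasurable (T h)).comp_measurable (comap_measurable (ξ (s : ℤ)))
    exact h1.aestronglyMeasurable

theorem setup_of_chain (hc : IsStationaryMarkovChain P ξ Q π) (hT : IsMarkovOperator Q π T) :
    Setup P π (fun n : ℕ => ξ (n : ℤ)) T where
  meas n := hc.meas n
  stat k := by
    have h := hc.stat (k : ℤ)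
    have hr : Measurable (fun (x : ℤ → S) (n : ℕ) => x (n : ℤ)) :=
      measurable_pi_lambda _ fun n => measurable_pi_apply _
    have h1 : Measurable (fun ω (n : ℤ) => ξ (n + (k : ℤ)) ω) :=
      measurable_pi_lambda _ fun n => hc.meas _
    have h2 : Measurable (fun ω (n : ℤ) => ξ n ω) :=
      measurable_pi_lambda _ fun n => hc.meas _
    have h3 : (P.map (fun ω (n : ℤ) => ξ (n + (k : ℤ)) ω)).map
          (fun (x : ℤ → S) (n : ℕ) => x (n : ℤ))
        = (P.map (fun ω (n : ℤ) => ξ n ω)).map (fun (x : ℤ → S) (n : ℕ) => x (n : ℤ)) := by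
      rw [h]
    rw [Measure.map_map hr h1, Measure.map_map hr h2] at h3
    simpa only [Function.comp_def, Nat.cast_add] using h3
  law n := hc.law n
  markov s Φ hΦ hΦi := b16a_markov hc s Φ hΦ hΦi
  op s h := b16a_op hc hT s h

end chainB16a

end TwoSidedCLT
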