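import Pool.Agent.H374e.Defs
import Pool.Agent.H374e.CB16a

open MeasureTheory ProbabilityTheory Filter Topology
open scoped ENNReal NNReal InnerProductSpace

set_option linter.unusedVariables false
set_option warn.classDefReducibility false

namespace TwoSidedCLT

section chainB16bAux

/-- symmetric form of conditional independence -/
theorem b16b_symm {Ω : Type*} {m0 m1 m2 : MeasurableSpace Ω} {mΩ : MeasurableSpace Ω}
    {P : Measure Ω} [IsProbabilityMeasure P] (h1 : m1 ≤ mΩ) (h2 : m2 ≤ mΩ) (h01 : m0 ≤ m1)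
    (h : ∀ B : Set Ω, MeasurableSet[m1] B →
      P[B.indicator (fun _ => (1 : ℝ)) | m2] =ᵐ[P] P[B.indicator (fun _ => (1 : ℝ)) | m0])
    (Φ : Ω → ℂ) (hΦ : StronglyMeasurable[m2] Φ) (hi : Integrable Φ P) :
    P[Φ | m1] =ᵐ[P] P[Φ | m0] := by
  have h0 : m0 ≤ mΩ := h01.trans h1
  refine (ae_eq_condExp_of_forall_setIntegral_eq h1 hi
    (fun _ _ _ => integrable_condExp.integrableOn) ?_
    (stronglyMeasurable_condExp.mono h01).aestronglyMeasurable).symm
  intro B hB _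
  have hB' : MeasurableSet B := h1 B hB
  set b : Ω → ℝ := B.indicator (fun _ => (1 : ℝ)) with hb
  have hbi : Integrable b P := (integrable_const (1 : ℝ)).indicator hB'
  have hsm : ∀ f : Ω → ℂ, b • f = B.indicator f := by
    intro f
    funext ω
    by_cases hω : ω ∈ B
    · simp [hb, hω]
    · simp [hb, hω]
  have hint : ∀ f : Ω → ℂ, ∫ ω in B, f ω ∂P = ∫ ω, (b • f) ω ∂P := by
    intro f
    rw [hsm f, integral_indicator hB']
  have hbf : ∀ f : Ω → ℂ, Integrable f P → Integrable (b • f) P := by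
    intro f hf
    rw [hsm f]
    exact hf.indicator hB'
  have e1 : P[b • Φ | m2] =ᵐ[P] P[b | m2] • Φ :=
    condExp_smul_of_aestronglyMeasurable_right hbi (hbf Φ hi) hΦ.aestronglyMeasurable
  have e2 : P[b | m2] • Φ =ᵐ[P] P[b | m0] • Φ := by
    have h3 := h B hB
    rw [← hb] at h3
    filter_upwards [h3] with ω hω
    simp only [Pi.smul_apply', hω]
  have i2 : Integrable (P[b | m0] • Φ) P :=
    (integrable_condExp (m := m2)).congr (e1.trans e2)
  have e3 : P[P[b | m0] • Φ | m0] =ᵐ[P] P[b | m0] • P[Φ | m0] :=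
    condExp_smul_of_aestronglyMeasurable_left stronglyMeasurable_condExp.aestronglyMeasurable i2 hi
  have e4 : P[b • P[Φ | m0] | m0] =ᵐ[P] P[b | m0] • P[Φ | m0] :=
    condExp_smul_of_aestronglyMeasurable_right hbi (hbf _ integrable_condExp)
      stronglyMeasurable_condExp.aestronglyMeasurable
  calc ∫ ω in B, (P[Φ | m0]) ω ∂P = ∫ ω, (b • P[Φ | m0]) ω ∂P := hint _
    _ = ∫ ω, (P[b • P[Φ | m0] | m0]) ω ∂P := (integral_condExp h0).symm
    _ = ∫ ω, (P[P[b | m0] • Φ | m0]) ω ∂P := integral_congr_ae (e4.trans e3.symm)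
    _ = ∫ ω, (P[b | m0] • Φ) ω ∂P := integral_condExp h0
    _ = ∫ ω, (P[b • Φ | m2]) ω ∂P := integral_congr_ae (e1.trans e2).symm
    _ = ∫ ω, (b • Φ) ω ∂P := integral_condExp h2
    _ = ∫ ω in B, Φ ω ∂P := (hint _).symm

/-- Lévy's upward theorem when the conditional expectations do not change -/
theorem b16b_levy {Ω : Type*} {mΩ : MeasurableSpace Ω} {P : Measure Ω} [IsProbabilityMeasure P]
    {m0 : MeasurableSpace Ω} (F : ℕ → MeasurableSpace Ω) (hF : Monotone F) (hle : ∀ n, F n ≤ mΩ)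
    (g : Ω → ℝ) (h : ∀ n, P[g | F n] =ᵐ[P] P[g | m0]) : P[g | ⨆ n, F n] =ᵐ[P] P[g | m0] := by
  let 𝓕 : Filtration ℕ mΩ := ⟨F, hF, hle⟩
  have h1 : ∀ᵐ x ∂P, Tendsto (fun n => (P[g | F n]) x) atTop (𝓝 ((P[g | ⨆ n, F n]) x)) :=
    tendsto_ae_condExp (ℱ := 𝓕) g
  have h2 : ∀ᵐ x ∂P, ∀ n, (P[g | F n]) x = (P[g | m0]) x := ae_all_iff.2 h
  filter_upwards [h1, h2] with x hx1 hx2
  have h3 : Tendsto (fun n => (P[g | F n]) x) atTop (𝓝 ((P[g | m0]) x)) := by
    simp only [hx2]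
    exact tendsto_const_nhds
  exact tendsto_nhds_unique hx1 h3

/-- real indicator from complex functions -/
theorem b16b_real {Ω : Type*} {mΩ : MeasurableSpace Ω} {P : Measure Ω} [IsProbabilityMeasure P]
    {m m' : MeasurableSpace Ω} (g : Ω → ℝ) (hg : Integrable g P)
    (h : P[fun ω => (g ω : ℂ) | m] =ᵐ[P] P[fun ω => (g ω : ℂ) | m']) :
    P[g | m] =ᵐ[P] P[g | m'] := by
  have h1 := Complex.ofRealCLM.comp_condExp_comm (m := m) hg
  have h2 := Complex.ofRealCLM.comp_condExp_comm (m := m') hg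
  have e : (⇑Complex.ofRealCLM ∘ g) = fun ω => (g ω : ℂ) := rfl
  rw [e] at h1 h2
  filter_upwards [h1, h2, h] with ω hω1 hω2 hω
  rw [hω, ← hω2] at hω1
  simp only [Function.comp_apply, Complex.ofRealCLM_apply] at hω1
  exact_mod_cast hω1

end chainB16bAux

section chainB16b

variable {Ω S : Type*} [mΩ : MeasurableSpace Ω] [mS : MeasurableSpace S]
  {P : Measure Ω} [IsProbabilityMeasure P] {π : Measure S} {ξ : ℤ → Ω → S}
  {Q : Kernel S S} [IsMarkovKernel Q] {T : Lp ℝ 2 π →L[ℝ] Lp ℝ 2 π}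

omit [IsProbabilityMeasure P] [IsMarkovKernel Q] in
/-- shifted chains -/
theorem b16b_shift (hc : IsStationaryMarkovChain P ξ Q π) (c : ℤ) :
    IsStationaryMarkovChain P (fun n => ξ (n + c)) Q π where
  meas n := hc.meas _
  law n := hc.law _
  stat k := by
    have h1 := hc.stat c
    have h2 := hc.stat (k + c)
    rw [← h1] at h2
    simp only [add_assoc]
    exact h2
  markov n A hA := by
    have h1 := hc.markov (n + c) A hA
    have e1 : (⨆ k : ℤ, ⨆ _ : k ≤ n, MeasurableSpace.comap (ξ (k + c)) mS) =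
        ⨆ k : ℤ, ⨆ _ : k ≤ n + c, MeasurableSpace.comap (ξ k) mS := by
      apply le_antisymm
      · refine iSup₂_le fun k hk => ?_
        exact le_iSup₂_of_le (k + c) (by omega) le_rfl
      · refine iSup₂_le fun k hk => ?_
        refine le_iSup₂_of_le (k - c) (by omega) ?_
        rw [sub_add_cancel]
    have e2 : n + 1 + c = n + c + 1 := by ring
    simp only [e1, e2]
    exact h1

omit [IsProbabilityMeasure P] [IsMarkovKernel Q] in
theorem b16b_pres_le (hc : IsStationaryMarkovChain P ξ Q π) (k : ℤ) :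
    MeasurableSpace.comap (ξ k) mS ≤ mΩ := (hc.meas k).comap_le

theorem b16b_markov (hc : IsStationaryMarkovChain P ξ Q π) (hT : IsMarkovOperator Q π T) (s : ℕ)
    (B : Set Ω) (hB : MeasurableSet[past (fun n : ℕ => ξ (-(n : ℤ))) s] B) :
    P[B.indicator (fun _ => (1 : ℝ)) | fut (fun n : ℕ => ξ (-(n : ℤ))) s] =ᵐ[P]
      P[B.indicator (fun _ => (1 : ℝ)) | pres (fun n : ℕ => ξ (-(n : ℤ))) s] := by
  have hpast : past (fun n : ℕ => ξ (-(n : ℤ))) s ≤ mΩ := iSup₂_le fun k _ => b16b_pres_le hc _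
  set F : ℕ → MeasurableSpace Ω := fun M => past (fun n : ℕ => ξ ((n : ℤ) + (-((s : ℤ) + M)))) M
    with hFdef
  have hFle : ∀ M, F M ≤ mΩ := fun M => iSup₂_le fun k _ => b16b_pres_le hc _
  have hFmono : Monotone F := by
    refine monotone_nat_of_le_succ fun M => ?_
    refine iSup₂_le fun k hk => ?_
    refine le_iSup₂_of_le (k + 1) (by omega) ?_
    have e : (k : ℤ) + (-((s : ℤ) + M)) = ((k + 1 : ℕ) : ℤ) + (-((s : ℤ) + ((M + 1 : ℕ) : ℤ))) := by
      push_cast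
      ring
    show MeasurableSpace.comap (ξ ((k : ℤ) + (-((s : ℤ) + M)))) mS ≤
      MeasurableSpace.comap (ξ (((k + 1 : ℕ) : ℤ) + (-((s : ℤ) + ((M + 1 : ℕ) : ℤ))))) mS
    rw [e]
  have hFsup : fut (fun n : ℕ => ξ (-(n : ℤ))) s = ⨆ M, F M := by
    apply le_antisymm
    · refine iSup₂_le fun k hk => ?_
      refine le_iSup_of_le (k - s) ?_
      refine le_iSup₂_of_le 0 (Nat.zero_le _) ?_
      have e : -(k : ℤ) = ((0 : ℕ) : ℤ) + (-((s : ℤ) + ((k - s : ℕ) : ℤ))) := by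
        push_cast [Nat.cast_sub hk]
        ring
      show MeasurableSpace.comap (ξ (-(k : ℤ))) mS ≤
        MeasurableSpace.comap (ξ (((0 : ℕ) : ℤ) + (-((s : ℤ) + ((k - s : ℕ) : ℤ))))) mS
      rw [e]
    · refine iSup_le fun M => iSup₂_le fun k hk => ?_
      refine le_iSup₂_of_le (s + (M - k)) (by omega) ?_
      have e : (k : ℤ) + (-((s : ℤ) + M)) = -((s + (M - k) : ℕ) : ℤ) := by
        push_cast [Nat.cast_sub hk]
        ring
      show MeasurableSpace.comap (ξ ((k : ℤ) + (-((s : ℤ) + M)))) mS ≤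
        MeasurableSpace.comap (ξ (-((s + (M - k) : ℕ) : ℤ))) mS
      rw [e]
  rw [hFsup]
  have hBi : Integrable (B.indicator (fun _ => (1 : ℝ))) P :=
    (integrable_const (1 : ℝ)).indicator (hpast B hB)
  refine b16b_levy F hFmono hFle _ fun M => b16b_real _ hBi ?_
  have hset := setup_of_chain (b16b_shift hc (-((s : ℤ) + M))) hT
  have hpr : pres (fun n : ℕ => ξ (-(n : ℤ))) s =
      pres (fun n : ℕ => ξ ((n : ℤ) + (-((s : ℤ) + M)))) M := by
    have e : -(s : ℤ) = (M : ℤ) + (-((s : ℤ) + M)) := by ring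
    show MeasurableSpace.comap (ξ (-(s : ℤ))) mS =
      MeasurableSpace.comap (ξ ((M : ℤ) + (-((s : ℤ) + M)))) mS
    rw [e]
  rw [hpr]
  refine hset.markov M _ ?_ hBi.ofReal
  have hfut : past (fun n : ℕ => ξ (-(n : ℤ))) s ≤
      fut (fun n : ℕ => ξ ((n : ℤ) + (-((s : ℤ) + M)))) M := by
    refine iSup₂_le fun k hk => ?_
    refine le_iSup₂_of_le (M + (s - k)) (by omega) ?_
    have e : -(k : ℤ) = ((M + (s - k) : ℕ) : ℤ) + (-((s : ℤ) + M)) := by
      push_cast [Nat.cast_sub hk]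
      ring
    show MeasurableSpace.comap (ξ (-(k : ℤ))) mS ≤
      MeasurableSpace.comap (ξ (((M + (s - k) : ℕ) : ℤ) + (-((s : ℤ) + M)))) mS
    rw [e]
  have hBm : Measurable[fut (fun n : ℕ => ξ ((n : ℤ) + (-((s : ℤ) + M)))) M]
      (B.indicator (fun _ => (1 : ℝ))) := measurable_const.indicator (hfut B hB)
  exact (Complex.continuous_ofReal.measurable.comp hBm).stronglyMeasurable

theorem b16b_op (hc : IsStationaryMarkovChain P ξ Q π) (hT : IsMarkovOperator Q π T) (s : ℕ)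
    (h : Lp ℝ 2 π) :
    P[fun ω => h (ξ (-((s + 1 : ℕ) : ℤ)) ω) | MeasurableSpace.comap (ξ (-(s : ℤ))) mS] =ᵐ[P]
      fun ω => (ContinuousLinearMap.adjoint T) h (ξ (-(s : ℤ)) ω) := by
  have hπ : IsProbabilityMeasure π := by
    rw [← hc.law 0]
    exact Measure.isProbabilityMeasure_map (hc.meas 0).aemeasurable
  have hmp : ∀ k, MeasurePreserving (ξ k) P π := fun k => ⟨hc.meas k, hc.law k⟩
  have hcompi : ∀ (u : Lp ℝ 2 π) (k : ℤ), MemLp (fun ω => u (ξ k ω)) 2 P := fun u k =>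
    (Lp.memLp u).comp_measurePreserving (hmp k)
  have hint : ∀ (u : Lp ℝ 2 π) (k : ℤ), Integrable (fun ω => u (ξ k ω)) P := fun u k =>
    (hcompi u k).integrable one_le_two
  have hsm : ∀ (u : Lp ℝ 2 π) (k : ℤ),
      StronglyMeasurable[MeasurableSpace.comap (ξ k) mS] (fun ω => u (ξ k ω)) := fun u k =>
    (Lp.stronglyMeasurable u).comp_measurable (comap_measurable (ξ k))
  refine (ae_eq_condExp_of_forall_setIntegral_eq (b16b_pres_le hc _) (hint h _)
    (fun _ _ _ => (hint _ _).integrableOn) ?_ (hsm _ _).aestronglyMeasurable).symm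
  rintro _ ⟨B, hB, rfl⟩ _
  set u : Lp ℝ 2 π := indicatorConstLp 2 hB (measure_ne_top π B) (1 : ℝ) with hu
  have hset := setup_of_chain (b16b_shift hc (-((s : ℤ) + 1))) hT
  have hop := hset.op 0 u
  have e0 : ((0 : ℕ) : ℤ) + (-((s : ℤ) + 1)) = -((s + 1 : ℕ) : ℤ) := by
    push_cast
    ring
  have e1 : ((0 + 1 : ℕ) : ℤ) + (-((s : ℤ) + 1)) = -(s : ℤ) := by
    push_cast
    ring
  have hop' : P[fun ω => u (ξ (-(s : ℤ)) ω) | MeasurableSpace.comap (ξ (-((s + 1 : ℕ) : ℤ))) mS]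
      =ᵐ[P] fun ω => T u (ξ (-((s + 1 : ℕ) : ℤ)) ω) := by
    rw [← e0, ← e1]
    exact hop
  -- the left side
  have l1 : ∫ ω in ξ (-(s : ℤ)) ⁻¹' B, (ContinuousLinearMap.adjoint T) h (ξ (-(s : ℤ)) ω) ∂P
      = ∫ x in B, (ContinuousLinearMap.adjoint T) h x ∂π := by
    have h1 := setIntegral_map (μ := P) (g := ξ (-(s : ℤ))) hB
      (f := fun x => (ContinuousLinearMap.adjoint T) h x)
      (Lp.stronglyMeasurable _).aestronglyMeasurable (hc.meas _).aemeasurable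
    rw [hc.law] at h1
    exact h1.symm
  have l2 : ∫ x in B, (ContinuousLinearMap.adjoint T) h x ∂π =
      ⟪u, (ContinuousLinearMap.adjoint T) h⟫_ℝ :=
    (L2.inner_indicatorConstLp_one hB (measure_ne_top π B) _).symm
  have l3 : ⟪u, (ContinuousLinearMap.adjoint T) h⟫_ℝ = ∫ x, T u x * h x ∂π := by
    rw [ContinuousLinearMap.adjoint_inner_right, L2.inner_def]
    apply integral_congr_ae
    filter_upwards with x
    simp [mul_comm]
  have l4 : ∫ x, T u x * h x ∂π = ∫ ω, T u (ξ (-((s + 1 : ℕ) : ℤ)) ω) *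
      h (ξ (-((s + 1 : ℕ) : ℤ)) ω) ∂P := by
    have h1 := integral_map (μ := P) (φ := ξ (-((s + 1 : ℕ) : ℤ))) (hc.meas _).aemeasurable
      (f := fun x => T u x * h x)
      ((Lp.stronglyMeasurable _).mul (Lp.stronglyMeasurable _)).aestronglyMeasurable
    rw [hc.law] at h1
    exact h1
  -- the right side
  have hua : ∀ᵐ ω ∂P, u (ξ (-(s : ℤ)) ω) = (ξ (-(s : ℤ)) ⁻¹' B).indicator (fun _ => (1 : ℝ)) ω := by
    have h1 : ∀ᵐ x ∂π, u x = B.indicator (fun _ => (1 : ℝ)) x := indicatorConstLp_coeFn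
    have h2 := (hmp (-(s : ℤ))).quasiMeasurePreserving.ae h1
    filter_upwards [h2] with ω hω
    rw [hω]
    rfl
  have r1 : ∫ ω in ξ (-(s : ℤ)) ⁻¹' B, h (ξ (-((s + 1 : ℕ) : ℤ)) ω) ∂P =
      ∫ ω, u (ξ (-(s : ℤ)) ω) * h (ξ (-((s + 1 : ℕ) : ℤ)) ω) ∂P := by
    rw [← integral_indicator ((hc.meas _) hB)]
    apply integral_congr_ae
    filter_upwards [hua] with ω hω
    rw [hω]
    by_cases h1 : ω ∈ ξ (-(s : ℤ)) ⁻¹' B
    · rw [Set.indicator_of_mem h1, Set.indicator_of_mem h1, one_mul]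
    · rw [Set.indicator_of_notMem h1, Set.indicator_of_notMem h1, zero_mul]
  have hmul : Integrable ((fun ω => u (ξ (-(s : ℤ)) ω)) *
      (fun ω => h (ξ (-((s + 1 : ℕ) : ℤ)) ω))) P :=
    (hcompi u _).integrable_mul (hcompi h _)
  have r2 := condExp_mul_of_aestronglyMeasurable_right
    (m := MeasurableSpace.comap (ξ (-((s + 1 : ℕ) : ℤ))) mS) (μ := P)
    (f := fun ω => u (ξ (-(s : ℤ)) ω)) (g := fun ω => h (ξ (-((s + 1 : ℕ) : ℤ)) ω))
    (hsm h _).aestronglyMeasurable hmul (hint u _)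
  have r3 : ∫ ω, u (ξ (-(s : ℤ)) ω) * h (ξ (-((s + 1 : ℕ) : ℤ)) ω) ∂P =
      ∫ ω, T u (ξ (-((s + 1 : ℕ) : ℤ)) ω) * h (ξ (-((s + 1 : ℕ) : ℤ)) ω) ∂P := by
    have h1 := integral_condExp (μ := P) (b16b_pres_le hc (-((s + 1 : ℕ) : ℤ)))
      (f := (fun ω => u (ξ (-(s : ℤ)) ω)) * (fun ω => h (ξ (-((s + 1 : ℕ) : ℤ)) ω)))
    have h2 : ∫ ω, u (ξ (-(s : ℤ)) ω) * h (ξ (-((s + 1 : ℕ) : ℤ)) ω) ∂P =
        ∫ ω, ((fun ω => u (ξ (-(s : ℤ)) ω)) * (fun ω => h (ξ (-((s + 1 : ℕ) : ℤ)) ω))) ω ∂P := rfl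
    rw [h2, ← h1]
    apply integral_congr_ae
    filter_upwards [r2, hop'] with ω hω1 hω2
    rw [hω1, Pi.mul_apply, hω2]
  rw [l1, l2, l3, l4, r1, r3]

theorem setup_of_chain_rev (hc : IsStationaryMarkovChain P ξ Q π) (hT : IsMarkovOperator Q π T) :
    Setup P π (fun n : ℕ => ξ (-(n : ℤ))) (ContinuousLinearMap.adjoint T) where
  meas n := hc.meas _
  stat k := by
    have h1 := hc.stat (-(k : ℤ))
    have hm : Measurable (fun (x : ℤ → S) (n : ℕ) => x (-(n : ℤ))) :=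
      measurable_pi_lambda _ fun n => measurable_pi_apply _
    have h2 := congrArg (Measure.map (fun (x : ℤ → S) (n : ℕ) => x (-(n : ℤ)))) h1
    rw [Measure.map_map hm (measurable_pi_lambda _ fun n => hc.meas _),
      Measure.map_map hm (measurable_pi_lambda _ fun n => hc.meas _)] at h2
    have e : (fun (ω : Ω) (n : ℕ) => ξ (-((n + k : ℕ) : ℤ)) ω) =
        (fun (x : ℤ → S) (n : ℕ) => x (-(n : ℤ))) ∘ (fun (ω : Ω) (n : ℤ) => ξ (n + -(k : ℤ)) ω) := by
      funext ω n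
      simp only [Function.comp_apply]
      congr 2
      push_cast
      ring
    rw [e, h2]
    rfl
  law n := hc.law _
  markov s Φ hΦ hi := by
    refine b16b_symm (iSup₂_le fun k _ => b16b_pres_le hc _) (iSup₂_le fun k _ => b16b_pres_le hc _)
      ?_ (fun B hB => b16b_markov hc hT s B hB) Φ hΦ hi
    exact le_iSup₂_of_le s le_rfl le_rfl
  op s h := b16b_op hc hT s h

end chainB16b

end TwoSidedCLT
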