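import Pool.Agent.H374e.Defs
import Pool.Agent.H374e.CA2
import Pool.Agent.H374e.CB13
import Pool.Agent.H374e.CB16a
import Pool.Agent.H374e.CB16b
import Pool.Agent.H374e.CB5b
import Pool.Agent.H374e.CB6a
import Pool.Agent.H374e.CB7c

open MeasureTheory ProbabilityTheory Filter Topology
open scoped ENNReal NNReal InnerProductSpace

set_option linter.unusedVariables false
set_option warn.classDefReducibility false

namespace TwoSidedCLT

section chainA3

variable {Ω S : Type*} [mΩ : MeasurableSpace Ω] [mS : MeasurableSpace S]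
  {P : Measure Ω} [IsProbabilityMeasure P] {π : Measure S} {ξ : ℤ → Ω → S}
  {Q : Kernel S S} [IsMarkovKernel Q] {T : Lp ℝ 2 π →L[ℝ] Lp ℝ 2 π}

omit [IsProbabilityMeasure P] in
/-- a vector fixed by the adjoint of a contraction is fixed by the contraction -/
theorem a3_fixed {H : Type*} [NormedAddCommGroup H] [InnerProductSpace ℝ H] [CompleteSpace H]
    (T : H →L[ℝ] H) (hn : ‖T‖ ≤ 1) (u : H) (hu : ContinuousLinearMap.adjoint T u = u) :
    T u = u := by
  have h1 : ‖T u‖ ≤ ‖u‖ := by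
    calc ‖T u‖ ≤ ‖T‖ * ‖u‖ := T.le_opNorm u
      _ ≤ 1 * ‖u‖ := by gcongr
      _ = ‖u‖ := one_mul _
  have h2 : ⟪T u, u⟫_ℝ = ‖u‖ ^ 2 := by
    rw [← ContinuousLinearMap.adjoint_inner_right, hu, real_inner_self_eq_norm_sq]
  have h3 : ‖T u - u‖ ^ 2 = ‖T u‖ ^ 2 - 2 * ⟪T u, u⟫_ℝ + ‖u‖ ^ 2 := norm_sub_sq_real _ _
  have h5 : ‖T u‖ ^ 2 ≤ ‖u‖ ^ 2 := by gcongr
  have h4 : ‖T u - u‖ ^ 2 ≤ 0 := by linarith
  have h6 : ‖T u - u‖ = 0 := by
    have := sq_nonneg ‖T u - u‖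
    exact pow_eq_zero_iff (two_ne_zero) |>.1 (le_antisymm h4 this)
  exact sub_eq_zero.1 (norm_eq_zero.1 h6)

/-- the characteristic functions converge -/
theorem a3_cf {ζ : ℕ → Ω → S} (h : Setup P π ζ T)
    (herg : ∀ u : Lp ℝ 2 π, T u = u → ∃ a : ℝ, u =ᵐ[π] fun _ => a)
    (f g g' : Lp ℝ 2 π) (hg : f = sqrtOp T g)
    (hg' : f = sqrtOp (ContinuousLinearMap.adjoint T) g')
    (hL : ∫⁻ t in Set.Ioi (0 : ℝ), (π {x | t < |g x|}) ^ (1 / 2 : ℝ) ≠ ∞) (s : ℝ)
    (hs : Tendsto (fun n : ℕ => varSum T f n / n) atTop (𝓝 s)) (c : ℝ) :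
    Tendsto (fun N : ℕ => ∫ ω, eb f ζ (c / √(N : ℝ)) 0 N ω ∂P) atTop
      (𝓝 ((Real.exp (-(c ^ 2 * s / 2)) : ℝ) : ℂ)) := by
  obtain ⟨C, hC, hv⟩ := var_bound T h.norm_le f g g' hg hg'
  rw [Metric.tendsto_atTop]
  intro ε hε
  set K : ℝ := 1 + c ^ 2 * C ^ 2 / 2 with hK
  have hKpos : 0 < K := by positivity
  have hδ : 0 < ε / (4 * K) := by positivity
  obtain ⟨l0, hl0⟩ := Ff_small h f g g' hg hg' c hL (ε / (4 * K)) hδ
  have ht : Tendsto (fun l : ℕ => Real.exp (-(c ^ 2 * (varSum T f (2 ^ l) / 2 ^ l) / 2))) atTop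
      (𝓝 (Real.exp (-(c ^ 2 * s / 2)))) := by
    have h1 : Tendsto (fun l : ℕ => varSum T f (2 ^ l) / (2 : ℝ) ^ l) atTop (𝓝 s) := by
      have h2 := hs.comp (tendsto_pow_atTop_atTop_of_one_lt (r := 2) (by norm_num))
      refine h2.congr fun l => ?_
      simp [Function.comp]
    exact (Real.continuous_exp.tendsto _).comp (((h1.const_mul (c ^ 2)).div_const 2).neg)
  rw [Metric.tendsto_atTop] at ht
  obtain ⟨l1, hl1⟩ := ht (ε / 4) (by positivity)
  set l := max l0 l1 with hl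
  obtain ⟨N0, hN0⟩ := cf_core h herg f c l (ε / 4) (by positivity)
  obtain ⟨N1, hN1⟩ := hl0 l (le_max_left _ _)
  refine ⟨max N0 N1, fun N hN => ?_⟩
  have h3 := hN0 N ((le_max_left _ _).trans hN) (ε / (4 * K)) hδ.le
    (hN1 N ((le_max_right _ _).trans hN))
  have h4 := hl1 l (le_max_right _ _)
  rw [Real.dist_eq] at h4
  have h5 : varSum T f (2 ^ l) / 2 ^ l ≤ C ^ 2 := by
    rw [div_le_iff₀ (by positivity)]
    have := hv (2 ^ l)
    push_cast at this
    exact this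
  have h6 : (1 + c ^ 2 * (varSum T f (2 ^ l) / 2 ^ l) / 2) * (ε / (4 * K)) ≤ ε / 4 := by
    have h7 : 1 + c ^ 2 * (varSum T f (2 ^ l) / 2 ^ l) / 2 ≤ K := by
      rw [hK]
      have := mul_le_mul_of_nonneg_left h5 (sq_nonneg c)
      linarith
    calc (1 + c ^ 2 * (varSum T f (2 ^ l) / 2 ^ l) / 2) * (ε / (4 * K))
        ≤ K * (ε / (4 * K)) := by gcongr
      _ = ε / 4 := by field_simp
  rw [dist_eq_norm]
  have h8 : ‖((Real.exp (-(c ^ 2 * (varSum T f (2 ^ l) / 2 ^ l) / 2)) : ℝ) : ℂ) -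
      ((Real.exp (-(c ^ 2 * s / 2)) : ℝ) : ℂ)‖ < ε / 4 := by
    rw [← Complex.ofReal_sub, Complex.norm_real, Real.norm_eq_abs]
    exact h4
  calc ‖(∫ ω, eb f ζ (c / √(N : ℝ)) 0 N ω ∂P) - ((Real.exp (-(c ^ 2 * s / 2)) : ℝ) : ℂ)‖
      ≤ ‖(∫ ω, eb f ζ (c / √(N : ℝ)) 0 N ω ∂P) -
          ((Real.exp (-(c ^ 2 * (varSum T f (2 ^ l) / 2 ^ l) / 2)) : ℝ) : ℂ)‖ +
        ‖((Real.exp (-(c ^ 2 * (varSum T f (2 ^ l) / 2 ^ l) / 2)) : ℝ) : ℂ) -
          ((Real.exp (-(c ^ 2 * s / 2)) : ℝ) : ℂ)‖ := norm_sub_le_norm_sub_add_norm_sub _ _ _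
    _ < ε := by linarith

omit [IsProbabilityMeasure P] in
theorem a3_meas (hc : IsStationaryMarkovChain P ξ Q π) (f : Lp ℝ 2 π) (k : ℤ) :
    Measurable fun ω => f (ξ k ω) :=
  (Lp.stronglyMeasurable f).measurable.comp (hc.meas k)

omit [IsProbabilityMeasure P] in
theorem a3_measS (hc : IsStationaryMarkovChain P ξ Q π) (f : Lp ℝ 2 π) (n : ℕ) :
    Measurable fun ω => ∑ i ∈ Finset.Icc 1 n, f (ξ (i : ℕ) ω) :=
  Finset.measurable_sum _ fun i _ => a3_meas hc f i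

omit [IsProbabilityMeasure P] in
/-- the law of the sum in terms of the forward chain -/
theorem a3_sum_fwd (f : Lp ℝ 2 π) (n : ℕ) :
    (fun ω => ∑ i ∈ Finset.Icc 1 n, f (ξ (i : ℕ) ω)) = Sb f (fun n : ℕ => ξ (n : ℤ)) 1 n := by
  funext ω
  unfold Sb
  have e : Finset.Icc 1 n = Finset.Ico 1 (n + 1) := by
    ext i
    simp only [Finset.mem_Icc, Finset.mem_Ico]
    omega
  rw [e, Finset.sum_Ico_eq_sum_range]
  simp

omit [IsProbabilityMeasure P] in
/-- the law of the sum in terms of the backward chain -/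
theorem a3_law_bwd (hc : IsStationaryMarkovChain P ξ Q π) (f : Lp ℝ 2 π) (n : ℕ) :
    P.map (fun ω => ∑ i ∈ Finset.Icc 1 n, f (ξ (i : ℕ) ω)) =
      P.map (Sb f (fun n : ℕ => ξ (-(n : ℤ))) 0 n) := by
  have hf : Measurable (f : S → ℝ) := (Lp.stronglyMeasurable f).measurable
  let Φ : (ℤ → S) → ℝ := fun x => ∑ k ∈ Finset.range n, f (x (-(k : ℤ)))
  have hΦ : Measurable Φ :=
    Finset.measurable_sum _ fun k _ => hf.comp (measurable_pi_apply _)
  have h1 := congrArg (Measure.map Φ) (hc.stat (n : ℤ))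
  rw [Measure.map_map hΦ (measurable_pi_lambda _ fun m => hc.meas _),
    Measure.map_map hΦ (measurable_pi_lambda _ fun m => hc.meas _)] at h1
  have e1 : (Φ ∘ fun ω (m : ℤ) => ξ (m + (n : ℤ)) ω) =
      fun ω => ∑ i ∈ Finset.Icc 1 n, f (ξ (i : ℕ) ω) := by
    funext ω
    simp only [Φ, Function.comp]
    refine Finset.sum_nbij' (fun k => n - k) (fun i => n - i) ?_ ?_ ?_ ?_ ?_
    · intro k hk
      simp only [Finset.mem_range, Finset.mem_Icc] at *
      omega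
    · intro i hi
      simp only [Finset.mem_range, Finset.mem_Icc] at *
      omega
    · intro k hk
      simp only [Finset.mem_range] at *
      omega
    · intro i hi
      simp only [Finset.mem_Icc] at *
      omega
    · intro k hk
      simp only [Finset.mem_range] at hk
      congr 2
      push_cast [Nat.cast_sub hk.le]
      ring
  have e2 : (Φ ∘ fun ω (m : ℤ) => ξ m ω) = Sb f (fun n : ℕ => ξ (-(n : ℤ))) 0 n := by
    funext ω
    simp [Φ, Sb]
  rw [e1, e2] at h1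
  exact h1

/-- Lévy continuity -/
theorem a3_levy (X : ℕ → Ω → ℝ) (hX : ∀ n, Measurable (X n)) {ζ : ℕ → Ω → S}
    (hζ : ∀ n, Measurable (ζ n)) (f : Lp ℝ 2 π)
    (hlaw : ∀ n, P.map (X n) = P.map (Sb f ζ 0 n)) (s : ℝ≥0)
    (hcf : ∀ c : ℝ, Tendsto (fun N : ℕ => ∫ ω, eb f ζ (c / √(N : ℝ)) 0 N ω ∂P) atTop
      (𝓝 ((Real.exp (-(c ^ 2 * (s : ℝ) / 2)) : ℝ) : ℂ))) (φ : BoundedContinuousFunction ℝ ℝ) :
    Tendsto (fun n : ℕ => ∫ ω, φ (X n ω / √(n : ℝ)) ∂P)
          atTop (𝓝 (∫ x, φ x ∂(gaussianReal 0 s))) := by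
  have hf : Measurable (f : S → ℝ) := (Lp.stronglyMeasurable f).measurable
  have hSm : ∀ n, Measurable (Sb f ζ 0 n) := fun n =>
    Finset.measurable_sum _ fun k _ => hf.comp (hζ _)
  have hXm : ∀ n : ℕ, Measurable fun ω => X n ω / √(n : ℝ) := fun n => (hX n).div_const _
  let μ : ℕ → ProbabilityMeasure ℝ := fun n =>
    ⟨P.map (fun ω => X n ω / √(n : ℝ)), Measure.isProbabilityMeasure_map (hXm n).aemeasurable⟩
  let μ₀ : ProbabilityMeasure ℝ := ⟨gaussianReal 0 s, inferInstance⟩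
  have hmap : ∀ n : ℕ, P.map (fun ω => X n ω / √(n : ℝ)) =
      P.map (fun ω => Sb f ζ 0 n ω / √(n : ℝ)) := by
    intro n
    have hd : Measurable fun x : ℝ => x / √(n : ℝ) := measurable_id.div_const _
    have h1 := congrArg (Measure.map fun x : ℝ => x / √(n : ℝ)) (hlaw n)
    rw [Measure.map_map hd (hX n), Measure.map_map hd (hSm n)] at h1
    exact h1
  have hconv : Tendsto μ atTop (𝓝 μ₀) := by
    refine ProbabilityMeasure.tendsto_of_tendsto_charFun fun c => ?_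
    have h0 : charFun (μ₀ : Measure ℝ) c = ((Real.exp (-(c ^ 2 * (s : ℝ) / 2)) : ℝ) : ℂ) := by
      show charFun (gaussianReal 0 s) c = _
      rw [charFun_gaussianReal]
      push_cast
      congr 1
      ring
    rw [h0]
    refine (hcf c).congr fun N => ?_
    show _ = charFun (P.map (fun ω => X N ω / √(N : ℝ))) c
    rw [hmap N, charFun_apply_real, integral_map]
    · refine integral_congr_ae (Eventually.of_forall fun ω => ?_)
      simp only [eb]
      congr 1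
      push_cast
      ring
    · exact ((hSm N).div_const _).aemeasurable
    · exact (by fun_prop : Continuous fun x : ℝ => Complex.exp ((c : ℂ) * x * Complex.I)).aestronglyMeasurable
  have h2 := (ProbabilityMeasure.tendsto_iff_forall_integral_tendsto.1 hconv) φ
  refine h2.congr fun n => ?_
  show ∫ x, φ x ∂(P.map (fun ω => X n ω / √(n : ℝ))) = _
  rw [integral_map (hXm n).aemeasurable φ.continuous.aestronglyMeasurable]

theorem result_lorentz (hc : IsStationaryMarkovChain P ξ Q π) (hT : IsMarkovOperator Q π T)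
    (herg : ∀ u : Lp ℝ 2 π, T u = u → ∃ a : ℝ, u =ᵐ[π] fun _ => a)
    (f g g' : Lp ℝ 2 π) (hg : f = sqrtOp T g)
    (hg' : f = sqrtOp (ContinuousLinearMap.adjoint T) g')
    (hL : ∫⁻ t in Set.Ioi (0 : ℝ), (π {x | t < |g x|}) ^ (1 / 2 : ℝ) ≠ ∞ ∨
      ∫⁻ t in Set.Ioi (0 : ℝ), (π {x | t < |g' x|}) ^ (1 / 2 : ℝ) ≠ ∞) :
    ∃ σ2 : ℝ≥0,
      Tendsto (fun n : ℕ => (∫ ω, (∑ i ∈ Finset.Icc 1 n, f (ξ (i : ℕ) ω)) ^ 2 ∂P) / n) atTop
        (𝓝 (σ2 : ℝ)) ∧
      ∀ φ : BoundedContinuousFunction ℝ ℝ,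
        Tendsto (fun n : ℕ => ∫ ω, φ ((∑ i ∈ Finset.Icc 1 n, f (ξ (i : ℕ) ω)) / √(n : ℝ)) ∂P)
          atTop (𝓝 (∫ x, φ x ∂(gaussianReal 0 σ2))) := by
  have h := setup_of_chain hc hT
  have h' := setup_of_chain_rev hc hT
  obtain ⟨s, hs⟩ := var_lim T h.norm_le f g g' hg hg'
  have hS : ∀ n : ℕ, ∫ ω, (∑ i ∈ Finset.Icc 1 n, f (ξ (i : ℕ) ω)) ^ 2 ∂P = varSum T f n := by
    intro n
    rw [← Sb_sq h f 1 n]
    refine integral_congr_ae (Eventually.of_forall fun ω => ?_)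
    have := congrFun (a3_sum_fwd (ξ := ξ) f n) ω
    simp only at this ⊢
    rw [this]
  have hs0 : 0 ≤ s := by
    refine ge_of_tendsto' hs fun n => ?_
    rw [← hS n]
    have : 0 ≤ ∫ ω, (∑ i ∈ Finset.Icc 1 n, f (ξ (i : ℕ) ω)) ^ 2 ∂P :=
      integral_nonneg fun ω => sq_nonneg _
    positivity
  lift s to ℝ≥0 using hs0
  refine ⟨s, ?_, fun φ => ?_⟩
  · refine hs.congr fun n => ?_
    rw [hS n]
  · rcases hL with hL | hL
    · refine a3_levy (ζ := fun n : ℕ => ξ (n : ℤ))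
        (fun n ω => ∑ i ∈ Finset.Icc 1 n, f (ξ (i : ℕ) ω)) (a3_measS hc f) (fun n => hc.meas _) f
        (fun n => ?_) s (fun c => a3_cf h herg f g g' hg hg' hL s hs c) φ
      have := Sb_law h f 1 n
      rw [← this, ← a3_sum_fwd]
    · have hv : ∀ n, varSum (ContinuousLinearMap.adjoint T) f n = varSum T f n := by
        intro n
        rw [← Sb_sq h' f 0 n, ← hS n]
        have hb := a3_law_bwd hc f n
        have hm1 := a3_measS hc f n
        have hf : Measurable (f : S → ℝ) := (Lp.stronglyMeasurable f).measurable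
        have hm2 : Measurable (Sb f (fun n : ℕ => ξ (-(n : ℤ))) 0 n) :=
          Finset.measurable_sum _ fun k _ => hf.comp (hc.meas _)
        have e1 := integral_map (μ := P) hm1.aemeasurable
          (f := fun x : ℝ => x ^ 2) (by fun_prop : Continuous fun x : ℝ => x ^ 2).aestronglyMeasurable
        have e2 := integral_map (μ := P) hm2.aemeasurable
          (f := fun x : ℝ => x ^ 2) (by fun_prop : Continuous fun x : ℝ => x ^ 2).aestronglyMeasurable
        rw [← e1, ← e2, hb]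
      refine a3_levy (ζ := fun n : ℕ => ξ (-(n : ℤ)))
        (fun n ω => ∑ i ∈ Finset.Icc 1 n, f (ξ (i : ℕ) ω)) (a3_measS hc f) (fun n => hc.meas _) f
        (fun n => a3_law_bwd hc f n) s (fun c => ?_) φ
      refine a3_cf h' ?_ f g' g hg' ?_ hL s ?_ c
      · intro u hu
        exact herg u (a3_fixed T h.norm_le u hu)
      · rw [ContinuousLinearMap.adjoint_adjoint]
        exact hg
      · simp only [hv]
        exact hs

end chainA3

end TwoSidedCLT
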