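import Pool.Agent.H374e.Defs

open MeasureTheory ProbabilityTheory Filter Topology
open scoped ENNReal NNReal InnerProductSpace

set_option linter.unusedVariables false
set_option warn.classDefReducibility false

namespace TwoSidedCLT

section pathB12b

variable {Ω S : Type*} [mΩ : MeasurableSpace Ω] [mS : MeasurableSpace S]
  {P : Measure Ω} [IsProbabilityMeasure P] {π : Measure S} {ξ : ℕ → Ω → S}
  {T : Lp ℝ 2 π →L[ℝ] Lp ℝ 2 π}

theorem b12b_sqrt_pow (J : ℕ) : √((2 : ℝ) ^ J) = (√2) ^ J := by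
  rw [← Real.sqrt_sq (by positivity : (0:ℝ) ≤ (√2) ^ J)]
  congr 1
  rw [← pow_mul, mul_comm, pow_mul, Real.sq_sqrt (by norm_num)]

theorem b12b_geo (z : ℝ) (hz : 0 ≤ z) (N : ℕ) :
    ∑ J ∈ Finset.range N, (if (√2) ^ J < z then (√2) ^ J else 0) ≤ (2 + √2) * z := by
  have h2 : (√2) * (√2) = 2 := Real.mul_self_sqrt (by norm_num)
  have h1 : 1 < √2 := by
    rw [show (1:ℝ) = √1 by simp]
    exact Real.sqrt_lt_sqrt (by norm_num) (by norm_num)
  induction N with
  | zero => simp; positivity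
  | succ N ih =>
    by_cases h : (√2) ^ N < z
    · have hle : ∑ J ∈ Finset.range (N + 1), (if (√2) ^ J < z then (√2) ^ J else 0)
          ≤ ∑ J ∈ Finset.range (N + 1), (√2) ^ J := by
        apply Finset.sum_le_sum
        intro J _
        split_ifs
        · exact le_rfl
        · positivity
      have hg := geom_sum_mul (√2) (N + 1)
      have hp : (√2) ^ (N + 1) = √2 * (√2) ^ N := by ring
      have h3 : √2 * (√2) ^ N ≤ √2 * z := mul_le_mul_of_nonneg_left h.le (by positivity)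
      have h4 : (∑ J ∈ Finset.range (N + 1), (√2) ^ J) * (√2 - 1) ≤ ((2 + √2) * z) * (√2 - 1) := by
        rw [hg, hp]
        nlinarith
      have h5 := le_of_mul_le_mul_right h4 (by linarith)
      linarith
    · rw [Finset.sum_range_succ, if_neg h, add_zero]
      exact ih

theorem b12b_key (μ : Measure S) [IsProbabilityMeasure μ] (u : Lp ℝ 2 μ) (R : ℕ) (hR : 1 ≤ R)
    (τ : ℝ) (hτ : 0 < τ) :
    ∑ J ∈ Finset.Ico R (2 * R), √((2 : ℝ) ^ (J + 1)) *
        (∫ x in {x | τ * √((2 : ℝ) ^ J) / R < |u x|}, |u x| ∂μ)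
      ≤ 10 * R / τ * ‖u‖ ^ 2 := by
  have hR0 : (0:ℝ) < R := by exact_mod_cast hR
  have hm : Measurable (fun x => |u x|) := by
    have := (Lp.stronglyMeasurable u).measurable
    exact this.abs
  have hi : Integrable (fun x => |u x|) μ := ((Lp.memLp u).integrable one_le_two).abs
  have hi2 : Integrable (fun x => (u x) ^ 2) μ := (Lp.memLp u).integrable_sq
  have hA : ∀ J : ℕ, MeasurableSet {x | τ * √((2 : ℝ) ^ J) / R < |u x|} := fun J =>
    measurableSet_lt measurable_const hm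
  have e1 : ∀ J : ℕ, √((2 : ℝ) ^ (J + 1)) *
      (∫ x in {x | τ * √((2 : ℝ) ^ J) / R < |u x|}, |u x| ∂μ) =
      ∫ x, √((2 : ℝ) ^ (J + 1)) *
        ({x | τ * √((2 : ℝ) ^ J) / R < |u x|}.indicator (fun x => |u x|) x) ∂μ := by
    intro J
    rw [integral_const_mul, integral_indicator (hA J)]
  rw [Finset.sum_congr rfl (fun J _ => e1 J), ← integral_finsetSum _ (fun J _ =>
    ((hi.indicator (hA J)).const_mul _))]
  have hnorm : ‖u‖ ^ 2 = ∫ x, (u x) ^ 2 ∂μ := by
    rw [← real_inner_self_eq_norm_sq, L2.inner_def]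
    congr 1
    funext x
    simp [sq]
  rw [hnorm, ← integral_const_mul]
  apply integral_mono
  · exact integrable_finsetSum _ (fun J _ => ((hi.indicator (hA J)).const_mul _))
  · exact hi2.const_mul _
  · intro x
    show ∑ J ∈ Finset.Ico R (2 * R), √((2 : ℝ) ^ (J + 1)) *
        ({x | τ * √((2 : ℝ) ^ J) / R < |u x|}.indicator (fun x => |u x|) x) ≤
        10 * R / τ * (u x) ^ 2
    set y := |u x| with hy
    have hy0 : 0 ≤ y := abs_nonneg _
    set z := y * R / τ with hz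
    have hz0 : 0 ≤ z := by positivity
    have hgeo := b12b_geo z hz0 (2 * R)
    have hs2 : √2 ≤ 2 := by
      rw [Real.sqrt_le_left (by norm_num)]; norm_num
    have hs0 : 0 ≤ √2 := Real.sqrt_nonneg 2
    have h2 : (√2) * (√2) = 2 := Real.mul_self_sqrt (by norm_num)
    have hterm : ∀ J ∈ Finset.Ico R (2 * R), √((2 : ℝ) ^ (J + 1)) *
        ({x | τ * √((2 : ℝ) ^ J) / R < |u x|}.indicator (fun x => |u x|) x) =
        (√2 * y) * (if (√2) ^ J < z then (√2) ^ J else 0) := by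
      intro J _
      have hiff : τ * √((2 : ℝ) ^ J) / R < y ↔ (√2) ^ J < z := by
        rw [b12b_sqrt_pow, hz, div_lt_iff₀ hR0, lt_div_iff₀ hτ, mul_comm τ]
      have hp : √((2 : ℝ) ^ (J + 1)) = √2 * (√2) ^ J := by rw [b12b_sqrt_pow]; ring
      rw [hp]
      by_cases h : (√2) ^ J < z
      · rw [if_pos h, Set.indicator_of_mem (by exact hiff.2 h)]
        ring
      · rw [if_neg h, Set.indicator_of_notMem (by
          intro hh; exact h (hiff.1 hh))]
        ring
    rw [Finset.sum_congr rfl hterm, ← Finset.mul_sum]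
    have hsub : ∑ J ∈ Finset.Ico R (2 * R), (if (√2) ^ J < z then (√2) ^ J else 0) ≤
        ∑ J ∈ Finset.range (2 * R), (if (√2) ^ J < z then (√2) ^ J else 0) := by
      apply Finset.sum_le_sum_of_subset_of_nonneg
      · intro J hJ
        rw [Finset.mem_Ico] at hJ
        exact Finset.mem_range.2 hJ.2
      · intro J _ _
        split_ifs
        · positivity
        · exact le_rfl
    have h5 : (√2 * y) * (∑ J ∈ Finset.Ico R (2 * R), (if (√2) ^ J < z then (√2) ^ J else 0))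
        ≤ (√2 * y) * ((2 + √2) * z) :=
      mul_le_mul_of_nonneg_left (hsub.trans hgeo) (by positivity)
    refine h5.trans ?_
    have h6 : (√2 * y) * ((2 + √2) * z) = (2 * √2 + 2) * (y * z) := by
      linear_combination (y * z) * h2
    have h7 : y * z = R / τ * (u x) ^ 2 := by
      rw [hz, ← sq_abs (u x), ← hy]; ring
    rw [h6, h7]
    have h8 : 0 ≤ R / τ * (u x) ^ 2 := by positivity
    have h9 : (2 * √2 + 2) * (R / τ * (u x) ^ 2) ≤ 10 * (R / τ * (u x) ^ 2) :=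
      mul_le_mul_of_nonneg_right (by linarith) h8
    calc (2 * √2 + 2) * (R / τ * (u x) ^ 2) ≤ 10 * (R / τ * (u x) ^ 2) := h9
      _ = 10 * R / τ * (u x) ^ 2 := by ring

/-- averaging over the horizon exponent -/
theorem avg_big (μ : Measure S) [IsProbabilityMeasure μ] (u : ℕ → Lp ℝ 2 μ) (l R : ℕ) (hR : 1 ≤ R)
    (τ : ℝ) (hτ : 0 < τ) :
    ∑ J ∈ Finset.Ico R (2 * R), √((2 : ℝ) ^ (J + 1)) * ∑ j ∈ Finset.Ico l (J + 1),
        (∫ x in {x | τ * √((2 : ℝ) ^ J) / R < |(u j) x|}, |(u j) x| ∂μ) / 2 ^ j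
      ≤ 10 * R / τ * ∑ j ∈ Finset.Ico l (2 * R), ‖u j‖ ^ 2 / 2 ^ j := by
  have h1 : ∑ J ∈ Finset.Ico R (2 * R), √((2 : ℝ) ^ (J + 1)) * ∑ j ∈ Finset.Ico l (J + 1),
        (∫ x in {x | τ * √((2 : ℝ) ^ J) / R < |(u j) x|}, |(u j) x| ∂μ) / 2 ^ j
      ≤ ∑ J ∈ Finset.Ico R (2 * R), ∑ j ∈ Finset.Ico l (2 * R), √((2 : ℝ) ^ (J + 1)) *
        (∫ x in {x | τ * √((2 : ℝ) ^ J) / R < |(u j) x|}, |(u j) x| ∂μ) / 2 ^ j := by
    apply Finset.sum_le_sum
    intro J hJ
    rw [Finset.mem_Ico] at hJ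
    rw [Finset.mul_sum]
    have hsub : ∑ j ∈ Finset.Ico l (J + 1), √((2 : ℝ) ^ (J + 1)) *
        ((∫ x in {x | τ * √((2 : ℝ) ^ J) / R < |(u j) x|}, |(u j) x| ∂μ) / 2 ^ j) ≤
        ∑ j ∈ Finset.Ico l (2 * R), √((2 : ℝ) ^ (J + 1)) *
        ((∫ x in {x | τ * √((2 : ℝ) ^ J) / R < |(u j) x|}, |(u j) x| ∂μ) / 2 ^ j) := by
      apply Finset.sum_le_sum_of_subset_of_nonneg
      · exact Finset.Ico_subset_Ico le_rfl (by omega)
      · intro j _ _
        have : 0 ≤ ∫ x in {x | τ * √((2 : ℝ) ^ J) / R < |(u j) x|}, |(u j) x| ∂μ :=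
          integral_nonneg (fun x => abs_nonneg _)
        positivity
    refine hsub.trans (le_of_eq ?_)
    apply Finset.sum_congr rfl
    intro j _
    ring
  refine h1.trans ?_
  rw [Finset.sum_comm, Finset.mul_sum]
  apply Finset.sum_le_sum
  intro j _
  rw [← Finset.sum_div]
  have h2 := b12b_key μ (u j) R hR τ hτ
  have h3 : 10 * (R:ℝ) / τ * (‖u j‖ ^ 2 / 2 ^ j) = (10 * R / τ * ‖u j‖ ^ 2) / 2 ^ j := by ring
  rw [h3]
  exact div_le_div_of_nonneg_right h2 (by positivity)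

end pathB12b

end TwoSidedCLT
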