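import Pool.Agent.H374e.Defs
import Pool.Agent.H374e.CB12b
import Pool.Agent.H374e.CB13
import Pool.Agent.H374e.CB5a
import Pool.Agent.H374e.CB5b
import Pool.Agent.H374e.CB6a
import Pool.Agent.H374e.CB7c
import Pool.Agent.H374e.CB9b

open MeasureTheory ProbabilityTheory Filter Topology
open scoped ENNReal NNReal InnerProductSpace

set_option linter.unusedVariables false
set_option warn.classDefReducibility false

namespace TwoSidedCLT

theorem b14_tail (a : ℕ → ℝ) (ha0 : ∀ j, 0 ≤ a j) (ha : Summable a) :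
    ∃ α : ℕ → ℝ, (∀ l, 0 ≤ α l) ∧ (∀ l n, ∑ j ∈ Finset.Ico l n, a j ≤ α l) ∧
      (∀ l j, l ≤ j → a j ≤ α l) ∧ Tendsto α atTop (𝓝 0) := by
  refine ⟨fun l => ∑' k, a (k + l), fun l => tsum_nonneg fun k => ha0 _, fun l n => ?_,
    fun l j hj => ?_, tendsto_sum_nat_add a⟩
  · rw [Finset.sum_Ico_eq_sum_range]
    have hs : Summable fun k => a (k + l) := (summable_nat_add_iff l).2 ha
    calc _ = ∑ k ∈ Finset.range (n - l), a (k + l) :=
          Finset.sum_congr rfl fun k _ => by rw [add_comm]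
      _ ≤ _ := hs.sum_le_tsum _ fun k _ => ha0 _
  · have hs : Summable fun k => a (k + l) := (summable_nat_add_iff l).2 ha
    have := hs.le_tsum (j - l) fun k _ => ha0 _
    have e : j - l + l = j := by omega
    rwa [e] at this

section pathB14

variable {Ω S : Type*} [mΩ : MeasurableSpace Ω] [mS : MeasurableSpace S]
  {P : Measure Ω} [IsProbabilityMeasure P] {π : Measure S} {ξ : ℕ → Ω → S}
  {T : Lp ℝ 2 π →L[ℝ] Lp ℝ 2 π}

set_option maxHeartbeats 2000000 in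
/-- the averaged characteristic function estimate -/
theorem cf_avg (h : Setup P π ξ T)
    (herg : ∀ u : Lp ℝ 2 π, T u = u → ∃ a : ℝ, u =ᵐ[π] fun _ => a)
    (f g g' : Lp ℝ 2 π) (hg : f = sqrtOp T g)
    (hg' : f = sqrtOp (ContinuousLinearMap.adjoint T) g') (s : ℝ)
    (hs : Tendsto (fun n : ℕ => varSum T f n / n) atTop (𝓝 s)) (c : ℝ) :
    ∃ e : ℕ → ℝ, (∀ J, 0 ≤ e J) ∧ (∀ J, e J ≤ 2) ∧
      (∀ J N : ℕ, 2 ^ J ≤ N → N < 2 ^ (J + 1) →
        ‖(∫ ω, eb f ξ (c / √(N : ℝ)) 0 N ω ∂P) - ((Real.exp (-(c ^ 2 * s / 2)) : ℝ) : ℂ)‖ ≤ e J) ∧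
      Tendsto (fun R : ℕ => (∑ J ∈ Finset.Ico R (2 * R), e J) / R) atTop (𝓝 0) := by
  have hT := h.norm_le
  haveI := h.prob
  obtain ⟨C0, hC0, hvar⟩ := var_bound T hT f g g' hg hg'
  have haS := summable_Mn T hT g
  rw [← hg] at haS
  have hbS := summable_Nn T hT g'
  rw [← hg'] at hbS
  obtain ⟨α, hα0, hαs, hαj, hαl⟩ := b14_tail _ (fun j => by positivity) haS
  obtain ⟨β, hβ0, hβs, hβj, hβl⟩ := b14_tail _ (fun j => by positivity) hbS
  have hV0 : ∀ n, 0 ≤ varSum T f n := fun n => by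
    rw [← Sb_sq h f 0 n]; exact integral_nonneg fun ω => sq_nonneg _
  have hs0 : 0 ≤ s := ge_of_tendsto' hs fun n => div_nonneg (hV0 n) (Nat.cast_nonneg n)
  set φ : ℕ → ℂ := fun N => ∫ ω, eb f ξ (c / √(N : ℝ)) 0 N ω ∂P with hφ
  set E : ℂ := ((Real.exp (-(c ^ 2 * s / 2)) : ℝ) : ℂ) with hE
  have hφ1 : ∀ N, ‖φ N‖ ≤ 1 := by
    intro N
    have := norm_integral_le_of_norm_le_const (μ := P) (f := eb f ξ (c / √(N : ℝ)) 0 N) (C := 1)
      (Filter.Eventually.of_forall fun ω => by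
        unfold eb; rw [Complex.norm_exp_ofReal_mul_I])
    simpa using this
  have hE1 : ‖E‖ ≤ 1 := by
    rw [hE, Complex.norm_real, Real.norm_eq_abs, abs_of_pos (Real.exp_pos _)]
    rw [Real.exp_le_one_iff]
    have : 0 ≤ c ^ 2 * s / 2 := by positivity
    linarith
  have hne : ∀ J : ℕ, (Finset.Ico (2 ^ J) (2 ^ (J + 1))).Nonempty := fun J =>
    ⟨2 ^ J, Finset.mem_Ico.mpr ⟨le_rfl, Nat.pow_lt_pow_right (by norm_num) (by omega)⟩⟩
  set e : ℕ → ℝ := fun J => (Finset.Ico (2 ^ J) (2 ^ (J + 1))).sup' (hne J) fun N => ‖φ N - E‖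
    with he
  have hele : ∀ J N : ℕ, 2 ^ J ≤ N → N < 2 ^ (J + 1) → ‖φ N - E‖ ≤ e J := fun J N h1 h2 =>
    Finset.le_sup' (fun N => ‖φ N - E‖) (Finset.mem_Ico.mpr ⟨h1, h2⟩)
  have he0 : ∀ J, 0 ≤ e J := fun J =>
    (norm_nonneg _).trans (hele J (2 ^ J) le_rfl (Nat.pow_lt_pow_right (by norm_num) (by omega)))
  have he2 : ∀ J, e J ≤ 2 := fun J => Finset.sup'_le _ _ fun N _ => by
    calc ‖φ N - E‖ ≤ ‖φ N‖ + ‖E‖ := norm_sub_le _ _
      _ ≤ 2 := by linarith [hφ1 N]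
  refine ⟨e, he0, he2, hele, ?_⟩
  -- constants
  set Γ : ℝ := 1 + c ^ 2 * C0 ^ 2 / 2 with hΓ
  have hΓ1 : 1 ≤ Γ := by
    have : 0 ≤ c ^ 2 * C0 ^ 2 / 2 := by positivity
    linarith
  set K0 : ℝ := |c| ^ 3 / 4 * C0 ^ 2 + c ^ 2 / 2 * C0 with hK0
  have hK00 : 0 ≤ K0 := by positivity
  set τ : ℕ → ℝ := fun l => √(α l) + 1 / ((l : ℝ) + 1) with hτ
  have hτ0 : ∀ l, 0 < τ l := fun l => by positivity
  have hsα : Tendsto (fun l => √(α l)) atTop (𝓝 0) := by
    have := hαl.sqrt; simpa using this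
  have hτl : Tendsto τ atTop (𝓝 0) := by
    have := hsα.add tendsto_one_div_add_atTop_nhds_zero_nat; simpa [hτ] using this
  have hbr : Tendsto (fun l => Γ * (10 * |c| * √(α l) + c ^ 2 / 4 * (α l + β l) + 2 * K0 * τ l
      + |c| * (10 * √(α l)))) atTop (𝓝 0) := by
    have h1 := (hsα.const_mul (10 * |c|)).add ((hαl.add hβl).const_mul (c ^ 2 / 4))
    have h2 := (h1.add (hτl.const_mul (2 * K0))).add ((hsα.const_mul 10).const_mul |c|)
    have h3 := h2.const_mul Γ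
    simpa using h3
  have hsl : Tendsto (fun l : ℕ => varSum T f (2 ^ l) / 2 ^ l) atTop (𝓝 s) := by
    have h1 : Tendsto (fun l : ℕ => 2 ^ l) atTop (atTop : Filter ℕ) :=
      tendsto_pow_atTop_atTop_of_one_lt (by norm_num)
    have h2 := hs.comp h1
    refine h2.congr fun l => ?_
    simp
  have hexp : Tendsto (fun l : ℕ => Real.exp (-(c ^ 2 * (varSum T f (2 ^ l) / 2 ^ l) / 2))) atTop
      (𝓝 (Real.exp (-(c ^ 2 * s / 2)))) := by
    refine (Real.continuous_exp.tendsto _).comp ?_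
    exact ((hsl.const_mul (c ^ 2)).div_const 2).neg
  rw [Metric.tendsto_atTop]
  intro ε hε
  have hev1 := (hbr.eventually (gt_mem_nhds (show (0 : ℝ) < ε / 4 by positivity)))
  have hev2 := (Metric.tendsto_nhds.mp hexp) (ε / 4) (by positivity)
  obtain ⟨l, hl1, hl2⟩ := (hev1.and hev2).exists
  obtain ⟨N0, hN0⟩ := cf_core h herg f c l (ε / 4) (by positivity)
  refine ⟨max (max l N0) 1, fun R hR => ?_⟩
  have hRl : l ≤ R := (le_max_left _ _).trans ((le_max_left _ _).trans hR)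
  have hRN : N0 ≤ R := (le_max_right _ _).trans ((le_max_left _ _).trans hR)
  have hR1 : 1 ≤ R := (le_max_right _ _).trans hR
  have hR0 : (0 : ℝ) < R := by exact_mod_cast hR1
  -- bound of e J
  set w : ℕ → ℝ := fun J => √((2 : ℝ) ^ (J + 1)) * ∑ j ∈ Finset.Ico l (J + 1),
    (∫ x in {x | τ l * √((2 : ℝ) ^ J) / R < |(Mn T f (2 ^ j)) x|}, |(Mn T f (2 ^ j)) x| ∂π) / 2 ^ j
    with hw
  set D : ℝ := 10 * |c| * √(α l) + c ^ 2 / 4 * (α l + β l) + 2 * K0 * τ l with hD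
  have hW0 : ∀ (B : ℝ) (j : ℕ), 0 ≤ ∫ x in {x | B < |(Mn T f (2 ^ j)) x|}, |(Mn T f (2 ^ j)) x| ∂π :=
    fun B j => setIntegral_nonneg_of_ae_restrict (Filter.Eventually.of_forall fun x => abs_nonneg _)
  have hw0 : ∀ J, 0 ≤ w J := fun J => by
    refine mul_nonneg (Real.sqrt_nonneg _) (Finset.sum_nonneg fun j _ => ?_)
    exact div_nonneg (hW0 _ j) (by positivity)
  have hD0 : 0 ≤ D := by
    have := hα0 l
    have := hβ0 l
    have := (hτ0 l).le
    positivity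
  have hsl0 : varSum T f (2 ^ l) / 2 ^ l ≤ C0 ^ 2 := by
    have := hvar (2 ^ l)
    rw [div_le_iff₀ (by positivity)]
    push_cast at this
    exact this
  have hAl : ∀ j, l ≤ j → ‖Mn T f (2 ^ j)‖ ≤ √(α l) * √((2 : ℝ) ^ j) := by
    intro j hj
    have h1 := hαj l j hj
    rw [← Real.sqrt_mul (hα0 l)]
    refine Real.le_sqrt_of_sq_le ?_
    rwa [div_le_iff₀ (by positivity)] at h1
  have hkey : ∀ J ∈ Finset.Ico R (2 * R), e J ≤ Γ * D + Γ * |c| * w J + ε / 2 := by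
    intro J hJ
    rw [Finset.mem_Ico] at hJ
    refine Finset.sup'_le _ _ fun N hN => ?_
    rw [Finset.mem_Ico] at hN
    have hN1 : 1 ≤ N := Nat.one_le_two_pow.trans hN.1
    have hNpos : (0 : ℝ) < N := by exact_mod_cast hN1
    have hsN : 0 < √(N : ℝ) := Real.sqrt_pos.mpr hNpos
    have hNN0 : N0 ≤ N := by
      have h1 : J < 2 ^ J := Nat.lt_two_pow_self
      omega
    have h2J : 0 < √((2 : ℝ) ^ J) := Real.sqrt_pos.mpr (by positivity)
    set B : ℝ := τ l * √((2 : ℝ) ^ J) / R with hB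
    have hB0 : 0 < B := by
      have := hτ0 l
      positivity
    have hδ : ∀ t ≤ N, |c| / √(N : ℝ) * ‖Ff P T f ξ (c / √(N : ℝ)) t (2 ^ l)‖ ≤ D + |c| * w J := by
      intro t ht
      have hF := Ff_bound h f C0 hC0 hvar c l J (hRl.trans hJ.1) (√(α l)) hAl N hN.1 hN.2 t ht B hB0
      have h1 : ∑ j ∈ Finset.Ico l (J + 1), ‖Nn T f (2 ^ j)‖ * ‖Mn T f (2 ^ j)‖ / 2 ^ j
          ≤ (α l + β l) / 2 := by
        calc _ ≤ ∑ j ∈ Finset.Ico l (J + 1), (‖Mn T f (2 ^ j)‖ ^ 2 / 2 ^ j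
              + ‖Nn T f (2 ^ j)‖ ^ 2 / 2 ^ j) / 2 := by
              refine Finset.sum_le_sum fun j _ => ?_
              rw [← add_div, div_div, div_le_div_iff₀ (by positivity) (by positivity)]
              have := sq_nonneg (‖Nn T f (2 ^ j)‖ - ‖Mn T f (2 ^ j)‖)
              have h2 : (0 : ℝ) < 2 ^ j := by positivity
              nlinarith
          _ = (∑ j ∈ Finset.Ico l (J + 1), ‖Mn T f (2 ^ j)‖ ^ 2 / 2 ^ j
              + ∑ j ∈ Finset.Ico l (J + 1), ‖Nn T f (2 ^ j)‖ ^ 2 / 2 ^ j) / 2 := by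
              rw [← Finset.sum_add_distrib, Finset.sum_div]
          _ ≤ _ := by
              have := hαs l (J + 1)
              have := hβs l (J + 1)
              linarith
      have h2 : ((J : ℝ) + 1) * K0 * (B / √(N : ℝ)) ≤ 2 * K0 * τ l := by
        have hJ2 : (J : ℝ) + 1 ≤ 2 * R := by exact_mod_cast (by omega : J + 1 ≤ 2 * R)
        have hBN : B / √(N : ℝ) ≤ τ l / R := by
          rw [hB, div_div, div_le_div_iff₀ (by positivity) hR0]
          have : √((2 : ℝ) ^ J) ≤ √(N : ℝ) := Real.sqrt_le_sqrt (by exact_mod_cast hN.1)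
          have h3 := (hτ0 l).le
          calc τ l * √((2 : ℝ) ^ J) * R ≤ τ l * √(N : ℝ) * R := by gcongr
            _ = τ l * (R * √(N : ℝ)) := by ring
        have hBN0 : 0 ≤ B / √(N : ℝ) := by positivity
        calc ((J : ℝ) + 1) * K0 * (B / √(N : ℝ)) ≤ (2 * R) * K0 * (τ l / R) := by gcongr
          _ = 2 * K0 * τ l := by field_simp
      have h3 : |c| * √(N : ℝ) * ∑ j ∈ Finset.Ico l (J + 1),
            (∫ x in {x | B < |(Mn T f (2 ^ j)) x|}, |(Mn T f (2 ^ j)) x| ∂π) / 2 ^ j ≤ |c| * w J := by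
        rw [hw, mul_assoc]
        refine mul_le_mul_of_nonneg_left ?_ (abs_nonneg c)
        refine mul_le_mul_of_nonneg_right ?_ (Finset.sum_nonneg fun j _ => ?_)
        · refine Real.sqrt_le_sqrt ?_
          exact_mod_cast hN.2.le
        · exact div_nonneg (hW0 _ j) (by positivity)
      have h4 : c ^ 2 / 2 * ∑ j ∈ Finset.Ico l (J + 1), ‖Nn T f (2 ^ j)‖ * ‖Mn T f (2 ^ j)‖ / 2 ^ j
          ≤ c ^ 2 / 4 * (α l + β l) := by
        calc _ ≤ c ^ 2 / 2 * ((α l + β l) / 2) := by gcongr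
          _ = _ := by ring
      calc _ ≤ _ := hF
        _ ≤ 10 * |c| * √(α l) + c ^ 2 / 4 * (α l + β l) + 2 * K0 * τ l + |c| * w J := by
            gcongr
        _ = _ := by rw [hD]
    have hcf := hN0 N hNN0 (D + |c| * w J) (add_nonneg hD0 (mul_nonneg (abs_nonneg c) (hw0 J))) hδ
    have hEl : ‖((Real.exp (-(c ^ 2 * (varSum T f (2 ^ l) / 2 ^ l) / 2)) : ℝ) : ℂ) - E‖ ≤ ε / 4 := by
      rw [hE, ← Complex.ofReal_sub, Complex.norm_real]
      rw [Real.dist_eq] at hl2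
      exact hl2.le
    have hG : (1 + c ^ 2 * (varSum T f (2 ^ l) / 2 ^ l) / 2) ≤ Γ := by
      rw [hΓ]
      gcongr
    calc ‖φ N - E‖ = ‖(φ N - ((Real.exp (-(c ^ 2 * (varSum T f (2 ^ l) / 2 ^ l) / 2)) : ℝ) : ℂ))
          + (((Real.exp (-(c ^ 2 * (varSum T f (2 ^ l) / 2 ^ l) / 2)) : ℝ) : ℂ) - E)‖ := by
          congr 1; ring
      _ ≤ _ := norm_add_le _ _
      _ ≤ ((1 + c ^ 2 * (varSum T f (2 ^ l) / 2 ^ l) / 2) * (D + |c| * w J) + ε / 4) + ε / 4 :=
          add_le_add hcf hEl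
      _ ≤ (Γ * (D + |c| * w J) + ε / 4) + ε / 4 := by
          have : 0 ≤ D + |c| * w J := add_nonneg hD0 (mul_nonneg (abs_nonneg c) (hw0 J))
          gcongr
      _ = _ := by ring
  have hav := avg_big π (fun j => Mn T f (2 ^ j)) l R hR1 (τ l) (hτ0 l)
  have hsumw : ∑ J ∈ Finset.Ico R (2 * R), w J ≤ R * (10 * √(α l)) := by
    calc _ ≤ 10 * R / τ l * ∑ j ∈ Finset.Ico l (2 * R), ‖Mn T f (2 ^ j)‖ ^ 2 / 2 ^ j := hav
      _ ≤ 10 * R / τ l * α l := by
          have := (hτ0 l).le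
          gcongr
          exact hαs l (2 * R)
      _ = 10 * R * (α l / τ l) := by ring
      _ ≤ 10 * R * √(α l) := by
          gcongr
          rw [div_le_iff₀ (hτ0 l)]
          have h1 : √(α l) ≤ τ l := by
            simp only [hτ]
            have : (0 : ℝ) ≤ 1 / ((l : ℝ) + 1) := by positivity
            linarith
          calc α l = √(α l) * √(α l) := (Real.mul_self_sqrt (hα0 l)).symm
            _ ≤ √(α l) * τ l := by gcongr
      _ = _ := by ring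
  have hsum0 : 0 ≤ ∑ J ∈ Finset.Ico R (2 * R), e J := Finset.sum_nonneg fun J _ => he0 J
  rw [Real.dist_eq, sub_zero, abs_of_nonneg (by positivity), div_lt_iff₀ hR0]
  calc ∑ J ∈ Finset.Ico R (2 * R), e J
      ≤ ∑ J ∈ Finset.Ico R (2 * R), (Γ * D + Γ * |c| * w J + ε / 2) := Finset.sum_le_sum hkey
    _ = R * (Γ * D + ε / 2) + Γ * |c| * ∑ J ∈ Finset.Ico R (2 * R), w J := by
        have h1 : 2 * R - R = R := by omega
        rw [Finset.sum_add_distrib, Finset.sum_add_distrib, Finset.mul_sum, Finset.sum_const,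
          Finset.sum_const, Nat.card_Ico, nsmul_eq_mul, nsmul_eq_mul, h1]
        ring
    _ ≤ R * (Γ * D + ε / 2) + Γ * |c| * (R * (10 * √(α l))) := by
        gcongr
    _ = R * (Γ * (D + |c| * (10 * √(α l))) + ε / 2) := by ring
    _ < R * ε := by
        refine mul_lt_mul_of_pos_left ?_ hR0
        have : Γ * (D + |c| * (10 * √(α l))) < ε / 4 := hl1
        linarith
    _ = ε * R := mul_comm _ _

end pathB14

end TwoSidedCLT
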