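import Pool.Agent.H374e.Defs

open MeasureTheory ProbabilityTheory Filter Topology
open scoped ENNReal NNReal InnerProductSpace

set_option linter.unusedVariables false
set_option warn.classDefReducibility false

namespace TwoSidedCLT

theorem b15_cesaro (a : ℕ → ℝ) (h0 : ∀ J, 0 ≤ a J) (h1 : ∀ J, a J ≤ 1)
    (hav : Tendsto (fun R : ℕ => (∑ J ∈ Finset.Ico R (2 * R), a J) / R) atTop (𝓝 0))
    (ε : ℝ) (hε : 0 < ε) :
    ∀ᶠ n : ℕ in atTop, ∑ J ∈ Finset.range n, a J ≤ ε * n := by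
  have hε4 : 0 < ε / 4 := by positivity
  have h := hav.eventually (gt_mem_nhds hε4)
  obtain ⟨R0, hR0⟩ := eventually_atTop.1 (h.and (eventually_ge_atTop 1))
  have hR0' : ∀ R ≥ R0, ∑ J ∈ Finset.Ico R (2 * R), a J ≤ ε / 4 * R := by
    intro R hR
    obtain ⟨h1, h2⟩ := hR0 R hR
    have hRpos : (0 : ℝ) < R := by exact_mod_cast h2
    rw [div_lt_iff₀ hRpos] at h1
    exact h1.le
  have key : ∀ n : ℕ, ∑ J ∈ Finset.range n, a J ≤ (2 * R0 + 2 : ℝ) + 3 * (ε / 4) * n := by
    intro n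
    induction n using Nat.strong_induction_on with
    | _ n ih =>
      by_cases hn : n < 2 * R0 + 2
      · have h2 : ∑ J ∈ Finset.range n, a J ≤ n := by
          calc ∑ J ∈ Finset.range n, a J ≤ ∑ J ∈ Finset.range n, (1 : ℝ) :=
                Finset.sum_le_sum fun J _ => h1 J
            _ = n := by simp
        have h3 : (n : ℝ) < 2 * R0 + 2 := by exact_mod_cast hn
        have h4 : 0 ≤ 3 * (ε / 4) * (n : ℝ) := by positivity
        linarith
      · have hn' : 2 * R0 + 2 ≤ n := not_lt.1 hn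
        obtain ⟨R, hRdef⟩ : ∃ R, R = (n + 1) / 2 := ⟨_, rfl⟩
        have hR1 : n ≤ 2 * R := by omega
        have hR2 : R0 ≤ R := by omega
        have hR3 : R < n := by omega
        have hR4 : 2 * R ≤ n + 1 := by omega
        have h2 : ∑ J ∈ Finset.range n, a J ≤ ∑ J ∈ Finset.range (2 * R), a J :=
          Finset.sum_le_sum_of_subset_of_nonneg (Finset.range_mono hR1) fun J _ _ => h0 J
        have h3 : ∑ J ∈ Finset.range (2 * R), a J
            = ∑ J ∈ Finset.range R, a J + ∑ J ∈ Finset.Ico R (2 * R), a J :=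
          (Finset.sum_range_add_sum_Ico a (by omega)).symm
        have h4 := ih R hR3
        have h5 := hR0' R hR2
        have h6 : (2 * R : ℝ) ≤ n + 1 := by exact_mod_cast hR4
        have h7 : (2 : ℝ) ≤ n := by
          have : 2 ≤ n := by omega
          exact_mod_cast this
        nlinarith
  filter_upwards [(tendsto_natCast_atTop_atTop (R := ℝ)).eventually_ge_atTop
    ((2 * R0 + 2 : ℝ) / (ε / 4))] with n hn
  have h2 := key n
  rw [div_le_iff₀ hε4] at hn
  linarith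

theorem b15_ind (e : ℕ → ℕ → ℝ) (h0 : ∀ i J, 0 ≤ e i J)
    (hav : ∀ i, Tendsto (fun R : ℕ => (∑ J ∈ Finset.Ico R (2 * R), e i J) / R) atTop (𝓝 0))
    (k : ℕ) :
    Tendsto (fun R : ℕ => (∑ J ∈ Finset.Ico R (2 * R),
      Set.indicator {J | ∃ i ≤ k, 1 / ((k : ℝ) + 1) < e i J} (fun _ => (1 : ℝ)) J) / R)
      atTop (𝓝 0) := by
  have h1 : Tendsto (fun R : ℕ => ((k : ℝ) + 1) * ∑ i ∈ Finset.range (k + 1),
      ((∑ J ∈ Finset.Ico R (2 * R), e i J) / R)) atTop (𝓝 0) := by
    have h2 : Tendsto (fun R : ℕ => ∑ i ∈ Finset.range (k + 1),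
      ((∑ J ∈ Finset.Ico R (2 * R), e i J) / R)) atTop (𝓝 (∑ i ∈ Finset.range (k + 1), (0 : ℝ))) :=
      tendsto_finsetSum _ fun i _ => hav i
    have h3 := h2.const_mul ((k : ℝ) + 1)
    simpa using h3
  refine squeeze_zero (fun R => ?_) (fun R => ?_) h1
  · apply div_nonneg _ (Nat.cast_nonneg R)
    exact Finset.sum_nonneg fun J _ => Set.indicator_nonneg (fun _ _ => zero_le_one) J
  · rw [← Finset.sum_div, ← mul_div_assoc]
    apply div_le_div_of_nonneg_right _ (Nat.cast_nonneg R)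
    rw [Finset.sum_comm, Finset.mul_sum]
    apply Finset.sum_le_sum
    intro J _
    by_cases hJ : J ∈ {J | ∃ i ≤ k, 1 / ((k : ℝ) + 1) < e i J}
    · rw [Set.indicator_of_mem hJ]
      obtain ⟨i, hi, hlt⟩ := hJ
      have h4 : e i J ≤ ∑ i ∈ Finset.range (k + 1), e i J :=
        Finset.single_le_sum (f := fun i => e i J) (fun j _ => h0 j J)
          (Finset.mem_range.2 (by omega))
      have hk : (0 : ℝ) < (k : ℝ) + 1 := by positivity
      rw [div_lt_iff₀ hk] at hlt
      nlinarith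
    · rw [Set.indicator_of_notMem hJ]
      have hk : (0 : ℝ) < (k : ℝ) + 1 := by positivity
      exact mul_nonneg hk.le (Finset.sum_nonneg fun i _ => h0 i J)

/-- diagonal choice -/
theorem b15_diag (P : ℕ → ℕ → Prop) (hP : ∀ k, ∀ᶠ R in atTop, P k R) :
    ∃ κ : ℕ → ℕ, Monotone κ ∧ Tendsto κ atTop atTop ∧ ∀ᶠ R in atTop, P (κ R) R := by
  classical
  have hQ : ∀ k, ∀ᶠ R in atTop, ∀ j ≤ k, ∀ R' ≥ R, P j R' := by
    intro k
    have h1 : ∀ j ∈ Finset.range (k + 1), ∀ᶠ R in atTop, ∀ R' ≥ R, P j R' := by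
      intro j _
      obtain ⟨R0, h⟩ := eventually_atTop.1 (hP j)
      filter_upwards [eventually_ge_atTop R0] with R hR R' hR'
      exact h R' (le_trans hR hR')
    have h2 := (Filter.eventually_all_finset (Finset.range (k + 1))).2 h1
    filter_upwards [h2] with R hR j hj
    exact hR j (Finset.mem_range.2 (by omega))
  refine ⟨fun R => Nat.findGreatest (fun k => ∀ j ≤ k, ∀ R' ≥ R, P j R') R, ?_, ?_, ?_⟩
  · intro R R1 hR
    apply Nat.findGreatest_mono
    · intro k hk j hj R' hR'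
      exact hk j hj R' (le_trans hR hR')
    · exact hR
  · rw [tendsto_atTop]
    intro k
    filter_upwards [hQ k, eventually_ge_atTop k] with R hR hk
    exact Nat.le_findGreatest hk hR
  · filter_upwards [hQ 0] with R hR
    have h3 := Nat.findGreatest_spec (P := fun k => ∀ j ≤ k, ∀ R' ≥ R, P j R') (Nat.zero_le R) hR
    exact h3 _ le_rfl R le_rfl

/-- log-harmonic sums over a dyadic set of integers -/
theorem b15_dyadic_one (J : ℕ) :
    ∑ k ∈ Finset.Ico (2 ^ J : ℕ) (2 ^ (J + 1)), (1 : ℝ) / (k : ℝ) ≤ 1 := by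
  have h1 : ∑ k ∈ Finset.Ico (2 ^ J : ℕ) (2 ^ (J + 1)), (1 : ℝ) / (k : ℝ)
      ≤ ∑ k ∈ Finset.Ico (2 ^ J : ℕ) (2 ^ (J + 1)), (1 : ℝ) / 2 ^ J := by
    apply Finset.sum_le_sum
    intro k hk
    have h2 : 2 ^ J ≤ k := (Finset.mem_Ico.1 hk).1
    have h3 : (2 : ℝ) ^ J ≤ k := by exact_mod_cast h2
    exact one_div_le_one_div_of_le (by positivity) h3
  refine h1.trans ?_
  rw [Finset.sum_const, Nat.card_Ico, nsmul_eq_mul]
  have h2 : (2 : ℕ) ^ (J + 1) - 2 ^ J = 2 ^ J := by rw [pow_succ]; omega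
  rw [h2]
  push_cast
  have h3 : (0 : ℝ) < 2 ^ J := by positivity
  rw [mul_one_div, div_self h3.ne']

theorem b15_dyadic (E : Set ℕ) (L : ℕ) :
    ∑ k ∈ Finset.Ico 1 (2 ^ L), {k | Nat.log 2 k ∈ E}.indicator (fun k => (1 : ℝ) / k) k
      ≤ ∑ J ∈ Finset.range L, E.indicator (fun _ => (1 : ℝ)) J := by
  induction L with
  | zero => simp
  | succ L ih =>
    rw [Finset.sum_range_succ, ← Finset.sum_Ico_consecutive _ (Nat.one_le_two_pow (n := L))
      (Nat.pow_le_pow_right (by norm_num) (Nat.le_succ L))]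
    refine add_le_add ih ?_
    by_cases hL : L ∈ E
    · rw [Set.indicator_of_mem hL]
      refine le_trans (Finset.sum_le_sum fun k hk => ?_) (b15_dyadic_one L)
      exact Set.indicator_le_self' (fun _ _ => by positivity) k
    · rw [Set.indicator_of_notMem hL]
      apply le_of_eq
      apply Finset.sum_eq_zero
      intro k hk
      obtain ⟨h1, h2⟩ := Finset.mem_Ico.1 hk
      apply Set.indicator_of_notMem
      have h3 : Nat.log 2 k = L := (Nat.log_eq_iff (Or.inr ⟨by norm_num, by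
        have := Nat.one_le_two_pow (n := L); omega⟩)).2 ⟨h1, h2⟩
      show ¬ (Nat.log 2 k ∈ E)
      rw [h3]; exact hL

theorem b15_harm (n : ℕ) : ∑ k ∈ Finset.Icc 1 n, (1 : ℝ) / k = (harmonic n : ℝ) := by
  rw [harmonic_eq_sum_Icc]
  push_cast
  simp [one_div]

theorem b15_logdens (E : Set ℕ)
    (hE : ∀ ε : ℝ, 0 < ε → ∀ᶠ n : ℕ in atTop,
      ∑ J ∈ Finset.range n, E.indicator (fun _ => (1 : ℝ)) J ≤ ε * n) :
    LogDensityOne {n | Nat.log 2 n ∉ E} := by
  have hlog : Tendsto (fun n : ℕ => Real.log n) atTop atTop :=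
    Real.tendsto_log_atTop.comp tendsto_natCast_atTop_atTop
  -- harmonic / log → 1
  have hH : Tendsto (fun n : ℕ => (harmonic n : ℝ) / Real.log n) atTop (𝓝 1) := by
    have h1 : Tendsto (fun n : ℕ => 1 / Real.log n + 1) atTop (𝓝 1) := by
      have := (tendsto_const_nhds (x := (1 : ℝ))).div_atTop hlog
      simpa using this.add_const (1 : ℝ)
    refine tendsto_of_tendsto_of_tendsto_of_le_of_le' tendsto_const_nhds h1 ?_ ?_
    · filter_upwards [hlog.eventually_gt_atTop 0, eventually_ge_atTop 1] with n hn hn1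
      rw [le_div_iff₀ hn, one_mul]
      refine le_trans ?_ (log_add_one_le_harmonic n)
      apply Real.log_le_log
      · exact_mod_cast hn1
      · push_cast; linarith
    · filter_upwards [hlog.eventually_gt_atTop 0] with n hn
      rw [div_le_iff₀ hn, add_mul, one_mul, one_div, inv_mul_cancel₀ hn.ne']
      exact harmonic_le_one_add_log n
  -- exceptional part / log → 0
  have hB : Tendsto (fun n : ℕ => (∑ k ∈ Finset.Icc 1 n,
      {k | Nat.log 2 k ∈ E}.indicator (fun k => (1 : ℝ) / k) k) / Real.log n) atTop (𝓝 0) := by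
    rw [Metric.tendsto_atTop']
    intro ε hε
    have hε' : 0 < ε / 8 := by positivity
    obtain ⟨N0, hN0⟩ := eventually_atTop.1 (hE (ε / 8) hε')
    refine ⟨2 ^ (N0 + 2), fun n hn => ?_⟩
    have hnpos : 0 < n := lt_of_le_of_lt (Nat.zero_le _) hn
    set L := Nat.log 2 n with hL
    have hLge : N0 + 2 ≤ L := Nat.le_log_of_pow_le (by norm_num) hn.le
    have hLle : 2 ^ L ≤ n := Nat.pow_log_le_self 2 hnpos.ne'
    have hLlt : n < 2 ^ (L + 1) := Nat.lt_pow_succ_log_self (by norm_num) n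
    have h1 : ∑ k ∈ Finset.Icc 1 n, {k | Nat.log 2 k ∈ E}.indicator (fun k => (1 : ℝ) / k) k
        ≤ ∑ k ∈ Finset.Ico 1 (2 ^ (L + 1)),
          {k | Nat.log 2 k ∈ E}.indicator (fun k => (1 : ℝ) / k) k := by
      apply Finset.sum_le_sum_of_subset_of_nonneg
      · intro k hk
        rw [Finset.mem_Icc] at hk
        rw [Finset.mem_Ico]
        exact ⟨hk.1, lt_of_le_of_lt hk.2 hLlt⟩
      · intro k _ _
        exact Set.indicator_nonneg (fun _ _ => by positivity) k
    have h2 := b15_dyadic E (L + 1)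
    have h3 := hN0 (L + 1) (by omega)
    have h4 : (L : ℝ) * Real.log 2 ≤ Real.log n := by
      rw [← Real.log_pow]
      apply Real.log_le_log (by positivity)
      exact_mod_cast hLle
    have hl2 : (1 : ℝ) / 2 ≤ Real.log 2 := by
      have := Real.log_two_gt_d9; linarith
    have hLr : (2 : ℝ) ≤ L := by
      have : 2 ≤ L := by omega
      exact_mod_cast this
    have hlogpos : 0 < Real.log n := by nlinarith
    have h5 : 0 ≤ ∑ k ∈ Finset.Icc 1 n,
        {k | Nat.log 2 k ∈ E}.indicator (fun k => (1 : ℝ) / k) k :=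
      Finset.sum_nonneg fun k _ => Set.indicator_nonneg (fun _ _ => by positivity) k
    rw [Real.dist_eq, sub_zero, abs_of_nonneg (div_nonneg h5 hlogpos.le), div_lt_iff₀ hlogpos]
    push_cast at h3
    have h6 : (L : ℝ) / 2 ≤ Real.log n := by nlinarith
    have h7 : ε * ((L : ℝ) / 2) ≤ ε * Real.log n := mul_le_mul_of_nonneg_left h6 hε.le
    have h8 : ε * 2 ≤ ε * (L : ℝ) := mul_le_mul_of_nonneg_left hLr hε.le
    have h9 : 0 < ε * (L : ℝ) := by positivity
    calc _ ≤ ε / 8 * (L + 1) := h1.trans (h2.trans h3)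
      _ < ε * ((L : ℝ) / 2) := by nlinarith
      _ ≤ _ := h7
  have h3 := hH.sub hB
  rw [sub_zero] at h3
  refine h3.congr fun n => ?_
  rw [← sub_div, ← b15_harm, ← Finset.sum_sub_distrib]
  congr 1
  apply Finset.sum_congr rfl
  intro k _
  by_cases hk : Nat.log 2 k ∈ E
  · rw [Set.indicator_of_mem (show k ∈ {k | Nat.log 2 k ∈ E} from hk),
      Set.indicator_of_notMem (show k ∉ {n | Nat.log 2 n ∉ E} from fun h => h hk), sub_self]
  · rw [Set.indicator_of_notMem (show k ∉ {k | Nat.log 2 k ∈ E} from hk),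
      Set.indicator_of_mem (show k ∈ {n | Nat.log 2 n ∉ E} from hk), sub_zero]

theorem exists_density_set (e : ℕ → ℕ → ℝ) (h0 : ∀ i J, 0 ≤ e i J) (h2 : ∀ i J, e i J ≤ 2)
    (hav : ∀ i, Tendsto (fun R : ℕ => (∑ J ∈ Finset.Ico R (2 * R), e i J) / R) atTop (𝓝 0)) :
    ∃ D : Set ℕ, LogDensityOne D ∧
      ∀ i, Tendsto (fun n : ℕ => e i (Nat.log 2 n)) (atTop ⊓ 𝓟 D) (𝓝 0) := by
  obtain ⟨E, hEdef⟩ : ∃ E : ℕ → Set ℕ, ∀ k, E k = {J | ∃ i ≤ k, 1 / ((k : ℝ) + 1) < e i J} :=
    ⟨_, fun k => rfl⟩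
  have hEmono : ∀ k l, k ≤ l → E k ⊆ E l := by
    intro k l hkl J hJ
    rw [hEdef] at hJ ⊢
    obtain ⟨i, hi, hlt⟩ := hJ
    refine ⟨i, le_trans hi hkl, lt_of_le_of_lt ?_ hlt⟩
    apply one_div_le_one_div_of_le (by positivity)
    have : (k : ℝ) ≤ l := by exact_mod_cast hkl
    linarith
  have hP : ∀ k, ∀ᶠ R : ℕ in atTop,
      ∑ J ∈ Finset.range R, (E k).indicator (fun _ => (1 : ℝ)) J ≤ 1 / ((k : ℝ) + 1) * R := by
    intro k
    apply b15_cesaro
    · intro J; exact Set.indicator_nonneg (fun _ _ => zero_le_one) J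
    · intro J; exact Set.indicator_le' (fun _ _ => le_rfl) (fun _ _ => zero_le_one) J
    · rw [hEdef]; exact b15_ind e h0 hav k
    · positivity
  obtain ⟨κ, hκm, hκt, hκ⟩ := b15_diag _ hP
  refine ⟨{n | Nat.log 2 n ∉ {J | J ∈ E (κ J)}}, b15_logdens _ ?_, ?_⟩
  · intro ε hε
    obtain ⟨k0, hk0⟩ := exists_nat_one_div_lt hε
    filter_upwards [hκ, hκt.eventually_ge_atTop k0] with R hR hRk
    have h1 : ∑ J ∈ Finset.range R, {J | J ∈ E (κ J)}.indicator (fun _ => (1 : ℝ)) J
        ≤ ∑ J ∈ Finset.range R, (E (κ R)).indicator (fun _ => (1 : ℝ)) J := by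
      apply Finset.sum_le_sum
      intro J hJ
      have hJR : J ≤ R := (Finset.mem_range.1 hJ).le
      by_cases hm : J ∈ E (κ J)
      · rw [Set.indicator_of_mem (show J ∈ {J | J ∈ E (κ J)} from hm),
          Set.indicator_of_mem (hEmono _ _ (hκm hJR) hm)]
      · rw [Set.indicator_of_notMem (show J ∉ {J | J ∈ E (κ J)} from hm)]
        exact Set.indicator_nonneg (fun _ _ => zero_le_one) J
    refine h1.trans (hR.trans ?_)
    apply mul_le_mul_of_nonneg_right _ (Nat.cast_nonneg R)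
    refine le_trans ?_ hk0.le
    apply one_div_le_one_div_of_le (by positivity)
    have : (k0 : ℝ) ≤ κ R := by exact_mod_cast hRk
    linarith
  · intro i
    have hlt : Tendsto (fun n : ℕ => Nat.log 2 n) atTop atTop := by
      rw [tendsto_atTop]
      intro k
      filter_upwards [eventually_ge_atTop (2 ^ k)] with n hn
      exact Nat.le_log_of_pow_le (by norm_num) hn
    have hκl : Tendsto (fun n : ℕ => κ (Nat.log 2 n)) atTop atTop := hκt.comp hlt
    have hb : Tendsto (fun n : ℕ => 1 / ((κ (Nat.log 2 n) : ℝ) + 1)) atTop (𝓝 0) :=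
      tendsto_one_div_add_atTop_nhds_zero_nat.comp hκl
    refine squeeze_zero' (Eventually.of_forall fun n => h0 i _) ?_ (hb.mono_left inf_le_left)
    rw [eventually_inf_principal]
    filter_upwards [hκl.eventually_ge_atTop i] with n hn hD
    by_contra hcon
    apply hD
    show Nat.log 2 n ∈ E (κ (Nat.log 2 n))
    rw [hEdef]
    exact ⟨i, hn, not_le.1 hcon⟩

end TwoSidedCLT
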