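import Pool.Agent.H374e.Defs

open MeasureTheory ProbabilityTheory Filter Topology
open scoped ENNReal NNReal InnerProductSpace

set_option linter.unusedVariables false
set_option warn.classDefReducibility false

namespace TwoSidedCLT

section chainB16c

variable {Ω S : Type*} [mΩ : MeasurableSpace Ω] [mS : MeasurableSpace S]
  {P : Measure Ω} [IsProbabilityMeasure P] {π : Measure S} {ξ : ℤ → Ω → S}
  {Q : Kernel S S} [IsMarkovKernel Q] {T : Lp ℝ 2 π →L[ℝ] Lp ℝ 2 π}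

theorem b16c_prob (hc : IsStationaryMarkovChain P ξ Q π) : IsProbabilityMeasure π := by
  rw [← hc.law 0]
  exact Measure.isProbabilityMeasure_map (hc.meas 0).aemeasurable

theorem b16c_inv (hc : IsStationaryMarkovChain P ξ Q π) : Measure.bind π Q = π := by
  have := b16c_prob hc
  ext A hA
  rw [Measure.bind_apply hA Q.measurable.aemeasurable]
  have hm : (⨆ k : ℤ, ⨆ _ : k ≤ 0, MeasurableSpace.comap (ξ k) mS) ≤ mΩ :=
    iSup₂_le fun k _ => (hc.meas k).comap_le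
  have h1 : ∫ ω, (P[(ξ (0 + 1) ⁻¹' A).indicator (fun _ => (1 : ℝ)) |
      ⨆ k : ℤ, ⨆ _ : k ≤ 0, MeasurableSpace.comap (ξ k) mS]) ω ∂P
      = ∫ ω, (ξ (0 + 1) ⁻¹' A).indicator (fun _ => (1 : ℝ)) ω ∂P := integral_condExp hm
  rw [integral_congr_ae (hc.markov 0 A hA)] at h1
  have h2 : ∫ ω, (ξ (0 + 1) ⁻¹' A).indicator (fun _ => (1 : ℝ)) ω ∂P = (π A).toReal := by
    rw [integral_indicator_const (1 : ℝ) (hc.meas _ hA)]
    rw [← hc.law (0 + 1), Measure.map_apply (hc.meas _) hA]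
    simp [Measure.real]
  have hQm : Measurable fun x => Q x A := Q.measurable_coe hA
  have h3 : ∫ ω, (Q (ξ 0 ω) A).toReal ∂P = (∫⁻ x, Q x A ∂π).toReal := by
    rw [← integral_toReal hQm.aemeasurable (ae_of_all _ fun x => measure_lt_top _ _)]
    rw [← hc.law 0, integral_map (hc.meas 0).aemeasurable]
    exact hQm.ennreal_toReal.aestronglyMeasurable
  rw [h2, h3] at h1
  refine (ENNReal.toReal_eq_toReal_iff' ?_ (measure_ne_top _ _)).1 h1
  refine ne_top_of_le_ne_top (ENNReal.one_ne_top) ?_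
  calc ∫⁻ x, Q x A ∂π ≤ ∫⁻ _, 1 ∂π := lintegral_mono fun x => prob_le_one
    _ = 1 := by simp

theorem b16c_pt (h : Lp ℝ 2 π) (x : S) :
    ‖∫ y, h y ∂(Q x)‖ₑ ^ (2 : ℝ) ≤ ∫⁻ y, ‖h y‖ₑ ^ (2 : ℝ) ∂(Q x) := by
  have hs : StronglyMeasurable (h : S → ℝ) := Lp.stronglyMeasurable h
  have h1 : ‖∫ y, h y ∂(Q x)‖ₑ ≤ eLpNorm h 2 (Q x) := by
    calc ‖∫ y, h y ∂(Q x)‖ₑ ≤ ∫⁻ y, ‖h y‖ₑ ∂(Q x) := enorm_integral_le_lintegral_enorm _
      _ = eLpNorm h 1 (Q x) := by rw [eLpNorm_one_eq_lintegral_enorm]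
      _ ≤ eLpNorm h 2 (Q x) :=
        eLpNorm_le_eLpNorm_of_exponent_le (by norm_num) hs.aestronglyMeasurable
  calc ‖∫ y, h y ∂(Q x)‖ₑ ^ (2 : ℝ) ≤ (eLpNorm h 2 (Q x)) ^ (2 : ℝ) :=
        ENNReal.rpow_le_rpow h1 (by norm_num)
    _ = ∫⁻ y, ‖h y‖ₑ ^ (2 : ℝ) ∂(Q x) := by
        rw [eLpNorm_eq_lintegral_rpow_enorm_toReal (by norm_num) (by norm_num),
          ← ENNReal.rpow_mul]
        norm_num

theorem b16c_lint (hc : IsStationaryMarkovChain P ξ Q π) (h : Lp ℝ 2 π) :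
    ∫⁻ x, ∫⁻ y, ‖h y‖ₑ ^ (2 : ℝ) ∂(Q x) ∂π = ∫⁻ y, ‖h y‖ₑ ^ (2 : ℝ) ∂π := by
  have hs : StronglyMeasurable (h : S → ℝ) := Lp.stronglyMeasurable h
  have hme : Measurable fun y => ‖h y‖ₑ ^ (2 : ℝ) := hs.enorm.pow_const _
  have hb : ∀ g : S → ℝ≥0∞, Measurable g →
      ∫⁻ x, ∫⁻ y, g y ∂(Q x) ∂π = ∫⁻ y, g y ∂π := by
    intro g hg
    have e := Measure.lintegral_bind (m := π) (μ := Q) Q.measurable.aemeasurable hg.aemeasurable
    rw [← e, b16c_inv hc]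
  exact hb _ hme

theorem b16c_norm (hc : IsStationaryMarkovChain P ξ Q π) (h : Lp ℝ 2 π) :
    eLpNorm (fun x => ∫ y, h y ∂(Q x)) 2 π ≤ eLpNorm h 2 π := by
  rw [eLpNorm_eq_lintegral_rpow_enorm_toReal (by norm_num) (by norm_num),
    eLpNorm_eq_lintegral_rpow_enorm_toReal (by norm_num) (by norm_num)]
  refine ENNReal.rpow_le_rpow ?_ (by norm_num)
  have e2 : (2 : ℝ≥0∞).toReal = (2 : ℝ) := by norm_num
  rw [e2, ← b16c_lint hc h]
  exact lintegral_mono fun x => b16c_pt h x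

theorem b16c_memLp (hc : IsStationaryMarkovChain P ξ Q π) (h : Lp ℝ 2 π) :
    MemLp (fun x => ∫ y, h y ∂(Q x)) 2 π :=
  ⟨((Lp.stronglyMeasurable h).integral_kernel).aestronglyMeasurable,
    (b16c_norm hc h).trans_lt (Lp.memLp h).2⟩

theorem b16c_int (hc : IsStationaryMarkovChain P ξ Q π) (h : Lp ℝ 2 π) :
    ∀ᵐ x ∂π, Integrable (h : S → ℝ) (Q x) := by
  have hs : StronglyMeasurable (h : S → ℝ) := Lp.stronglyMeasurable h
  have hme : Measurable fun y => ‖h y‖ₑ ^ (2 : ℝ) := hs.enorm.pow_const _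
  have hfin : ∫⁻ x, ∫⁻ y, ‖h y‖ₑ ^ (2 : ℝ) ∂(Q x) ∂π ≠ ∞ := by
    rw [b16c_lint hc h]
    have := (lintegral_rpow_enorm_lt_top_of_eLpNorm_lt_top (by norm_num) (by norm_num)
      (Lp.memLp h).2)
    have e2 : (2 : ℝ≥0∞).toReal = (2 : ℝ) := by norm_num
    rw [e2] at this
    exact this.ne
  have hm2 : Measurable fun x => ∫⁻ y, ‖h y‖ₑ ^ (2 : ℝ) ∂(Q x) := hme.lintegral_kernel
  filter_upwards [ae_lt_top hm2 hfin] with x hx
  have hM : MemLp (h : S → ℝ) 2 (Q x) := by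
    refine ⟨hs.aestronglyMeasurable, ?_⟩
    rw [eLpNorm_eq_lintegral_rpow_enorm_toReal (by norm_num) (by norm_num)]
    have e2 : (2 : ℝ≥0∞).toReal = (2 : ℝ) := by norm_num
    rw [e2]
    exact ENNReal.rpow_lt_top_of_nonneg (by norm_num) hx.ne
  exact hM.integrable (by norm_num)

theorem b16c_ae (hc : IsStationaryMarkovChain P ξ Q π) {p : S → Prop} (hp : ∀ᵐ y ∂π, p y) :
    ∀ᵐ x ∂π, ∀ᵐ y ∂(Q x), p y := by
  have h' : ∀ᵐ y ∂(Measure.bind π Q), p y := by rw [b16c_inv hc]; exact hp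
  exact Measure.ae_ae_of_ae_bind Q.measurable.aemeasurable h'

/-- the Markov operator exists -/
theorem exists_markovOperator (hc : IsStationaryMarkovChain P ξ Q π) :
    ∃ T : Lp ℝ 2 π →L[ℝ] Lp ℝ 2 π, IsMarkovOperator Q π T := by
  let T0 : Lp ℝ 2 π →ₗ[ℝ] Lp ℝ 2 π :=
    { toFun := fun h => (b16c_memLp hc h).toLp _
      map_add' := by
        intro h₁ h₂
        apply Lp.ext
        refine (MemLp.coeFn_toLp _).trans ?_
        refine EventuallyEq.trans ?_ (Lp.coeFn_add _ _).symm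
        filter_upwards [MemLp.coeFn_toLp (b16c_memLp hc h₁), MemLp.coeFn_toLp (b16c_memLp hc h₂),
          b16c_int hc h₁, b16c_int hc h₂, b16c_ae hc (Lp.coeFn_add h₁ h₂)] with x e1 e2 i1 i2 ha
        simp only [Pi.add_apply]
        rw [e1, e2, integral_congr_ae ha]
        exact integral_add i1 i2
      map_smul' := by
        intro c h
        apply Lp.ext
        refine (MemLp.coeFn_toLp _).trans ?_
        refine EventuallyEq.trans ?_ (Lp.coeFn_smul _ _).symm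
        filter_upwards [MemLp.coeFn_toLp (b16c_memLp hc h), b16c_ae hc (Lp.coeFn_smul c h)]
          with x e1 ha
        simp only [Pi.smul_apply, RingHom.id_apply]
        rw [e1, integral_congr_ae ha]
        simp only [Pi.smul_apply]
        exact integral_smul c _ }
  refine ⟨T0.mkContinuous 1 ?_, ?_⟩
  · intro h
    rw [one_mul]
    change ‖(b16c_memLp hc h).toLp _‖ ≤ ‖h‖
    rw [Lp.norm_toLp, Lp.norm_def]
    exact ENNReal.toReal_mono (Lp.memLp h).2.ne (b16c_norm hc h)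
  · intro h
    exact MemLp.coeFn_toLp (b16c_memLp hc h)

end chainB16c

end TwoSidedCLT
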