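import Pool.Agent.H374e.Defs
import Pool.Agent.H374e.CB14
import Pool.Agent.H374e.CB15
import Pool.Agent.H374e.CB16a
import Pool.Agent.H374e.CB5b
import Pool.Agent.H374e.CB6a
import Pool.Agent.H374e.CB7c

open MeasureTheory ProbabilityTheory Filter Topology
open scoped ENNReal NNReal InnerProductSpace

set_option linter.unusedVariables false
set_option warn.classDefReducibility false

namespace TwoSidedCLT

theorem b17_exp_lip (a b : ℝ) : ‖Complex.exp ((a : ℂ) * Complex.I) - Complex.exp ((b : ℂ) * Complex.I)‖ ≤ |a - b| := by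
  have h1 : Complex.exp ((a : ℂ) * Complex.I) - Complex.exp ((b : ℂ) * Complex.I) =
      Complex.exp (Complex.I * ((b : ℝ) : ℂ)) * (Complex.exp (Complex.I * ((a - b : ℝ) : ℂ)) - 1) := by
    rw [mul_sub, ← Complex.exp_add, mul_one]
    congr 2 <;> push_cast <;> ring
  rw [h1, norm_mul, Complex.norm_exp_I_mul_ofReal, one_mul]
  have := Real.norm_exp_I_mul_ofReal_sub_one_le (x := a - b)
  simpa using this

theorem b17_abs_le {Ω' : Type*} [MeasurableSpace Ω'] {P : Measure Ω'} [IsProbabilityMeasure P]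
    (X : Ω' → ℝ) (hXm : MemLp X 2 P) (K : ℝ) (hK : 0 < K) (hv : ∫ ω, (X ω) ^ 2 ∂P ≤ K ^ 2) :
    ∫ ω, |X ω| ∂P ≤ K := by
  have hi : Integrable (fun ω => (X ω) ^ 2) P := hXm.integrable_sq
  have hi1 : Integrable X P := hXm.integrable (by norm_num)
  have h1 : ∫ ω, |X ω| ∂P ≤ ∫ ω, ((X ω) ^ 2 / (2 * K) + K / 2) ∂P := by
    refine integral_mono hi1.abs ((hi.div_const _).add (integrable_const _)) fun ω => ?_
    have h2 : 0 ≤ (|X ω| - K) ^ 2 := sq_nonneg _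
    have h3 : |X ω| ^ 2 = (X ω) ^ 2 := sq_abs _
    simp only
    rw [← h3]
    have h4 : |X ω| ^ 2 / (2 * K) + K / 2 - |X ω| = (|X ω| - K) ^ 2 / (2 * K) := by
      field_simp; ring
    have h5 : 0 ≤ (|X ω| - K) ^ 2 / (2 * K) := by positivity
    linarith
  refine h1.trans ?_
  rw [integral_add (hi.div_const _) (integrable_const _), integral_div, integral_const]
  simp only [smul_eq_mul, probReal_univ, one_mul]
  have h6 : (∫ ω, (X ω) ^ 2 ∂P) / (2 * K) ≤ K ^ 2 / (2 * K) :=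
    div_le_div_of_nonneg_right hv (by positivity)
  have h7 : K ^ 2 / (2 * K) = K / 2 := by field_simp
  linarith

theorem b17_real {Ω' : Type*} [MeasurableSpace Ω'] {P : Measure Ω'} [IsProbabilityMeasure P]
    (X : ℕ → Ω' → ℝ) (C : ℝ) (hC : 0 < C)
    (hXm : ∀ n, MemLp (X n) 2 P) (hvar : ∀ n, ∫ ω, (X n ω) ^ 2 ∂P ≤ C ^ 2 * n)
    (s : ℝ) (F : Filter ℕ)
    (hcf : ∀ c : ℚ, Tendsto (fun n : ℕ => ∫ ω, Complex.exp ((((c : ℝ) / √(n : ℝ) * X n ω : ℝ) : ℂ) * Complex.I) ∂P)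
      F (𝓝 ((Real.exp (-((c : ℝ) ^ 2 * s / 2)) : ℝ) : ℂ))) (c : ℝ) :
    Tendsto (fun n : ℕ => ∫ ω, Complex.exp (((c / √(n : ℝ) * X n ω : ℝ) : ℂ) * Complex.I) ∂P)
      F (𝓝 ((Real.exp (-(c ^ 2 * s / 2)) : ℝ) : ℂ)) := by
  rw [Metric.tendsto_nhds]
  intro ε hε
  have hcont : Continuous (fun x : ℝ => ((Real.exp (-(x ^ 2 * s / 2)) : ℝ) : ℂ)) := by fun_prop
  have h1 := Metric.continuousAt_iff.1 (hcont.continuousAt (x := c)) (ε / 3) (by positivity)
  obtain ⟨δ, hδ, hδ'⟩ := h1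
  have hm : 0 < min δ (ε / (3 * (C + 1))) := lt_min hδ (by positivity)
  obtain ⟨q, hq1, hq2⟩ := exists_rat_btwn (show c < c + min δ (ε / (3 * (C + 1))) by linarith)
  have hq3 : |(q : ℝ) - c| < min δ (ε / (3 * (C + 1))) := by
    rw [abs_of_pos (by linarith)]
    linarith
  have hq4 : |(q : ℝ) - c| < δ := lt_of_lt_of_le hq3 (min_le_left _ _)
  have hq5 : |(q : ℝ) - c| < ε / (3 * (C + 1)) := lt_of_lt_of_le hq3 (min_le_right _ _)
  have h2 := hδ' (by rwa [Real.dist_eq])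
  have h3 := (Metric.tendsto_nhds.1 (hcf q)) (ε / 3) (by positivity)
  filter_upwards [h3] with n hn
  have h4 : dist (∫ ω, Complex.exp (((c / √(n : ℝ) * X n ω : ℝ) : ℂ) * Complex.I) ∂P)
      (∫ ω, Complex.exp ((((q : ℝ) / √(n : ℝ) * X n ω : ℝ) : ℂ) * Complex.I) ∂P) < ε / 3 := by
    have hi : ∀ d : ℝ, Integrable (fun ω => Complex.exp (((d / √(n : ℝ) * X n ω : ℝ) : ℂ) * Complex.I)) P := by
      intro d
      refine Integrable.of_bound (C := 1) ?_ (Eventually.of_forall fun ω => ?_)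
      · have hXa : AEStronglyMeasurable (fun ω => (((d / √(n : ℝ) * X n ω : ℝ) : ℂ) * Complex.I)) P :=
          ((Complex.continuous_ofReal.comp_aestronglyMeasurable
            ((hXm n).1.const_mul (d / √(n : ℝ))))).mul_const _
        exact Complex.continuous_exp.comp_aestronglyMeasurable hXa
      · rw [Complex.norm_exp_ofReal_mul_I]
    rw [dist_eq_norm, ← integral_sub (hi c) (hi q)]
    rcases Nat.eq_zero_or_pos n with hn0 | hn0
    · subst hn0
      simp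
      positivity
    have hn1 : (0 : ℝ) < √(n : ℝ) := Real.sqrt_pos.2 (by exact_mod_cast hn0)
    have hE : ∫ ω, |X n ω| ∂P ≤ C * √(n : ℝ) := by
      refine b17_abs_le (X n) (hXm n) _ (by positivity) ?_
      rw [mul_pow, Real.sq_sqrt (Nat.cast_nonneg n)]
      exact hvar n
    refine lt_of_le_of_lt (norm_integral_le_integral_norm _) ?_
    have h5 : ∫ ω, ‖Complex.exp (((c / √(n : ℝ) * X n ω : ℝ) : ℂ) * Complex.I) -
        Complex.exp ((((q : ℝ) / √(n : ℝ) * X n ω : ℝ) : ℂ) * Complex.I)‖ ∂P ≤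
        ∫ ω, (|(q : ℝ) - c| / √(n : ℝ)) * |X n ω| ∂P := by
      refine integral_mono ((hi c).sub (hi q)).norm
        (((hXm n).integrable (by norm_num)).abs.const_mul _) fun ω => ?_
      refine (b17_exp_lip _ _).trans (le_of_eq ?_)
      rw [← sub_mul, ← sub_div, abs_mul, abs_div, abs_of_pos hn1, abs_sub_comm]
    refine lt_of_le_of_lt h5 ?_
    rw [integral_const_mul]
    have h6 : (|(q : ℝ) - c| / √(n : ℝ)) * ∫ ω, |X n ω| ∂P ≤
        (|(q : ℝ) - c| / √(n : ℝ)) * (C * √(n : ℝ)) :=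
      mul_le_mul_of_nonneg_left hE (by positivity)
    have h7 : (|(q : ℝ) - c| / √(n : ℝ)) * (C * √(n : ℝ)) = |(q : ℝ) - c| * C := by
      field_simp
    have h8 : |(q : ℝ) - c| * C ≤ |(q : ℝ) - c| * (C + 1) :=
      mul_le_mul_of_nonneg_left (by linarith) (abs_nonneg _)
    have h9 : |(q : ℝ) - c| * (C + 1) < ε / (3 * (C + 1)) * (C + 1) :=
      mul_lt_mul_of_pos_right hq5 (by linarith)
    have h10 : ε / (3 * (C + 1)) * (C + 1) = ε / 3 := by field_simp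
    linarith
  calc dist (∫ ω, Complex.exp (((c / √(n : ℝ) * X n ω : ℝ) : ℂ) * Complex.I) ∂P)
        ((Real.exp (-(c ^ 2 * s / 2)) : ℝ) : ℂ)
      ≤ dist (∫ ω, Complex.exp (((c / √(n : ℝ) * X n ω : ℝ) : ℂ) * Complex.I) ∂P)
          (∫ ω, Complex.exp ((((q : ℝ) / √(n : ℝ) * X n ω : ℝ) : ℂ) * Complex.I) ∂P) +
        dist (∫ ω, Complex.exp ((((q : ℝ) / √(n : ℝ) * X n ω : ℝ) : ℂ) * Complex.I) ∂P)
          ((Real.exp (-((q : ℝ) ^ 2 * s / 2)) : ℝ) : ℂ) +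
        dist ((Real.exp (-((q : ℝ) ^ 2 * s / 2)) : ℝ) : ℂ) ((Real.exp (-(c ^ 2 * s / 2)) : ℝ) : ℂ) :=
        dist_triangle4 _ _ _ _
    _ < ε := by linarith

theorem b17_levy {Ω' : Type*} [MeasurableSpace Ω'] {P : Measure Ω'} [IsProbabilityMeasure P]
    (X : ℕ → Ω' → ℝ) (hX : ∀ n, Measurable (X n))
    (σ2 : ℝ≥0) (F : Filter ℕ) [F.IsCountablyGenerated]
    (hcf : ∀ c : ℝ, Tendsto (fun n : ℕ => ∫ ω, Complex.exp (((c / √(n : ℝ) * X n ω : ℝ) : ℂ) * Complex.I) ∂P)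
      F (𝓝 ((Real.exp (-(c ^ 2 * σ2 / 2)) : ℝ) : ℂ)))
    (φ : BoundedContinuousFunction ℝ ℝ) :
    Tendsto (fun n : ℕ => ∫ ω, φ (X n ω / √(n : ℝ)) ∂P) F (𝓝 (∫ x, φ x ∂(gaussianReal 0 σ2))) := by
  have hY : ∀ n, Measurable (fun ω => X n ω / √(n : ℝ)) := fun n => (hX n).div_const _
  let μ : ℕ → ProbabilityMeasure ℝ := fun n =>
    ⟨P.map (fun ω => X n ω / √(n : ℝ)), Measure.isProbabilityMeasure_map (hY n).aemeasurable⟩
  let ν : ProbabilityMeasure ℝ := ⟨gaussianReal 0 σ2, inferInstance⟩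
  have hint : ∀ n, ∫ ω, φ (X n ω / √(n : ℝ)) ∂P = ∫ x, φ x ∂(μ n : Measure ℝ) := by
    intro n
    exact (integral_map (hY n).aemeasurable φ.continuous.aestronglyMeasurable).symm
  have hchar : ∀ n (t : ℝ), charFun (μ n : Measure ℝ) t =
      ∫ ω, Complex.exp (((t / √(n : ℝ) * X n ω : ℝ) : ℂ) * Complex.I) ∂P := by
    intro n t
    rw [charFun_apply_real]
    have h1 : ∫ x, Complex.exp ((t : ℂ) * x * Complex.I) ∂(μ n : Measure ℝ) =
        ∫ ω, Complex.exp ((t : ℂ) * ((X n ω / √(n : ℝ) : ℝ) : ℂ) * Complex.I) ∂P := by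
      refine integral_map (hY n).aemeasurable ?_
      apply Continuous.aestronglyMeasurable
      fun_prop
    rw [h1]
    congr 1
    ext ω
    congr 2
    push_cast
    ring
  have hg : ∀ t : ℝ, charFun (ν : Measure ℝ) t = ((Real.exp (-(t ^ 2 * σ2 / 2)) : ℝ) : ℂ) := by
    intro t
    have : (ν : Measure ℝ) = gaussianReal 0 σ2 := rfl
    rw [this, charFun_gaussianReal]
    push_cast
    congr 1
    ring
  have hL : Tendsto μ F (𝓝 ν) := by
    refine tendsto_of_seq_tendsto fun u hu => ?_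
    rw [ProbabilityMeasure.tendsto_iff_tendsto_charFun]
    intro t
    have h1 := (hcf t).comp hu
    rw [hg t]
    refine h1.congr fun n => ?_
    simp only [Function.comp]
    rw [hchar]
  have h2 := ProbabilityMeasure.tendsto_iff_forall_integral_tendsto.1 hL φ
  simp only [hint]
  exact h2

section chainB17

variable {Ω S : Type*} [mΩ : MeasurableSpace Ω] [mS : MeasurableSpace S]
  {P : Measure Ω} [IsProbabilityMeasure P] {π : Measure S} {ξ : ℤ → Ω → S}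
  {Q : Kernel S S} [IsMarkovKernel Q] {T : Lp ℝ 2 π →L[ℝ] Lp ℝ 2 π}

theorem result_logdensity (hc : IsStationaryMarkovChain P ξ Q π) (hT : IsMarkovOperator Q π T)
    (herg : ∀ u : Lp ℝ 2 π, T u = u → ∃ a : ℝ, u =ᵐ[π] fun _ => a)
    (f g g' : Lp ℝ 2 π) (hg : f = sqrtOp T g)
    (hg' : f = sqrtOp (ContinuousLinearMap.adjoint T) g') :
    ∃ σ2 : ℝ≥0,
      Tendsto (fun n : ℕ => (∫ ω, (∑ i ∈ Finset.Icc 1 n, f (ξ (i : ℕ) ω)) ^ 2 ∂P) / n) atTop
        (𝓝 (σ2 : ℝ)) ∧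
      ∃ D : Set ℕ, LogDensityOne D ∧ ∀ φ : BoundedContinuousFunction ℝ ℝ,
        Tendsto (fun n : ℕ => ∫ ω, φ ((∑ i ∈ Finset.Icc 1 n, f (ξ (i : ℕ) ω)) / √(n : ℝ)) ∂P)
          (atTop ⊓ 𝓟 D) (𝓝 (∫ x, φ x ∂(gaussianReal 0 σ2))) := by
  set ζ : ℕ → Ω → S := fun n => ξ (n : ℤ) with hζ
  have h : Setup P π ζ T := setup_of_chain hc hT
  have hTn : ‖T‖ ≤ 1 := h.norm_le
  obtain ⟨s, hs⟩ := var_lim T hTn f g g' hg hg'
  obtain ⟨C, hC0, hC⟩ := var_bound T hTn f g g' hg hg'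
  have hnn : ∀ n, 0 ≤ varSum T f n := fun n => by
    rw [← Sb_sq h f 0 n]
    exact integral_nonneg fun ω => sq_nonneg _
  have hs0 : 0 ≤ s := ge_of_tendsto' hs fun n => div_nonneg (hnn n) (Nat.cast_nonneg n)
  have hsum : ∀ n ω, ∑ i ∈ Finset.Icc 1 n, f (ξ (i : ℕ) ω) = Sb f ζ 1 n ω := by
    intro n ω
    unfold Sb
    have e := Finset.sum_Ico_add' (fun k => (f : S → ℝ) (ζ k ω)) 0 n 1
    have e2 : ∑ k ∈ Finset.range n, (f : S → ℝ) (ζ (1 + k) ω) =
        ∑ k ∈ Finset.Ico 0 n, (f : S → ℝ) (ζ (k + 1) ω) := by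
      rw [Finset.range_eq_Ico]
      exact Finset.sum_congr rfl fun k _ => by rw [add_comm]
    have e3 : Finset.Icc 1 n = Finset.Ico (0 + 1) (n + 1) := by
      ext k
      simp only [Finset.mem_Icc, Finset.mem_Ico]
      omega
    rw [e2, e, e3]
  refine ⟨⟨s, hs0⟩, ?_, ?_⟩
  · simp only [hsum, Sb_sq h f 1]
    exact hs
  choose e he0 he2 he3 he4 using fun c : ℝ => cf_avg h herg f g g' hg hg' s hs c
  let en : ℕ ≃ ℚ := (Denumerable.eqv ℚ).symm
  obtain ⟨D, hD, hD2⟩ := exists_density_set (fun i J => e (en i : ℚ) J) (fun i J => he0 _ J)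
    (fun i J => he2 _ J) (fun i => he4 _)
  refine ⟨D, hD, fun φ => ?_⟩
  simp only [hsum]
  have hfm : Measurable (f : S → ℝ) := (Lp.stronglyMeasurable f).measurable
  have hXmeas : ∀ n, Measurable (Sb f ζ 1 n) := by
    intro n
    unfold Sb
    exact Finset.measurable_sum _ fun k _ => hfm.comp (h.meas _)
  have hXmeas0 : ∀ n, Measurable (Sb f ζ 0 n) := by
    intro n
    unfold Sb
    exact Finset.measurable_sum _ fun k _ => hfm.comp (h.meas _)
  have hlaw : ∀ (c : ℝ) (n : ℕ), ∫ ω, Complex.exp (((c / √(n : ℝ) * Sb f ζ 1 n ω : ℝ) : ℂ) * Complex.I) ∂P =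
      ∫ ω, eb f ζ (c / √(n : ℝ)) 0 n ω ∂P := by
    intro c n
    have hcont : Continuous (fun x : ℝ => Complex.exp (((c / √(n : ℝ) * x : ℝ) : ℂ) * Complex.I)) := by fun_prop
    have e1 := integral_map (μ := P) (hXmeas n).aemeasurable
      (hcont.aestronglyMeasurable (μ := P.map (Sb f ζ 1 n)))
    have e2 := integral_map (μ := P) (hXmeas0 n).aemeasurable
      (hcont.aestronglyMeasurable (μ := P.map (Sb f ζ 0 n)))
    rw [← e1, Sb_law h f 1 n, e2]
    rfl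
  refine b17_levy (Sb f ζ 1) hXmeas ⟨s, hs0⟩ (atTop ⊓ 𝓟 D) ?_ φ
  refine b17_real (Sb f ζ 1) (C + 1) (by linarith) (fun n => Sb_memLp h f 1 n) ?_ s _ ?_
  · intro n
    rw [Sb_sq h f 1 n]
    refine (hC n).trans (mul_le_mul_of_nonneg_right ?_ (Nat.cast_nonneg n))
    exact pow_le_pow_left₀ hC0 (by linarith) 2
  · intro c
    have h1 := hD2 (en.symm c)
    simp only [Equiv.apply_symm_apply] at h1
    rw [tendsto_iff_dist_tendsto_zero]
    refine squeeze_zero' (Eventually.of_forall fun _ => dist_nonneg) ?_ h1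
    have h2 : ∀ᶠ n : ℕ in atTop ⊓ 𝓟 D, 1 ≤ n := (eventually_ge_atTop 1).filter_mono inf_le_left
    filter_upwards [h2] with n hn
    rw [hlaw, dist_eq_norm]
    exact he3 c (Nat.log 2 n) n (Nat.pow_log_le_self 2 (by omega)) (Nat.lt_pow_succ_log_self (by norm_num) n)

end chainB17

end TwoSidedCLT
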