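import Mathlib

open MeasureTheory ProbabilityTheory Filter Topology
open scoped ENNReal NNReal InnerProductSpace

set_option linter.unusedVariables false
set_option warn.classDefReducibility false

namespace TwoSidedCLT


/-- Taylor coefficients of the square root: `√(1 - x) = 1 - ∑_{n ≥ 1} sqrtCoeff n * x ^ n`
(note `sqrtCoeff 0 = -1`). -/
noncomputable def sqrtCoeff (n : ℕ) : ℝ := (Nat.centralBinom n : ℝ) / ((2 * (n : ℝ) - 1) * 4 ^ n)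

/-- Taylor coefficients of `1 / √(1 - x)`. -/
noncomputable def dco (n : ℕ) : ℝ := (Nat.centralBinom n : ℝ) / 4 ^ n

/-- coefficients of `(1 - x ^ n) / √(1 - x)`. -/
noncomputable def cker (n k : ℕ) : ℝ := dco k - if n ≤ k then dco (k - n) else 0

/-- `√(I - T) = I - ∑_{n ≥ 1} δ_n T^n`. -/
noncomputable def sqrtOp {H : Type*} [NormedAddCommGroup H] [InnerProductSpace ℝ H]
    (T : H →L[ℝ] H) : H →L[ℝ] H :=
  1 - ∑' n : ℕ, sqrtCoeff (n + 1) • T ^ (n + 1)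

/-- `∑_{i,j<n} ⟨f, T^{|i-j|} f⟩`, the variance of the partial sum. -/
noncomputable def varSum {H : Type*} [NormedAddCommGroup H] [InnerProductSpace ℝ H]
    (T : H →L[ℝ] H) (f : H) (n : ℕ) : ℝ :=
  ∑ i ∈ Finset.range n, ∑ j ∈ Finset.range n, ⟪f, (T ^ ((i - j) + (j - i))) f⟫_ℝ

/-- `M_n = ∑_{k<n} T^k f` -/
noncomputable def Mn {H : Type*} [NormedAddCommGroup H] [InnerProductSpace ℝ H]
    (T : H →L[ℝ] H) (f : H) (n : ℕ) : H := ∑ k ∈ Finset.range n, (T ^ k) f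

/-- `∑_k c_{n,k} T^k g` (equals `M_n` of `√(I-T) g`) -/
noncomputable def Mg {H : Type*} [NormedAddCommGroup H] [InnerProductSpace ℝ H]
    (T : H →L[ℝ] H) (g : H) (n : ℕ) : H := ∑' k : ℕ, cker n k • (T ^ k) g

/-- `N_n = ∑_{k=1}^{n} (T†)^k f` -/
noncomputable def Nn {H : Type*} [NormedAddCommGroup H] [InnerProductSpace ℝ H] [CompleteSpace H]
    (T : H →L[ℝ] H) (f : H) (n : ℕ) : H :=
  ∑ k ∈ Finset.range n, ((ContinuousLinearMap.adjoint T) ^ (k + 1)) f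

section pathdefs

variable {Ω S : Type*} [mΩ : MeasurableSpace Ω] [mS : MeasurableSpace S]

/-- present: `σ(ξ_s)` -/
def pres (ξ : ℕ → Ω → S) (s : ℕ) : MeasurableSpace Ω := MeasurableSpace.comap (ξ s) mS
/-- past and present: `σ(ξ_k, k ≤ s)` -/
def past (ξ : ℕ → Ω → S) (s : ℕ) : MeasurableSpace Ω :=
  ⨆ k : ℕ, ⨆ _ : k ≤ s, MeasurableSpace.comap (ξ k) mS
/-- present and future: `σ(ξ_k, k ≥ s)` -/
def fut (ξ : ℕ → Ω → S) (s : ℕ) : MeasurableSpace Ω :=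
  ⨆ k : ℕ, ⨆ _ : s ≤ k, MeasurableSpace.comap (ξ k) mS

/-- A one-sided piece of a stationary Markov chain with Markov operator `T` on `L²(π)`. -/
structure Setup (P : Measure Ω) (π : Measure S) (ξ : ℕ → Ω → S)
    (T : Lp ℝ 2 π →L[ℝ] Lp ℝ 2 π) : Prop where
  meas : ∀ n, Measurable (ξ n)
  stat : ∀ k : ℕ, P.map (fun ω n => ξ (n + k) ω) = P.map (fun ω n => ξ n ω)
  law : ∀ n, P.map (ξ n) = π
  markov : ∀ (s : ℕ) (Φ : Ω → ℂ), StronglyMeasurable[fut ξ s] Φ → Integrable Φ P →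
    P[Φ | past ξ s] =ᵐ[P] P[Φ | pres ξ s]
  op : ∀ (s : ℕ) (h : Lp ℝ 2 π),
    P[fun ω => h (ξ (s + 1) ω) | pres ξ s] =ᵐ[P] fun ω => T h (ξ s ω)

/-- block sums `∑_{k<n} f(ξ_{a+k})` -/
noncomputable def Sb (f : S → ℝ) (ξ : ℕ → Ω → S) (a n : ℕ) (ω : Ω) : ℝ :=
  ∑ k ∈ Finset.range n, f (ξ (a + k) ω)

/-- `e^{iλS_b}` -/
noncomputable def eb (f : S → ℝ) (ξ : ℕ → Ω → S) (lam : ℝ) (a n : ℕ) (ω : Ω) : ℂ :=
  Complex.exp (((lam * Sb f ξ a n ω : ℝ) : ℂ) * Complex.I)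

/-- `Y_s = E(e^{iλS_s} | ξ_s)` -/
noncomputable def Ye (P : Measure Ω) (f : S → ℝ) (ξ : ℕ → Ω → S) (lam : ℝ) (s : ℕ) : Ω → ℂ :=
  P[eb f ξ lam 0 s | pres ξ s]

/-- the first order functional -/
noncomputable def Ff {π : Measure S} (P : Measure Ω) (T : Lp ℝ 2 π →L[ℝ] Lp ℝ 2 π) (f : Lp ℝ 2 π)
    (ξ : ℕ → Ω → S) (lam : ℝ) (t n : ℕ) : ℂ :=
  (∑ s ∈ Finset.range t, ∫ ω, Ye P f ξ lam s ω * ((Mn T f n) (ξ s ω) : ℂ) ∂P) / n

/-- the difference functional -/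
noncomputable def Dd {π : Measure S} (P : Measure Ω) (f u : Lp ℝ 2 π)
    (ξ : ℕ → Ω → S) (lam : ℝ) (t n : ℕ) : ℂ :=
  ∑ s ∈ Finset.range t, ∫ ω, Ye P f ξ lam s ω * (eb f ξ lam s n ω - 1) * (u (ξ (s + n) ω) : ℂ) ∂P

/-- A two-sided stationary Markov chain with transition kernel `Q` and invariant law `π`. -/
structure IsStationaryMarkovChain (P : Measure Ω) (ξ : ℤ → Ω → S) (Q : Kernel S S)
    (π : Measure S) : Prop where
  meas : ∀ n, Measurable (ξ n)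
  law : ∀ n, P.map (ξ n) = π
  stat : ∀ k : ℤ, P.map (fun ω (n : ℤ) => ξ (n + k) ω) = P.map (fun ω (n : ℤ) => ξ n ω)
  markov : ∀ (n : ℤ) (A : Set S), MeasurableSet A →
    P[(ξ (n + 1) ⁻¹' A).indicator (fun _ => (1 : ℝ)) |
      ⨆ k : ℤ, ⨆ _ : k ≤ n, MeasurableSpace.comap (ξ k) mS]
      =ᵐ[P] fun ω => (Q (ξ n ω) A).toReal

/-- `T` is the Markov operator of the kernel `Q` on `L²(π)`. -/
def IsMarkovOperator (Q : Kernel S S) (π : Measure S) (T : Lp ℝ 2 π →L[ℝ] Lp ℝ 2 π) : Prop :=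
  ∀ h : Lp ℝ 2 π, T h =ᵐ[π] fun x => ∫ y, h y ∂(Q x)

end pathdefs

/-- `D` has logarithmic density one -/
def LogDensityOne (D : Set ℕ) : Prop :=
  Tendsto (fun n : ℕ => (∑ k ∈ Finset.Icc 1 n, D.indicator (fun k => (1 : ℝ) / k) k) / Real.log n)
    atTop (𝓝 1)

end TwoSidedCLT
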